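import Pool.Agent.Lib.MP_632999_pr.K.Defs

/-! Beta-Gamma algebra in log variables. The map is a composition of two shears of the plane
(`MeasurePreserving.skew_product` or Fubini + translation invariance), so it preserves Lebesgue
measure; with `(a, b) = (c - sp u, c - sp u + u)` one has `exp a + exp b = exp c` and
`th a - exp a + th b - exp b = (th u - 2 th sp u) + (2 th c - exp c)`; the normalising constants
agree because the total masses agree. -/

namespace Pool.Agent.K6329

open MeasureTheory ProbabilityTheory Filter Topology Set Function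
open scoped NNReal ENNReal

theorem bg_tilted_prod {f g : ℝ → ℝ} (hf : Measurable f) (hg : Measurable g) :
    (volume.tilted f).prod (volume.tilted g) =
      ((volume : Measure ℝ).prod (volume : Measure ℝ)).tilted fun z => f z.1 + g z.2 := by
  unfold Measure.tilted
  rw [prod_withDensity (by fun_prop) (by fun_prop)]
  have e : ∫ z : ℝ × ℝ, Real.exp (f z.1 + g z.2) ∂(volume : Measure ℝ).prod volume =
      (∫ x, Real.exp (f x)) * ∫ y, Real.exp (g y) := by
    simp only [Real.exp_add]
    exact integral_prod_mul (fun x => Real.exp (f x)) fun y => Real.exp (g y)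
  have h0 : 0 ≤ ∫ x, Real.exp (f x) := integral_nonneg fun x => (Real.exp_pos _).le
  refine congrArg _ (funext fun z => ?_)
  rw [e, ← ENNReal.ofReal_mul (div_nonneg (Real.exp_pos _).le h0), Real.exp_add, div_mul_div_comm]

theorem bg_tilted_map {μ ν : Measure (ℝ × ℝ)} {φ : ℝ × ℝ → ℝ × ℝ} (h : MeasurePreserving φ μ ν)
    {F : ℝ × ℝ → ℝ} (hF : Measurable F) :
    MeasurePreserving φ (μ.tilted fun z => F (φ z)) (ν.tilted F) := by
  refine ⟨h.measurable, ?_⟩
  have e : ∫ z, Real.exp (F (φ z)) ∂μ = ∫ z, Real.exp (F z) ∂ν := by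
    rw [← h.map_eq, integral_map h.measurable.aemeasurable
      (Measurable.aestronglyMeasurable (by fun_prop))]
  ext s hs
  rw [Measure.map_apply h.measurable hs, tilted_apply' _ _ (h.measurable hs), tilted_apply' _ _ hs,
    e]
  exact h.setLIntegral_comp_preimage hs
    (f := fun z => ENNReal.ofReal (Real.exp (F z) / ∫ z, Real.exp (F z) ∂ν)) (by fun_prop)

theorem bg_vol : MeasurePreserving (fun p : ℝ × ℝ => (p.2 - sp p.1, p.2 - sp p.1 + p.1))
    ((volume : Measure ℝ).prod (volume : Measure ℝ))
    ((volume : Measure ℝ).prod (volume : Measure ℝ)) := by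
  have hm := measurable_sp
  have h1 : MeasurePreserving (fun p : ℝ × ℝ => (id p.1, p.2 - sp p.1))
      ((volume : Measure ℝ).prod (volume : Measure ℝ))
      ((volume : Measure ℝ).prod (volume : Measure ℝ)) :=
    (MeasurePreserving.id volume).skew_product (g := fun u c => c - sp u)
      (by unfold uncurry; fun_prop)
      (Eventually.of_forall fun u => map_sub_right_eq_self volume (sp u))
  have h2 : MeasurePreserving (fun p : ℝ × ℝ => (id p.1, p.1 + p.2))
      ((volume : Measure ℝ).prod (volume : Measure ℝ))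
      ((volume : Measure ℝ).prod (volume : Measure ℝ)) :=
    (MeasurePreserving.id volume).skew_product (g := fun a u => a + u)
      (by unfold uncurry; fun_prop)
      (Eventually.of_forall fun a => map_add_left_eq_self volume a)
  exact h2.comp ((Measure.measurePreserving_swap).comp h1)

theorem bg_exp_sp (u : ℝ) : Real.exp (sp u) = 1 + Real.exp u := by
  rw [sp, Real.exp_log (by positivity)]

theorem bg_sum (u c : ℝ) : Real.exp (c - sp u) + Real.exp (c - sp u + u) = Real.exp c := by
  have h : (0 : ℝ) < 1 + Real.exp u := by positivity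
  rw [Real.exp_add, Real.exp_sub, bg_exp_sp]
  field_simp

theorem bg_fwd (M : ℕ) :
    MeasurePreserving (fun p : ℝ × ℝ => (p.2 - sp p.1, p.2 - sp p.1 + p.1))
      ((mu M).prod (gC M)) ((gA M).prod (gA M)) := by
  have hm := measurable_sp
  unfold mu gC gA lgt gam
  rw [bg_tilted_prod (by fun_prop) (by fun_prop), bg_tilted_prod (by fun_prop) (by fun_prop)]
  have h := bg_tilted_map bg_vol (F := fun z : ℝ × ℝ =>
    (((M : ℝ) + 1) * z.1 - Real.exp z.1) + (((M : ℝ) + 1) * z.2 - Real.exp z.2)) (by fun_prop)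
  have e : (fun z : ℝ × ℝ => (((M : ℝ) + 1) * z.1 - 2 * ((M : ℝ) + 1) * sp z.1) +
      (2 * ((M : ℝ) + 1) * z.2 - Real.exp z.2)) = fun z : ℝ × ℝ =>
      (((M : ℝ) + 1) * (z.2 - sp z.1) - Real.exp (z.2 - sp z.1)) +
        (((M : ℝ) + 1) * (z.2 - sp z.1 + z.1) - Real.exp (z.2 - sp z.1 + z.1)) := by
    funext z
    have := bg_sum z.1 z.2
    linarith
  rw [e]
  exact h

theorem bg_bwd (M : ℕ) :
    MeasurePreserving (fun p : ℝ × ℝ => (p.2 - p.1, lse p.1 p.2))
      ((gA M).prod (gA M)) ((mu M).prod (gC M)) := by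
  have hm : Measurable fun p : ℝ × ℝ => (p.2 - p.1, lse p.1 p.2) := by unfold lse; fun_prop
  refine ⟨hm, ?_⟩
  rw [← (bg_fwd M).map_eq, Measure.map_map hm (bg_fwd M).measurable]
  have e : ((fun p : ℝ × ℝ => (p.2 - p.1, lse p.1 p.2)) ∘
      fun p : ℝ × ℝ => (p.2 - sp p.1, p.2 - sp p.1 + p.1)) = id := by
    funext p
    simp only [comp_apply, id, lse, bg_sum, Real.log_exp]
    ext <;> simp
  rw [e, Measure.map_id]

end Pool.Agent.K6329
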