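import Pool.Agent.Lib.MP_632999_pr.K.Defs

/-! Convex order from the potentials. With `mu` the Stieltjes measure of the right derivative `D` of `phi`:
`phi y = phi 0 + D 0 * y + int_{(0,oo)} (y-u)^+ dmu(u) + int_{(-oo,0]} (u-y)^+ dmu(u)`, Tonelli, and
`(y-u)^+ = (|u-y| + y - u)/2`. Or approximate `phi` from below by maxima of finitely many supporting
lines. Any route is fine. -/

namespace Pool.Agent.K6329

open MeasureTheory ProbabilityTheory Filter Topology Set Function
open scoped NNReal ENNReal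

theorem ccx_sub {φ : ℝ → ℝ} (hφ : ConvexOn ℝ univ φ) (u : ℝ) :
    ∃ d, ∀ y, φ u + d * (y - u) ≤ φ y := by
  have key : ∀ y z, y < u → u < z → (φ u - φ y) / (u - y) ≤ (φ z - φ u) / (z - u) :=
    fun y z hy hz => hφ.slope_mono_adjacent (mem_univ _) (mem_univ _) hy hz
  let S : Set ℝ := {s | ∃ y, y < u ∧ s = (φ u - φ y) / (u - y)}
  have hne : S.Nonempty := ⟨_, u - 1, by linarith, rfl⟩
  have hb : BddAbove S := ⟨_, fun s ⟨y, hy, hs⟩ => hs ▸ key y (u + 1) hy (by linarith)⟩
  refine ⟨sSup S, fun y => ?_⟩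
  rcases lt_trichotomy y u with hy | hy | hy
  · have h1 := le_csSup hb ⟨y, hy, rfl⟩
    rw [div_le_iff₀ (by linarith)] at h1
    nlinarith
  · simp [hy]
  · have h1 : sSup S ≤ (φ y - φ u) / (y - u) :=
      csSup_le hne fun s ⟨z, hz, hs⟩ => hs ▸ key z y hz hy
    rw [le_div_iff₀ (by linarith)] at h1
    linarith

/-- test functions for which the comparison holds -/
structure CGood {α β : Type} [MeasurableSpace α] [MeasurableSpace β] (A : Measure α)
    (B : Measure β) (X : α → ℝ) (Y : β → ℝ) (g : ℝ → ℝ) : Prop where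
  m : Measurable g
  iA : Integrable (fun a => g (X a)) A
  iB : Integrable (fun b => g (Y b)) B
  le : ∫ a, g (X a) ∂A ≤ ∫ b, g (Y b) ∂B

section good

variable {α β : Type} [MeasurableSpace α] [MeasurableSpace β] {A : Measure α} {B : Measure β}
  {X : α → ℝ} {Y : β → ℝ}

theorem CGood.add {f g : ℝ → ℝ} (hf : CGood A B X Y f) (hg : CGood A B X Y g) :
    CGood A B X Y fun y => f y + g y :=
  ⟨hf.m.add hg.m, hf.iA.add hg.iA, hf.iB.add hg.iB, by
    rw [integral_add hf.iA hg.iA, integral_add hf.iB hg.iB]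
    exact add_le_add hf.le hg.le⟩

theorem CGood.smul {f : ℝ → ℝ} (hf : CGood A B X Y f) {w : ℝ} (hw : 0 ≤ w) :
    CGood A B X Y fun y => w * f y :=
  ⟨hf.m.const_mul w, hf.iA.const_mul w, hf.iB.const_mul w, by
    rw [integral_const_mul, integral_const_mul]
    exact mul_le_mul_of_nonneg_left hf.le hw⟩

theorem CGood.congr {f g : ℝ → ℝ} (hf : CGood A B X Y f) (h : ∀ y, f y = g y) :
    CGood A B X Y g := by
  have : f = g := funext h
  exact this ▸ hf

variable [IsProbabilityMeasure A] [IsProbabilityMeasure B]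

theorem cgood_aff (iX : Integrable X A) (iY : Integrable Y B)
    (hm : ∫ a, X a ∂A = ∫ b, Y b ∂B) (c a : ℝ) : CGood A B X Y fun y => c + a * y :=
  ⟨by fun_prop, (integrable_const c).add (iX.const_mul a),
    (integrable_const c).add (iY.const_mul a), by
    rw [integral_add (integrable_const c) (iX.const_mul a),
      integral_add (integrable_const c) (iY.const_mul a), integral_const_mul, integral_const_mul,
      hm]
    simp⟩

theorem cgood_abs (iX : Integrable X A) (iY : Integrable Y B)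
    (h : ∀ x, ∫ a, |x - X a| ∂A ≤ ∫ b, |x - Y b| ∂B) (x : ℝ) :
    CGood A B X Y fun y => |x - y| :=
  ⟨by fun_prop, ((integrable_const x).sub iX).abs, ((integrable_const x).sub iY).abs, h x⟩

theorem cgood_pos (iX : Integrable X A) (iY : Integrable Y B)
    (hm : ∫ a, X a ∂A = ∫ b, Y b ∂B) (h : ∀ x, ∫ a, |x - X a| ∂A ≤ ∫ b, |x - Y b| ∂B)
    (c a : ℝ) : CGood A B X Y fun y => max (c + a * y) 0 := by
  by_cases ha : a = 0
  · exact (cgood_aff iX iY hm (max c 0) 0).congr fun y => by simp [ha]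
  · refine (((cgood_abs iX iY h (-c / a)).smul (w := |a| / 2) (by positivity)).add
      (cgood_aff iX iY hm (c / 2) (a / 2))).congr fun y => ?_
    have e : |a| * |-c / a - y| = |c + a * y| := by
      rw [← abs_mul, ← abs_neg]
      congr 1
      field_simp
      ring
    have e2 : |a| / 2 * |-c / a - y| = |c + a * y| / 2 := by rw [← e]; ring
    rw [e2]
    rcases le_total 0 (c + a * y) with h0 | h0
    · rw [abs_of_nonneg h0, max_eq_left h0]; ring
    · rw [abs_of_nonpos h0, max_eq_right h0]; ring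

end good

/-- the supporting line at `u` -/
def cLine (φ D : ℝ → ℝ) (u y : ℝ) : ℝ := φ u + D u * (y - u)

/-- the maximum of the supporting lines at `u 0, ..., u k` -/
def cMax (φ D : ℝ → ℝ) (u : ℕ → ℝ) : ℕ → ℝ → ℝ
  | 0 => cLine φ D (u 0)
  | k + 1 => fun y => cMax φ D u k y + max (cLine φ D (u (k + 1)) y - cLine φ D (u k) y) 0

theorem cD_mono {φ D : ℝ → ℝ} (hD : ∀ u y, φ u + D u * (y - u) ≤ φ y) : Monotone D := by
  intro u v huv
  rcases huv.eq_or_lt with h | h
  · rw [h]
  · have h1 := hD u v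
    have h2 := hD v u
    by_contra hc
    have hc' : D v < D u := not_le.1 hc
    nlinarith [mul_pos (sub_pos.2 hc') (sub_pos.2 h)]

theorem cMax_ge (φ D : ℝ → ℝ) (u : ℕ → ℝ) (y : ℝ) :
    ∀ k j, j ≤ k → cLine φ D (u j) y ≤ cMax φ D u k y := by
  intro k
  induction k with
  | zero => intro j hj; rw [Nat.le_zero.1 hj]; exact le_rfl
  | succ k ih =>
    intro j hj
    rcases hj.eq_or_lt with h | h
    · have h1 := ih k le_rfl
      have h2 := le_max_left (cLine φ D (u (k + 1)) y - cLine φ D (u k) y) 0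
      rw [h]
      simp only [cMax]
      linarith
    · have h1 := ih j (Nat.lt_succ_iff.1 h)
      have h2 := le_max_right (cLine φ D (u (k + 1)) y - cLine φ D (u k) y) 0
      simp only [cMax]
      linarith

theorem cMax_le {φ D : ℝ → ℝ} (hD : ∀ u y, φ u + D u * (y - u) ≤ φ y) {u : ℕ → ℝ}
    (hu : Monotone u) (y : ℝ) :
    ∀ k, cMax φ D u k y ≤ φ y ∧ (u k ≤ y → cMax φ D u k y = cLine φ D (u k) y) := by
  intro k
  induction k with
  | zero => exact ⟨hD _ _, fun _ => rfl⟩
  | succ k ih =>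
    have hk : u k ≤ u (k + 1) := hu (Nat.le_succ k)
    have hs : D (u k) ≤ D (u (k + 1)) := cD_mono hD hk
    have h1 := hD (u k) (u (k + 1))
    have h2 := hD (u (k + 1)) (u k)
    have h3 := hD (u k) y
    have h4 := hD (u (k + 1)) y
    simp only [cMax]
    constructor
    · rcases le_total y (u k) with hy | hy
      · have h5 : cLine φ D (u (k + 1)) y - cLine φ D (u k) y ≤ 0 := by
          unfold cLine
          nlinarith [mul_nonneg (sub_nonneg.2 hs) (sub_nonneg.2 hy)]
        rw [max_eq_right h5]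
        linarith [ih.1]
      · rw [ih.2 hy]
        rcases le_total (cLine φ D (u (k + 1)) y - cLine φ D (u k) y) 0 with h5 | h5
        · rw [max_eq_right h5]; unfold cLine; linarith
        · rw [max_eq_left h5]; unfold cLine; linarith
    · intro hy
      have h5 : 0 ≤ cLine φ D (u (k + 1)) y - cLine φ D (u k) y := by
        unfold cLine
        nlinarith [mul_nonneg (sub_nonneg.2 hs) (sub_nonneg.2 hy)]
      rw [ih.2 (hk.trans hy), max_eq_left h5]
      ring

theorem cMax_good {α β : Type} [MeasurableSpace α] [MeasurableSpace β] {A : Measure α}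
    {B : Measure β} [IsProbabilityMeasure A] [IsProbabilityMeasure B] {X : α → ℝ} {Y : β → ℝ}
    (iX : Integrable X A) (iY : Integrable Y B)
    (hm : ∫ a, X a ∂A = ∫ b, Y b ∂B) (h : ∀ x, ∫ a, |x - X a| ∂A ≤ ∫ b, |x - Y b| ∂B)
    (φ D : ℝ → ℝ) (u : ℕ → ℝ) : ∀ k, CGood A B X Y (cMax φ D u k) := by
  intro k
  induction k with
  | zero =>
    exact (cgood_aff iX iY hm (φ (u 0) - D (u 0) * u 0) (D (u 0))).congr fun y => by
      simp only [cMax, cLine]; ring
  | succ k ih =>
    refine (ih.add (cgood_pos iX iY hm h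
      (φ (u (k + 1)) - D (u (k + 1)) * u (k + 1) - (φ (u k) - D (u k) * u k))
      (D (u (k + 1)) - D (u k)))).congr fun y => ?_
    simp only [cMax, cLine]
    congr 2
    ring

/-- the grid of mesh `1 / (n + 1)` that starts at `-(n + 1)` -/
noncomputable def cGrid (n i : ℕ) : ℝ := (i : ℝ) / ((n : ℝ) + 1) - ((n : ℝ) + 1)

theorem cGrid_mono (n : ℕ) : Monotone (cGrid n) := by
  intro i j hij
  have : (i : ℝ) ≤ j := Nat.cast_le.2 hij
  unfold cGrid
  gcongr

theorem cGrid_zero (n : ℕ) : cGrid n ((n + 1) ^ 2) = 0 := by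
  unfold cGrid
  push_cast
  field_simp
  ring

theorem cMax_tendsto {φ D : ℝ → ℝ} (hD : ∀ u y, φ u + D u * (y - u) ≤ φ y) (y : ℝ) :
    Tendsto (fun n => cMax φ D (cGrid n) (2 * (n + 1) ^ 2) y) atTop (𝓝 (φ y)) := by
  have hlim : Tendsto (fun n : ℕ => φ y - (D y - D (y - 1)) * (1 / ((n : ℝ) + 1))) atTop
      (𝓝 (φ y)) := by
    have := (tendsto_one_div_add_atTop_nhds_zero_nat (𝕜 := ℝ)).const_mul (D y - D (y - 1))
    simpa using this.const_sub (φ y)
  refine tendsto_of_tendsto_of_tendsto_of_le_of_le' hlim tendsto_const_nhds ?_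
    (Eventually.of_forall fun n => (cMax_le hD (cGrid_mono n) y _).1)
  filter_upwards [eventually_ge_atTop ⌈|y|⌉₊] with n hn
  have hn1 : |y| ≤ n := (Nat.le_ceil _).trans (Nat.cast_le.2 hn)
  have hy1 := (abs_le.1 hn1).1
  have hy2 := (abs_le.1 hn1).2
  have hN : (0 : ℝ) < (n : ℝ) + 1 := by positivity
  have h0 : 0 ≤ (y + (n + 1)) * ((n : ℝ) + 1) := mul_nonneg (by linarith) hN.le
  obtain ⟨j, hj⟩ : ∃ j, j = ⌊(y + (n + 1)) * ((n : ℝ) + 1)⌋₊ := ⟨_, rfl⟩
  have j1 : (j : ℝ) ≤ (y + (n + 1)) * ((n : ℝ) + 1) := hj ▸ Nat.floor_le h0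
  have j2 : (y + (n + 1)) * ((n : ℝ) + 1) < j + 1 := hj ▸ Nat.lt_floor_add_one _
  have j3 : j ≤ 2 * (n + 1) ^ 2 := by
    have : (j : ℝ) ≤ 2 * ((n : ℝ) + 1) ^ 2 := by nlinarith
    exact_mod_cast this
  have g1 : cGrid n j ≤ y := by
    unfold cGrid
    rw [sub_le_iff_le_add, div_le_iff₀ hN]
    exact j1
  have g2 : y - cGrid n j ≤ 1 / ((n : ℝ) + 1) := by
    unfold cGrid
    have : y + (n + 1) ≤ ((j : ℝ) + 1) / ((n : ℝ) + 1) := by
      rw [le_div_iff₀ hN]; exact j2.le
    rw [add_div] at this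
    linarith
  have g3 : 1 / ((n : ℝ) + 1) ≤ 1 := by
    rw [div_le_one hN]
    have : (0 : ℝ) ≤ n := Nat.cast_nonneg n
    linarith
  have d1 : D (y - 1) ≤ D (cGrid n j) := cD_mono hD (by linarith)
  have d2 : D (cGrid n j) ≤ D y := cD_mono hD g1
  have h1 := cMax_ge φ D (cGrid n) y _ j j3
  have h2 := hD y (cGrid n j)
  have h3 : (D y - D (cGrid n j)) * (y - cGrid n j) ≤ (D y - D (y - 1)) * (1 / ((n : ℝ) + 1)) :=
    mul_le_mul (by linarith) g2 (by linarith) (by linarith)
  unfold cLine at h1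
  nlinarith

theorem cx_of_abs {α β : Type} [MeasurableSpace α] [MeasurableSpace β] {A : Measure α}
    {B : Measure β} [IsProbabilityMeasure A] [IsProbabilityMeasure B] {X : α → ℝ} {Y : β → ℝ}
    (mX : Measurable X) (mY : Measurable Y) (iX : Integrable X A) (iY : Integrable Y B)
    (hm : ∫ a, X a ∂A = ∫ b, Y b ∂B) (h : ∀ x, ∫ a, |x - X a| ∂A ≤ ∫ b, |x - Y b| ∂B)
    {φ : ℝ → ℝ} (hφ : ConvexOn ℝ univ φ) (iB : Integrable (fun b => φ (Y b)) B) :
    Integrable (fun a => φ (X a)) A ∧ ∫ a, φ (X a) ∂A ≤ ∫ b, φ (Y b) ∂B := by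
  have _ := mY
  choose D hD using ccx_sub hφ
  have mφ : Measurable φ := by
    have := hφ.continuousOn isOpen_univ
    exact (continuousOn_univ.1 this).measurable
  have gl := cgood_aff iX iY hm (-φ 0) (-D 0)
  let f : ℕ → ℝ → ℝ := fun n y => cMax φ D (cGrid n) (2 * (n + 1) ^ 2) y + (-φ 0 + -D 0 * y)
  let g : ℝ → ℝ := fun y => φ y + (-φ 0 + -D 0 * y)
  have gf : ∀ n, CGood A B X Y (f n) := fun n => (cMax_good iX iY hm h φ D _ _).add gl
  have f0 : ∀ n y, 0 ≤ f n y := fun n y => by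
    have h1 := cMax_ge φ D (cGrid n) y (2 * (n + 1) ^ 2) ((n + 1) ^ 2) (by omega)
    rw [cGrid_zero] at h1
    unfold cLine at h1
    simp only [f]
    linarith
  have fg : ∀ n y, f n y ≤ g y := fun n y => by
    have h1 := (cMax_le hD (cGrid_mono n) y (2 * (n + 1) ^ 2)).1
    simp only [f, g]
    linarith
  have g0 : ∀ y, 0 ≤ g y := fun y => (f0 0 y).trans (fg 0 y)
  have ft : ∀ y, Tendsto (fun n => f n y) atTop (𝓝 (g y)) := fun y =>
    (cMax_tendsto hD y).add_const _
  have mg : Measurable g := mφ.add gl.m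
  have igB : Integrable (fun b => g (Y b)) B := iB.add gl.iB
  have key : ∫⁻ a, ENNReal.ofReal (g (X a)) ∂A ≤ ENNReal.ofReal (∫ b, g (Y b) ∂B) := by
    have e : ∀ a, ENNReal.ofReal (g (X a)) =
        liminf (fun n => ENNReal.ofReal (f n (X a))) atTop := fun a =>
      (ENNReal.tendsto_ofReal (ft (X a))).liminf_eq.symm
    simp_rw [e]
    refine (lintegral_liminf_le fun n => ((gf n).m.comp mX).ennreal_ofReal).trans ?_
    refine liminf_le_of_frequently_le' (Frequently.of_forall fun n => ?_)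
    simp only [Function.comp_apply]
    rw [← ofReal_integral_eq_lintegral_ofReal (gf n).iA (Eventually.of_forall fun a => f0 n _)]
    exact ENNReal.ofReal_le_ofReal ((gf n).le.trans
      (integral_mono (gf n).iB igB fun b => fg n _))
  have igA : Integrable (fun a => g (X a)) A := by
    refine ⟨(mg.comp mX).aestronglyMeasurable, ?_⟩
    rw [hasFiniteIntegral_iff_ofReal (Eventually.of_forall fun a => g0 _)]
    exact key.trans_lt ENNReal.ofReal_lt_top
  have hle : ∫ a, g (X a) ∂A ≤ ∫ b, g (Y b) ∂B := by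
    rw [← ofReal_integral_eq_lintegral_ofReal igA (Eventually.of_forall fun a => g0 _)] at key
    exact (ENNReal.ofReal_le_ofReal_iff (integral_nonneg fun b => g0 _)).1 key
  have iA : Integrable (fun a => φ (X a)) A := by
    refine (igA.sub gl.iA).congr (Eventually.of_forall fun a => ?_)
    simp only [g, Pi.sub_apply]
    ring
  refine ⟨iA, ?_⟩
  have gl' := (cgood_aff iX iY hm (φ 0) (D 0)).le
  simp only [g] at hle
  rw [integral_add iA gl.iA, integral_add iB gl.iB] at hle
  have eA : ∫ a, (-φ 0 + -D 0 * X a) ∂A = -∫ a, (φ 0 + D 0 * X a) ∂A := by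
    rw [← integral_neg]; congr 1; funext a; ring
  have eB : ∫ b, (-φ 0 + -D 0 * Y b) ∂B = -∫ b, (φ 0 + D 0 * Y b) ∂B := by
    rw [← integral_neg]; congr 1; funext a; ring
  have gl2 := gl.le
  rw [eA, eB] at hle gl2
  linarith

end Pool.Agent.K6329
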