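import Pool.Agent.Lib.MP_632999_pr.K.Defs

/-! Stage 2 (convex order of the two-point function): definitions. -/

namespace Pool.Agent.K6329

open MeasureTheory ProbabilityTheory Filter Topology Set Function
open scoped NNReal ENNReal

noncomputable section

def vd (M n : ℕ) (k : ℤ) : ℝ := Var[Hd n k; Pd M]
def cd (M n : ℕ) (k j : ℤ) : ℝ := cov[Hd n k, fun ω => ω.1 j; Pd M]
def wv (M : ℕ) : ℝ := Var[fun u : ℝ => u; mu M]
def kap (M : ℕ) : ℝ := 2 * rhoP (mu M) / rhoM (mu M) ^ 2
/-- `V x` is the limit of the discrete variances along every lattice sequence to `(t, x)` -/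
def IsLim (t : ℝ) (V : ℝ → ℝ) : Prop :=
  ∀ x n k, Lat t x n k → Tendsto (fun M => vd M (n M) (k M)) atTop (𝓝 (V x))

end

end Pool.Agent.K6329
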