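import Pool.Agent.Lib.MP_632999_pr.K.Defs

/-! Covariance on product spaces and limits of covariances. -/

namespace Pool.Agent.K6329

open MeasureTheory ProbabilityTheory Filter Topology Set Function
open scoped NNReal ENNReal

theorem cov_centre {β : Type} [MeasurableSpace β] {ν : Measure β} [IsProbabilityMeasure ν]
    {X G : β → ℝ} (hG : Integrable G ν) (h : Integrable (fun b => X b * (G b - ∫ c, G c ∂ν)) ν) :
    cov[X, G; ν] = ∫ b, X b * (G b - ∫ c, G c ∂ν) ∂ν := by
  have h0 : Integrable (fun b => G b - ∫ c, G c ∂ν) ν := hG.sub (integrable_const _)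
  have h1 : ∫ b, (G b - ∫ c, G c ∂ν) ∂ν = 0 := by
    rw [integral_sub hG (integrable_const _)]; simp
  have h2 : ∀ b, (X b - ∫ c, X c ∂ν) * (G b - ∫ c, G c ∂ν) =
      X b * (G b - ∫ c, G c ∂ν) - (∫ c, X c ∂ν) * (G b - ∫ c, G c ∂ν) := fun b => by ring
  unfold covariance
  simp_rw [h2]
  rw [integral_sub h (h0.const_mul _), integral_const_mul, h1, mul_zero, sub_zero]

theorem cov_fubini {α β : Type} [MeasurableSpace α] [MeasurableSpace β] {μ : Measure α}
    {ν : Measure β} [IsProbabilityMeasure μ] [IsProbabilityMeasure ν] {F : α × β → ℝ} {G : β → ℝ}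
    (hF : MemLp F 2 (μ.prod ν)) (hG : MemLp G 2 ν) :
    Integrable (fun a => cov[fun b => F (a, b), G; ν]) μ ∧
      cov[F, fun p => G p.2; μ.prod ν] = ∫ a, cov[fun b => F (a, b), G; ν] ∂μ := by
  have hG1 : Integrable G ν := hG.integrable one_le_two
  have hG2 : MemLp (fun p : α × β => G p.2) 2 (μ.prod ν) := hG.comp_snd μ
  have hm : ∫ p : α × β, G p.2 ∂μ.prod ν = ∫ c, G c ∂ν := by
    rw [integral_fun_snd]; simp
  have hH : Integrable (fun p : α × β => F p * (G p.2 - ∫ c, G c ∂ν)) (μ.prod ν) :=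
    hF.integrable_mul (hG2.sub (memLp_const _))
  have hae : (fun a => cov[fun b => F (a, b), G; ν]) =ᵐ[μ]
      fun a => ∫ b, F (a, b) * (G b - ∫ c, G c ∂ν) ∂ν := by
    filter_upwards [hH.prod_right_ae] with a ha using cov_centre hG1 ha
  refine ⟨hH.integral_prod_left.congr hae.symm, ?_⟩
  rw [integral_congr_ae hae, cov_centre (hG2.integrable one_le_two) (by rw [hm]; exact hH), hm,
    integral_prod _ hH]

theorem cov_fubini' {α β : Type} [MeasurableSpace α] [MeasurableSpace β] {μ : Measure α}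
    {ν : Measure β} [IsProbabilityMeasure μ] [IsProbabilityMeasure ν] {F : α × β → ℝ} {G : α → ℝ}
    (hF : MemLp F 2 (μ.prod ν)) (hG : MemLp G 2 μ) :
    Integrable (fun b => cov[G, fun a => F (a, b); μ]) ν ∧
      cov[fun p => G p.1, F; μ.prod ν] = ∫ b, cov[G, fun a => F (a, b); μ] ∂ν := by
  have hG1 : Integrable G μ := hG.integrable one_le_two
  have hG2 : MemLp (fun p : α × β => G p.1) 2 (μ.prod ν) := hG.comp_fst ν
  have hm : ∫ p : α × β, G p.1 ∂μ.prod ν = ∫ c, G c ∂μ := by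
    rw [integral_fun_fst]; simp
  have hH : Integrable (fun p : α × β => F p * (G p.1 - ∫ c, G c ∂μ)) (μ.prod ν) :=
    hF.integrable_mul (hG2.sub (memLp_const _))
  have hae : (fun b => cov[G, fun a => F (a, b); μ]) =ᵐ[ν]
      fun b => ∫ a, F (a, b) * (G a - ∫ c, G c ∂μ) ∂μ := by
    filter_upwards [hH.prod_left_ae] with b hb
    rw [covariance_comm]; exact cov_centre hG1 hb
  refine ⟨hH.integral_prod_right.congr hae.symm, ?_⟩
  rw [integral_congr_ae hae, covariance_comm,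
    cov_centre (hG2.integrable one_le_two) (by rw [hm]; exact hH), hm, integral_prod_symm _ hH]

theorem cov_one {α : Type} [MeasurableSpace α] {m : Measure α} [IsProbabilityMeasure m]
    {f g : α → ℝ} (hf : MemLp f 2 m) (hg : MemLp g 2 m) :
    Integrable (fun p : α × α => (f p.1 - f p.2) * (g p.1 - g p.2)) (m.prod m) ∧
      cov[f, g; m] = (∫ p : α × α, (f p.1 - f p.2) * (g p.1 - g p.2) ∂m.prod m) / 2 := by
  have f1 : MemLp (fun p : α × α => f p.1) 2 (m.prod m) := hf.comp_fst m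
  have f2 : MemLp (fun p : α × α => f p.2) 2 (m.prod m) := hf.comp_snd m
  have g1 : MemLp (fun p : α × α => g p.1) 2 (m.prod m) := hg.comp_fst m
  have g2 : MemLp (fun p : α × α => g p.2) 2 (m.prod m) := hg.comp_snd m
  refine ⟨(f1.sub f2).integrable_mul (g1.sub g2), ?_⟩
  have i11 : Integrable (fun p : α × α => f p.1 * g p.1) (m.prod m) := f1.integrable_mul g1
  have i12 : Integrable (fun p : α × α => f p.1 * g p.2) (m.prod m) := f1.integrable_mul g2
  have i21 : Integrable (fun p : α × α => g p.1 * f p.2) (m.prod m) := g1.integrable_mul f2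
  have i22 : Integrable (fun p : α × α => f p.2 * g p.2) (m.prod m) := f2.integrable_mul g2
  have e : ∀ p : α × α, (f p.1 - f p.2) * (g p.1 - g p.2) =
      (f p.1 * g p.1 + f p.2 * g p.2) - (f p.1 * g p.2 + g p.1 * f p.2) := fun p => by ring
  have e11 : ∫ p : α × α, f p.1 * g p.1 ∂m.prod m = ∫ a, f a * g a ∂m := by
    rw [integral_fun_fst (fun a => f a * g a)]; simp
  have e22 : ∫ p : α × α, f p.2 * g p.2 ∂m.prod m = ∫ a, f a * g a ∂m := by
    rw [integral_fun_snd (fun a => f a * g a)]; simp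
  have j1 : Integrable (fun p : α × α => f p.1 * g p.1 + f p.2 * g p.2) (m.prod m) := i11.add i22
  have j2 : Integrable (fun p : α × α => f p.1 * g p.2 + g p.1 * f p.2) (m.prod m) := i12.add i21
  simp_rw [e]
  rw [integral_sub j1 j2, integral_add i11 i22, integral_add i12 i21, e11,
    e22, integral_prod_mul, integral_prod_mul, covariance_eq_sub hf hg]
  simp only [Pi.mul_apply]
  ring

theorem cov_mp {α β : Type} [MeasurableSpace α] [MeasurableSpace β] {μ : Measure α}
    {ν : Measure β} {φ : α → β} (hφ : MeasurePreserving φ μ ν) {f g : β → ℝ}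
    (hf : AEMeasurable f ν) (hg : AEMeasurable g ν) :
    cov[fun a => f (φ a), fun a => g (φ a); μ] = cov[f, g; ν] := by
  rw [← hφ.map_eq] at hf hg ⊢
  exact (covariance_map_fun hf.aestronglyMeasurable hg.aestronglyMeasurable
    hφ.measurable.aemeasurable).symm

theorem abs_int_mul_le {Ω : Type} [MeasurableSpace Ω] {P : Measure Ω} {f g : Ω → ℝ}
    (hf : MemLp f 2 P) (hg : MemLp g 2 P) :
    |∫ ω, f ω * g ω ∂P| ≤ (eLpNorm f 2 P).toReal * (eLpNorm g 2 P).toReal := by
  have h := abs_real_inner_le_norm (hf.toLp f) (hg.toLp g)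
  rw [Lp.norm_toLp, Lp.norm_toLp, L2.inner_def] at h
  refine le_of_eq_of_le ?_ h
  congr 1
  refine integral_congr_ae ?_
  filter_upwards [hf.coeFn_toLp, hg.coeFn_toLp] with ω h1 h2
  rw [h1, h2]; simp [mul_comm]

theorem int_mul_conv {Ω : Type} [MeasurableSpace Ω] {P : Measure Ω}
    {X Y : ℕ → Ω → ℝ} {X' Y' : Ω → ℝ} (hX : ∀ᶠ M in atTop, MemLp (X M) 2 P)
    (hY : ∀ᶠ M in atTop, MemLp (Y M) 2 P)
    (hX' : MemLp X' 2 P) (hY' : MemLp Y' 2 P)
    (cX : Tendsto (fun M => eLpNorm (fun ω => X M ω - X' ω) 2 P) atTop (𝓝 0))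
    (cY : Tendsto (fun M => eLpNorm (fun ω => Y M ω - Y' ω) 2 P) atTop (𝓝 0)) :
    Tendsto (fun M => ∫ ω, X M ω * Y M ω ∂P) atTop (𝓝 (∫ ω, X' ω * Y' ω ∂P)) := by
  have a : Tendsto (fun M => (eLpNorm (fun ω => X M ω - X' ω) 2 P).toReal) atTop (𝓝 0) :=
    (ENNReal.tendsto_toReal ENNReal.zero_ne_top).comp cX
  have b : Tendsto (fun M => (eLpNorm (fun ω => Y M ω - Y' ω) 2 P).toReal) atTop (𝓝 0) :=
    (ENNReal.tendsto_toReal ENNReal.zero_ne_top).comp cY
  have c := ((a.mul b).add (a.mul_const (eLpNorm Y' 2 P).toReal)).add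
    (b.const_mul (eLpNorm X' 2 P).toReal)
  simp only [mul_zero, zero_mul, add_zero] at c
  rw [tendsto_iff_norm_sub_tendsto_zero]
  refine squeeze_zero' (Eventually.of_forall fun _ => norm_nonneg _) ?_ c
  filter_upwards [hX, hY] with M hx hy
  have dx : MemLp (fun ω => X M ω - X' ω) 2 P := hx.sub hX'
  have dy : MemLp (fun ω => Y M ω - Y' ω) 2 P := hy.sub hY'
  have i1 : Integrable (fun ω => (X M ω - X' ω) * (Y M ω - Y' ω)) P := dx.integrable_mul dy
  have i2 : Integrable (fun ω => (X M ω - X' ω) * Y' ω) P := dx.integrable_mul hY'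
  have i3 : Integrable (fun ω => X' ω * (Y M ω - Y' ω)) P := hX'.integrable_mul dy
  have i4 : Integrable (fun ω => X M ω * Y M ω) P := hx.integrable_mul hy
  have i5 : Integrable (fun ω => X' ω * Y' ω) P := hX'.integrable_mul hY'
  have e : ∫ ω, X M ω * Y M ω ∂P - ∫ ω, X' ω * Y' ω ∂P =
      ∫ ω, (X M ω - X' ω) * (Y M ω - Y' ω) ∂P + ∫ ω, (X M ω - X' ω) * Y' ω ∂P +
        ∫ ω, X' ω * (Y M ω - Y' ω) ∂P := by
    have j : Integrable (fun ω => (X M ω - X' ω) * (Y M ω - Y' ω) + (X M ω - X' ω) * Y' ω) P :=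
      i1.add i2
    rw [← integral_sub i4 i5, ← integral_add i1 i2, ← integral_add j i3]
    refine integral_congr_ae (Eventually.of_forall fun ω => ?_)
    ring
  rw [Real.norm_eq_abs, e]
  exact (abs_add_three _ _ _).trans (add_le_add (add_le_add (abs_int_mul_le dx dy)
    (abs_int_mul_le dx hY')) (abs_int_mul_le hX' dy))

theorem cov_conv {Ω : Type} [MeasurableSpace Ω] {P : Measure Ω} [IsProbabilityMeasure P]
    {X Y : ℕ → Ω → ℝ} {X' Y' : Ω → ℝ} (hX : ∀ᶠ M in atTop, MemLp (X M) 2 P)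
    (hY : ∀ᶠ M in atTop, MemLp (Y M) 2 P)
    (hX' : MemLp X' 2 P) (hY' : MemLp Y' 2 P)
    (cX : Tendsto (fun M => eLpNorm (fun ω => X M ω - X' ω) 2 P) atTop (𝓝 0))
    (cY : Tendsto (fun M => eLpNorm (fun ω => Y M ω - Y' ω) 2 P) atTop (𝓝 0)) :
    Tendsto (fun M => cov[X M, Y M; P]) atTop (𝓝 cov[X', Y'; P]) := by
  have one : ∀ᶠ _ : ℕ in atTop, MemLp (fun _ : Ω => (1 : ℝ)) 2 P :=
    Eventually.of_forall fun _ => memLp_const 1
  have c1 : Tendsto (fun _ : ℕ => eLpNorm (fun _ : Ω => (1 : ℝ) - 1) 2 P) atTop (𝓝 0) := by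
    simp
  have h1 := int_mul_conv hX hY hX' hY' cX cY
  have h2 := int_mul_conv (Y := fun _ _ => 1) hX one hX' (memLp_const 1) cX c1
  have h3 := int_mul_conv (Y := fun _ _ => 1) hY one hY' (memLp_const 1) cY c1
  simp only [mul_one] at h2 h3
  rw [covariance_eq_sub hX' hY']
  refine (h1.sub (h2.mul h3)).congr' ?_
  filter_upwards [hX, hY] with M hx hy
  rw [covariance_eq_sub hx hy]
  rfl

end Pool.Agent.K6329
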