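import Pool.Agent.Lib.MP_632999_pr.K.Mom
import Pool.Agent.Lib.MP_632999_pr.K.BG

/-! Moments of `mu M`, the law of `b - a` under `gA x gA` (`bg_bwd`). `u^2 <= 2 cosh u - 2 =: y`,
`u^4 <= y^2`, `y <= u^2 (1 + y/4)` (from `sinh x <= x cosh x`), so `u^2 >= y - y^2/4`;
`E y = 2/M`, `E y^2 = 12/(M(M-1))`. -/

namespace Pool.Agent.K6329

open MeasureTheory ProbabilityTheory Filter Topology Set Function
open scoped NNReal ENNReal

theorem mu_mp (M : ℕ) :
    MeasurePreserving (fun p : ℝ × ℝ => p.2 - p.1) ((gA M).prod (gA M)) (mu M) :=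
  measurePreserving_fst.comp (bg_bwd M)

theorem mu_neg (M : ℕ) : MeasurePreserving (fun u : ℝ => -u) (mu M) (mu M) := by
  refine ⟨measurable_neg, ?_⟩
  have h := ((mu_mp M).comp (Measure.measurePreserving_swap (μ := gA M) (ν := gA M))).map_eq
  conv_lhs => rw [← h, Measure.map_map measurable_neg (by fun_prop)]
  rw [← (mu_mp M).map_eq]
  congr 1
  funext p
  simp

theorem mu_int {M : ℕ} {s : ℝ} (h : |s| < (M : ℝ) + 1) :
    Integrable (fun u => Real.exp (s * u)) (mu M) := by
  rw [abs_lt] at h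
  have h1 := (gam_int (θ := (M : ℝ) + 1) (s := -s) (by positivity) (by linarith)).mul_prod
    (gam_int (θ := (M : ℝ) + 1) (s := s) (by positivity) (by linarith))
  refine ((mu_mp M).integrable_comp (Measurable.aestronglyMeasurable (by fun_prop))).1
    (h1.congr (Eventually.of_forall fun p => ?_))
  simp only [comp_apply]
  rw [← Real.exp_add]; congr 1; ring

theorem mu_mom {M : ℕ} {s : ℝ} (h : |s| < (M : ℝ) + 1) : ∫ u, Real.exp (s * u) ∂mu M =
    Real.Gamma (M + 1 - s) * Real.Gamma (M + 1 + s) / Real.Gamma (M + 1) ^ 2 := by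
  rw [abs_lt] at h
  rw [← (mu_mp M).map_eq, integral_map (mu_mp M).aemeasurable
    (Measurable.aestronglyMeasurable (by fun_prop))]
  have e : ∀ p : ℝ × ℝ, Real.exp (s * (p.2 - p.1)) = Real.exp (-s * p.1) * Real.exp (s * p.2) :=
    fun p => by rw [← Real.exp_add]; congr 1; ring
  simp only [e]
  rw [integral_prod_mul (fun a => Real.exp (-s * a)) (fun a => Real.exp (s * a)), gA,
    gam_mom (by positivity) (by linarith), gam_mom (by positivity) (by linarith),
    ← sub_eq_add_neg, div_mul_div_comm, sq]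

theorem mu_int_neg (M : ℕ) {f : ℝ → ℝ} (hf : Measurable f) :
    ∫ u, f (-u) ∂mu M = ∫ u, f u ∂mu M := by
  conv_rhs => rw [← (mu_neg M).map_eq]
  rw [integral_map (mu_neg M).aemeasurable hf.aestronglyMeasurable]

theorem gamma_nat (x : ℝ) (hx : 0 < x) (n : ℕ) :
    Real.Gamma (x + n) = (∏ i ∈ Finset.range n, (x + i)) * Real.Gamma x := by
  induction n with
  | zero => simp
  | succ n ih =>
    rw [Finset.prod_range_succ, Nat.cast_succ, ← add_assoc,
      Real.Gamma_add_one (by positivity), ih]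
    ring

theorem mu_abs4 {M : ℕ} (hM : 4 ≤ M) : Integrable (fun u => Real.exp (4 * |u|)) (mu M) := by
  have h4 : (4 : ℝ) ≤ M := by exact_mod_cast hM
  refine ((mu_int (M := M) (s := 4) (by rw [abs_of_pos] <;> linarith)).add
    (mu_int (M := M) (s := -4) (by rw [abs_of_neg] <;> linarith))).mono'
    (Measurable.aestronglyMeasurable (by fun_prop)) (Eventually.of_forall fun u => ?_)
  rw [Real.norm_eq_abs, abs_of_pos (Real.exp_pos _), Pi.add_apply]
  have := Real.exp_pos (4 * u)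
  have := Real.exp_pos (-4 * u)
  rcases abs_cases u with h | h <;> rw [h.1]
  · linarith
  · rw [show 4 * -u = -4 * u by ring]; linarith

theorem mu_exp1 {M : ℕ} (hM : 1 ≤ M) : ∫ u, Real.exp u ∂mu M = ((M : ℝ) + 1) / M := by
  have h1 : (1 : ℝ) ≤ M := by exact_mod_cast hM
  have h := mu_mom (M := M) (s := 1) (by rw [abs_one]; linarith)
  simp only [one_mul] at h
  have g := (Real.Gamma_pos_of_pos (show (0 : ℝ) < M by linarith)).ne'
  rw [h, add_sub_cancel_right, Real.Gamma_add_one (by linarith), Real.Gamma_add_one (by linarith)]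
  field_simp

theorem mu_exp2 {M : ℕ} (hM : 2 ≤ M) :
    ∫ u, Real.exp (2 * u) ∂mu M = ((M : ℝ) + 1) * (M + 2) / (M * (M - 1)) := by
  have h1 : (2 : ℝ) ≤ M := by exact_mod_cast hM
  have hx : (0 : ℝ) < M - 1 := by linarith
  have g := (Real.Gamma_pos_of_pos hx).ne'
  have a := gamma_nat _ hx 2
  have b := gamma_nat _ hx 4
  simp only [Finset.prod_range_succ, Finset.prod_range_zero] at a b
  push_cast at a b
  rw [mu_mom (by rw [abs_two]; linarith), show (M : ℝ) + 1 - 2 = M - 1 by ring,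
    show (M : ℝ) + 1 + 2 = M - 1 + 4 by ring, b]
  nth_rw 1 [show (M : ℝ) + 1 = M - 1 + 2 by ring]
  rw [a]
  have : (M : ℝ) - 1 + 1 ≠ 0 := by linarith
  have : (M : ℝ) ≠ 0 := by linarith
  have := hx.ne'
  simp only [add_zero, sub_add_cancel]
  field_simp
  ring

theorem mu_exp4 {M : ℕ} (hM : 6 ≤ M) : ∫ u, Real.exp (4 * u) ∂mu M ≤ Real.exp (32 / (M : ℝ)) := by
  have h1 : (6 : ℝ) ≤ M := by exact_mod_cast hM
  have hx : (0 : ℝ) < M - 3 := by linarith
  have g := Real.Gamma_pos_of_pos hx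
  have a := gamma_nat _ hx 4
  have b := gamma_nat _ hx 8
  simp only [Finset.prod_range_succ, Finset.prod_range_zero] at a b
  push_cast at a b
  rw [mu_mom (by rw [abs_of_pos] <;> linarith), show (M : ℝ) + 1 - 4 = M - 3 by ring,
    show (M : ℝ) + 1 + 4 = M - 3 + 8 by ring, b, show (M : ℝ) + 1 = M - 3 + 4 by ring, a]
  have hE : 1 + 8 / (M : ℝ) ≤ Real.exp (8 / M) := by linarith [Real.add_one_le_exp (8 / (M : ℝ))]
  have key : ∀ y : ℝ, M - 3 ≤ y → y + 4 ≤ Real.exp (8 / M) * y := fun y hy => by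
    refine le_trans ?_ (mul_le_mul_of_nonneg_right hE (by linarith))
    have : 4 ≤ 8 / (M : ℝ) * y := by
      rw [div_mul_eq_mul_div, le_div_iff₀ (by linarith)]; linarith
    linarith
  have e : Real.exp (32 / (M : ℝ)) = Real.exp (8 / M) ^ 4 := by
    rw [← Real.exp_nat_mul]; congr 1; push_cast; ring
  rw [e]
  generalize (M : ℝ) - 3 = x at *
  generalize Real.exp (8 / M) = E at *
  rw [div_le_iff₀ (by positivity)]
  have k0 := key x le_rfl
  have k1 := key (x + 1) (by linarith)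
  have k2 := key (x + 2) (by linarith)
  have k3 := key (x + 3) (by linarith)
  have p : (x + 4) * (x + 1 + 4) * (x + 2 + 4) * (x + 3 + 4) ≤
      (E * x) * (E * (x + 1)) * (E * (x + 2)) * (E * (x + 3)) := by
    have : 0 ≤ E * x := by linarith
    have : 0 ≤ E * (x + 1) := by linarith
    have : 0 ≤ E * (x + 2) := by linarith
    gcongr
  have q := mul_le_mul_of_nonneg_left p
    (show 0 ≤ x * (x + 1) * (x + 2) * (x + 3) * Real.Gamma x ^ 2 by positivity)
  refine le_trans (le_of_eq ?_) (q.trans (le_of_eq ?_)) <;> ring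

theorem mu_memLp (M : ℕ) : MemLp (fun u : ℝ => u) 2 (mu M) := by
  have h : MemLp (fun a : ℝ => a) 2 (gA M) := gam_memLp (by positivity)
  rw [← (mu_mp M).map_eq]
  exact (memLp_map_measure_iff (by fun_prop) (mu_mp M).aemeasurable).2
    ((h.comp_snd _).sub (h.comp_fst _))

theorem mu_mean (M : ℕ) : ∫ u, u ∂mu M = 0 := by
  have h := mu_int_neg M (f := fun u => u) measurable_id
  rw [integral_neg] at h
  linarith

theorem mu_var (M : ℕ) : Var[fun u : ℝ => u; mu M] = 2 * Var[fun a : ℝ => a; gA M] := by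
  have h : MemLp (fun a : ℝ => a) 2 (gA M) := gam_memLp (by positivity)
  rw [← (mu_mp M).variance_fun_comp (f := fun u => u) (by fun_prop)]
  have e := variance_add_prod (X := fun a : ℝ => -a) h.neg h
  rw [variance_fun_neg] at e
  simp only [sub_eq_neg_add]
  rw [e, two_mul]

/-- `2 cosh u - 2` -/
noncomputable def ych (u : ℝ) : ℝ := Real.exp u + Real.exp (-u) - 2

theorem ych_eq (u : ℝ) : ych u = 4 * Real.sinh (|u| / 2) ^ 2 := by
  have h : ych u = 2 * Real.cosh (2 * (|u| / 2)) - 2 := by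
    rw [mul_div_cancel₀ _ two_ne_zero, Real.cosh_abs, Real.cosh_eq, ych]; ring
  rw [h, Real.cosh_two_mul, Real.cosh_sq]; ring

theorem sq_le_ych (u : ℝ) : u ^ 2 ≤ ych u := by
  have h0 : 0 ≤ |u| / 2 := by positivity
  have h := pow_le_pow_left₀ h0 (Real.self_le_sinh_iff.2 h0) 2
  rw [ych_eq, ← sq_abs u]; nlinarith

theorem sinh_le_mul_cosh {x : ℝ} (hx : 0 ≤ x) : Real.sinh x ≤ x * Real.cosh x := by
  have hd : ∀ y, HasDerivAt (fun y => y * Real.cosh y - Real.sinh y) (y * Real.sinh y) y :=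
    fun y => (((hasDerivAt_id y).mul (Real.hasDerivAt_cosh y)).sub
      (Real.hasDerivAt_sinh y)).congr_deriv (by simp)
  have hm : Monotone fun y => y * Real.cosh y - Real.sinh y :=
    monotone_of_deriv_nonneg (fun y => (hd y).differentiableAt) fun y => by
      rw [(hd y).deriv]
      rcases le_total 0 y with h | h
      · exact mul_nonneg h (Real.sinh_nonneg_iff.2 h)
      · exact mul_nonneg_of_nonpos_of_nonpos h (Real.sinh_nonpos_iff.2 h)
  have := hm hx
  simp only [zero_mul, Real.sinh_zero, sub_zero] at this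
  linarith

theorem ych_le (u : ℝ) : ych u - ych u ^ 2 / 4 ≤ u ^ 2 := by
  have h0 : 0 ≤ |u| / 2 := by positivity
  have h := pow_le_pow_left₀ (Real.sinh_nonneg_iff.2 h0) (sinh_le_mul_cosh h0) 2
  rw [mul_pow, Real.cosh_sq, div_pow, sq_abs] at h
  rw [ych_eq]
  have hs := sq_nonneg (Real.sinh (|u| / 2))
  generalize Real.sinh (|u| / 2) ^ 2 = s at *
  have hu := sq_nonneg u
  generalize u ^ 2 = w at *
  by_contra hc
  rw [not_le] at hc
  have := mul_le_mul_of_nonneg_right hc.le (show 0 ≤ s + 1 by linarith)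
  have h3 : 0 < s := by
    by_contra h4
    have : s = 0 := le_antisymm (not_lt.1 h4) hs
    rw [this] at hc; linarith
  nlinarith [pow_pos h3 3]

theorem ych_sq (u : ℝ) : ych u ^ 2 = Real.exp (2 * u) + Real.exp (2 * -u) - 4 * ych u - 2 := by
  have h : Real.exp u * Real.exp (-u) = 1 := by rw [← Real.exp_add]; simp
  rw [two_mul, two_mul, Real.exp_add, Real.exp_add, ych]
  linear_combination 2 * h

theorem mu_ych {M : ℕ} (hM : 1 ≤ M) : Integrable ych (mu M) ∧ ∫ u, ych u ∂mu M = 2 / (M : ℝ) := by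
  have h1 : (1 : ℝ) ≤ M := by exact_mod_cast hM
  have i1 : Integrable (fun u => Real.exp u) (mu M) := by
    simpa using mu_int (M := M) (s := 1) (by rw [abs_one]; linarith)
  have i2 : Integrable (fun u => Real.exp (-u)) (mu M) :=
    (mu_neg M).integrable_comp_of_integrable i1
  refine ⟨(i1.add i2).sub (integrable_const _), ?_⟩
  unfold ych
  have i3 : Integrable (fun u => Real.exp u + Real.exp (-u)) (mu M) := i1.add i2
  rw [integral_sub i3 (integrable_const _), integral_add i1 i2,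
    mu_int_neg M Real.measurable_exp, mu_exp1 hM]
  simp only [integral_const, probReal_univ, smul_eq_mul, one_mul]
  field_simp
  ring

theorem mu_ych2 {M : ℕ} (hM : 2 ≤ M) : Integrable (fun u => ych u ^ 2) (mu M) ∧
    ∫ u, ych u ^ 2 ∂mu M = 12 / ((M : ℝ) * (M - 1)) := by
  have h1 : (2 : ℝ) ≤ M := by exact_mod_cast hM
  have i1 := mu_int (M := M) (s := 2) (by rw [abs_two]; linarith)
  have i2 : Integrable (fun u => Real.exp (2 * -u)) (mu M) :=
    (mu_neg M).integrable_comp_of_integrable i1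
  obtain ⟨i3, e3⟩ := mu_ych (M := M) (by omega)
  simp only [ych_sq]
  have i4 : Integrable (fun u => Real.exp (2 * u) + Real.exp (2 * -u)) (mu M) := i1.add i2
  have i5 : Integrable (fun u => Real.exp (2 * u) + Real.exp (2 * -u) - 4 * ych u) (mu M) :=
    i4.sub (i3.const_mul 4)
  refine ⟨i5.sub (integrable_const _), ?_⟩
  rw [integral_sub i5 (integrable_const _),
    integral_sub i4 (i3.const_mul 4), integral_add i1 i2, integral_const_mul, e3,
    mu_int_neg M (f := fun u => Real.exp (2 * u)) (by fun_prop), mu_exp2 hM]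
  simp only [integral_const, probReal_univ, smul_eq_mul, one_mul]
  have : (M : ℝ) - 1 ≠ 0 := by linarith
  have : (M : ℝ) ≠ 0 := by linarith
  field_simp
  ring

theorem mu_sq_le {M : ℕ} (hM : 1 ≤ M) : ∫ u, u ^ 2 ∂mu M ≤ 2 / (M : ℝ) := by
  rw [← (mu_ych hM).2]
  exact integral_mono (mu_memLp M).integrable_sq (mu_ych hM).1 sq_le_ych

theorem gA_var_le {M : ℕ} (hM : 1 ≤ M) : Var[fun a : ℝ => a; gA M] ≤ 1 / (M : ℝ) := by
  have h1 := mu_var M
  rw [variance_of_integral_eq_zero (by fun_prop) (mu_mean M)] at h1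
  have h2 := mu_sq_le hM
  rw [h1, show 2 / (M : ℝ) = 2 * (1 / M) by ring] at h2
  linarith

theorem mu_four {M : ℕ} (hM : 2 ≤ M) : Integrable (fun u : ℝ => u ^ 4) (mu M) ∧
    ∫ u, u ^ 4 ∂mu M ≤ 12 / ((M : ℝ) * (M - 1)) := by
  obtain ⟨i, e⟩ := mu_ych2 hM
  have h : ∀ u : ℝ, u ^ 4 ≤ ych u ^ 2 := fun u => by
    rw [show u ^ 4 = (u ^ 2) ^ 2 by ring]
    exact pow_le_pow_left₀ (sq_nonneg u) (sq_le_ych u) 2
  have i4 : Integrable (fun u : ℝ => u ^ 4) (mu M) :=
    i.mono' (by fun_prop) (Eventually.of_forall fun u => by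
      rw [Real.norm_eq_abs, abs_of_nonneg (by positivity)]; exact h u)
  exact ⟨i4, e ▸ integral_mono i4 i h⟩

theorem mu_sq_ge {M : ℕ} (hM : 2 ≤ M) :
    2 / (M : ℝ) - 3 / ((M : ℝ) * (M - 1)) ≤ ∫ u, u ^ 2 ∂mu M := by
  obtain ⟨i, e⟩ := mu_ych2 hM
  obtain ⟨i1, e1⟩ := mu_ych (M := M) (by omega)
  have h := integral_mono (i1.sub (i.div_const 4)) (mu_memLp M).integrable_sq ych_le
  simp only [Pi.sub_apply] at h
  rw [integral_sub i1 (i.div_const 4), integral_div, e, e1] at h
  refine le_trans (le_of_eq ?_) h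
  ring

end Pool.Agent.K6329
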