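import Pool.Agent.Lib.MP_632999_pr.K.Step
import Pool.Agent.Lib.MP_632999_pr.K.MomMu
import Pool.Agent.Lib.MP_632999_pr.K.Cov

/-! The two edges of the cone. `L n k = Hd n k - prof k` satisfies
`L (n+1) k = L n k (th0 .) - aOf k` and reads the increments on `[k, k+n)` only;
`R n k = Hd n k - prof (k+n)` satisfies `R (n+1) k = R n k (th0 .) - bOf (k+n)`. In the variables of
`mp_abc`, `a k` enters only `xiOf a b (k-1)` and `b (k+n)` only `xiOf a b (k+n)`: `indep_eval`. -/

namespace Pool.Agent.K6329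

open MeasureTheory ProbabilityTheory Filter Topology Set Function
open scoped NNReal ENNReal

theorem eg_indep_mp {α β γ δ : Type} [MeasurableSpace α] [MeasurableSpace β] [MeasurableSpace γ]
    [MeasurableSpace δ] {μ : Measure α} {ν : Measure β} {φ : α → β} (hφ : MeasurePreserving φ μ ν)
    {X : β → γ} {Y : β → δ} (hX : Measurable X) (hY : Measurable Y) (h : IndepFun X Y ν) :
    IndepFun (fun a => X (φ a)) (fun a => Y (φ a)) μ := by
  rw [indepFun_iff_measure_inter_preimage_eq_mul] at h ⊢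
  intro s t hs ht
  have a1 := hφ.measure_preimage (hX hs).nullMeasurableSet
  have a2 := hφ.measure_preimage (hY ht).nullMeasurableSet
  have a3 := hφ.measure_preimage ((hX hs).inter (hY ht)).nullMeasurableSet
  have a4 := h s t hs ht
  rw [← a1, ← a2, ← a3] at a4
  exact a4

theorem eg_mp_upd (m : Measure ℝ) [IsProbabilityMeasure m] {β : Type} [MeasurableSpace β]
    (ν : Measure β) [IsProbabilityMeasure ν] (k : ℤ) :
    MeasurePreserving (fun p : (Row × β) × ℝ => ((update p.1.1 k p.2, p.1.2) : Row × β))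
      (((piR m).prod ν).prod m) ((piR m).prod ν) := by
  have a1 := measurePreserving_prodAssoc (piR m) ν m
  have a2 : MeasurePreserving (Prod.map id Prod.swap) ((piR m).prod (ν.prod m))
      ((piR m).prod (m.prod ν)) := (MeasurePreserving.id _).prod Measure.measurePreserving_swap
  have a3 := (measurePreserving_prodAssoc (piR m) m ν).symm _
  have a4 := (mp_update m k).prod (MeasurePreserving.id ν)
  exact ((a4.comp a3).comp a2).comp a1

theorem eg_indep (m : Measure ℝ) [IsProbabilityMeasure m] {β : Type} [MeasurableSpace β]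
    (ν : Measure β) [IsProbabilityMeasure ν] {Y : Row × β → ℝ} (hY : Measurable Y) (k : ℤ)
    (h : ∀ a r u, Y (update a k u, r) = Y (a, r)) :
    IndepFun Y (fun p : Row × β => p.1 k) ((piR m).prod ν) := by
  have hφ := eg_mp_upd m ν k
  have hX : Measurable fun p : Row × β => p.1 k := by fun_prop
  rw [indepFun_iff_measure_inter_preimage_eq_mul]
  intro s t hs ht
  have a2 := hφ.measure_preimage (hX ht).nullMeasurableSet
  have a3 := hφ.measure_preimage ((hY hs).inter (hX ht)).nullMeasurableSet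
  have e2 : (fun p : (Row × β) × ℝ => ((update p.1.1 k p.2, p.1.2) : Row × β)) ⁻¹'
      ((fun p : Row × β => p.1 k) ⁻¹' t) = univ ×ˢ t := by
    ext p; simp
  have e3 : (fun p : (Row × β) × ℝ => ((update p.1.1 k p.2, p.1.2) : Row × β)) ⁻¹'
      (Y ⁻¹' s ∩ (fun p : Row × β => p.1 k) ⁻¹' t) = (Y ⁻¹' s) ×ˢ t := by
    ext p; simp [h]
  rw [← a2, ← a3, e2, e3, Measure.prod_prod, Measure.prod_prod, measure_univ, one_mul]

theorem eg_mp_ev (m : Measure ℝ) [IsProbabilityMeasure m] {β : Type} [MeasurableSpace β]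
    (ν : Measure β) [IsProbabilityMeasure ν] (k : ℤ) :
    MeasurePreserving (fun p : Row × β => p.1 k) ((piR m).prod ν) m :=
  (measurePreserving_eval_infinitePi (fun _ : ℤ => m) k).comp measurePreserving_fst

theorem eg_xi_memLp (M : ℕ) (k : ℤ) : MemLp (fun ω : Row × Rows => ω.1 k) 2 (Pd M) :=
  (mu_memLp M).comp_measurePreserving (eg_mp_ev (mu M) (piRR (gC M)) k)

theorem prof_memLp (M : ℕ) (j : ℤ) : MemLp (fun ω : Row × Rows => prof ω.1 j) 2 (Pd M) := by
  exact (memLp_finsetSum _ fun k _ => eg_xi_memLp M k).sub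
    (memLp_finsetSum _ fun k _ => eg_xi_memLp M k)

theorem eg_prof_upd {ξ : Row} {j k : ℤ} (h1 : ¬ (0 ≤ k ∧ k < j)) (h2 : ¬ (j ≤ k ∧ k < 0)) (u : ℝ) :
    prof (update ξ k u) j = prof ξ j := by
  unfold prof
  congr 1
  · refine Finset.sum_congr rfl fun i hi => update_of_ne ?_ _ _
    rintro rfl
    exact h1 (Finset.mem_Ico.1 hi)
  · refine Finset.sum_congr rfl fun i hi => update_of_ne ?_ _ _
    rintro rfl
    exact h2 (Finset.mem_Ico.1 hi)

theorem eg_prof_cov (M : ℕ) {j k : ℤ} (h1 : ¬ (0 ≤ k ∧ k < j)) (h2 : ¬ (j ≤ k ∧ k < 0)) :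
    cov[fun ω : Row × Rows => prof ω.1 j, fun ω => ω.1 k; Pd M] = 0 :=
  (eg_indep (mu M) (piRR (gC M)) (Y := fun ω => prof ω.1 j)
    ((measurable_prof j).comp measurable_fst) k
    fun _ _ u => eg_prof_upd h1 h2 u).covariance_eq_zero (prof_memLp M j) (eg_xi_memLp M k)

theorem eg_xi_var (M : ℕ) (k : ℤ) :
    Var[fun ω : Row × Rows => ω.1 k; Pd M] = Var[fun u : ℝ => u; mu M] :=
  (eg_mp_ev (mu M) (piRR (gC M)) k).variance_fun_comp (f := fun u : ℝ => u)
    measurable_id.aemeasurable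

theorem prof_var (M : ℕ) (j : ℤ) :
    Var[fun ω : Row × Rows => prof ω.1 j; Pd M] = |(j : ℝ)| * Var[fun u : ℝ => u; mu M] := by
  induction j using Int.induction_on with
  | zero =>
    simp only [prof_zero, Int.cast_zero, abs_zero, zero_mul]
    exact variance_zero _
  | succ i ih =>
    have hi : (0 : ℝ) ≤ i := Nat.cast_nonneg i
    simp only [prof_succ]
    rw [variance_fun_add (prof_memLp M i) (eg_xi_memLp M i), ih,
      eg_prof_cov M (by omega) (by omega), eg_xi_var]
    push_cast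
    rw [abs_of_nonneg hi, abs_of_nonneg (by linarith)]
    ring
  | pred i ih =>
    have hi : (0 : ℝ) ≤ i := Nat.cast_nonneg i
    have e : ∀ ξ : Row, prof ξ (-(i : ℤ) - 1) = prof ξ (-(i : ℤ)) - ξ (-(i : ℤ) - 1) := fun ξ => by
      have := prof_succ ξ (-(i : ℤ) - 1)
      rw [sub_add_cancel] at this
      linarith
    simp only [e]
    rw [variance_fun_sub (prof_memLp M _) (eg_xi_memLp M _), ih,
      eg_prof_cov M (by omega) (by omega), eg_xi_var]
    push_cast
    rw [abs_of_nonpos (by linarith), abs_of_nonpos (by linarith)]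
    ring

theorem eg_local {h h' : Row} (c : Rows) (d : ℝ) (n : ℕ) : ∀ k : ℤ,
    (∀ j, k ≤ j → j ≤ k + n → h j = h' j + d) → evol h c n k = evol h' c n k + d := by
  induction n with
  | zero => exact fun k H => H k le_rfl (by simp)
  | succ n ih =>
    intro k H
    have a1 := ih k fun j h1 h2 => H j h1 (by push_cast; omega)
    have a2 := ih (k + 1) fun j h1 h2 => H j (by omega) (by push_cast; omega)
    simp only [evol, a1, a2, lse_eq]
    rw [add_sub_add_right_eq_sub]
    ring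

theorem eg_prof_local {ξ ξ' : Row} {k : ℤ} {n : ℕ} (H : ∀ j, k ≤ j → j < k + n → ξ j = ξ' j)
    (i : ℕ) (hi : i ≤ n) : prof ξ (k + i) = prof ξ' (k + i) + (prof ξ k - prof ξ' k) := by
  induction i with
  | zero => simp
  | succ i ih =>
    have := ih (by omega)
    push_cast
    rw [← add_assoc, prof_succ, prof_succ, this, H (k + i) (by omega) (by omega)]
    ring

/-- the value above the left or the right edge reads the increments on `[k, k + n)` only -/
theorem eg_dep {ξ ξ' : Row} (c : Rows) {k : ℤ} {n : ℕ} (H : ∀ j, k ≤ j → j < k + n → ξ j = ξ' j)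
    (i : ℕ) (hi : i ≤ n) :
    Hd n k (ξ, c) - prof ξ (k + i) = Hd n k (ξ', c) - prof ξ' (k + i) := by
  have a1 := eg_local (h := prof ξ) (h' := prof ξ') c (prof ξ k - prof ξ' k) n k fun j h1 h2 => by
    obtain ⟨l, rfl⟩ : ∃ l : ℕ, j = k + l := ⟨(j - k).toNat, by omega⟩
    exact eg_prof_local H l (by omega)
  have a2 := eg_prof_local H i hi
  simp only [Hd]
  linarith

theorem eg_prof_th0 (ω : Row × Rows) (j : ℤ) :
    prof (th0 ω).1 j = prof ω.1 j - aOf ω.1 (ω.2 0) j + aOf ω.1 (ω.2 0) 0 := by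
  rw [prof_eq (h := fun j => prof ω.1 j - aOf ω.1 (ω.2 0) j)]
  · simp only [prof_zero]; ring
  · intro i
    simp only [th0, xiOf, bOf, aOf, prof_succ]
    ring

noncomputable def egL (n : ℕ) (k : ℤ) (ω : Row × Rows) : ℝ := Hd n k ω - prof ω.1 k
noncomputable def egR (n : ℕ) (k : ℤ) (ω : Row × Rows) : ℝ := Hd n k ω - prof ω.1 (k + n)

theorem egL_meas (n : ℕ) (k : ℤ) : Measurable (egL n k) :=
  (measurable_Hd n k).sub ((measurable_prof k).comp measurable_fst)
theorem egR_meas (n : ℕ) (k : ℤ) : Measurable (egR n k) :=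
  (measurable_Hd n k).sub ((measurable_prof _).comp measurable_fst)

theorem egL_succ (n : ℕ) (k : ℤ) :
    egL (n + 1) k = fun ω => egL n k (th0 ω) - aOf ω.1 (ω.2 0) k := by
  funext ω
  simp only [egL, Hd_succ, eg_prof_th0]
  ring

theorem egR_succ (n : ℕ) (k : ℤ) :
    egR (n + 1) k = fun ω => egR n k (th0 ω) - bOf ω.1 (ω.2 0) (k + n) := by
  funext ω
  simp only [egR, Hd_succ, eg_prof_th0]
  push_cast
  rw [← add_assoc, prof_succ]
  simp only [bOf, aOf]
  ring

theorem eg_mpA (M : ℕ) : MeasurePreserving (fun ω : Row × Rows =>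
    ((aOf ω.1 (ω.2 0), (bOf ω.1 (ω.2 0), fun m => ω.2 (m + 1))) : Row × (Row × Rows))) (Pd M)
    ((piR (gA M)).prod ((piR (gA M)).prod (piRR (gC M)))) :=
  (measurePreserving_prodAssoc _ _ _).comp (mp_abc M)

theorem eg_mpB (M : ℕ) : MeasurePreserving (fun ω : Row × Rows =>
    ((bOf ω.1 (ω.2 0), (aOf ω.1 (ω.2 0), fun m => ω.2 (m + 1))) : Row × (Row × Rows))) (Pd M)
    ((piR (gA M)).prod ((piR (gA M)).prod (piRR (gC M)))) :=
  ((measurePreserving_prodAssoc _ _ _).comp
    (Measure.measurePreserving_swap.prod (MeasurePreserving.id _))).comp (mp_abc M)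

theorem eg_xiOf_meas : Measurable fun p : Row × Row => xiOf p.1 p.2 := by
  unfold xiOf
  fun_prop

theorem egL_indep (M n : ℕ) (k : ℤ) :
    IndepFun (fun ω => egL n k (th0 ω)) (fun ω => aOf ω.1 (ω.2 0) k) (Pd M) := by
  have hY : Measurable fun p : Row × (Row × Rows) => egL n k (xiOf p.1 p.2.1, p.2.2) :=
    (egL_meas n k).comp ((eg_xiOf_meas.comp (measurable_fst.prodMk measurable_snd.fst)).prodMk
      measurable_snd.snd)
  refine eg_indep_mp (eg_mpA M) hY (Y := fun p => p.1 k) (by fun_prop)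
    (eg_indep (gA M) _ hY k fun a r u => ?_)
  have := eg_dep (ξ := xiOf (update a k u) r.1) (ξ' := xiOf a r.1) r.2 (k := k) (n := n)
    (fun j h1 _ => by simp only [xiOf]; rw [update_of_ne (by omega)]) 0 (Nat.zero_le _)
  simpa only [egL, Nat.cast_zero, add_zero] using this

theorem egR_indep (M n : ℕ) (k : ℤ) :
    IndepFun (fun ω => egR n k (th0 ω)) (fun ω => bOf ω.1 (ω.2 0) (k + n)) (Pd M) := by
  have hY : Measurable fun p : Row × (Row × Rows) => egR n k (xiOf p.2.1 p.1, p.2.2) :=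
    (egR_meas n k).comp ((eg_xiOf_meas.comp (measurable_snd.fst.prodMk measurable_fst)).prodMk
      measurable_snd.snd)
  refine eg_indep_mp (eg_mpB M) hY (Y := fun p => p.1 (k + n)) (by fun_prop)
    (eg_indep (gA M) _ hY (k + n) fun b r u => ?_)
  exact eg_dep (ξ := xiOf r.1 (update b (k + n) u)) (ξ' := xiOf r.1 b) r.2 (k := k) (n := n)
    (fun j _ h2 => by simp only [xiOf]; rw [update_of_ne (by omega)]) n le_rfl

theorem eg_lawA (M : ℕ) (k : ℤ) :
    MeasurePreserving (fun ω : Row × Rows => aOf ω.1 (ω.2 0) k) (Pd M) (gA M) :=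
  (eg_mp_ev (gA M) _ k).comp (eg_mpA M)

theorem eg_lawB (M : ℕ) (k : ℤ) :
    MeasurePreserving (fun ω : Row × Rows => bOf ω.1 (ω.2 0) k) (Pd M) (gA M) :=
  (eg_mp_ev (gA M) _ k).comp (eg_mpB M)

theorem eg_step {M : ℕ} {G X : Row × Rows → ℝ} (hG : MemLp G 2 (Pd M))
    (hX : MeasurePreserving X (Pd M) (gA M)) (h : IndepFun (fun ω => G (th0 ω)) X (Pd M)) :
    MemLp (fun ω => G (th0 ω) - X ω) 2 (Pd M) ∧
      Var[fun ω => G (th0 ω) - X ω; Pd M] = Var[G; Pd M] + Var[fun a : ℝ => a; gA M] := by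
  have a1 : MemLp (fun ω => G (th0 ω)) 2 (Pd M) := hG.comp_measurePreserving (mp_th0 M)
  have a2 : MemLp X 2 (Pd M) :=
    (gam_memLp (θ := (M : ℝ) + 1) (by positivity)).comp_measurePreserving hX
  refine ⟨a1.sub a2, ?_⟩
  rw [variance_fun_sub a1 a2, h.covariance_eq_zero a1 a2,
    (mp_th0 M).variance_fun_comp hG.aemeasurable,
    ← hX.variance_fun_comp (f := fun a : ℝ => a) measurable_id.aemeasurable]
  ring

theorem egL_both (M n : ℕ) (k : ℤ) :
    MemLp (egL n k) 2 (Pd M) ∧ Var[egL n k; Pd M] = n * Var[fun a : ℝ => a; gA M] := by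
  induction n with
  | zero =>
    have e : egL 0 k = 0 := by funext ω; simp [egL, Hd, evol]
    rw [e]
    exact ⟨MemLp.zero, by simp⟩
  | succ n ih =>
    have := eg_step ih.1 (eg_lawA M k) (egL_indep M n k)
    rw [egL_succ]
    refine ⟨this.1, ?_⟩
    rw [this.2, ih.2]
    push_cast
    ring

theorem egR_both (M n : ℕ) (k : ℤ) :
    MemLp (egR n k) 2 (Pd M) ∧ Var[egR n k; Pd M] = n * Var[fun a : ℝ => a; gA M] := by
  induction n with
  | zero =>
    have e : egR 0 k = 0 := by funext ω; simp [egR, Hd, evol]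
    rw [e]
    exact ⟨MemLp.zero, by simp⟩
  | succ n ih =>
    have := eg_step ih.1 (eg_lawB M (k + n)) (egR_indep M n k)
    rw [egR_succ]
    refine ⟨this.1, ?_⟩
    rw [this.2, ih.2]
    push_cast
    ring

theorem Hd_memLp (M n : ℕ) (k : ℤ) : MemLp (Hd n k) 2 (Pd M) := by
  have e : Hd n k = egL n k + fun ω => prof ω.1 k := by
    funext ω
    simp [egL]
  rw [e]
  exact (egL_both M n k).1.add (prof_memLp M k)

theorem edge_left (M n : ℕ) (k : ℤ) :
    Var[fun ω => Hd n k ω - prof ω.1 k; Pd M] = n * Var[fun a : ℝ => a; gA M] := by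
  exact (egL_both M n k).2

theorem edge_right (M n : ℕ) (k : ℤ) :
    Var[fun ω => Hd n k ω - prof ω.1 (k + n); Pd M] = n * Var[fun a : ℝ => a; gA M] := by
  exact (egR_both M n k).2

theorem egR_exp (M n : ℕ) (k : ℤ) :
    Integrable (fun ω => Real.exp (-egR n k ω)) (Pd M) ∧
      ∫ ω, Real.exp (-egR n k ω) ∂Pd M = ((M : ℝ) + 1) ^ n := by
  induction n with
  | zero =>
    have e : egR 0 k = 0 := by funext ω; simp [egR, Hd, evol]
    rw [e]
    simp
  | succ n ih =>
    have hm : Measurable fun ω => Real.exp (-egR n k ω) := (egR_meas n k).neg.exp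
    have a1 : Integrable (fun ω => Real.exp (-egR n k (th0 ω))) (Pd M) :=
      (mp_th0 M).integrable_comp_of_integrable ih.1
    have a2 : Integrable (fun ω : Row × Rows => Real.exp (bOf ω.1 (ω.2 0) (k + n))) (Pd M) :=
      (eg_lawB M (k + n)).integrable_comp_of_integrable (gA_exp M).1
    have a3 : IndepFun (fun ω => Real.exp (-egR n k (th0 ω)))
        (fun ω : Row × Rows => Real.exp (bOf ω.1 (ω.2 0) (k + n))) (Pd M) :=
      (egR_indep M n k).comp (φ := fun x => Real.exp (-x)) (ψ := Real.exp) (by fun_prop)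
        Real.measurable_exp
    have e : (fun ω => Real.exp (-egR (n + 1) k ω)) = fun ω => Real.exp (-egR n k (th0 ω)) *
        Real.exp (bOf ω.1 (ω.2 0) (k + n)) := by
      funext ω
      rw [egR_succ, ← Real.exp_add]
      congr 1
      ring
    have b1 : ∫ ω, Real.exp (-egR n k (th0 ω)) ∂Pd M = ((M : ℝ) + 1) ^ n := by
      rw [← ih.2, ← integral_map (mp_th0 M).aemeasurable hm.aestronglyMeasurable,
        (mp_th0 M).map_eq]
    have b2 : ∫ ω : Row × Rows, Real.exp (bOf ω.1 (ω.2 0) (k + n)) ∂Pd M = (M : ℝ) + 1 := by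
      rw [← (gA_exp M).2, ← integral_map (eg_lawB M (k + n)).aemeasurable
        Real.measurable_exp.aestronglyMeasurable, (eg_lawB M (k + n)).map_eq]
    rw [e]
    refine ⟨a3.integrable_mul a1 a2, ?_⟩
    rw [a3.integral_fun_mul_eq_mul_integral a1.1 a2.1, b1, b2, pow_succ]

theorem edge_exp (M n : ℕ) (k : ℤ) :
    Integrable (fun ω : Row × Rows => Real.exp (prof ω.1 (k + n) - Hd n k ω)) (Pd M) ∧
      ∫ ω, Real.exp (prof ω.1 (k + n) - Hd n k ω) ∂Pd M = ((M : ℝ) + 1) ^ n := by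
  simpa only [egR, neg_sub] using egR_exp M n k

theorem cov_right (M n : ℕ) {k : ℤ} (h : -(n : ℤ) ≤ k) :
    2 * cov[Hd n k, fun ω => prof ω.1 (k + n); Pd M] =
      Var[Hd n k; Pd M] + Var[fun a : ℝ => a; gA M] * (2 * (k : ℝ) + n) := by
  have a1 := variance_fun_sub (Hd_memLp M n k) (prof_memLp M (k + n))
  have h0 : (0 : ℝ) ≤ ((k + n : ℤ) : ℝ) := by exact_mod_cast (by omega : (0 : ℤ) ≤ k + n)
  rw [edge_right, prof_var, mu_var, abs_of_nonneg h0] at a1
  push_cast at a1
  linarith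

theorem cov_left (M n : ℕ) {k : ℤ} (h : k ≤ 0) :
    2 * cov[Hd n k, fun ω => prof ω.1 k; Pd M] =
      Var[Hd n k; Pd M] - Var[fun a : ℝ => a; gA M] * (2 * (k : ℝ) + n) := by
  have a1 := variance_fun_sub (Hd_memLp M n k) (prof_memLp M k)
  have h0 : (k : ℝ) ≤ 0 := by exact_mod_cast h
  rw [edge_left, prof_var, mu_var, abs_of_nonpos h0] at a1
  linarith

end Pool.Agent.K6329
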