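import Pool.Agent.Lib.MP_632999_pr.K.Defs

/-! Product spaces. Hint: `Measure.eq_infinitePi`, `infinitePi_pi`, `infinitePi_map_pi`,
`map_infinitePi_infinitePi_of_inj`, `infinitePi_map_restrict`,
`measurePreserving_arrowProdEquivProdArrow`. -/

namespace Pool.Agent.K6329

open MeasureTheory ProbabilityTheory Filter Topology Set Function
open scoped NNReal ENNReal

theorem gen_update {ι X : Type} [DecidableEq ι] [MeasurableSpace X] (m : Measure X)
    [IsProbabilityMeasure m] (k : ι) :
    MeasurePreserving (fun p : (ι → X) × X => update p.1 k p.2)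
      ((Measure.infinitePi fun _ : ι => m).prod m) (Measure.infinitePi fun _ : ι => m) := by
  have hm : Measurable fun p : (ι → X) × X => update p.1 k p.2 := measurable_update'
  refine ⟨hm, Measure.eq_infinitePi _ fun s t ht => ?_⟩
  rw [Measure.map_apply hm (.pi s.countable_toSet fun _ _ => ht _)]
  by_cases hk : k ∈ s
  · have h : (fun p : (ι → X) × X => update p.1 k p.2) ⁻¹' ((s : Set ι).pi t) =
        (((s.erase k : Finset ι) : Set ι).pi t) ×ˢ t k := by
      ext p
      simp only [mem_preimage, Set.mem_pi, Finset.mem_coe, mem_prod, Finset.mem_erase]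
      constructor
      · intro h
        refine ⟨fun i hi => ?_, ?_⟩
        · have := h i hi.2
          rwa [update_of_ne hi.1] at this
        · have := h k hk
          rwa [update_self] at this
      · rintro ⟨h1, h2⟩ i hi
        by_cases hik : i = k
        · subst hik
          rwa [update_self]
        · rw [update_of_ne hik]
          exact h1 i ⟨hik, hi⟩
    rw [h, Measure.prod_prod, Measure.infinitePi_pi _ fun i _ => ht i,
      Finset.prod_erase_mul s (fun i => m (t i)) hk]
  · have h : (fun p : (ι → X) × X => update p.1 k p.2) ⁻¹' ((s : Set ι).pi t) =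
        ((s : Set ι).pi t) ×ˢ univ := by
      ext p
      simp only [mem_preimage, Set.mem_pi, Finset.mem_coe, mem_prod, mem_univ, and_true]
      refine forall₂_congr fun i hi => ?_
      rw [update_of_ne (fun hik : i = k => hk (hik ▸ hi))]
    rw [h, Measure.prod_prod, Measure.infinitePi_pi _ fun i _ => ht i, measure_univ, mul_one]

theorem gen_indep {ι X β : Type} [DecidableEq ι] [MeasurableSpace X] [MeasurableSpace β]
    (m : Measure X) [IsProbabilityMeasure m] {F : (ι → X) → β} (hF : Measurable F) (k : ι)
    (h : ∀ ξ u, F (update ξ k u) = F ξ) :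
    IndepFun (fun ξ : ι → X => ξ k) F (Measure.infinitePi fun _ : ι => m) := by
  rw [indepFun_iff_measure_inter_preimage_eq_mul]
  intro s t hs ht
  have h1 : Measurable fun ξ : ι → X => ξ k := measurable_pi_apply k
  have h2 : (Measure.infinitePi fun _ : ι => m) ((fun ξ : ι → X => ξ k) ⁻¹' s) = m s := by
    rw [← Measure.map_apply h1 hs, Measure.infinitePi_map_eval]
  rw [h2, ← (gen_update m k).measure_preimage ((h1 hs).inter (hF ht)).nullMeasurableSet]
  have h3 : (fun p : (ι → X) × X => update p.1 k p.2) ⁻¹'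
      ((fun ξ : ι → X => ξ k) ⁻¹' s ∩ F ⁻¹' t) = (F ⁻¹' t) ×ˢ s := by
    ext p
    simp only [mem_preimage, mem_inter_iff, mem_prod, update_self, h]
    exact and_comm
  rw [h3, Measure.prod_prod, mul_comm]

theorem gen_zip {ι X Y : Type} [MeasurableSpace X] [MeasurableSpace Y] (m₁ : Measure X)
    (m₂ : Measure Y) [IsProbabilityMeasure m₁] [IsProbabilityMeasure m₂] :
    MeasurePreserving (fun (p : (ι → X) × (ι → Y)) (k : ι) => (p.1 k, p.2 k))
      ((Measure.infinitePi fun _ : ι => m₁).prod (Measure.infinitePi fun _ : ι => m₂))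
      (Measure.infinitePi fun _ : ι => m₁.prod m₂) := by
  have hm : Measurable fun (p : (ι → X) × (ι → Y)) (k : ι) => (p.1 k, p.2 k) := by fun_prop
  refine ⟨hm, Measure.eq_infinitePi _ fun s t ht => ?_⟩
  rw [Measure.map_apply hm (.pi s.countable_toSet fun _ _ => ht _)]
  have r1 : MeasurePreserving (s.restrict (π := fun _ => X)) (Measure.infinitePi fun _ : ι => m₁)
      (Measure.pi fun _ : s => m₁) :=
    ⟨Finset.measurable_restrict s, Measure.infinitePi_map_restrict _⟩
  have r2 : MeasurePreserving (s.restrict (π := fun _ => Y)) (Measure.infinitePi fun _ : ι => m₂)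
      (Measure.pi fun _ : s => m₂) :=
    ⟨Finset.measurable_restrict s, Measure.infinitePi_map_restrict _⟩
  have r3 := (measurePreserving_arrowProdEquivProdArrow X Y s (fun _ => m₁) (fun _ => m₂)).symm
  have r4 := r3.comp (r1.prod r2)
  have h : (fun (p : (ι → X) × (ι → Y)) (k : ι) => (p.1 k, p.2 k)) ⁻¹' ((s : Set ι).pi t) =
      ((MeasurableEquiv.arrowProdEquivProdArrow X Y s).symm ∘
        Prod.map (s.restrict (π := fun _ => X)) (s.restrict (π := fun _ => Y))) ⁻¹'
        (univ.pi fun i : s => t i) := by
    ext p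
    simp only [mem_preimage, Set.mem_pi, Finset.mem_coe, mem_univ, true_imp_iff, Subtype.forall]
    exact Iff.rfl
  rw [h, r4.measure_preimage (MeasurableSet.univ_pi fun i => ht _).nullMeasurableSet,
    Measure.pi_pi, Finset.prod_coe_sort s fun i => (m₁.prod m₂) (t i)]

theorem gen_unzip {ι X Y : Type} [MeasurableSpace X] [MeasurableSpace Y] (m₁ : Measure X)
    (m₂ : Measure Y) [IsProbabilityMeasure m₁] [IsProbabilityMeasure m₂] :
    MeasurePreserving
      (fun c : ι → X × Y => ((fun k => (c k).1, fun k => (c k).2) : (ι → X) × (ι → Y)))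
      (Measure.infinitePi fun _ : ι => m₁.prod m₂)
      ((Measure.infinitePi fun _ : ι => m₁).prod (Measure.infinitePi fun _ : ι => m₂)) := by
  have hm : Measurable
      fun c : ι → X × Y => ((fun k => (c k).1, fun k => (c k).2) : (ι → X) × (ι → Y)) := by
    fun_prop
  refine ⟨hm, ?_⟩
  rw [← (gen_zip (ι := ι) m₁ m₂).map_eq, Measure.map_map hm (gen_zip (ι := ι) m₁ m₂).measurable]
  exact Measure.map_id

theorem gen_map {ι X Y : Type} [MeasurableSpace X] [MeasurableSpace Y] {m : Measure X}
    {m' : Measure Y} [IsProbabilityMeasure m] [IsProbabilityMeasure m'] {f : X → Y}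
    (hf : MeasurePreserving f m m') :
    MeasurePreserving (fun (ξ : ι → X) (k : ι) => f (ξ k)) (Measure.infinitePi fun _ : ι => m)
      (Measure.infinitePi fun _ : ι => m') := by
  have hm := hf.measurable
  refine ⟨by fun_prop, ?_⟩
  rw [Measure.infinitePi_map_pi (fun _ : ι => m) (f := fun _ => f) fun _ => hm]
  simp only [hf.map_eq]

theorem gen_inj {ι κ X : Type} [MeasurableSpace X] (m : Measure X) [IsProbabilityMeasure m]
    {e : κ → ι} (he : Injective e) :
    MeasurePreserving (fun (ξ : ι → X) (k : κ) => ξ (e k)) (Measure.infinitePi fun _ : ι => m)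
      (Measure.infinitePi fun _ : κ => m) :=
  ⟨by fun_prop, Measure.map_infinitePi_infinitePi_of_inj (P := fun _ : ι => m) he⟩

theorem mp_update (m : Measure ℝ) [IsProbabilityMeasure m] (k : ℤ) :
    MeasurePreserving (fun p : Row × ℝ => update p.1 k p.2) ((piR m).prod m) (piR m) := by
  exact gen_update m k

theorem mp_zip {m₁ m₂ m₃ m₄ : Measure ℝ} [IsProbabilityMeasure m₁] [IsProbabilityMeasure m₂]
    [IsProbabilityMeasure m₃] [IsProbabilityMeasure m₄] {f : ℝ × ℝ → ℝ × ℝ}
    (hf : MeasurePreserving f (m₁.prod m₂) (m₃.prod m₄)) :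
    MeasurePreserving
      (fun p : Row × Row => ((fun k => (f (p.1 k, p.2 k)).1, fun k => (f (p.1 k, p.2 k)).2) : Row × Row))
      ((piR m₁).prod (piR m₂)) ((piR m₃).prod (piR m₄)) := by
  exact (gen_unzip m₃ m₄).comp ((gen_map hf).comp (gen_zip m₁ m₂))

theorem mp_shift (m : Measure ℝ) [IsProbabilityMeasure m] (j : ℤ) :
    MeasurePreserving (fun (ξ : Row) (k : ℤ) => ξ (k + j)) (piR m) (piR m) := by
  exact gen_inj m (e := fun k : ℤ => k + j) (add_left_injective j)

theorem mp_map {m m' : Measure ℝ} [IsProbabilityMeasure m] [IsProbabilityMeasure m'] {f : ℝ → ℝ}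
    (hf : MeasurePreserving f m m') :
    MeasurePreserving (fun (ξ : Row) (k : ℤ) => f (ξ k)) (piR m) (piR m') := by
  exact gen_map hf

theorem mp_mapRR {m m' : Measure ℝ} [IsProbabilityMeasure m] [IsProbabilityMeasure m']
    {g : Row → Row} (hg : MeasurePreserving g (piR m) (piR m')) :
    MeasurePreserving (fun (c : Rows) (n : ℕ) => g (c n)) (piRR m) (piRR m') := by
  exact gen_map hg

theorem mp_uncons (m : Measure ℝ) [IsProbabilityMeasure m] :
    MeasurePreserving (fun c : Rows => ((c 0, fun n => c (n + 1)) : Row × Rows))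
      (piRR m) ((piR m).prod (piRR m)) := by
  have h1 : MeasurePreserving (fun (c : Rows) (n : ℕ) => c (n + 1)) (piRR m) (piRR m) :=
    gen_inj (piR m) (e := fun n : ℕ => n + 1) (add_left_injective 1)
  have h0 : MeasurePreserving (fun c : Rows => c 0) (piRR m) (piR m) :=
    measurePreserving_eval_infinitePi (fun _ : ℕ => piR m) 0
  have h2 : IndepFun (fun c : Rows => c 0) (fun (c : Rows) (n : ℕ) => c (n + 1)) (piRR m) :=
    gen_indep (piR m) h1.measurable 0 fun c r => by
      funext n
      rw [update_of_ne (Nat.succ_ne_zero n)]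
  refine ⟨h0.measurable.prodMk h1.measurable, ?_⟩
  rw [(indepFun_iff_map_prod_eq_prod_map_map h0.measurable.aemeasurable
    h1.measurable.aemeasurable).1 h2, h0.map_eq, h1.map_eq]

theorem mp_cons (m : Measure ℝ) [IsProbabilityMeasure m] :
    MeasurePreserving (fun (p : Row × Rows) (n : ℕ) => (Nat.casesOn n p.1 p.2 : Row))
      ((piR m).prod (piRR m)) (piRR m) := by
  have hm : Measurable fun (p : Row × Rows) (n : ℕ) => (Nat.casesOn n p.1 p.2 : Row) := by
    refine measurable_pi_lambda _ fun n => ?_
    cases n with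
    | zero => exact measurable_fst
    | succ n => exact (measurable_pi_apply n).comp measurable_snd
  refine ⟨hm, ?_⟩
  rw [← (mp_uncons m).map_eq, Measure.map_map hm (mp_uncons m).measurable]
  have h : ((fun (p : Row × Rows) (n : ℕ) => (Nat.casesOn n p.1 p.2 : Row)) ∘
      fun c : Rows => ((c 0, fun n => c (n + 1)) : Row × Rows)) = id := by
    funext c n
    cases n <;> rfl
  rw [h, Measure.map_id]

/-- a function that ignores the coordinate `k` is independent of it (use `mp_update`) -/
theorem indep_eval (m : Measure ℝ) [IsProbabilityMeasure m] {β : Type} [MeasurableSpace β]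
    {F : Row → β} (hF : Measurable F) (k : ℤ) (h : ∀ ξ u, F (update ξ k u) = F ξ) :
    IndepFun (fun ξ : Row => ξ k) F (piR m) := by
  exact gen_indep m hF k h

/-- the same for the row `n` of the noise -/
theorem indep_row (m : Measure ℝ) [IsProbabilityMeasure m] {β : Type} [MeasurableSpace β]
    {F : Rows → β} (hF : Measurable F) (n : ℕ) (h : ∀ c r, F (update c n r) = F c) :
    IndepFun (fun c : Rows => c n) F (piRR m) := by
  exact gen_indep (piR m) hF n h

end Pool.Agent.K6329
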