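import Pool.Agent.Lib.MP_632999_pr.K.BG
import Pool.Agent.Lib.MP_632999_pr.K.Prod

/-! One step of the dynamics. With `h' = evol (prof xi) c 1`: `aOf k = h k - h' k`,
`bOf k = h (k+1) - h' k`, `xiOf a b k = h' (k+1) - h' k`,
`xOf a b k = h (k+1) + lse (-h' k) (-h' (k+1))`. -/

namespace Pool.Agent.K6329

open MeasureTheory ProbabilityTheory Filter Topology Set Function
open scoped NNReal ENNReal

theorem prof_zero (ξ : Row) : prof ξ 0 = 0 := by
  simp [prof]

theorem prof_succ (ξ : Row) (j : ℤ) : prof ξ (j + 1) = prof ξ j + ξ j := by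
  unfold prof
  rcases le_or_gt 0 j with h | h
  · have e : Finset.Ico 0 (j + 1) = insert j (Finset.Ico 0 j) := by
      ext x; simp only [Finset.mem_Ico, Finset.mem_insert]; omega
    rw [e, Finset.sum_insert (by simp), Finset.Ico_eq_empty_of_le h,
      Finset.Ico_eq_empty_of_le (show (0 : ℤ) ≤ j + 1 by omega)]
    ring
  · have e : Finset.Ico j 0 = insert j (Finset.Ico (j + 1) 0) := by
      ext x; simp only [Finset.mem_Ico, Finset.mem_insert]; omega
    rw [e, Finset.sum_insert (by simp), Finset.Ico_eq_empty_of_le h.le,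
      Finset.Ico_eq_empty_of_le (show j + 1 ≤ 0 by omega)]
    ring

/-- a profile is determined by its increments -/
theorem prof_eq {h ξ : Row} (hξ : ∀ j, ξ j = h (j + 1) - h j) (j : ℤ) : prof ξ j = h j - h 0 := by
  induction j using Int.induction_on with
  | zero => simp [prof_zero]
  | succ i ih => rw [prof_succ, ih, hξ]; ring
  | pred i ih =>
    have h1 := prof_succ ξ (-(i : ℤ) - 1)
    rw [hξ, sub_add_cancel, ih] at h1
    linarith

theorem prof_neg (ξ : Row) (j : ℤ) : prof (-ξ) j = -prof ξ j := by
  simp only [prof, Pi.neg_apply, Finset.sum_neg_distrib]; ring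

theorem measurable_prof (j : ℤ) : Measurable fun ξ : Row => prof ξ j := by
  unfold prof; fun_prop

theorem lse_eq (a b : ℝ) : lse a b = a + sp (b - a) := by
  have e : Real.exp a + Real.exp b = Real.exp a * (1 + Real.exp (b - a)) := by
    rw [mul_add, mul_one, ← Real.exp_add, add_sub_cancel]
  rw [lse, e, Real.log_mul (Real.exp_ne_zero a) (by positivity), Real.log_exp, sp]

theorem evol_add_const (h : Row) (c : Rows) (a : ℝ) (n : ℕ) (k : ℤ) :
    evol (fun j => h j + a) c n k = evol h c n k + a := by
  induction n generalizing k with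
  | zero => rfl
  | succ n ih => simp only [evol, ih, lse_eq, add_sub_add_right_eq_sub]; ring

theorem evol_shift (h : Row) (c : Rows) (s : ℤ) (n : ℕ) (k : ℤ) :
    evol (fun j => h (j + s)) (fun m j => c m (j + s)) n k = evol h c n (k + s) := by
  induction n generalizing k with
  | zero => rfl
  | succ n ih => simp only [evol, ih, add_right_comm k 1 s]

theorem evol_add (h : Row) (c : Rows) (n m : ℕ) :
    evol h c (n + m) = evol (evol h c n) (fun i => c (n + i)) m := by
  induction m with
  | zero => rfl
  | succ m ih =>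
    funext k
    show lse (evol h c (n + m) k) (evol h c (n + m) (k + 1)) - c (n + m) k = _
    rw [ih]; rfl

theorem measurable_evol (n : ℕ) (k : ℤ) : Measurable fun p : Row × Rows => evol p.1 p.2 n k := by
  induction n generalizing k with
  | zero => exact (measurable_pi_apply k).comp measurable_fst
  | succ n ih =>
    have h1 := ih k
    have h2 := ih (k + 1)
    simp only [evol, lse]
    fun_prop

theorem measurable_Hd (n : ℕ) (k : ℤ) : Measurable (Hd n k) := by
  exact (measurable_evol n k).comp
    (((measurable_pi_lambda _ measurable_prof).comp measurable_fst).prodMk measurable_snd)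

theorem measurable_zd (M n : ℕ) (k : ℤ) : Measurable (zd M n k) := by
  exact ((measurable_Hd n k).add_const _).exp

theorem Hd_succ (n : ℕ) (k : ℤ) (ω : Row × Rows) :
    Hd (n + 1) k ω = Hd n k (th0 ω) - aOf ω.1 (ω.2 0) 0 := by
  have h1 : ∀ j, evol (prof ω.1) ω.2 1 j = prof ω.1 j - aOf ω.1 (ω.2 0) j := fun j => by
    simp only [evol, lse_eq, prof_succ, aOf, add_sub_cancel_left]; ring
  have h2 : prof (th0 ω).1 = fun j => evol (prof ω.1) ω.2 1 j + aOf ω.1 (ω.2 0) 0 := by
    funext j
    rw [prof_eq (h := evol (prof ω.1) ω.2 1) fun j => by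
      simp only [h1, prof_succ, th0, xiOf, aOf, bOf]; ring, h1 0, prof_zero]
    ring
  rw [Hd, Hd, h2, evol_add_const, add_comm n 1, evol_add, add_sub_cancel_right]
  simp only [th0, add_comm 1]

theorem mp_ab (M : ℕ) :
    MeasurePreserving (fun p : Row × Row => (aOf p.1 p.2, bOf p.1 p.2))
      ((piR (mu M)).prod (piR (gC M))) ((piR (gA M)).prod (piR (gA M))) := by
  exact mp_zip (bg_fwd M)

theorem mp_xx (M : ℕ) :
    MeasurePreserving (fun p : Row × Row => (xiOf p.1 p.2, xOf p.1 p.2))
      ((piR (gA M)).prod (piR (gA M))) ((piR (mu M)).prod (piR (gC M))) := by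
  have h := (mp_zip (bg_bwd M)).comp ((mp_shift (gA M) 1).prod (MeasurePreserving.id (piR (gA M))))
  refine h.congr ?_ (ae_of_all _ fun p => ?_)
  · unfold xiOf xOf lse; fun_prop
  · simp only [comp, Prod.map, id, lse, add_comm (Real.exp (p.1 _))]; rfl

/-- the first step in the variables `(a, b)`, the later rows untouched -/
theorem mp_abc (M : ℕ) :
    MeasurePreserving
      (fun ω : Row × Rows => (((aOf ω.1 (ω.2 0), bOf ω.1 (ω.2 0)), fun m => ω.2 (m + 1)) :
        (Row × Row) × Rows))
      (Pd M) (((piR (gA M)).prod (piR (gA M))).prod (piRR (gC M))) := by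
  exact (((mp_ab M).prod (MeasurePreserving.id _)).comp
    ((measurePreserving_prodAssoc _ _ _).symm _)).comp
    ((MeasurePreserving.id (piR (mu M))).prod (mp_uncons (gC M)))

theorem mp_th0 (M : ℕ) : MeasurePreserving th0 (Pd M) (Pd M) := by
  exact ((measurePreserving_fst.comp (mp_xx M)).prod (MeasurePreserving.id _)).comp (mp_abc M)

end Pool.Agent.K6329
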