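import Pool.Agent.Lib.MP_632999_pr.K.Harris
import Pool.Agent.Lib.MP_632999_pr.K.Step

/-! The abstract lower bound. `hoeffding` on `Ico l r ∪ s`; for `k` outside `Ico l r` the function
`cond1 m F k` is constant. For `k` inside, with `f = cond1 m F k`, `g = cond1 m G k`, `E = |u|+|u'|`:
`|g u - g u'| <= alpha exp(E) |u-u'|` (`exp|xi k| q <= q + exp|xi k| - 1`), `f` is monotone or antitone,
`|df(u,u')| |v-v'| <= exp(E+E') |df(v,v')| |u-u'|`; multiply by `|u-u'| exp(E) |v-v'| exp(-E')` and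
integrate: `(int |df||du| exp E) * rhoM <= rhoP * int |df||dv| = 2 rhoP |cov(f,id)|`. Then `cov_eval`
and `prof r = sum_{0 <= k < r}`, `prof l = - sum_{l <= k < 0}`. -/

namespace Pool.Agent.K6329

open MeasureTheory ProbabilityTheory Filter Topology Set Function
open scoped NNReal ENNReal

section Help

set_option linter.unusedSectionVars false

variable {m : Measure ℝ} [IsProbabilityMeasure m]

theorem low_sq_le (x : ℝ) : x ^ 2 ≤ Real.exp (2 * |x|) := by
  have h1 : |x| ≤ Real.exp |x| := by linarith [Real.add_one_le_exp |x|]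
  calc x ^ 2 = |x| ^ 2 := (sq_abs x).symm
    _ ≤ Real.exp |x| ^ 2 := pow_le_pow_left₀ (abs_nonneg x) h1 2
    _ = Real.exp (2 * |x|) := by rw [← Real.exp_nat_mul]; norm_num

theorem low_memLp (hm : Integrable (fun u => Real.exp (4 * |u|)) m) :
    MemLp (fun u : ℝ => u) 2 m := by
  rw [memLp_two_iff_integrable_sq (by fun_prop)]
  refine hm.mono' (by fun_prop) (Eventually.of_forall fun u => ?_)
  rw [Real.norm_eq_abs, abs_of_nonneg (sq_nonneg u)]
  exact (low_sq_le u).trans (Real.exp_le_exp.2 (by linarith [abs_nonneg u]))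

theorem low_int_exp (hm : Integrable (fun u => Real.exp (4 * |u|)) m) :
    Integrable (fun u : ℝ => Real.exp |u|) m := by
  refine hm.mono' (by fun_prop) (Eventually.of_forall fun u => ?_)
  rw [Real.norm_eq_abs, abs_of_pos (Real.exp_pos _)]
  exact Real.exp_le_exp.2 (by linarith [abs_nonneg u])

theorem low_om (hm : Integrable (fun u => Real.exp (4 * |u|)) m) : 0 ≤ om m := by
  have h : ∫ _ : ℝ, (1 : ℝ) ∂m ≤ ∫ u, Real.exp |u| ∂m :=
    integral_mono (integrable_const _) (low_int_exp hm) fun u => Real.one_le_exp (abs_nonneg u)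
  simp only [integral_const, probReal_univ, smul_eq_mul, mul_one] at h
  unfold om; linarith

theorem low_int2 (hm : Integrable (fun u => Real.exp (4 * |u|)) m) {φ : ℝ × ℝ → ℝ}
    (hφ : Measurable φ)
    (h : ∀ p : ℝ × ℝ, |φ p| ≤ (p.1 - p.2) ^ 2 * Real.exp (2 * (|p.1| + |p.2|))) :
    Integrable φ (m.prod m) := by
  refine (hm.mul_prod hm).mono' hφ.aestronglyMeasurable (Eventually.of_forall fun p => ?_)
  rw [Real.norm_eq_abs]
  refine (h p).trans ?_
  have h1 : |p.1 - p.2| ≤ |p.1| + |p.2| := abs_sub _ _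
  calc (p.1 - p.2) ^ 2 * Real.exp (2 * (|p.1| + |p.2|))
      ≤ Real.exp (2 * (|p.1| + |p.2|)) * Real.exp (2 * (|p.1| + |p.2|)) :=
        mul_le_mul_of_nonneg_right ((low_sq_le _).trans (Real.exp_le_exp.2 (by linarith)))
          (Real.exp_pos _).le
    _ = _ := by rw [← Real.exp_add, ← Real.exp_add]; congr 1; ring

theorem low_prod {α : Type} [MeasurableSpace α] {μ : Measure α} {a b c e : α → ℝ}
    (ha : Integrable a μ) (hb : Integrable b μ) (hc : Integrable c μ) (he : Integrable e μ)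
    (h : ∀ p q, a p * b q ≤ c p * e q) :
    (∫ p, a p ∂μ) * ∫ q, b q ∂μ ≤ (∫ p, c p ∂μ) * ∫ q, e q ∂μ := by
  rw [← integral_mul_const, ← integral_mul_const]
  refine integral_mono (ha.mul_const _) (hc.mul_const _) fun p => ?_
  show a p * ∫ q, b q ∂μ ≤ c p * ∫ q, e q ∂μ
  rw [← integral_const_mul, ← integral_const_mul]
  exact integral_mono (hb.const_mul _) (he.const_mul _) fun q => h p q

theorem low_meas {f : ℝ → ℝ} (hf : ∀ u v, |f u - f v| ≤ 1 * |u - v|) : Measurable f := by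
  have : LipschitzWith 1 f := LipschitzWith.of_dist_le_mul fun u v => by
    simpa [Real.dist_eq] using hf u v
  exact this.continuous.measurable

/-- the one dimensional estimate -/
theorem low_one (hm : Integrable (fun u => Real.exp (4 * |u|)) m) (hρ : 0 < rhoM m)
    {f g : ℝ → ℝ} {α ε : ℝ} (hα : 0 ≤ α) (hf : ∀ u v, |f u - f v| ≤ 1 * |u - v|)
    (hf2 : MemLp f 2 m) (hg2 : MemLp g 2 m)
    (hg : ∀ u v, |g u - g v| ≤ α * Real.exp (|u| + |v|) * |u - v|)
    (hs : ∀ u u' v v', |f u - f u'| * |v - v'| ≤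
      Real.exp (|u| + |u'| + |v| + |v'|) * (|f v - f v'| * |u - u'|))
    (hε : ∀ u v, |f u - f v| * |u - v| = ε * ((f u - f v) * (u - v))) :
    -(rhoP m / rhoM m * (α * (ε * cov[f, fun u => u; m]))) ≤ cov[f, g; m] := by
  have mf := low_meas hf
  have hd : ∀ p : ℝ × ℝ, |f p.1 - f p.2| * |p.1 - p.2| ≤ (p.1 - p.2) ^ 2 := fun p => by
    have := mul_le_mul_of_nonneg_right (hf p.1 p.2) (abs_nonneg (p.1 - p.2))
    rw [one_mul, ← sq, sq_abs] at this
    exact this
  have hE : ∀ p : ℝ × ℝ, 0 ≤ |p.1| + |p.2| := fun p => by positivity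
  have ia : Integrable (fun p : ℝ × ℝ =>
      |f p.1 - f p.2| * |p.1 - p.2| * Real.exp (|p.1| + |p.2|)) (m.prod m) := by
    refine low_int2 hm (by fun_prop) fun p => ?_
    rw [abs_of_nonneg (by positivity)]
    exact mul_le_mul (hd p) (Real.exp_le_exp.2 (by linarith [hE p])) (Real.exp_pos _).le
      (sq_nonneg _)
  have ib : Integrable (fun p : ℝ × ℝ => (p.1 - p.2) ^ 2 * Real.exp (-(|p.1| + |p.2|)))
      (m.prod m) := by
    refine low_int2 hm (by fun_prop) fun p => ?_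
    rw [abs_of_nonneg (by positivity)]
    exact mul_le_mul_of_nonneg_left (Real.exp_le_exp.2 (by linarith [hE p])) (sq_nonneg _)
  have ic : Integrable (fun p : ℝ × ℝ => (p.1 - p.2) ^ 2 * Real.exp (2 * (|p.1| + |p.2|)))
      (m.prod m) :=
    low_int2 hm (by fun_prop) fun p => by rw [abs_of_nonneg (by positivity)]
  have ie : Integrable (fun p : ℝ × ℝ => |f p.1 - f p.2| * |p.1 - p.2|) (m.prod m) := by
    refine low_int2 hm (by fun_prop) fun p => ?_
    rw [abs_of_nonneg (by positivity)]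
    exact (hd p).trans (le_mul_of_one_le_right (sq_nonneg _)
      (Real.one_le_exp (by linarith [hE p])))
  have key := low_prod ia ib ic ie fun p q => by
    have h1 := hs p.1 p.2 q.1 q.2
    have h2 : 0 ≤ |p.1 - p.2| * Real.exp (|p.1| + |p.2|) * |q.1 - q.2| *
        Real.exp (-(|q.1| + |q.2|)) := by positivity
    have h3 := mul_le_mul_of_nonneg_right h1 h2
    have e1 : Real.exp (|p.1| + |p.2| + |q.1| + |q.2|) * Real.exp (|p.1| + |p.2|) *
        Real.exp (-(|q.1| + |q.2|)) = Real.exp (2 * (|p.1| + |p.2|)) := by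
      rw [← Real.exp_add, ← Real.exp_add]; congr 1; ring
    rw [← sq_abs (q.1 - q.2), ← sq_abs (p.1 - p.2), ← e1]
    calc _ = |f p.1 - f p.2| * |q.1 - q.2| * (|p.1 - p.2| * Real.exp (|p.1| + |p.2|) *
          |q.1 - q.2| * Real.exp (-(|q.1| + |q.2|))) := by ring
      _ ≤ _ := h3
      _ = _ := by ring
  obtain ⟨i1, c1⟩ := cov_one hf2 hg2
  obtain ⟨-, c2⟩ := cov_one hf2 (low_memLp hm)
  have hJ : ∫ p : ℝ × ℝ, |f p.1 - f p.2| * |p.1 - p.2| ∂m.prod m =
      2 * (ε * cov[f, fun u => u; m]) := by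
    rw [c2]
    simp_rw [hε]
    rw [integral_const_mul]; ring
  have hI : -(α * ∫ p : ℝ × ℝ, |f p.1 - f p.2| * |p.1 - p.2| * Real.exp (|p.1| + |p.2|)
      ∂m.prod m) ≤ ∫ p : ℝ × ℝ, (f p.1 - f p.2) * (g p.1 - g p.2) ∂m.prod m := by
    rw [← integral_const_mul, ← integral_neg]
    refine integral_mono (ia.const_mul α).neg i1 fun p => ?_
    have h1 := mul_le_mul_of_nonneg_left (hg p.1 p.2) (abs_nonneg (f p.1 - f p.2))
    have h2 := neg_abs_le ((f p.1 - f p.2) * (g p.1 - g p.2))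
    rw [abs_mul] at h2
    show -(α * (|f p.1 - f p.2| * |p.1 - p.2| * Real.exp (|p.1| + |p.2|))) ≤
      (f p.1 - f p.2) * (g p.1 - g p.2)
    linarith
  rw [hJ] at key
  change _ * rhoM m ≤ rhoP m * _ at key
  have k2 := (le_div_iff₀ hρ).2 key
  have k3 := mul_le_mul_of_nonneg_left k2 hα
  have k4 : α * (rhoP m * (2 * (ε * cov[f, fun u => u; m])) / rhoM m) =
      2 * (rhoP m / rhoM m * (α * (ε * cov[f, fun u => u; m]))) := by ring
  rw [c1]
  linarith

theorem low_abs_int {α : Type} [MeasurableSpace α] {μ : Measure α} {D : α → ℝ}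
    (h : (∀ x, 0 ≤ D x) ∨ ∀ x, D x ≤ 0) : ∫ x, |D x| ∂μ = |∫ x, D x ∂μ| := by
  rcases h with h | h
  · rw [abs_of_nonneg (integral_nonneg h)]
    simp_rw [fun x => abs_of_nonneg (h x)]
  · rw [abs_of_nonpos (integral_nonpos h), ← integral_neg]
    simp_rw [fun x => abs_of_nonpos (h x)]

variable {s : Finset ℤ} {F : Row → ℝ}

theorem low_diff (hm : MemLp (fun u : ℝ => u) 2 m) (hF : Nice s 1 F) (k : ℤ) (u v : ℝ) :
    cond1 m F k u - cond1 m F k v = ∫ ξ, (F (update ξ k u) - F (update ξ k v)) ∂piR m :=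
  (integral_sub (cond1_int hm hF k u) (cond1_int hm hF k v)).symm

theorem low_slope (hm : MemLp (fun u : ℝ => u) 2 m) (hF : Nice s 1 F) (slF : Slope F) {k : ℤ}
    (h : MonoAt F k ∨ AntiAt F k) (u u' v v' : ℝ) :
    |cond1 m F k u - cond1 m F k u'| * |v - v'| ≤
      Real.exp (|u| + |u'| + |v| + |v'|) * (|cond1 m F k v - cond1 m F k v'| * |u - u'|) := by
  have sg : ∀ a b : ℝ, (∀ ξ, 0 ≤ F (update ξ k a) - F (update ξ k b)) ∨
      ∀ ξ, F (update ξ k a) - F (update ξ k b) ≤ 0 := fun a b => by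
    rcases h with h | h <;> rcases le_total a b with hab | hab
    · exact Or.inr fun ξ => sub_nonpos.2 (h ξ hab)
    · exact Or.inl fun ξ => sub_nonneg.2 (h ξ hab)
    · exact Or.inl fun ξ => sub_nonneg.2 (h ξ hab)
    · exact Or.inr fun ξ => sub_nonpos.2 (h ξ hab)
  rw [low_diff hm hF, low_diff hm hF, ← low_abs_int (sg u u'), ← low_abs_int (sg v v'),
    ← integral_mul_const, ← integral_mul_const, ← integral_const_mul]
  exact integral_mono ((((cond1_int hm hF k u).sub (cond1_int hm hF k u')).abs).mul_const _)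
    (((((cond1_int hm hF k v).sub (cond1_int hm hF k v')).abs).mul_const _).const_mul _)
    fun ξ => slF k ξ u u' v v'

theorem low_exit (hm : Integrable (fun u => Real.exp (4 * |u|)) m) (hF : Nice s 1 F) {k : ℤ}
    {q : Row → ℝ} (mq : Measurable q) (q0 : ∀ ξ, 0 ≤ q ξ) (q1 : ∀ ξ, q ξ ≤ 1)
    (h : ∀ ξ u u', |F (update ξ k u) - F (update ξ k u')| ≤
      Real.exp (|u| + |u'| + |ξ k|) * q ξ * |u - u'|) (u v : ℝ) :
    |cond1 m F k u - cond1 m F k v| ≤
      (∫ ξ, q ξ ∂piR m + om m) * Real.exp (|u| + |v|) * |u - v| := by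
  have h2 := low_memLp hm
  have mp : MeasurePreserving (fun ξ : Row => ξ k) (piR m) m :=
    measurePreserving_eval_infinitePi (fun _ : ℤ => m) k
  have i1 : Integrable (fun ξ : Row => Real.exp |ξ k|) (piR m) :=
    mp.integrable_comp_of_integrable (low_int_exp hm)
  have e1 : ∫ ξ : Row, Real.exp |ξ k| ∂piR m = ∫ u, Real.exp |u| ∂m := by
    rw [← mp.map_eq, integral_map mp.measurable.aemeasurable (by fun_prop), mp.map_eq]
  have iq : Integrable q (piR m) :=
    (integrable_const (1 : ℝ)).mono' mq.aestronglyMeasurable (Eventually.of_forall fun ξ => by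
      rw [Real.norm_eq_abs, abs_of_nonneg (q0 ξ)]; exact q1 ξ)
  have i2 : Integrable (fun ξ : Row => Real.exp |ξ k| - 1) (piR m) := i1.sub (integrable_const _)
  have e2 : ∫ ξ, q ξ ∂piR m + om m = ∫ ξ, (q ξ + (Real.exp |ξ k| - 1)) ∂piR m := by
    rw [integral_add iq i2, integral_sub i1 (integrable_const _), e1]
    simp [om]
  rw [low_diff h2 hF, e2, ← integral_mul_const, ← integral_mul_const]
  refine abs_integral_le_integral_abs.trans (integral_mono
    (((cond1_int h2 hF k u).sub (cond1_int h2 hF k v)).abs)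
    (((iq.add i2).mul_const _).mul_const _) fun ξ => ?_)
  refine (h ξ u v).trans (mul_le_mul_of_nonneg_right ?_ (abs_nonneg _))
  have a1 : 1 ≤ Real.exp |ξ k| := Real.one_le_exp (abs_nonneg _)
  have a2 : Real.exp |ξ k| * q ξ ≤ q ξ + (Real.exp |ξ k| - 1) := by
    nlinarith [mul_nonneg (sub_nonneg.2 a1) (sub_nonneg.2 (q1 ξ))]
  rw [Real.exp_add (|u| + |v|), mul_assoc, mul_comm]
  exact mul_le_mul_of_nonneg_right a2 (Real.exp_pos _).le

theorem low_sign_mono (hm : MemLp (fun u : ℝ => u) 2 m) (hF : Nice s 1 F) {k : ℤ}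
    (h : MonoAt F k) (u v : ℝ) : |cond1 m F k u - cond1 m F k v| * |u - v| =
      1 * ((cond1 m F k u - cond1 m F k v) * (u - v)) := by
  rw [one_mul, ← abs_mul, abs_of_nonneg]
  rw [low_diff hm hF]
  rcases le_total u v with huv | huv
  · exact mul_nonneg_of_nonpos_of_nonpos (integral_nonpos fun ξ => sub_nonpos.2 (h ξ huv))
      (sub_nonpos.2 huv)
  · exact mul_nonneg (integral_nonneg fun ξ => sub_nonneg.2 (h ξ huv)) (sub_nonneg.2 huv)

theorem low_sign_anti (hm : MemLp (fun u : ℝ => u) 2 m) (hF : Nice s 1 F) {k : ℤ}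
    (h : AntiAt F k) (u v : ℝ) : |cond1 m F k u - cond1 m F k v| * |u - v| =
      -1 * ((cond1 m F k u - cond1 m F k v) * (u - v)) := by
  rw [neg_one_mul, ← abs_mul, abs_of_nonpos]
  rw [low_diff hm hF]
  rcases le_total u v with huv | huv
  · exact mul_nonpos_of_nonneg_of_nonpos (integral_nonneg fun ξ => sub_nonneg.2 (h ξ huv))
      (sub_nonpos.2 huv)
  · exact mul_nonpos_of_nonpos_of_nonneg (integral_nonpos fun ξ => sub_nonpos.2 (h ξ huv))
      (sub_nonneg.2 huv)

theorem low_const (hF : Nice s 1 F) {k : ℤ} (hk : k ∉ s) (g : ℝ → ℝ) :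
    cov[cond1 m F k, g; m] = 0 := by
  have : cond1 m F k = fun _ => ∫ ξ, F ξ ∂piR m := by
    funext u
    unfold cond1
    congr 1
    funext ξ
    refine hF.dep fun i hi => update_of_ne ?_ _ _
    rintro rfl
    exact hk hi
  rw [this, covariance_const_left]

theorem low_cov_sum (hm : MemLp (fun u : ℝ => u) 2 m) (hF : Nice s 1 F) (t : Finset ℤ) :
    cov[F, fun ξ => ∑ k ∈ t, ξ k; piR m] = ∑ k ∈ t, cov[cond1 m F k, fun u => u; m] := by
  rw [covariance_fun_sum_right' (μ := piR m) (X := fun (k : ℤ) (ξ : Row) => ξ k) (fun k _ =>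
    hm.comp_measurePreserving (measurePreserving_eval_infinitePi (fun _ : ℤ => m) k))
    (hF.memLp hm)]
  exact Finset.sum_congr rfl fun k _ => cov_eval hm hF k

end Help

theorem low_abs {m : Measure ℝ} [IsProbabilityMeasure m]
    (hm : Integrable (fun u => Real.exp (4 * |u|)) m) (hρ : 0 < rhoM m) {l r : ℤ} (hl : l ≤ 0)
    (hr : 0 ≤ r) {s : Finset ℤ} {F G qp qm : Row → ℝ} (hF : Nice (Finset.Ico l r) 1 F)
    (hG : Nice s 1 G) (sF : Super F) (sG : Super G) (slF : Slope F)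
    (aF : ∀ k, 0 ≤ k → AntiAt F k) (mF : ∀ k, k < 0 → MonoAt F k) (hE : Exit G qp qm) :
    rhoP m / rhoM m * ((∫ ξ, qp ξ ∂piR m + om m) * cov[F, fun ξ => prof ξ r; piR m] +
      (∫ ξ, qm ξ ∂piR m + om m) * cov[F, fun ξ => prof ξ l; piR m]) ≤ cov[F, G; piR m] := by
  have h2 := low_memLp hm
  have hom := low_om hm
  have hh := hoeffding h2 (hF.mono (Finset.subset_union_left (s₂ := s)))
    (hG.mono Finset.subset_union_right) sF sG
  rw [← Finset.sum_subset (Finset.subset_union_left (s₂ := s))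
    (fun k _ hk => low_const hF hk _), ← Finset.Ico_union_Ico_eq_Ico hl hr,
    Finset.sum_union (Finset.Ico_disjoint_Ico_consecutive l 0 r)] at hh
  have er : (fun ξ : Row => prof ξ r) = fun ξ => ∑ k ∈ Finset.Ico 0 r, ξ k := by
    funext ξ
    rw [prof, Finset.Ico_eq_empty_of_le hr, Finset.sum_empty, sub_zero]
  have el : (fun ξ : Row => prof ξ l) = fun ξ => -∑ k ∈ Finset.Ico l 0, ξ k := by
    funext ξ
    rw [prof, Finset.Ico_eq_empty_of_le hl, Finset.sum_empty, zero_sub]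
  rw [er, el, covariance_fun_neg_right, low_cov_sum h2 hF, low_cov_sum h2 hF]
  refine le_trans ?_ hh
  have a1 : ∑ k ∈ Finset.Ico 0 r, rhoP m / rhoM m * ((∫ ξ, qp ξ ∂piR m + om m) *
      cov[cond1 m F k, fun u => u; m]) ≤
      ∑ k ∈ Finset.Ico 0 r, cov[cond1 m F k, cond1 m G k; m] := by
    refine Finset.sum_le_sum fun k hk => ?_
    have hk0 := (Finset.mem_Ico.1 hk).1
    have := low_one hm hρ (add_nonneg (integral_nonneg hE.p0) hom) (cond1_lip h2 hF k)
      (cond1_memLp h2 hF k) (cond1_memLp h2 hG k)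
      (low_exit hm hG hE.mp hE.p0 (fun ξ => by linarith [hE.le1 ξ, hE.m0 ξ]) (hE.sp k hk0))
      (low_slope h2 hF slF (Or.inr (aF k hk0))) (low_sign_anti h2 hF (aF k hk0))
    refine le_trans (le_of_eq ?_) this
    ring
  have a2 : ∑ k ∈ Finset.Ico l 0, -(rhoP m / rhoM m * ((∫ ξ, qm ξ ∂piR m + om m) *
      cov[cond1 m F k, fun u => u; m])) ≤
      ∑ k ∈ Finset.Ico l 0, cov[cond1 m F k, cond1 m G k; m] := by
    refine Finset.sum_le_sum fun k hk => ?_
    have hk0 := (Finset.mem_Ico.1 hk).2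
    have := low_one hm hρ (add_nonneg (integral_nonneg hE.m0) hom) (cond1_lip h2 hF k)
      (cond1_memLp h2 hF k) (cond1_memLp h2 hG k)
      (low_exit hm hG hE.mm hE.m0 (fun ξ => by linarith [hE.le1 ξ, hE.p0 ξ]) (hE.sm k hk0))
      (low_slope h2 hF slF (Or.inl (mF k hk0))) (low_sign_mono h2 hF (mF k hk0))
    refine le_trans (le_of_eq ?_) this
    ring
  rw [← Finset.mul_sum, ← Finset.mul_sum] at a1
  rw [Finset.sum_neg_distrib, ← Finset.mul_sum, ← Finset.mul_sum] at a2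
  refine le_trans (le_of_eq ?_) (add_le_add a2 a1)
  ring

end Pool.Agent.K6329
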