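import Pool.Agent.Lib.MP_632999_pr.K.MomMu

/-! The loss factor tends to 1. With `d = u - u'`, `E = |u| + |u'|`: `(M/4) E d^2 = (M/2) E u^2 -> 1`;
`rhoP - E d^2 <= s E d^4 + E (exp(4E) - 1) / s` for every `s > 0`,
`exp|x| - 1 <= 2 (cosh x - 1) + |x|`; `E d^2 - rhoM <= rhoP - E d^2`; `E d^4 <= 16 E u^4`. -/

namespace Pool.Agent.K6329

open MeasureTheory ProbabilityTheory Filter Topology Set Function
open scoped NNReal ENNReal

namespace RhoAux

theorem squeeze {x y z : ℕ → ℝ} {C : ℝ} (hC : 0 ≤ C) (h0 : ∀ᶠ M in atTop, 0 ≤ x M)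
    (hy : Tendsto y atTop (𝓝 0)) (hz : Tendsto z atTop (𝓝 0))
    (h : ∀ t : ℝ, 0 < t → ∀ᶠ M in atTop, x M ≤ C * t + y M / t + z M) :
    Tendsto x atTop (𝓝 0) := by
  rw [tendsto_order]
  refine ⟨fun a ha => h0.mono fun M hM => lt_of_lt_of_le ha hM, fun a ha => ?_⟩
  have ht : 0 < a / (2 * (C + 1)) := by positivity
  have h1 : Tendsto (fun M => y M / (a / (2 * (C + 1))) + z M) atTop (𝓝 0) := by
    simpa using (hy.div_const (a / (2 * (C + 1)))).add hz
  have h2 := (tendsto_order.1 h1).2 (a / 2) (by positivity)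
  have h3 : C * (a / (2 * (C + 1))) ≤ a / 2 := by
    rw [← mul_div_assoc, div_le_div_iff₀ (by positivity) (by positivity)]; nlinarith
  filter_upwards [h _ ht, h2] with M h4 h5
  linarith

theorem abs_le_exp (u : ℝ) : |u| ≤ Real.exp |u| := by
  have := Real.add_one_le_exp |u|; linarith

theorem exp_abs_le (x : ℝ) : Real.exp |x| ≤ Real.exp x + Real.exp (-x) - 1 + |x| := by
  rcases le_total 0 x with h | h
  · rw [abs_of_nonneg h]; have := Real.add_one_le_exp (-x); linarith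
  · rw [abs_of_nonpos h]; have := Real.add_one_le_exp x; linarith

theorem mul_le_of_pos {a b s : ℝ} (hs : 0 < s) : a * b ≤ s * a ^ 2 + b ^ 2 / s := by
  have h1 : 0 ≤ (s * a - b / 2) ^ 2 / s + 3 / 4 * (b ^ 2 / s) := by positivity
  have h2 : (s * a - b / 2) ^ 2 / s + 3 / 4 * (b ^ 2 / s) = s * a ^ 2 + b ^ 2 / s - a * b := by
    field_simp; ring
  linarith

/-- the fourth exponential moment -/
noncomputable def A4 (M : ℕ) : ℝ := ∫ u, Real.exp (4 * |u|) ∂mu M

theorem int_sq (M : ℕ) : Integrable (fun u : ℝ => u ^ 2) (mu M) := (mu_memLp M).integrable_sq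

theorem int_id (M : ℕ) : Integrable (fun u : ℝ => u) (mu M) := (mu_memLp M).integrable one_le_two

theorem one_le_A4 {M : ℕ} (hM : 4 ≤ M) : 1 ≤ A4 M := by
  have h := integral_mono (integrable_const (1 : ℝ)) (mu_abs4 hM)
    (fun u => Real.one_le_exp (by positivity))
  simpa [A4] using h

theorem A4_le {M : ℕ} (hM : 6 ≤ M) {t : ℝ} (ht : 0 < t) :
    A4 M - 1 ≤ 4 * t + 8 / (M : ℝ) / t + 2 * (Real.exp (32 / (M : ℝ)) - 1) := by
  have hM' : (6 : ℝ) ≤ M := by exact_mod_cast hM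
  have i1 : Integrable (fun u => Real.exp (4 * u)) (mu M) :=
    mu_int (by rw [abs_of_pos (by norm_num)]; linarith)
  have i2 : Integrable (fun u => Real.exp (-4 * u)) (mu M) :=
    mu_int (by rw [abs_of_neg (by norm_num)]; linarith)
  have e2 : ∫ u, Real.exp (-4 * u) ∂mu M = ∫ u, Real.exp (4 * u) ∂mu M := by
    rw [← (mu_neg M).integral_comp (MeasurableEquiv.neg ℝ).measurableEmbedding
      (fun u => Real.exp (4 * u))]
    simp
  have i3 : Integrable (fun u : ℝ => 4 / t * u ^ 2) (mu M) := (int_sq M).const_mul _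
  have i4 : Integrable (fun u : ℝ => Real.exp (4 * u) + Real.exp (-4 * u)) (mu M) := i1.add i2
  have i5 : Integrable (fun u : ℝ => Real.exp (4 * u) + Real.exp (-4 * u) + 4 / t * u ^ 2)
      (mu M) := i4.add i3
  have h := integral_mono (mu_abs4 (by omega : 4 ≤ M)) (i5.add (integrable_const (4 * t - 1)))
    (fun u => by
      have h1 := exp_abs_le (4 * u)
      have h2 : |4 * u| = 4 * |u| := by rw [abs_mul]; norm_num
      have h3 := mul_le_of_pos (a := 1) (b := |u|) ht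
      rw [sq_abs] at h3
      rw [h2] at h1
      have h4 : 4 / t * u ^ 2 = 4 * (u ^ 2 / t) := by ring
      have h5 : -(4 * u) = -4 * u := by ring
      rw [h5] at h1
      simp only [Pi.add_apply]
      linarith)
  simp only [Pi.add_apply] at h
  rw [integral_add i5 (integrable_const _), integral_add i4 i3, integral_add i1 i2, e2,
    integral_const_mul] at h
  simp only [integral_const, probReal_univ, smul_eq_mul, one_mul] at h
  have h6 := mu_exp4 hM
  have h7 := mul_le_mul_of_nonneg_left (mu_sq_le (by omega : 1 ≤ M)) (by positivity : 0 ≤ 4 / t)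
  have h8 : 4 / t * (2 / (M : ℝ)) = 8 / (M : ℝ) / t := by ring
  unfold A4
  linarith

theorem inv_tendsto (c : ℝ) : Tendsto (fun M : ℕ => c / (M : ℝ)) atTop (𝓝 0) :=
  tendsto_const_div_atTop_nhds_zero_nat c

theorem A4_sub : Tendsto (fun M => A4 M - 1) atTop (𝓝 0) := by
  refine squeeze (C := 4) (y := fun M : ℕ => 8 / (M : ℝ))
    (z := fun M : ℕ => 2 * (Real.exp (32 / (M : ℝ)) - 1)) (by norm_num) ?_ (inv_tendsto 8) ?_ ?_
  · filter_upwards [eventually_ge_atTop 4] with M hM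
    have := one_le_A4 hM; linarith
  · have h := (((Real.continuous_exp.tendsto 0).comp (inv_tendsto 32)).sub_const 1).const_mul 2
    simpa using h
  · intro t ht
    filter_upwards [eventually_ge_atTop 6] with M hM
    exact A4_le hM ht

theorem A4_tendsto : Tendsto A4 atTop (𝓝 1) := by
  simpa using A4_sub.add_const 1

theorem int_exp_abs {M : ℕ} (hM : 4 ≤ M) : Integrable (fun u => Real.exp |u|) (mu M) := by
  refine (mu_abs4 hM).mono' (Measurable.aestronglyMeasurable (by fun_prop))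
    (Eventually.of_forall fun u => ?_)
  rw [Real.norm_eq_abs, abs_of_pos (Real.exp_pos _), Real.exp_le_exp]
  have := abs_nonneg u; linarith

theorem om_le {M : ℕ} (hM : 4 ≤ M) : om (mu M) ≤ A4 M - 1 := by
  have h := integral_mono (int_exp_abs hM) (mu_abs4 hM) (fun u => by
    simp only [Real.exp_le_exp]; have := abs_nonneg u; linarith)
  unfold om A4
  linarith

theorem om_ge {M : ℕ} (hM : 4 ≤ M) : 0 ≤ om (mu M) := by
  have h := integral_mono (integrable_const (1 : ℝ)) (int_exp_abs hM)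
    (fun u => Real.one_le_exp (abs_nonneg u))
  unfold om
  simp only [integral_const, probReal_univ, smul_eq_mul, one_mul] at h
  linarith

theorem om_tendsto : Tendsto (fun M => om (mu M)) atTop (𝓝 0) := by
  refine tendsto_of_tendsto_of_tendsto_of_le_of_le' tendsto_const_nhds A4_sub ?_ ?_
  · filter_upwards [eventually_ge_atTop 4] with M hM using om_ge hM
  · filter_upwards [eventually_ge_atTop 4] with M hM using om_le hM

theorem exp4_eq (p : ℝ × ℝ) : Real.exp (4 * (|p.1| + |p.2|)) =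
    Real.exp (4 * |p.1|) * Real.exp (4 * |p.2|) := by
  rw [← Real.exp_add]; congr 1; ring

theorem int_exp4 {M : ℕ} (hM : 4 ≤ M) :
    Integrable (fun p : ℝ × ℝ => Real.exp (4 * (|p.1| + |p.2|))) ((mu M).prod (mu M)) := by
  simp only [exp4_eq]
  exact (mu_abs4 hM).mul_prod (mu_abs4 hM)

theorem integral_exp4 (M : ℕ) :
    ∫ p : ℝ × ℝ, Real.exp (4 * (|p.1| + |p.2|)) ∂(mu M).prod (mu M) = A4 M ^ 2 := by
  simp only [exp4_eq]
  rw [integral_prod_mul (fun u => Real.exp (4 * |u|)) (fun u => Real.exp (4 * |u|)), A4, sq]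

theorem sq_le_exp (p : ℝ × ℝ) : (p.1 - p.2) ^ 2 ≤ Real.exp (2 * (|p.1| + |p.2|)) := by
  have h1 : |p.1 - p.2| ≤ |p.1| + |p.2| := abs_sub _ _
  have h2 := Real.add_one_le_exp (|p.1| + |p.2|)
  have h3 : Real.exp (2 * (|p.1| + |p.2|)) = Real.exp (|p.1| + |p.2|) ^ 2 := by
    rw [← Real.exp_nat_mul]; norm_num
  rw [h3, ← sq_abs]
  exact pow_le_pow_left₀ (abs_nonneg _) (by linarith) 2

theorem exp2_sq (p : ℝ × ℝ) : Real.exp (4 * (|p.1| + |p.2|)) =
    Real.exp (2 * (|p.1| + |p.2|)) ^ 2 := by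
  rw [← Real.exp_nat_mul]; congr 1; push_cast; ring

theorem int_P {M : ℕ} (hM : 4 ≤ M) : Integrable
    (fun p : ℝ × ℝ => (p.1 - p.2) ^ 2 * Real.exp (2 * (|p.1| + |p.2|))) ((mu M).prod (mu M)) := by
  refine (int_exp4 hM).mono' (Measurable.aestronglyMeasurable (by fun_prop))
    (Eventually.of_forall fun p => ?_)
  rw [Real.norm_eq_abs, abs_of_nonneg (by positivity), exp2_sq, sq (Real.exp _)]
  exact mul_le_mul_of_nonneg_right (sq_le_exp p) (Real.exp_pos _).le

theorem int_D (M : ℕ) : Integrable (fun p : ℝ × ℝ => (p.1 - p.2) ^ 2) ((mu M).prod (mu M)) :=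
  (((mu_memLp M).comp_fst (mu M)).sub ((mu_memLp M).comp_snd (mu M))).integrable_sq

theorem int_Mi (M : ℕ) : Integrable
    (fun p : ℝ × ℝ => (p.1 - p.2) ^ 2 * Real.exp (-(|p.1| + |p.2|))) ((mu M).prod (mu M)) := by
  refine (int_D M).mono' (Measurable.aestronglyMeasurable (by fun_prop))
    (Eventually.of_forall fun p => ?_)
  rw [Real.norm_eq_abs, abs_of_nonneg (by positivity)]
  refine mul_le_of_le_one_right (sq_nonneg _) (Real.exp_le_one_iff.2 ?_)
  have := abs_nonneg p.1; have := abs_nonneg p.2; linarith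

/-- the mean square difference of two independent copies -/
noncomputable def DD (M : ℕ) : ℝ := ∫ p : ℝ × ℝ, (p.1 - p.2) ^ 2 ∂(mu M).prod (mu M)

theorem DD_eq (M : ℕ) : DD M = 2 * ∫ u, u ^ 2 ∂mu M := by
  have i1 := (int_sq M).comp_fst (mu M)
  have i2 := (int_sq M).comp_snd (mu M)
  have i3 := ((int_id M).mul_prod (int_id M)).const_mul 2
  have e : (fun p : ℝ × ℝ => (p.1 - p.2) ^ 2) =
      fun p : ℝ × ℝ => p.1 ^ 2 + p.2 ^ 2 - 2 * (p.1 * p.2) := by
    funext p; ring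
  have i4 : Integrable (fun p : ℝ × ℝ => p.1 ^ 2 + p.2 ^ 2) ((mu M).prod (mu M)) := i1.add i2
  rw [DD, e, integral_sub i4 i3, integral_add i1 i2, integral_const_mul,
    integral_prod_mul (fun u : ℝ => u) (fun u : ℝ => u), mu_mean,
    integral_fun_fst (fun u : ℝ => u ^ 2), integral_fun_snd (fun u : ℝ => u ^ 2)]
  simp only [probReal_univ, smul_eq_mul, one_mul]
  ring

theorem DD_tendsto : Tendsto (fun M : ℕ => (M : ℝ) * DD M) atTop (𝓝 4) := by
  have h1 : Tendsto (fun M : ℕ => 4 - 12 / (M : ℝ)) atTop (𝓝 4) := by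
    simpa using (inv_tendsto 12).const_sub 4
  refine tendsto_of_tendsto_of_tendsto_of_le_of_le' h1 tendsto_const_nhds ?_ ?_
  · filter_upwards [eventually_ge_atTop 2] with M hM
    have hM' : (2 : ℝ) ≤ M := by exact_mod_cast hM
    have h := mul_le_mul_of_nonneg_left (mu_sq_ge hM) (by positivity : (0 : ℝ) ≤ 2 * M)
    have hm1 : (0 : ℝ) < M - 1 := by linarith
    have h2 : 2 * (M : ℝ) * (2 / (M : ℝ) - 3 / ((M : ℝ) * (M - 1))) = 4 - 6 / ((M : ℝ) - 1) := by
      field_simp; ring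
    have h3 : 6 / ((M : ℝ) - 1) ≤ 12 / (M : ℝ) := by
      rw [div_le_div_iff₀ hm1 (by linarith)]; linarith
    rw [DD_eq]; nlinarith
  · filter_upwards [eventually_ge_atTop 1] with M hM
    have hM' : (1 : ℝ) ≤ M := by exact_mod_cast hM
    have h := mul_le_mul_of_nonneg_left (mu_sq_le hM) (by positivity : (0 : ℝ) ≤ 2 * M)
    have h2 : 2 * (M : ℝ) * (2 / (M : ℝ)) = 4 := by field_simp; ring
    rw [DD_eq]; nlinarith

theorem DD_le_P {M : ℕ} (hM : 4 ≤ M) : DD M ≤ rhoP (mu M) :=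
  integral_mono (int_D M) (int_P hM) fun p =>
    le_mul_of_one_le_right (sq_nonneg _) (Real.one_le_exp (by positivity))

theorem Mi_le_DD (M : ℕ) : rhoM (mu M) ≤ DD M :=
  integral_mono (int_Mi M) (int_D M) fun p =>
    mul_le_of_le_one_right (sq_nonneg _) (Real.exp_le_one_iff.2 (by
      have := abs_nonneg p.1; have := abs_nonneg p.2; linarith))

theorem two_DD_le {M : ℕ} (hM : 4 ≤ M) : 2 * DD M ≤ rhoP (mu M) + rhoM (mu M) := by
  rw [DD, ← integral_const_mul, rhoP, rhoM, ← integral_add (int_P hM) (int_Mi M)]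
  refine integral_mono ((int_D M).const_mul 2) ((int_P hM).add (int_Mi M)) fun p => ?_
  have h0 : 0 ≤ |p.1| + |p.2| := by positivity
  have h1 := Real.add_one_le_exp (2 * (|p.1| + |p.2|))
  have h2 := Real.add_one_le_exp (-(|p.1| + |p.2|))
  have h3 := mul_le_mul_of_nonneg_left
    (show 2 ≤ Real.exp (2 * (|p.1| + |p.2|)) + Real.exp (-(|p.1| + |p.2|)) by linarith)
    (sq_nonneg (p.1 - p.2))
  simp only
  linarith

theorem P_sub_le {M : ℕ} (hM : 4 ≤ M) {s : ℝ} (hs : 0 < s) :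
    rhoP (mu M) - DD M ≤ s * (16 * ∫ u, u ^ 4 ∂mu M) + (A4 M ^ 2 - 1) / s := by
  have i0 := (mu_four (by omega : 2 ≤ M)).1
  have i1 := i0.comp_fst (mu M)
  have i2 := i0.comp_snd (mu M)
  have i3 : Integrable (fun p : ℝ × ℝ => 8 * s * (p.1 ^ 4 + p.2 ^ 4)) ((mu M).prod (mu M)) :=
    (i1.add i2).const_mul _
  have i4 : Integrable (fun p : ℝ × ℝ => (Real.exp (4 * (|p.1| + |p.2|)) - 1) / s)
      ((mu M).prod (mu M)) := ((int_exp4 hM).sub (integrable_const 1)).div_const s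
  have h := integral_mono ((int_P hM).sub (int_D M)) (i3.add i4) (fun p => by
    have h1 := mul_le_of_pos (a := (p.1 - p.2) ^ 2) (b := Real.exp (2 * (|p.1| + |p.2|)) - 1) hs
    have h2 : 1 ≤ Real.exp (2 * (|p.1| + |p.2|)) := Real.one_le_exp (by positivity)
    have h3 : (Real.exp (2 * (|p.1| + |p.2|)) - 1) ^ 2 ≤ Real.exp (4 * (|p.1| + |p.2|)) - 1 := by
      rw [exp2_sq]; nlinarith
    have h4 := div_le_div_of_nonneg_right h3 hs.le
    have h5 : ((p.1 - p.2) ^ 2) ^ 2 ≤ 8 * (p.1 ^ 4 + p.2 ^ 4) := by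
      have h6 : (p.1 - p.2) ^ 2 ≤ 2 * (p.1 ^ 2 + p.2 ^ 2) := by nlinarith [sq_nonneg (p.1 + p.2)]
      have h7 := pow_le_pow_left₀ (sq_nonneg _) h6 2
      nlinarith [sq_nonneg (p.1 ^ 2 - p.2 ^ 2)]
    have h8 := mul_le_mul_of_nonneg_left h5 hs.le
    simp only [Pi.add_apply, Pi.sub_apply]
    nlinarith)
  simp only [Pi.add_apply, Pi.sub_apply] at h
  rw [integral_sub (int_P hM) (int_D M), integral_add i3 i4, integral_const_mul,
    integral_add i1 i2, integral_div, integral_sub (int_exp4 hM) (integrable_const 1),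
    integral_exp4, integral_fun_fst (fun u : ℝ => u ^ 4),
    integral_fun_snd (fun u : ℝ => u ^ 4)] at h
  simp only [integral_const, probReal_univ, smul_eq_mul, one_mul] at h
  unfold rhoP DD
  linarith

theorem gap_tendsto : Tendsto (fun M : ℕ => (M : ℝ) * (rhoP (mu M) - DD M)) atTop (𝓝 0) := by
  refine squeeze (C := 384) (y := fun M : ℕ => A4 M ^ 2 - 1) (z := fun _ => 0) (by norm_num) ?_ ?_
    tendsto_const_nhds ?_
  · filter_upwards [eventually_ge_atTop 4] with M hM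
    exact mul_nonneg (Nat.cast_nonneg M) (sub_nonneg.2 (DD_le_P hM))
  · simpa using (A4_tendsto.pow 2).sub_const 1
  · intro t ht
    filter_upwards [eventually_ge_atTop 4] with M hM
    have hM' : (4 : ℝ) ≤ M := by exact_mod_cast hM
    have hm0 : (0 : ℝ) < M := by linarith
    have hm1 : (0 : ℝ) < M - 1 := by linarith
    have h := mul_le_mul_of_nonneg_left (P_sub_le hM (mul_pos ht hm0)) hm0.le
    have h1 := (mu_four (by omega : 2 ≤ M)).2
    have h2 : 12 / ((M : ℝ) * (M - 1)) ≤ 24 / (M : ℝ) ^ 2 := by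
      rw [div_le_div_iff₀ (by positivity) (by positivity)]; nlinarith
    have h3 := mul_le_mul_of_nonneg_left (h1.trans h2)
      (by positivity : (0 : ℝ) ≤ 16 * t * (M : ℝ) ^ 2)
    have h4 : 16 * t * (M : ℝ) ^ 2 * (24 / (M : ℝ) ^ 2) = 384 * t := by field_simp; ring
    have h5 : (M : ℝ) * (t * M * (16 * ∫ u, u ^ 4 ∂mu M) + (A4 M ^ 2 - 1) / (t * M)) =
        16 * t * (M : ℝ) ^ 2 * (∫ u, u ^ 4 ∂mu M) + (A4 M ^ 2 - 1) / t := by field_simp
    linarith

theorem P_tendsto : Tendsto (fun M : ℕ => (M : ℝ) * rhoP (mu M)) atTop (𝓝 4) := by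
  have h := DD_tendsto.add gap_tendsto
  rw [add_zero] at h
  exact h.congr fun M => by ring

theorem Mi_tendsto : Tendsto (fun M : ℕ => (M : ℝ) * rhoM (mu M)) atTop (𝓝 4) := by
  have h := DD_tendsto.sub gap_tendsto
  rw [sub_zero] at h
  refine tendsto_of_tendsto_of_tendsto_of_le_of_le' h DD_tendsto ?_ ?_
  · filter_upwards [eventually_ge_atTop 4] with M hM
    have := mul_le_mul_of_nonneg_left (two_DD_le hM) (Nat.cast_nonneg M : (0 : ℝ) ≤ M)
    linarith
  · exact Eventually.of_forall fun M =>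
      mul_le_mul_of_nonneg_left (Mi_le_DD M) (Nat.cast_nonneg M : (0 : ℝ) ≤ M)

end RhoAux

theorem om_nonneg {M : ℕ} (hM : 4 ≤ M) : 0 ≤ om (mu M) :=
  RhoAux.om_ge hM

theorem rhoM_pos : ∀ᶠ M : ℕ in atTop, 0 < rhoM (mu M) := by
  filter_upwards [(tendsto_order.1 RhoAux.Mi_tendsto).1 0 (by norm_num)] with M hM
  by_contra h
  have := mul_nonpos_of_nonneg_of_nonpos (Nat.cast_nonneg M : (0 : ℝ) ≤ M) (not_lt.1 h)
  linarith

theorem rho_tendsto : Tendsto rho atTop (𝓝 1) := by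
  have h := (RhoAux.P_tendsto.div RhoAux.Mi_tendsto (by norm_num)).mul
    ((RhoAux.om_tendsto.const_mul 2).const_add 1)
  have e : (4 : ℝ) / 4 * (1 + 2 * 0) = 1 := by norm_num
  rw [e] at h
  refine h.congr' ?_
  filter_upwards [eventually_ge_atTop 1] with M hM
  have hM' : (M : ℝ) ≠ 0 := by positivity
  simp only [Pi.div_apply, rho]
  rw [mul_div_mul_left _ _ hM']

end Pool.Agent.K6329
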