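import Pool.Agent.Lib.MP_632999_pr.K.Step

/-! Structure of `xi -> Hd n k (xi, c) = log sum_i exp (prof xi (k+i)) * wt c n k i` for fixed `c`.
`prof (update xi j u) i = prof (update xi j 0) i + u * (1{j < i} - 1{j < 0})`, so in one coordinate the
function is `log (A + B exp u) - u 1{j < 0}` with `A, B >= 0`, `A + B > 0`, and in two coordinates
`j < l` it is `log (A + B x + C x y)` minus a linear term, `x = exp u`, `y = exp v`;
`(A+Bx+Cxy)(A+Bx'+Cx'y') - (A+Bx+Cxy')(A+Bx'+Cx'y) = AC(x-x')(y-y')`. The slope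
`q(u) = B e^u / (A + B e^u)` and `1 - q(u)` change by a factor at most `exp |u - v|` (mean value
theorem). `qp` = share of the terms with `k+i > 0`, `qm` = share of those with `k+i < 0`. -/

namespace Pool.Agent.K6329

open MeasureTheory ProbabilityTheory Filter Topology Set Function
open scoped NNReal ENNReal

theorem wt_nonneg (c : Rows) (n : ℕ) (k : ℤ) (i : ℕ) : 0 ≤ wt c n k i := by
  induction n generalizing k i with
  | zero => simp only [wt]; split_ifs <;> norm_num
  | succ n ih =>
    simp only [wt]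
    refine mul_nonneg (add_nonneg (ih _ _) ?_) (Real.exp_pos _).le
    split_ifs
    · exact le_rfl
    · exact ih _ _

theorem measurable_wt (n : ℕ) (k : ℤ) (i : ℕ) : Measurable fun c : Rows => wt c n k i := by
  induction n generalizing k i with
  | zero => exact measurable_const
  | succ n ih =>
    simp only [wt]
    refine ((ih k i).add ?_).mul (by fun_prop)
    split_ifs
    · exact measurable_const
    · exact ih _ _

theorem str_wt_zero (c : Rows) (n : ℕ) (k : ℤ) (i : ℕ) (hi : n < i) : wt c n k i = 0 := by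
  induction n generalizing k i with
  | zero => simp only [wt]; rw [if_neg (by omega)]
  | succ n ih =>
    simp only [wt]
    rw [ih k i (by omega), if_neg (by omega), ih (k + 1) (i - 1) (by omega)]
    simp

theorem exp_evol (h : Row) (c : Rows) (n : ℕ) (k : ℤ) :
    Real.exp (evol h c n k) =
      ∑ i ∈ Finset.range (n + 1), Real.exp (h (k + i)) * wt c n k i := by
  induction n generalizing k with
  | zero => simp [evol, wt]
  | succ n ih =>
    have e : Real.exp (evol h c (n + 1) k) =
        (Real.exp (evol h c n k) + Real.exp (evol h c n (k + 1))) * Real.exp (-c n k) := by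
      simp only [evol, lse]
      rw [sub_eq_add_neg, Real.exp_add, Real.exp_log (by positivity)]
    rw [e, ih, ih]
    simp only [wt, ← mul_assoc, mul_add, ← Finset.sum_mul, Finset.sum_add_distrib]
    congr 2
    · rw [Finset.sum_range_succ _ (n + 1), str_wt_zero c n k (n + 1) (Nat.lt_succ_self n),
        mul_zero, add_zero]
    · rw [Finset.sum_range_succ' _ (n + 1)]
      simp only [Nat.add_one_ne_zero, if_false, if_true, mul_zero, add_zero, Nat.add_sub_cancel]
      refine Finset.sum_congr rfl fun i _ => ?_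
      congr 3
      push_cast
      ring

theorem str_prof_update (ξ : Row) (j : ℤ) (u : ℝ) (m : ℤ) :
    prof (update ξ j u) m = prof (update ξ j 0) m +
      u * ((if j < m then 1 else 0) - if j < 0 then 1 else 0) := by
  have key : ∀ s : Finset ℤ, ∑ i ∈ s, update ξ j u i =
      ∑ i ∈ s, update ξ j 0 i + if j ∈ s then u else 0 := by
    intro s
    rw [← Finset.sum_ite_eq s j (fun _ => u), ← Finset.sum_add_distrib]
    refine Finset.sum_congr rfl fun i _ => ?_
    by_cases e : j = i
    · subst e; simp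
    · rw [update_of_ne (Ne.symm e), update_of_ne (Ne.symm e), if_neg e, add_zero]
  simp only [prof, key, Finset.mem_Ico]
  split_ifs <;> first | ring1 | omega

/-- the slope of `log (A + B exp u)` -/
noncomputable def strQ (A B t : ℝ) : ℝ := B * Real.exp t / (A + B * Real.exp t)

theorem str_pos {A B : ℝ} (hA : 0 ≤ A) (hB : 0 ≤ B) (h : 0 < A + B) (t : ℝ) :
    0 < A + B * Real.exp t := by
  have := Real.exp_pos t
  rcases hB.eq_or_lt with rfl | hB'
  · simpa using h
  · positivity

theorem strQ_nonneg {A B : ℝ} (hA : 0 ≤ A) (hB : 0 ≤ B) (t : ℝ) : 0 ≤ strQ A B t := by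
  unfold strQ; positivity

theorem strQ_le_one {A B : ℝ} (hA : 0 ≤ A) (hB : 0 ≤ B) (h : 0 < A + B) (t : ℝ) :
    strQ A B t ≤ 1 := by
  rw [strQ, div_le_one (str_pos hA hB h t)]; linarith

theorem strQ_le {A B : ℝ} (hA : 0 ≤ A) (hB : 0 ≤ B) (h : 0 < A + B) {t s r : ℝ}
    (hr : |t| + |s| ≤ r) : strQ A B t ≤ Real.exp r * strQ A B s := by
  rw [strQ, strQ, ← mul_div_assoc, div_le_div_iff₀ (str_pos hA hB h t) (str_pos hA hB h s)]
  have h1 : Real.exp t ≤ Real.exp r * Real.exp s := by
    rw [← Real.exp_add, Real.exp_le_exp]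
    linarith [le_abs_self t, neg_abs_le s]
  have h2 : 1 ≤ Real.exp r := Real.one_le_exp (by linarith [abs_nonneg t, abs_nonneg s])
  have h3 := mul_le_mul_of_nonneg_left h1 (mul_nonneg hA hB)
  have h4 := mul_le_mul_of_nonneg_left h2
    (show 0 ≤ B * B * (Real.exp t * Real.exp s) by positivity)
  nlinarith

theorem str_mvt {A B : ℝ} (hA : 0 ≤ A) (hB : 0 ≤ B) (h : 0 < A + B) (u v : ℝ) :
    ∃ t, |t| ≤ |u| + |v| ∧ Real.log (A + B * Real.exp u) - Real.log (A + B * Real.exp v) =
      strQ A B t * (u - v) := by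
  have hd : ∀ t, HasDerivAt (fun t => Real.log (A + B * Real.exp t)) (strQ A B t) t := fun t =>
    (((Real.hasDerivAt_exp t).const_mul B).const_add A).log (str_pos hA hB h t).ne'
  have key : ∀ a b : ℝ, a < b → ∃ t, |t| ≤ |a| + |b| ∧
      Real.log (A + B * Real.exp b) - Real.log (A + B * Real.exp a) = strQ A B t * (b - a) := by
    intro a b hab
    obtain ⟨t, ht, e⟩ := exists_hasDerivAt_eq_slope (fun t => Real.log (A + B * Real.exp t))
      (strQ A B) hab (fun t _ => (hd t).continuousAt.continuousWithinAt) fun t _ => hd t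
    refine ⟨t, abs_le.2 ⟨?_, ?_⟩, ?_⟩
    · linarith [ht.1, neg_abs_le a, abs_nonneg b]
    · linarith [ht.2, le_abs_self b, abs_nonneg a]
    · rw [e, div_mul_cancel₀ _ (sub_pos.2 hab).ne']
  rcases lt_trichotomy u v with c | rfl | c
  · obtain ⟨t, h1, h2⟩ := key u v c
    exact ⟨t, h1, by linarith⟩
  · exact ⟨0, by simp, by simp⟩
  · obtain ⟨t, h1, h2⟩ := key v u c
    exact ⟨t, by linarith, h2⟩

theorem str_Hd (c : Rows) (n : ℕ) (k : ℤ) (ξ : Row) : Real.exp (Hd n k (ξ, c)) =
    ∑ i ∈ Finset.range (n + 1), Real.exp (prof ξ (k + i)) * wt c n k i := exp_evol _ _ _ _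

/-- the sign of a coordinate -/
noncomputable def strS (j : ℤ) : ℝ := if j < 0 then -1 else 1

theorem abs_strS (j : ℤ) (u : ℝ) : |strS j * u| = |u| := by
  unfold strS; split_ifs <;> simp

/-- the share of the terms whose site has the property `p` -/
noncomputable def strShare (c : Rows) (n : ℕ) (k : ℤ) (p : ℤ → Prop) [DecidablePred p] (ξ : Row) :
    ℝ :=
  (∑ i ∈ Finset.range (n + 1), if p (k + i) then Real.exp (prof ξ (k + i)) * wt c n k i else 0) /
    Real.exp (Hd n k (ξ, c))

theorem str_one (c : Rows) (n : ℕ) (k j : ℤ) (ξ : Row) : ∃ A B : ℝ, 0 ≤ A ∧ 0 ≤ B ∧ 0 < A + B ∧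
    (∀ u, Hd n k (update ξ j u, c) = Real.log (A + B * Real.exp (strS j * u))) ∧
    strQ A B (strS j * ξ j) = strShare c n k (fun m => (j < m ↔ 0 ≤ j)) ξ := by
  have hw := wt_nonneg c n k
  have e1 : ∀ u m, Real.exp (prof (update ξ j u) m) = Real.exp (prof (update ξ j 0) m) *
      if (j < m ↔ 0 ≤ j) then Real.exp (strS j * u) else 1 := by
    intro u m
    rw [str_prof_update, Real.exp_add]
    congr 1
    unfold strS
    by_cases h1 : j < m <;> by_cases h2 : j < 0
    · rw [if_pos h1, if_pos h2, if_neg (by omega)]; simp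
    · rw [if_pos h1, if_neg h2, if_pos (by omega), if_neg h2]; simp
    · rw [if_neg h1, if_pos h2, if_pos (by omega), if_pos h2]; simp
    · rw [if_neg h1, if_neg h2, if_neg (by omega)]; simp
  obtain ⟨A, hA⟩ : ∃ A, A = ∑ i ∈ Finset.range (n + 1), if (j < k + i ↔ 0 ≤ j) then 0 else
    Real.exp (prof (update ξ j 0) (k + i)) * wt c n k i := ⟨_, rfl⟩
  obtain ⟨B, hB⟩ : ∃ B, B = ∑ i ∈ Finset.range (n + 1), if (j < k + i ↔ 0 ≤ j) then
    Real.exp (prof (update ξ j 0) (k + i)) * wt c n k i else 0 := ⟨_, rfl⟩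
  have e2 : ∀ u, Real.exp (Hd n k (update ξ j u, c)) = A + B * Real.exp (strS j * u) := by
    intro u
    rw [str_Hd, hA, hB, Finset.sum_mul, ← Finset.sum_add_distrib]
    refine Finset.sum_congr rfl fun i _ => ?_
    rw [e1]
    split_ifs <;> ring
  refine ⟨A, B, ?_, ?_, ?_, fun u => ?_, ?_⟩
  · rw [hA]
    refine Finset.sum_nonneg fun i _ => ?_
    have := hw i
    split_ifs <;> positivity
  · rw [hB]
    refine Finset.sum_nonneg fun i _ => ?_
    have := hw i
    split_ifs <;> positivity
  · have := Real.exp_pos (Hd n k (update ξ j 0, c))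
    rw [e2] at this
    simpa using this
  · rw [← e2, Real.log_exp]
  · rw [strQ, strShare, ← e2, update_eq_self, hB, Finset.sum_mul]
    congr 1
    refine Finset.sum_congr rfl fun i _ => ?_
    have := e1 (ξ j) (k + i)
    rw [update_eq_self] at this
    rw [this]
    split_ifs <;> ring

theorem str_diff (c : Rows) (n : ℕ) (k j : ℤ) (ξ : Row) : ∃ q : ℝ → ℝ, (∀ t, 0 ≤ q t) ∧
    (∀ t, q t ≤ 1) ∧ (∀ t s r, |t| + |s| ≤ r → q t ≤ Real.exp r * q s) ∧
    (∀ u v, ∃ t, |t| ≤ |u| + |v| ∧
      Hd n k (update ξ j u, c) - Hd n k (update ξ j v, c) = q t * (strS j * (u - v))) ∧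
    q (strS j * ξ j) = strShare c n k (fun m => (j < m ↔ 0 ≤ j)) ξ := by
  obtain ⟨A, B, hA, hB, h, e, e'⟩ := str_one c n k j ξ
  refine ⟨strQ A B, strQ_nonneg hA hB, strQ_le_one hA hB h, fun t s r => strQ_le hA hB h,
    fun u v => ?_, e'⟩
  obtain ⟨t, h1, h2⟩ := str_mvt hA hB h (strS j * u) (strS j * v)
  rw [abs_strS, abs_strS] at h1
  exact ⟨t, h1, by rw [e, e, h2, ← mul_sub]⟩

theorem Hd_nice (c : Rows) (n : ℕ) (k : ℤ) :
    Nice (Finset.Ico (min k 0) (max (k + n) 0)) 1 fun ξ => Hd n k (ξ, c) := by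
  refine ⟨(measurable_Hd n k).comp (measurable_id.prodMk measurable_const), fun x y h => ?_,
    fun j ξ u v => ?_⟩
  · apply Real.exp_injective
    rw [str_Hd, str_Hd]
    refine Finset.sum_congr rfl fun i hi => ?_
    have hi' := Finset.mem_range.1 hi
    congr 2
    unfold prof
    congr 1
    · refine Finset.sum_congr rfl fun m hm => h m ?_
      rw [Finset.mem_coe, Finset.mem_Ico]
      rw [Finset.mem_Ico] at hm
      omega
    · refine Finset.sum_congr rfl fun m hm => h m ?_
      rw [Finset.mem_coe, Finset.mem_Ico]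
      rw [Finset.mem_Ico] at hm
      omega
  · obtain ⟨q, q0, q1, -, h, -⟩ := str_diff c n k j ξ
    obtain ⟨t, -, e⟩ := h u v
    rw [e, abs_mul, abs_strS, abs_of_nonneg (q0 t)]
    exact mul_le_mul_of_nonneg_right (q1 t) (abs_nonneg _)

theorem Hd_mono (c : Rows) (n : ℕ) (k : ℤ) {j : ℤ} (hj : 0 ≤ j) :
    MonoAt (fun ξ => Hd n k (ξ, c)) j := by
  intro ξ u v huv
  obtain ⟨q, q0, -, -, h, -⟩ := str_diff c n k j ξ
  obtain ⟨t, -, e⟩ := h v u
  rw [strS, if_neg (not_lt.2 hj), one_mul] at e
  have := mul_nonneg (q0 t) (sub_nonneg.2 huv)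
  dsimp only
  linarith

theorem Hd_anti (c : Rows) (n : ℕ) (k : ℤ) {j : ℤ} (hj : j < 0) :
    AntiAt (fun ξ => Hd n k (ξ, c)) j := by
  intro ξ u v huv
  obtain ⟨q, q0, -, -, h, -⟩ := str_diff c n k j ξ
  obtain ⟨t, -, e⟩ := h v u
  rw [strS, if_pos hj] at e
  have := mul_nonneg (q0 t) (sub_nonneg.2 huv)
  dsimp only
  linarith

theorem Hd_super (c : Rows) (n : ℕ) (k : ℤ) : Super fun ξ => Hd n k (ξ, c) := by
  intro j l hjl ξ u u' v v' hu hv
  have hw := wt_nonneg c n k
  obtain ⟨a, ha⟩ : ∃ a : ℕ → ℝ, ∀ i, a i =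
    Real.exp (prof (update (update ξ l 0) j 0) (k + i)) * wt c n k i := ⟨_, fun _ => rfl⟩
  have a0 : ∀ i, 0 ≤ a i := fun i => by rw [ha]; exact mul_nonneg (Real.exp_pos _).le (hw i)
  obtain ⟨S, hS⟩ : ∃ S : Bool → Bool → ℝ, ∀ p r, S p r = ∑ i ∈ Finset.range (n + 1),
    if (j < k + i ↔ p = true) ∧ (l < k + i ↔ r = true) then a i else 0 := ⟨_, fun _ _ => rfl⟩
  have S0 : ∀ p r, 0 ≤ S p r := fun p r => by
    rw [hS]
    refine Finset.sum_nonneg fun i _ => ?_
    have := a0 i
    split_ifs <;> positivity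
  have e : ∀ x y, Real.exp (Hd n k (update (update ξ j x) l y, c) +
      (x * (if j < 0 then 1 else 0) + y * (if l < 0 then 1 else 0))) =
      S false false + S true false * Real.exp x + S false true * Real.exp y +
        S true true * (Real.exp x * Real.exp y) := by
    intro x y
    rw [Real.exp_add, str_Hd]
    simp only [hS, Finset.sum_mul, ← Finset.sum_add_distrib]
    refine Finset.sum_congr rfl fun i _ => ?_
    rw [str_prof_update, update_comm hjl, str_prof_update, mul_right_comm, ← Real.exp_add]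
    have : ∀ p s s' t t' : ℝ, p + x * (s - s') + y * (t - t') + (x * s' + y * t') =
        p + (x * s + y * t) := fun _ _ _ _ _ => by ring
    rw [this, Real.exp_add, mul_right_comm, ← ha]
    by_cases h1 : j < k + i <;> by_cases h2 : l < k + i <;> simp [h1, h2, Real.exp_add]
  have z : S true false * S false true = 0 := by
    rcases lt_or_gt_of_ne hjl with h | h
    · refine mul_eq_zero_of_right _ ?_
      rw [hS]
      refine Finset.sum_eq_zero fun i _ => if_neg ?_
      simp only [Bool.false_eq_true, iff_false, iff_true]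
      omega
    · refine mul_eq_zero_of_left ?_ _
      rw [hS]
      refine Finset.sum_eq_zero fun i _ => if_neg ?_
      simp only [Bool.false_eq_true, iff_false, iff_true]
      omega
  have key : Real.exp ((Hd n k (update (update ξ j u) l v', c) +
      (u * (if j < 0 then 1 else 0) + v' * (if l < 0 then 1 else 0))) +
      (Hd n k (update (update ξ j u') l v, c) +
      (u' * (if j < 0 then 1 else 0) + v * (if l < 0 then 1 else 0)))) ≤
      Real.exp ((Hd n k (update (update ξ j u) l v, c) +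
      (u * (if j < 0 then 1 else 0) + v * (if l < 0 then 1 else 0))) +
      (Hd n k (update (update ξ j u') l v', c) +
      (u' * (if j < 0 then 1 else 0) + v' * (if l < 0 then 1 else 0)))) := by
    rw [Real.exp_add, e, e, Real.exp_add, e, e]
    have h1 := mul_nonneg (mul_nonneg (S0 false false) (S0 true true))
      (mul_nonneg (sub_nonneg.2 (Real.exp_le_exp.2 hu)) (sub_nonneg.2 (Real.exp_le_exp.2 hv)))
    have h2 : S true false * S false true *
      ((Real.exp u - Real.exp u') * (Real.exp v - Real.exp v')) = 0 := by rw [z, zero_mul]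
    linarith
  rw [Real.exp_le_exp] at key
  dsimp only
  linarith

theorem Hd_slope (c : Rows) (n : ℕ) (k : ℤ) : Slope fun ξ => Hd n k (ξ, c) := by
  intro j ξ u u' v v'
  obtain ⟨q, q0, -, qq, h, -⟩ := str_diff c n k j ξ
  obtain ⟨t, t1, e⟩ := h u u'
  obtain ⟨s, s1, e'⟩ := h v v'
  have := mul_le_mul_of_nonneg_right (qq t s (|u| + |u'| + |v| + |v'|) (by linarith))
    (mul_nonneg (abs_nonneg (u - u')) (abs_nonneg (v - v')))
  dsimp only
  rw [e, e', abs_mul, abs_mul (q s), abs_strS, abs_strS, abs_of_nonneg (q0 t),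
    abs_of_nonneg (q0 s)]
  linarith

theorem strShare_nonneg (c : Rows) (n : ℕ) (k : ℤ) (p : ℤ → Prop) [DecidablePred p] (ξ : Row) :
    0 ≤ strShare c n k p ξ := by
  refine div_nonneg (Finset.sum_nonneg fun i _ => ?_) (Real.exp_pos _).le
  have := wt_nonneg c n k i
  split_ifs <;> positivity

theorem strShare_mono (c : Rows) (n : ℕ) (k : ℤ) {p r : ℤ → Prop} [DecidablePred p]
    [DecidablePred r] (h : ∀ m, p m → r m) (ξ : Row) : strShare c n k p ξ ≤ strShare c n k r ξ := by
  refine div_le_div_of_nonneg_right (Finset.sum_le_sum fun i _ => ?_) (Real.exp_pos _).le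
  have := mul_nonneg (Real.exp_pos (prof ξ (k + i))).le (wt_nonneg c n k i)
  by_cases a : p (k + i)
  · rw [if_pos a, if_pos (h _ a)]
  · rw [if_neg a]
    split_ifs <;> linarith

theorem measurable_strShare (c : Rows) (n : ℕ) (k : ℤ) (p : ℤ → Prop) [DecidablePred p] :
    Measurable (strShare c n k p) := by
  refine Measurable.div (Finset.measurable_sum _ fun i _ => ?_)
    ((measurable_Hd n k).comp (measurable_id.prodMk measurable_const)).exp
  split_ifs
  · exact (measurable_prof _).exp.mul_const _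
  · exact measurable_const

theorem Hd_exit (c : Rows) (n : ℕ) (k : ℤ) : ∃ qp qm, Exit (fun ξ => Hd n k (ξ, c)) qp qm := by
  have key : ∀ (p : ℤ → Prop) [DecidablePred p] (j : ℤ), (∀ m, (j < m ↔ 0 ≤ j) → p m) →
      ∀ ξ u u', |Hd n k (update ξ j u, c) - Hd n k (update ξ j u', c)| ≤
        Real.exp (|u| + |u'| + |ξ j|) * strShare c n k p ξ * |u - u'| := by
    intro p _ j hp ξ u u'
    obtain ⟨q, q0, -, qq, h, e'⟩ := str_diff c n k j ξ
    obtain ⟨t, t1, e⟩ := h u u'
    rw [e, abs_mul, abs_strS, abs_of_nonneg (q0 t)]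
    refine mul_le_mul_of_nonneg_right ((qq t (strS j * ξ j) (|u| + |u'| + |ξ j|)
      (by rw [abs_strS]; linarith)).trans ?_) (abs_nonneg _)
    rw [e']
    exact mul_le_mul_of_nonneg_left (strShare_mono c n k hp ξ) (Real.exp_pos _).le
  refine ⟨strShare c n k (fun m => 0 < m), strShare c n k (fun m => m < 0),
    measurable_strShare c n k _, measurable_strShare c n k _, strShare_nonneg c n k _,
    strShare_nonneg c n k _, fun ξ => ?_, fun j hj => key _ j fun m h => by omega,
    fun j hj => key _ j fun m h => by omega⟩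
  rw [strShare, strShare, ← add_div, div_le_one (Real.exp_pos _), str_Hd,
    ← Finset.sum_add_distrib]
  refine Finset.sum_le_sum fun i _ => ?_
  have := mul_nonneg (Real.exp_pos (prof ξ (k + i))).le (wt_nonneg c n k i)
  split_ifs <;> first | omega | linarith

theorem str_neg_update (ξ : Row) (k : ℤ) (u : ℝ) : -update ξ k u = update (-ξ) k (-u) := by
  funext i
  by_cases e : i = k
  · subst e; simp
  · simp [update_of_ne e]

theorem Nice.neg {s : Finset ℤ} {L : ℝ} {F : Row → ℝ} (h : Nice s L F) :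
    Nice s L fun ξ => F (-ξ) := by
  refine ⟨h.meas.comp measurable_neg, fun x y e => h.dep fun i hi => ?_, fun k ξ u v => ?_⟩
  · rw [Pi.neg_apply, Pi.neg_apply, e i hi]
  · rw [str_neg_update, str_neg_update]
    refine (h.lip k (-ξ) (-u) (-v)).trans_eq ?_
    rw [neg_sub_neg, abs_sub_comm]

theorem MonoAt.neg {F : Row → ℝ} {k : ℤ} (h : MonoAt F k) : AntiAt (fun ξ => F (-ξ)) k := by
  intro ξ u v huv
  simp only [str_neg_update]
  exact h (-ξ) (neg_le_neg huv)

theorem AntiAt.neg {F : Row → ℝ} {k : ℤ} (h : AntiAt F k) : MonoAt (fun ξ => F (-ξ)) k := by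
  intro ξ u v huv
  simp only [str_neg_update]
  exact h (-ξ) (neg_le_neg huv)

theorem Super.neg {F : Row → ℝ} (h : Super F) : Super fun ξ => F (-ξ) := by
  intro k l hkl ξ u u' v v' hu hv
  simp only [str_neg_update]
  linarith [h k l hkl (-ξ) (-u') (-u) (-v') (-v) (neg_le_neg hu) (neg_le_neg hv)]

theorem Slope.neg {F : Row → ℝ} (h : Slope F) : Slope fun ξ => F (-ξ) := by
  intro k ξ u u' v v'
  simp only [str_neg_update]
  have := h k (-ξ) (-u) (-u') (-v) (-v')
  rwa [neg_sub_neg, neg_sub_neg, abs_sub_comm v' v, abs_sub_comm u' u, abs_neg, abs_neg, abs_neg,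
    abs_neg] at this

end Pool.Agent.K6329
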