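import Pool.Agent.Lib.MP_632999_pr.K.Rev
import Pool.Agent.Lib.MP_632999_pr.K.Edge
import Pool.Agent.Lib.MP_632999_pr.K.Str
import Pool.Agent.Lib.MP_632999_pr.K.Low
import Pool.Agent.Lib.MP_632999_pr.K.Rho

/-! The two inequalities for the discrete model (owner 20). -/

namespace Pool.Agent.K6329

open MeasureTheory ProbabilityTheory Filter Topology Set Function
open scoped NNReal ENNReal

theorem mp_negRow (M : ℕ) :
    MeasurePreserving (fun ξ : Row => -ξ) (piR (mu M)) (piR (mu M)) :=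
  mp_map (mu_neg M)

/-- (past rows, increments) seen as a state of the reversed model -/
theorem mp_psi (M : ℕ) :
    MeasurePreserving (fun a : Rows × Row => ((-a.2, a.1) : Row × Rows))
      ((piRR (gC M)).prod (piR (mu M))) (Pd M) :=
  ((mp_negRow M).prod (MeasurePreserving.id (piRR (gC M)))).comp
    (Measure.measurePreserving_swap (μ := piRR (gC M)) (ν := piR (mu M)))

theorem mp_assoc (M : ℕ) :
    MeasurePreserving
      (fun a : (Rows × Row) × Rows => ((a.1.1, (a.1.2, a.2)) : Rows × (Row × Rows)))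
      (((piRR (gC M)).prod (piR (mu M))).prod (piRR (gC M))) (Pt M) :=
  measurePreserving_prodAssoc (piRR (gC M)) (piR (mu M)) (piRR (gC M))

theorem mp_sndPt (M : ℕ) : MeasurePreserving (Prod.snd : Rows × (Row × Rows) → _) (Pt M) (Pd M) :=
  measurePreserving_snd

theorem back_meas (n : ℕ) (k : ℤ) :
    Measurable fun ω : Rows × (Row × Rows) => Hd n k (-ω.2.1, ω.1) :=
  (measurable_Hd n k).comp (by fun_prop)

theorem back_memLp (M n : ℕ) (k : ℤ) :
    MemLp (fun a : Rows × Row => Hd n k (-a.2, a.1)) 2 ((piRR (gC M)).prod (piR (mu M))) :=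
  (Hd_memLp M n k).comp_measurePreserving (mp_psi M)

theorem var_rev (M n : ℕ) (k₁ : ℤ) :
    Var[Hd n k₁; Pd M] = Var[Hd n (-(n : ℤ) - k₁); Pd M] := by
  obtain ⟨Λ, hΛ, hrep⟩ := reversal M n 0 k₁ k₁
  rw [← covariance_self (measurable_Hd _ _).aemeasurable,
    ← covariance_self (measurable_Hd _ _).aemeasurable,
    ← cov_mp (mp_sndPt M) (measurable_Hd n k₁).aemeasurable (measurable_Hd n k₁).aemeasurable]
  have e1 : (fun ω : Rows × (Row × Rows) => Hd n k₁ ω.2) =
      fun ω => (fun ω : Rows × (Row × Rows) => Hd n (-(n : ℤ) - k₁) (-ω.2.1, ω.1)) (Λ ω) :=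
    funext fun ω => (hrep ω).1
  rw [e1, cov_mp hΛ (back_meas _ _).aemeasurable (back_meas _ _).aemeasurable,
    ← cov_mp (mp_assoc M) (back_meas _ _).aemeasurable (back_meas _ _).aemeasurable,
    ← cov_mp (mp_psi M) (measurable_Hd _ _).aemeasurable (measurable_Hd _ _).aemeasurable]
  have hm : Measurable fun a : Rows × Row => Hd n (-(n : ℤ) - k₁) (-a.2, a.1) :=
    (measurable_Hd _ _).comp (by fun_prop)
  exact cov_mp (measurePreserving_fst (μ := (piRR (gC M)).prod (piR (mu M))) (ν := piRR (gC M)))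
    hm.aemeasurable hm.aemeasurable

/-- the covariance of past and future as an average over the future rows -/
theorem cov_split (M n m : ℕ) (k₁ k₂ : ℤ) :
    Integrable (fun f : Rows =>
      cov[fun a : Rows × Row => Hd n (-(n : ℤ) - k₁) (-a.2, a.1),
        fun a : Rows × Row => Hd m (k₂ - k₁) (a.2, f); (piRR (gC M)).prod (piR (mu M))])
      (piRR (gC M)) ∧
    cov[Hd n k₁, Hd (n + m) k₂; Pd M] = Var[Hd n k₁; Pd M] + ∫ f : Rows,
      cov[fun a : Rows × Row => Hd n (-(n : ℤ) - k₁) (-a.2, a.1),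
        fun a : Rows × Row => Hd m (k₂ - k₁) (a.2, f); (piRR (gC M)).prod (piR (mu M))]
      ∂piRR (gC M) := by
  obtain ⟨Λ, hΛ, hrep⟩ := reversal M n m k₁ k₂
  have hFor : MemLp (fun a : (Rows × Row) × Rows => Hd m (k₂ - k₁) (a.1.2, a.2)) 2
      (((piRR (gC M)).prod (piR (mu M))).prod (piRR (gC M))) :=
    (Hd_memLp M m (k₂ - k₁)).comp_measurePreserving ((mp_sndPt M).comp (mp_assoc M))
  obtain ⟨hi, he⟩ := cov_fubini' hFor (back_memLp M n (-(n : ℤ) - k₁))
  refine ⟨hi, ?_⟩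
  rw [← he]
  have h1 := Hd_memLp M n k₁
  have h2 := Hd_memLp M (n + m) k₂
  have e0 : cov[Hd n k₁, Hd (n + m) k₂; Pd M] =
      Var[Hd n k₁; Pd M] + cov[Hd n k₁, Hd (n + m) k₂ - Hd n k₁; Pd M] := by
    rw [covariance_sub_right h1 h2 h1, covariance_self (measurable_Hd _ _).aemeasurable]; ring
  rw [e0]
  congr 1
  have hD : Measurable (Hd (n + m) k₂ - Hd n k₁) := (measurable_Hd _ _).sub (measurable_Hd _ _)
  have hF : Measurable fun ω : Rows × (Row × Rows) => Hd m (k₂ - k₁) ω.2 :=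
    (measurable_Hd _ _).comp measurable_snd
  rw [← cov_mp (mp_sndPt M) (measurable_Hd n k₁).aemeasurable hD.aemeasurable]
  have e1 : (fun ω : Rows × (Row × Rows) => Hd n k₁ ω.2) =
      fun ω => (fun ω : Rows × (Row × Rows) => Hd n (-(n : ℤ) - k₁) (-ω.2.1, ω.1)) (Λ ω) :=
    funext fun ω => (hrep ω).1
  have e2 : (fun ω : Rows × (Row × Rows) => (Hd (n + m) k₂ - Hd n k₁) ω.2) =
      fun ω => (fun ω : Rows × (Row × Rows) => Hd m (k₂ - k₁) ω.2) (Λ ω) :=
    funext fun ω => (hrep ω).2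
  rw [e1, e2, cov_mp hΛ (back_meas _ _).aemeasurable hF.aemeasurable,
    ← cov_mp (mp_assoc M) (back_meas _ _).aemeasurable hF.aemeasurable]

theorem Nice.negF {s : Finset ℤ} {L : ℝ} {F : Row → ℝ} (h : Nice s L F) :
    Nice s L fun ξ => -F ξ where
  meas := h.meas.neg
  dep := fun x y hxy => by simp only [h.dep hxy]
  lip := fun k ξ u v => by
    rw [← abs_neg]
    have := h.lip k ξ u v
    rwa [show -(-F (update ξ k u) - -F (update ξ k v)) = F (update ξ k u) - F (update ξ k v) by ring]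

theorem cov_pf_nonpos (M n m : ℕ) (k k' : ℤ) (p f : Rows) :
    cov[fun ξ => Hd n k (-ξ, p), fun ξ => Hd m k' (ξ, f); piR (mu M)] ≤ 0 := by
  classical
  have hF := ((Hd_nice p n k).neg.negF).mono
    (Finset.subset_union_left (s₂ := Finset.Ico (min k' 0) (max (k' + m) 0)))
  have hG := (Hd_nice f m k').mono
    (Finset.subset_union_right (s₁ := Finset.Ico (min k 0) (max (k + n) 0)))
  have h := harris (mu_memLp M) hF hG fun j => by
    rcases le_or_gt 0 j with hj | hj
    · exact Or.inl ⟨fun ξ => ((Hd_mono p n k hj).neg ξ).neg, Hd_mono f m k' hj⟩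
    · exact Or.inr ⟨fun ξ => ((Hd_anti p n k hj).neg ξ).neg, Hd_anti f m k' hj⟩
  rw [covariance_fun_neg_left] at h
  linarith

theorem disc_upper (M n m : ℕ) (k₁ k₂ : ℤ) :
    cov[Hd n k₁, Hd (n + m) k₂; Pd M] ≤ Var[Hd n k₁; Pd M] := by
  rw [(cov_split M n m k₁ k₂).2]
  refine add_le_of_nonpos_right (integral_nonpos fun f => ?_)
  have hG := (Hd_nice f m (k₂ - k₁)).memLp (mu_memLp M)
  have h := (cov_fubini (back_memLp M n (-(n : ℤ) - k₁)) hG).2
  simp only at h
  simp only [h]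
  exact integral_nonpos fun p => cov_pf_nonpos M n m _ _ p f

theorem rhoP_nonneg (m : Measure ℝ) : 0 ≤ rhoP m :=
  integral_nonneg fun p => by positivity

theorem prof_memLp' (M : ℕ) (j : ℤ) : MemLp (fun ξ : Row => prof ξ j) 2 (piR (mu M)) := by
  have h := prof_memLp M j
  have hm : AEStronglyMeasurable (fun ξ : Row => prof ξ j) (piR (mu M)) :=
    (measurable_prof j).aestronglyMeasurable
  have hf : MeasurePreserving (Prod.fst : Row × Rows → Row) (Pd M) (piR (mu M)) :=
    measurePreserving_fst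
  rw [← hf.map_eq] at hm ⊢
  exact (memLp_map_measure_iff hm hf.measurable.aemeasurable).2 h

theorem cov_back_prof (M n : ℕ) (k j : ℤ) :
    cov[fun a : Rows × Row => Hd n k (-a.2, a.1), fun a : Rows × Row => prof a.2 j;
      (piRR (gC M)).prod (piR (mu M))] = -cov[Hd n k, fun ω => prof ω.1 j; Pd M] := by
  have hm : Measurable fun ω : Row × Rows => prof ω.1 j := (measurable_prof j).comp measurable_fst
  rw [← cov_mp (mp_psi M) (measurable_Hd n k).aemeasurable hm.aemeasurable]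
  simp only [prof_neg]
  rw [covariance_fun_neg_right, neg_neg]

theorem disc_lower {M : ℕ} (hM : 4 ≤ M) (hρ : 0 < rhoM (mu M)) (n m : ℕ) {k₁ : ℤ} (k₂ : ℤ)
    (h₁ : -(n : ℤ) ≤ k₁) (h₂ : k₁ ≤ 0) :
    Var[Hd n k₁; Pd M] - rho M * (Var[Hd n k₁; Pd M] + |2 * (k₁ : ℝ) + n| / M) / 2 ≤
      cov[Hd n k₁, Hd (n + m) k₂; Pd M] := by
  obtain ⟨hi, he⟩ := cov_split M n m k₁ k₂
  rw [he, sub_eq_add_neg]
  refine add_le_add le_rfl ?_
  set k : ℤ := -(n : ℤ) - k₁ with hk
  have hk1 : k ≤ 0 := by omega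
  have hk2 : -(n : ℤ) ≤ k := by omega
  have hr : 0 ≤ k + n := by omega
  set V := Var[Hd n k₁; Pd M] with hV
  set v := Var[fun a : ℝ => a; gA M] with hv
  have hV0 : 0 ≤ V := variance_nonneg _ _
  have hv0 : 0 ≤ v := variance_nonneg _ _
  have hM0 : (0 : ℝ) < M := by exact_mod_cast (by omega : 0 < M)
  have hv1 : v ≤ 1 / (M : ℝ) := gA_var_le (by omega)
  have hVk : Var[Hd n k; Pd M] = V := (var_rev M n k₁).symm
  set Y : ℝ := |2 * (k₁ : ℝ) + n| with hY
  have hkY : |2 * (k : ℝ) + n| = Y := by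
    rw [hY, hk, ← abs_neg]; congr 1; push_cast; ring
  have hvY : v * Y ≤ Y / M := by
    have := mul_le_mul_of_nonneg_right hv1 (abs_nonneg (2 * (k₁ : ℝ) + n))
    rw [hY]; calc v * |2 * (k₁ : ℝ) + n| ≤ 1 / M * |2 * (k₁ : ℝ) + n| := this
      _ = _ := by ring
  set Bm : ℝ := (V + Y / M) / 2 with hBm
  have hB0 : 0 ≤ Bm := by have := abs_nonneg (2 * (k₁ : ℝ) + n); positivity
  have c1 := cov_right M n hk2
  have c2 := cov_left M n hk1
  rw [hVk, ← hv] at c1 c2
  have a1 : v * (2 * (k : ℝ) + n) ≤ v * Y :=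
    mul_le_mul_of_nonneg_left (hkY ▸ le_abs_self _) hv0
  have a2 : v * (-(2 * (k : ℝ) + n)) ≤ v * Y :=
    mul_le_mul_of_nonneg_left (hkY ▸ neg_le_abs _) hv0
  have b1 : cov[Hd n k, fun ω => prof ω.1 (k + n); Pd M] ≤ Bm := by rw [hBm]; linarith
  have b2 : cov[Hd n k, fun ω => prof ω.1 k; Pd M] ≤ Bm := by rw [hBm]; linarith
  have hq : 0 ≤ rhoP (mu M) / rhoM (mu M) := div_nonneg (rhoP_nonneg _) hρ.le
  have hom := om_nonneg hM
  have key : ∀ f : Rows, -(rho M * (V + Y / M) / 2) ≤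
      cov[fun a : Rows × Row => Hd n k (-a.2, a.1),
        fun a : Rows × Row => Hd m (k₂ - k₁) (a.2, f); (piRR (gC M)).prod (piR (mu M))] := by
    intro f
    obtain ⟨qp, qm, hE⟩ := Hd_exit f m (k₂ - k₁)
    have hGn := Hd_nice f m (k₂ - k₁)
    obtain ⟨i0, e0⟩ := cov_fubini (back_memLp M n k) (hGn.memLp (mu_memLp M))
    obtain ⟨i1, e1⟩ := cov_fubini (back_memLp M n k) (prof_memLp' M (k + n))
    obtain ⟨i2, e2⟩ := cov_fubini (back_memLp M n k) (prof_memLp' M k)
    simp only at i0 e0 i1 e1 i2 e2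
    rw [cov_back_prof] at e1 e2
    have ip : Integrable qp (piR (mu M)) :=
      (integrable_const (1 : ℝ)).mono' hE.mp.aestronglyMeasurable (Eventually.of_forall fun ξ => by
        rw [Real.norm_eq_abs, abs_of_nonneg (hE.p0 ξ)]; linarith [hE.le1 ξ, hE.m0 ξ])
    have im : Integrable qm (piR (mu M)) :=
      (integrable_const (1 : ℝ)).mono' hE.mm.aestronglyMeasurable (Eventually.of_forall fun ξ => by
        rw [Real.norm_eq_abs, abs_of_nonneg (hE.m0 ξ)]; linarith [hE.le1 ξ, hE.p0 ξ])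
    set αp := ∫ ξ, qp ξ ∂piR (mu M) + om (mu M) with hαp
    set αm := ∫ ξ, qm ξ ∂piR (mu M) + om (mu M) with hαm
    have p0 : 0 ≤ αp := add_nonneg (integral_nonneg hE.p0) hom
    have m0 : 0 ≤ αm := add_nonneg (integral_nonneg hE.m0) hom
    have hs : αp + αm ≤ 1 + 2 * om (mu M) := by
      have : ∫ ξ, qp ξ ∂piR (mu M) + ∫ ξ, qm ξ ∂piR (mu M) ≤ 1 := by
        rw [← integral_add ip im]
        calc _ ≤ ∫ _ξ, (1 : ℝ) ∂piR (mu M) :=
              integral_mono (ip.add im) (integrable_const _) hE.le1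
          _ = 1 := by simp
      rw [hαp, hαm]; linarith
    rw [e0]
    have low : ∀ p : Rows, rhoP (mu M) / rhoM (mu M) *
        (αp * cov[fun ξ => Hd n k (-ξ, p), fun ξ => prof ξ (k + n); piR (mu M)] +
          αm * cov[fun ξ => Hd n k (-ξ, p), fun ξ => prof ξ k; piR (mu M)]) ≤
        cov[fun ξ => Hd n k (-ξ, p), fun ξ => Hd m (k₂ - k₁) (ξ, f); piR (mu M)] := by
      intro p
      have hFn := (Hd_nice p n k).neg
      rw [min_eq_left hk1, max_eq_left hr] at hFn
      exact low_abs (mu_abs4 hM) hρ hk1 hr hFn hGn (Hd_super p n k).neg (Hd_super f m _)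
        (Hd_slope p n k).neg (fun j hj => (Hd_mono p n k hj).neg)
        (fun j hj => (Hd_anti p n k hj).neg) hE
    refine le_trans ?_ (integral_mono (((i1.const_mul αp).add (i2.const_mul αm)).const_mul _) i0 low)
    rw [integral_const_mul]
    simp only [Pi.add_apply]
    rw [integral_add (i1.const_mul αp) (i2.const_mul αm), integral_const_mul,
      integral_const_mul, ← e1, ← e2]
    have s1 := mul_le_mul_of_nonneg_left b1 p0
    have s2 := mul_le_mul_of_nonneg_left b2 m0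
    have s3 := mul_le_mul_of_nonneg_right hs hB0
    have s4 : -((1 + 2 * om (mu M)) * Bm) ≤
        αp * -cov[Hd n k, fun ω => prof ω.1 (k + n); Pd M] +
          αm * -cov[Hd n k, fun ω => prof ω.1 k; Pd M] := by nlinarith
    have s5 := mul_le_mul_of_nonneg_left s4 hq
    refine le_trans (le_of_eq ?_) s5
    rw [rho, hBm]; ring
  calc -(rho M * (V + Y / M) / 2) = ∫ _f, -(rho M * (V + Y / M) / 2) ∂piRR (gC M) := by simp
    _ ≤ _ := integral_mono (integrable_const _) hi key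

end Pool.Agent.K6329
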