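import Pool.Agent.Lib.MP_632999_pr.K.CDefs
import Pool.Agent.Lib.MP_632999_pr.K.Disc

/-! Discrete two-point function. `cov_prof`: shifting increments and rows by `j` (`mp_shift`, `mp_mapRR`,
`evol_shift`, `evol_add_const`, `prof_eq`) shows that `Hd n k - prof j` has the law of `Hd n (k - j)`;
expand the variance, `prof_var`. `cd_eq`: `prof_succ`. `vd_convex`: by `cd_eq` it says
`cd n (k+1) 1 <= cd n (k+1) 0`; exchange the increments 0 and 1 (measure preserving,
`map_infinitePi_infinitePi_of_inj`): only `prof . 1` changes, `evol` is monotone in the profile, so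
`(Hd - Hd o swap) * (xi 0 - xi 1) >= 0` pointwise. Signs: `cov_fubini'`, `harris` with the coordinate
function, or `cov_eval` and `cov_one`. -/

namespace Pool.Agent.K6329

open MeasureTheory ProbabilityTheory Filter Topology Set Function
open scoped NNReal ENNReal

theorem cs_mp_shift (M : ℕ) (j : ℤ) :
    MeasurePreserving (fun ω : Row × Rows =>
      ((fun k => ω.1 (k + j), fun m k => ω.2 m (k + j)) : Row × Rows)) (Pd M) (Pd M) :=
  (mp_shift (mu M) j).prod (mp_mapRR (mp_shift (gC M) j))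

theorem cs_Hd_shift (n : ℕ) (k j : ℤ) (ω : Row × Rows) :
    Hd n (k - j) ((fun k => ω.1 (k + j), fun m k => ω.2 m (k + j)) : Row × Rows) =
      Hd n k ω - prof ω.1 j := by
  have e : prof (fun k => ω.1 (k + j)) = fun i => prof ω.1 (i + j) + -prof ω.1 j := by
    funext i
    rw [prof_eq (h := fun i => prof ω.1 (i + j)) fun i => by
      rw [add_right_comm i 1 j, prof_succ]; ring]
    simp only [zero_add]; ring
  unfold Hd
  simp only [e]
  rw [evol_add_const (fun i => prof ω.1 (i + j)), evol_shift, sub_add_cancel]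
  ring

theorem cs_cov_succ (M n : ℕ) (k j : ℤ) :
    cov[Hd n k, fun ω => prof ω.1 (j + 1); Pd M] =
      cov[Hd n k, fun ω => prof ω.1 j; Pd M] + cd M n k j := by
  have e : (fun ω : Row × Rows => prof ω.1 (j + 1)) =
      (fun ω : Row × Rows => prof ω.1 j) + fun ω : Row × Rows => ω.1 j :=
    funext fun ω => prof_succ ω.1 j
  rw [e, covariance_add_right (Hd_memLp M n k) (prof_memLp M j) (eg_xi_memLp M j)]
  rfl

theorem cov_prof (M n : ℕ) (k j : ℤ) :
    2 * cov[Hd n k, fun ω => prof ω.1 j; Pd M] = vd M n k + |(j : ℝ)| * wv M - vd M n (k - j) := by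
  have hv := (cs_mp_shift M j).variance_fun_comp (measurable_Hd n (k - j)).aemeasurable
  simp only [cs_Hd_shift] at hv
  rw [variance_fun_sub (Hd_memLp M n k) (prof_memLp M j), prof_var] at hv
  unfold vd wv
  linarith

theorem cd_eq (M n : ℕ) (k j : ℤ) :
    2 * cd M n k j = (if 0 ≤ j then wv M else -wv M) - vd M n (k - j - 1) + vd M n (k - j) := by
  have h1 := cov_prof M n k (j + 1)
  have h2 := cov_prof M n k j
  have h3 := cs_cov_succ M n k j
  rw [show k - (j + 1) = k - j - 1 by ring] at h1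
  push_cast at h1
  split_ifs with h
  · have hj : (0 : ℝ) ≤ j := by exact_mod_cast h
    rw [abs_of_nonneg (by linarith)] at h1
    rw [abs_of_nonneg hj] at h2
    linarith
  · have hj : (j : ℝ) + 1 ≤ 0 := by exact_mod_cast (by omega : j + 1 ≤ 0)
    rw [abs_of_nonpos hj] at h1
    rw [abs_of_nonpos (by linarith)] at h2
    linarith

theorem cs_evol_mono {h h' : Row} (H : ∀ j, h j ≤ h' j) (c : Rows) (n : ℕ) (k : ℤ) :
    evol h c n k ≤ evol h' c n k := by
  induction n generalizing k with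
  | zero => exact H k
  | succ n ih =>
    simp only [evol, lse]
    refine sub_le_sub_right (Real.log_le_log (by positivity) ?_) _
    exact add_le_add (Real.exp_le_exp.2 (ih k)) (Real.exp_le_exp.2 (ih (k + 1)))

/-- exchange of the increments `0` and `1` -/
def csSwap (ω : Row × Rows) : Row × Rows := (fun k => ω.1 (Equiv.swap 0 1 k), ω.2)

theorem cs_mp_swap (M : ℕ) : MeasurePreserving csSwap (Pd M) (Pd M) := by
  have h : MeasurePreserving (fun (ξ : Row) (k : ℤ) => ξ (Equiv.swap 0 1 k)) (piR (mu M))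
      (piR (mu M)) :=
    ⟨by fun_prop, Measure.map_infinitePi_infinitePi_of_inj (P := fun _ : ℤ => mu M)
      (Equiv.swap (0 : ℤ) 1).injective⟩
  exact h.prod (MeasurePreserving.id _)

theorem cs_prof_one (ξ : Row) : prof ξ 1 = ξ 0 := by
  have := prof_succ ξ 0
  rwa [zero_add, prof_zero, zero_add] at this

theorem cs_prof_swap (ξ : Row) (j : ℤ) :
    prof (fun k => ξ (Equiv.swap 0 1 k)) j = if j = 1 then ξ 1 else prof ξ j := by
  rw [prof_eq (h := fun i => if i = 1 then ξ 1 else prof ξ i) fun i => ?_]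
  · simp [prof_zero]
  by_cases h0 : i = 0
  · subst h0; simp [prof_zero]
  by_cases h1 : i = 1
  · subst h1
    rw [Equiv.swap_apply_right, if_neg (by omega), if_pos rfl, prof_succ, cs_prof_one]; ring
  rw [Equiv.swap_apply_of_ne_of_ne h0 h1, if_neg (by omega), if_neg h1, prof_succ]; ring

theorem cs_swap_sign (n : ℕ) (k : ℤ) (ω : Row × Rows) :
    0 ≤ (Hd n k ω - Hd n k (csSwap ω)) * (ω.1 0 - ω.1 1) := by
  unfold Hd csSwap
  rcases le_total (ω.1 1) (ω.1 0) with h | h
  · refine mul_nonneg (sub_nonneg.2 (cs_evol_mono (fun j => ?_) _ _ _)) (sub_nonneg.2 h)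
    rw [cs_prof_swap]
    split_ifs with hj
    · rw [hj, cs_prof_one]; exact h
    · exact le_rfl
  · refine mul_nonneg_of_nonpos_of_nonpos (sub_nonpos.2 (cs_evol_mono (fun j => ?_) _ _ _))
      (sub_nonpos.2 h)
    rw [cs_prof_swap]
    split_ifs with hj
    · rw [hj, cs_prof_one]; exact h
    · exact le_rfl

theorem cs_cd_one (M n : ℕ) (k : ℤ) : cd M n k 1 ≤ cd M n k 0 := by
  have hH := Hd_memLp M n k
  have hS : MemLp (fun ω => Hd n k (csSwap ω)) 2 (Pd M) :=
    hH.comp_measurePreserving (cs_mp_swap M)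
  have h0 := eg_xi_memLp M 0
  have h1 := eg_xi_memLp M 1
  have hD : MemLp (fun ω : Row × Rows => ω.1 0 - ω.1 1) 2 (Pd M) := h0.sub h1
  have hm : ∫ ω : Row × Rows, (ω.1 0 - ω.1 1) ∂Pd M = 0 := by
    rw [integral_sub (h0.integrable one_le_two) (h1.integrable one_le_two)]
    have e : ∀ j : ℤ, ∫ ω : Row × Rows, ω.1 j ∂Pd M = ∫ u, u ∂mu M := fun j => by
      have hp : MeasurePreserving (fun p : Row × Rows => p.1 j) (Pd M) (mu M) :=
        eg_mp_ev (mu M) (piRR (gC M)) j
      rw [← hp.map_eq, integral_map (f := fun u : ℝ => u) hp.measurable.aemeasurable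
        aestronglyMeasurable_id]
    rw [e, e, sub_self]
  have e1 : cov[fun ω => Hd n k (csSwap ω), fun ω : Row × Rows => ω.1 1; Pd M] = cd M n k 0 := by
    have := cov_mp (cs_mp_swap M) (measurable_Hd n k).aemeasurable h0.aemeasurable
    simpa only [csSwap, cd, Equiv.swap_apply_left] using this
  have e2 : cov[fun ω => Hd n k (csSwap ω), fun ω : Row × Rows => ω.1 0; Pd M] = cd M n k 1 := by
    have := cov_mp (cs_mp_swap M) (measurable_Hd n k).aemeasurable h1.aemeasurable
    simpa only [csSwap, cd, Equiv.swap_apply_right] using this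
  have hX : MemLp (fun ω => Hd n k ω - Hd n k (csSwap ω)) 2 (Pd M) := hH.sub hS
  have key : 0 ≤ cov[fun ω => Hd n k ω - Hd n k (csSwap ω),
      fun ω : Row × Rows => ω.1 0 - ω.1 1; Pd M] := by
    rw [cov_centre (hD.integrable one_le_two)]
    · simp only [hm, sub_zero]
      exact integral_nonneg (cs_swap_sign n k)
    · simp only [hm, sub_zero]
      exact hX.integrable_mul hD
  rw [covariance_fun_sub_left hH hS hD, covariance_fun_sub_right hH h0 h1,
    covariance_fun_sub_right hS h0 h1, e1, e2] at key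
  unfold cd at key ⊢
  linarith

theorem vd_convex (M n : ℕ) (k : ℤ) : 2 * vd M n k ≤ vd M n (k - 1) + vd M n (k + 1) := by
  have h0 := cd_eq M n (k + 1) 0
  have h1 := cd_eq M n (k + 1) 1
  have h := cs_cd_one M n (k + 1)
  rw [if_pos le_rfl, show k + 1 - 0 - 1 = k by ring, sub_zero] at h0
  rw [if_pos zero_le_one, show k + 1 - 1 - 1 = k - 1 by ring, add_sub_cancel_right] at h1
  linarith

theorem cs_cd_int (M n : ℕ) (k j : ℤ) :
    cd M n k j = ∫ c, cov[fun ξ : Row => ξ j, fun ξ => Hd n k (ξ, c); piR (mu M)] ∂piRR (gC M) := by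
  have h := (cov_fubini' (μ := piR (mu M)) (ν := piRR (gC M)) (Hd_memLp M n k)
    (memLp_eval (mu_memLp M) j)).2
  rw [cd, covariance_comm]
  exact h

theorem cd_nonneg (M n : ℕ) (k : ℤ) {j : ℤ} (hj : 0 ≤ j) : 0 ≤ cd M n k j := by
  rw [cs_cd_int]
  refine integral_nonneg fun c => ?_
  have hN := Hd_nice c n k
  simp only [Pi.zero_apply]
  rw [covariance_comm, cov_eval (mu_memLp M) hN,
    (cov_one (cond1_memLp (mu_memLp M) hN j) (mu_memLp M)).2]
  have hmono : Monotone (cond1 (mu M) (fun ξ => Hd n k (ξ, c)) j) := fun u v huv =>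
    integral_mono (cond1_int (mu_memLp M) hN j u) (cond1_int (mu_memLp M) hN j v)
      fun ξ => Hd_mono c n k hj ξ huv
  refine div_nonneg (integral_nonneg fun p => ?_) zero_le_two
  rcases le_total p.1 p.2 with h | h
  · exact mul_nonneg_of_nonpos_of_nonpos (sub_nonpos.2 (hmono h)) (sub_nonpos.2 h)
  · exact mul_nonneg (sub_nonneg.2 (hmono h)) (sub_nonneg.2 h)

theorem cd_nonpos (M n : ℕ) (k : ℤ) {j : ℤ} (hj : j < 0) : cd M n k j ≤ 0 := by
  rw [cs_cd_int]
  refine integral_nonpos fun c => ?_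
  have hN := Hd_nice c n k
  simp only [Pi.zero_apply]
  rw [covariance_comm, cov_eval (mu_memLp M) hN,
    (cov_one (cond1_memLp (mu_memLp M) hN j) (mu_memLp M)).2]
  have hanti : Antitone (cond1 (mu M) (fun ξ => Hd n k (ξ, c)) j) := fun u v huv =>
    integral_mono (cond1_int (mu_memLp M) hN j v) (cond1_int (mu_memLp M) hN j u)
      fun ξ => Hd_anti c n k hj ξ huv
  refine div_nonpos_of_nonpos_of_nonneg (integral_nonpos fun p => ?_) zero_le_two
  rcases le_total p.1 p.2 with h | h
  · exact mul_nonpos_of_nonneg_of_nonpos (sub_nonneg.2 (hanti h)) (sub_nonpos.2 h)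
  · exact mul_nonpos_of_nonpos_of_nonneg (sub_nonpos.2 (hanti h)) (sub_nonneg.2 h)

theorem cd_anti_right (M n : ℕ) (k : ℤ) : Antitone fun i : ℕ => cd M n k i := by
  refine antitone_nat_of_succ_le fun i => ?_
  have h0 := cd_eq M n k i
  have h1 := cd_eq M n k ((i + 1 : ℕ) : ℤ)
  have h := vd_convex M n (k - i - 1)
  rw [if_pos (by omega)] at h0 h1
  rw [show k - ((i + 1 : ℕ) : ℤ) = k - i - 1 by push_cast; ring] at h1
  rw [sub_add_cancel] at h
  linarith

theorem cd_anti_left (M n : ℕ) (k : ℤ) : Antitone fun i : ℕ => -cd M n k (-1 - i) := by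
  refine antitone_nat_of_succ_le fun i => ?_
  have h0 := cd_eq M n k (-1 - i)
  have h1 := cd_eq M n k (-1 - ((i + 1 : ℕ) : ℤ))
  have h := vd_convex M n (k + i + 1)
  rw [if_neg (by omega)] at h0 h1
  rw [show k - (-1 - (i : ℤ)) = k + i + 1 by ring] at h0
  rw [show k - (-1 - ((i + 1 : ℕ) : ℤ)) = k + i + 1 + 1 by push_cast; ring,
    add_sub_cancel_right] at h1
  linarith

theorem cd_sum_right (M n : ℕ) (k : ℤ) (j : ℕ) :
    ∑ i ∈ Finset.range j, cd M n k i = cov[Hd n k, fun ω => prof ω.1 j; Pd M] := by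
  induction j with
  | zero => simp [prof_zero]
  | succ j ih =>
    rw [Finset.sum_range_succ, ih, Nat.cast_succ, cs_cov_succ]

theorem cd_sum_left (M n : ℕ) (k : ℤ) (j : ℕ) :
    ∑ i ∈ Finset.range j, -cd M n k (-1 - i) = cov[Hd n k, fun ω => prof ω.1 (-j); Pd M] := by
  induction j with
  | zero => simp [prof_zero]
  | succ j ih =>
    have h := cs_cov_succ M n k (-1 - j)
    rw [show -1 - (j : ℤ) + 1 = -j by ring] at h
    rw [Finset.sum_range_succ, ih, show -((j + 1 : ℕ) : ℤ) = -1 - j by push_cast; ring, h]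
    ring

end Pool.Agent.K6329
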