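import Pool.Agent.Lib.MP_632999_pr.K.CLow
import Pool.Agent.Lib.MP_632999_pr.K.CShift

/-! The discrete convolution inequality (owner 20). -/

namespace Pool.Agent.K6329

open MeasureTheory ProbabilityTheory Filter Topology Set Function
open scoped NNReal ENNReal

theorem var_incr (M n m : ℕ) (k₁ k₂ : ℤ) :
    Var[Hd (n + m) k₂ - Hd n k₁; Pd M] = Var[Hd m (k₂ - k₁); Pd M] := by
  obtain ⟨Λ, hΛ, hrep⟩ := reversal M n m k₁ k₂
  have hD : Measurable (Hd (n + m) k₂ - Hd n k₁) := (measurable_Hd _ _).sub (measurable_Hd _ _)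
  have hF : Measurable fun ω : Rows × (Row × Rows) => Hd m (k₂ - k₁) ω.2 :=
    (measurable_Hd _ _).comp measurable_snd
  rw [← covariance_self hD.aemeasurable, ← covariance_self (measurable_Hd _ _).aemeasurable,
    ← cov_mp (mp_sndPt M) hD.aemeasurable hD.aemeasurable]
  have e2 : (fun ω : Rows × (Row × Rows) => (Hd (n + m) k₂ - Hd n k₁) ω.2) =
      fun ω => (fun ω : Rows × (Row × Rows) => Hd m (k₂ - k₁) ω.2) (Λ ω) :=
    funext fun ω => (hrep ω).2
  rw [e2, cov_mp hΛ hF.aemeasurable hF.aemeasurable]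
  exact cov_mp (mp_sndPt M) (measurable_Hd _ _).aemeasurable (measurable_Hd _ _).aemeasurable

/-- covariance from variances, by stationarity -/
theorem cov_eq_vd (M n m : ℕ) (k₁ k₂ : ℤ) :
    2 * cov[Hd n k₁, Hd (n + m) k₂; Pd M] = vd M n k₁ + vd M (n + m) k₂ - vd M m (k₂ - k₁) := by
  have h := variance_sub (Hd_memLp M (n + m) k₂) (Hd_memLp M n k₁)
  rw [var_incr, covariance_comm] at h
  simp only [vd]
  linarith

theorem eval_memLp (M : ℕ) (j : ℤ) : MemLp (fun ξ : Row => ξ j) 2 (piR (mu M)) :=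
  (mu_memLp M).comp_measurePreserving (measurePreserving_eval_infinitePi (fun _ : ℤ => mu M) j)

theorem cov_back_eval (M n : ℕ) (k j : ℤ) :
    cov[fun a : Rows × Row => Hd n k (-a.2, a.1), fun a : Rows × Row => a.2 j;
      (piRR (gC M)).prod (piR (mu M))] = -cd M n k j := by
  have hm : Measurable fun ω : Row × Rows => ω.1 j := by fun_prop
  rw [cd, ← cov_mp (mp_psi M) (measurable_Hd n k).aemeasurable hm.aemeasurable]
  simp only [Pi.neg_apply]
  rw [covariance_fun_neg_right, neg_neg]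

theorem cd_fubini (M m : ℕ) (k j : ℤ) :
    Integrable (fun f : Rows => cov[fun ξ => Hd m k (ξ, f), fun ξ : Row => ξ j; piR (mu M)])
      (piRR (gC M)) ∧
    ∫ f : Rows, cov[fun ξ => Hd m k (ξ, f), fun ξ : Row => ξ j; piR (mu M)] ∂piRR (gC M) =
      cd M m k j := by
  obtain ⟨hi, he⟩ := cov_fubini' (μ := piR (mu M)) (ν := piRR (gC M)) (Hd_memLp M m k)
    (eval_memLp M j)
  simp only [covariance_comm (fun ξ : Row => ξ j)] at hi he
  refine ⟨hi, ?_⟩
  rw [← he, cd, covariance_comm]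
  rfl

theorem disc_two {M : ℕ} (hM : 4 ≤ M) (hρ : 0 < rhoM (mu M)) (n m : ℕ) {k₁ : ℤ} (k₂ : ℤ)
    (h₁ : -(n : ℤ) ≤ k₁) (h₂ : k₁ ≤ 0) :
    vd M n k₁ + vd M m (k₂ - k₁) - 2 * kap M *
      ∑ j ∈ Finset.Ico (-(n : ℤ) - k₁) (-k₁), cd M n (-(n : ℤ) - k₁) j * cd M m (k₂ - k₁) j ≤
      vd M (n + m) k₂ := by
  obtain ⟨hi, he⟩ := cov_split M n m k₁ k₂
  have hc := cov_eq_vd M n m k₁ k₂
  set k : ℤ := -(n : ℤ) - k₁ with hk
  have hk1 : k ≤ 0 := by omega
  have hr : k + n = -k₁ := by omega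
  have hr0 : 0 ≤ k + n := by omega
  set s := Finset.Ico k (-k₁) with hs
  have key : ∀ f : Rows, kap M * ∑ j ∈ s, -cd M n k j *
      cov[fun ξ => Hd m (k₂ - k₁) (ξ, f), fun ξ : Row => ξ j; piR (mu M)] ≤
      cov[fun a : Rows × Row => Hd n k (-a.2, a.1),
        fun a : Rows × Row => Hd m (k₂ - k₁) (a.2, f); (piRR (gC M)).prod (piR (mu M))] := by
    intro f
    have hGn := Hd_nice f m (k₂ - k₁)
    obtain ⟨i0, e0⟩ := cov_fubini (back_memLp M n k) (hGn.memLp (mu_memLp M))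
    have i1 := fun j => (cov_fubini (back_memLp M n k) (eval_memLp M j)).1
    have e1 := fun j => (cov_fubini (back_memLp M n k) (eval_memLp M j)).2
    simp only [cov_back_eval] at i0 e0 i1 e1
    rw [e0]
    have low : ∀ p : Rows, kap M * ∑ j ∈ s,
        cov[fun ξ => Hd n k (-ξ, p), fun ξ : Row => ξ j; piR (mu M)] *
          cov[fun ξ => Hd m (k₂ - k₁) (ξ, f), fun ξ : Row => ξ j; piR (mu M)] ≤
        cov[fun ξ => Hd n k (-ξ, p), fun ξ => Hd m (k₂ - k₁) (ξ, f); piR (mu M)] := by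
      intro p
      have hFn := (Hd_nice p n k).neg
      rw [min_eq_left hk1, max_eq_left hr0, hr] at hFn
      exact low_two (mu_abs4 hM) hρ hFn hGn (Hd_super p n k).neg (Hd_super f m _)
        (Hd_slope p n k).neg (Hd_slope f m _) (fun j hj => (Hd_mono p n k hj).neg)
        (fun j hj => (Hd_anti p n k hj).neg) (fun j hj => Hd_mono f m _ hj)
        (fun j hj => Hd_anti f m _ hj)
    have iS := integrable_finsetSum s fun j _ => (i1 j).mul_const
      cov[fun ξ => Hd m (k₂ - k₁) (ξ, f), fun ξ : Row => ξ j; piR (mu M)]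
    refine le_trans (le_of_eq ?_) (integral_mono (iS.const_mul (kap M)) i0 low)
    rw [integral_const_mul, integral_finsetSum s fun j _ => (i1 j).mul_const _]
    simp only [integral_mul_const, ← e1]
  have iT := integrable_finsetSum s fun j _ =>
    (cd_fubini M m (k₂ - k₁) j).1.const_mul (-cd M n k j)
  have fin := integral_mono (iT.const_mul (kap M)) hi key
  rw [integral_const_mul, integral_finsetSum s fun j _ =>
    (cd_fubini M m (k₂ - k₁) j).1.const_mul _] at fin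
  have e3 : ∑ j ∈ s, ∫ f : Rows, -cd M n k j *
      cov[fun ξ => Hd m (k₂ - k₁) (ξ, f), fun ξ : Row => ξ j; piR (mu M)] ∂piRR (gC M) =
      -∑ j ∈ s, cd M n k j * cd M m (k₂ - k₁) j := by
    rw [← Finset.sum_neg_distrib]
    refine Finset.sum_congr rfl fun j _ => ?_
    rw [integral_const_mul, (cd_fubini M m (k₂ - k₁) j).2, neg_mul]
  rw [e3] at fin
  have hv : Var[Hd n k₁; Pd M] = vd M n k₁ := rfl
  rw [hv] at he
  linarith

end Pool.Agent.K6329
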