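import Pool.Agent.Lib.MP_632999_pr.K.CMain

/-! The covariance at equal times, and the two-point measures as one object that represents all
covariances (`S 0` is the unit mass at `0`). -/

namespace Pool.Agent.K6329

open MeasureTheory ProbabilityTheory Filter Topology Set Function
open scoped NNReal ENNReal

variable {Ω : Type} [MeasurableSpace Ω] {P : Measure Ω} {B : ℝ → Ω → ℝ} {W : Test → Ω → ℝ}
  {Z : ℝ → ℝ → Ω → ℝ}

theorem vd_zero (M : ℕ) (k : ℤ) : vd M 0 k = |(k : ℝ)| * wv M := by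
  have e : Hd 0 k = fun ω : Row × Rows => prof ω.1 k := rfl
  unfold vd wv
  rw [e, prof_var]

/-- equal times: the spatial increments have the variance of Brownian increments -/
theorem cov_eq_var_same (hN : IsNoise P B W) (hZ : IsMild P B W Z) {t : ℝ} (ht : 0 < t)
    (x₁ x₂ : ℝ) :
    2 * cov[coleHopf Z t x₁, coleHopf Z t x₂; P] = Var[coleHopf Z t x₁; P] +
      Var[coleHopf Z t x₂; P] - |x₂ - x₁| := by
  have l₁ := lat_cell ht x₁ 0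
  have l₂ := lat_cell ht x₂ 0
  have a := (cov_tendsto hN hZ ht ht l₁ l₂).const_mul 2
  have hj : Tendsto (fun M : ℕ => 2 * |(((ji M (mi M t) x₂ + 0) - (ji M (mi M t) x₁ + 0) : ℤ) : ℝ)|
      / M) atTop (𝓝 |x₂ - x₁|) := by
    refine (l₂.2.sub l₁.2).abs.congr fun M => ?_
    rw [← sub_div, abs_div, Nat.abs_cast, ← abs_two, ← abs_mul, abs_two]
    push_cast
    congr 2
    ring
  have c := clim_wv (a := fun M : ℕ =>
    |(((ji M (mi M t) x₂ + 0) - (ji M (mi M t) x₁ + 0) : ℤ) : ℝ)|) hj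
  have b := ((isLim_var hN hZ ht _ _ _ l₁).add (isLim_var hN hZ ht _ _ _ l₂)).sub c
  refine tendsto_nhds_unique (a.congr fun M => ?_) b
  have h := cov_eq_vd M (mi M t) 0 (ji M (mi M t) x₁ + 0) (ji M (mi M t) x₂ + 0)
  rw [vd_zero] at h
  exact h

theorem main3 (hN : IsNoise P B W) (hZ : IsMild P B W Z) :
    ∃ S : ℝ → Measure ℝ, S 0 = Measure.dirac 0 ∧
      (∀ t, 0 < t → IsProbabilityMeasure (S t) ∧ Integrable (fun y : ℝ => y) (S t) ∧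
        ∫ y, y ∂S t = 0 ∧ ∀ x, (∀ᵐ ω ∂P, 0 < Z t x ω) ∧ MemLp (coleHopf Z t x) 2 P) ∧
      (∀ t₁ t₂ x₁ x₂ : ℝ, 0 < t₁ → t₁ ≤ t₂ →
        2 * cov[coleHopf Z t₁ x₁, coleHopf Z t₂ x₂; P] =
          ∫ y, |x₁ - y| ∂S t₁ + ∫ y, |x₂ - y| ∂S t₂ - ∫ y, |x₂ - x₁ - y| ∂S (t₂ - t₁)) ∧
      ∀ s t, 0 < s → 0 < t → ∀ φ : ℝ → ℝ, ConvexOn ℝ univ φ → Integrable φ (S (t + s)) →
        Integrable (fun p : ℝ × ℝ => φ (p.1 + p.2)) ((S t).prod (S s)) ∧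
          ∫ p : ℝ × ℝ, φ (p.1 + p.2) ∂(S t).prod (S s) ≤ ∫ y, φ y ∂S (t + s) := by
  classical
  obtain ⟨S, h1, h2⟩ := main2 hN hZ
  have hu : ∀ t : ℝ, 0 < t → update S 0 (Measure.dirac 0) t = S t := fun t ht =>
    update_of_ne ht.ne' _ _
  refine ⟨update S 0 (Measure.dirac 0), update_self _ _ _, fun t ht => ?_,
    fun t₁ t₂ x₁ x₂ h₁ h₁₂ => ?_, fun s t hs ht => ?_⟩
  · rw [hu t ht]
    exact ⟨(h1 t ht).1, (h1 t ht).2.1, (h1 t ht).2.2.1, fun x =>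
      ⟨((h1 t ht).2.2.2 x).1, ((h1 t ht).2.2.2 x).2.1⟩⟩
  · rcases h₁₂.eq_or_lt with rfl | hlt
    · rw [sub_self, update_self, hu _ h₁, integral_dirac, sub_zero, cov_eq_var_same hN hZ h₁,
        ((h1 _ h₁).2.2.2 x₁).2.2, ((h1 _ h₁).2.2.2 x₂).2.2]
    · rw [hu _ h₁, hu _ (h₁.trans hlt), hu _ (sub_pos.2 hlt), cov_eq_var hN hZ h₁ hlt,
        ((h1 t₁ h₁).2.2.2 x₁).2.2, ((h1 t₂ (h₁.trans hlt)).2.2.2 x₂).2.2,
        ((h1 _ (sub_pos.2 hlt)).2.2.2 (x₂ - x₁)).2.2]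
  · rw [hu s hs, hu t ht, hu _ (add_pos ht hs)]
    exact h2 s t hs ht

end Pool.Agent.K6329
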