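import Pool.Agent.Lib.MP_632999_pr.K.CDefs
import Pool.Agent.Lib.MP_632999_pr.K.Rho

/-! Constants of stage 2 (owner 20). -/

namespace Pool.Agent.K6329

open MeasureTheory ProbabilityTheory Filter Topology Set Function
open scoped NNReal ENNReal

theorem kap_tendsto : Tendsto (fun M : ℕ => kap M * (2 / (M : ℝ))) atTop (𝓝 1) := by
  have h := (RhoAux.P_tendsto.const_mul 4).div (RhoAux.Mi_tendsto.pow 2) (by norm_num)
  rw [show (4 : ℝ) * 4 / 4 ^ 2 = 1 by norm_num] at h
  refine h.congr' ?_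
  filter_upwards [eventually_ge_atTop 1, rhoM_pos] with M hM hρ
  have hM0 : (0 : ℝ) < M := by exact_mod_cast hM
  simp only [kap, Pi.div_apply]
  field_simp
  ring

theorem wv_tendsto : Tendsto (fun M : ℕ => (M : ℝ) * wv M) atTop (𝓝 2) := by
  have h := RhoAux.DD_tendsto.div_const 2
  rw [show (4 : ℝ) / 2 = 2 by norm_num] at h
  refine h.congr fun M => ?_
  rw [RhoAux.DD_eq, wv, variance_eq_sub (mu_memLp M), mu_mean]
  simp only [Pi.pow_apply]
  ring

theorem rhoP_le : ∀ᶠ M : ℕ in atTop, rhoP (mu M) ≤ 5 / (M : ℝ) := by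
  filter_upwards [eventually_ge_atTop 1,
    (tendsto_order.1 RhoAux.P_tendsto).2 5 (by norm_num)] with M hM h
  have hM0 : (0 : ℝ) < M := by exact_mod_cast hM
  rw [le_div_iff₀ hM0]; linarith

end Pool.Agent.K6329
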