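import Pool.Agent.Lib.MP_632999_pr.K.Defs

/-! The random walk kernel. `pz_le`: with `d = 2 i - m >= -1`,
`pz m (i+1) / pz m i = (m - d)/(m + d + 2) <= exp (-(d+1)/(m+1))`, so `pz m i * exp (d^2/(4(m+1)))`
decreases; centre: `(C(2n,n)/4^n)^2 (2n+1) <= 1` by induction; symmetry `i -> m - i`.
`sum_small`: split at `l + 1 <= tau M^2` (`sum (l+1)^(-1/2) <= 2 sqrt L`, geometric tail). -/

namespace Pool.Agent.K6329

open MeasureTheory ProbabilityTheory Filter Topology Set Function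
open scoped NNReal ENNReal

theorem pz_nonneg (m : ℕ) (i : ℤ) : 0 ≤ pz m i := by
  unfold pz
  split_ifs
  · positivity
  · exact le_rfl

theorem pz_nat (m i : ℕ) : pz m (i : ℤ) = (m.choose i : ℝ) / 2 ^ m := by
  simp [pz]

theorem pz_eq_zero {m : ℕ} {i : ℤ} (h : i < 0 ∨ (m : ℤ) < i) : pz m i = 0 := by
  unfold pz
  split_ifs with h0
  · have h1 : m < i.toNat := by omega
    rw [Nat.choose_eq_zero_of_lt h1]; simp
  · rfl

theorem pz_zero (i : ℤ) : pz 0 i = if i = 0 then 1 else 0 := by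
  split_ifs with h
  · subst h; simp [pz]
  · exact pz_eq_zero (by omega)

theorem pz_succ (m : ℕ) (i : ℤ) : pz (m + 1) i = (pz m i + pz m (i - 1)) / 2 := by
  rcases lt_trichotomy i 0 with h | h | h
  · rw [pz_eq_zero (Or.inl h), pz_eq_zero (Or.inl h), pz_eq_zero (Or.inl (by omega))]; simp
  · subst h
    rw [pz_eq_zero (i := 0 - 1) (Or.inl (by omega))]
    simp only [pz, le_refl, if_true, Int.toNat_zero, Nat.choose_zero_right, Nat.cast_one, pow_succ]
    field_simp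
    simp
  · obtain ⟨n, rfl⟩ : ∃ n : ℕ, i = ((n + 1 : ℕ) : ℤ) := ⟨(i - 1).toNat, by omega⟩
    have h1 : ((n + 1 : ℕ) : ℤ) - 1 = (n : ℤ) := by omega
    rw [h1, pz_nat, pz_nat, pz_nat, Nat.choose_succ_succ', pow_succ]
    push_cast
    field_simp
    ring

theorem sum_Icc_shift (k : ℤ) (N : ℕ) (f : ℤ → ℝ) :
    ∑ j ∈ Finset.Icc k (k + N), f (j - k) = ∑ i ∈ Finset.range (N + 1), f (i : ℤ) := by
  symm
  refine Finset.sum_bij' (fun i _ => k + (i : ℤ)) (fun j _ => (j - k).toNat) ?_ ?_ ?_ ?_ ?_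
  · intro i hi; simp only [Finset.mem_range] at hi; simp only [Finset.mem_Icc]; omega
  · intro j hj; simp only [Finset.mem_Icc] at hj; simp only [Finset.mem_range]; omega
  · intro i _; simp
  · intro j hj; simp only [Finset.mem_Icc] at hj; omega
  · intro i _; simp

theorem pz_mgf (m : ℕ) (k : ℤ) {N : ℕ} (h : m ≤ N) (s : ℝ) :
    ∑ j ∈ Finset.Icc k (k + N), pz m (j - k) * Real.exp (s * (2 * ((j : ℝ) - k) - m)) =
      Real.cosh s ^ m := by
  have h1 := sum_Icc_shift k N fun i => pz m i * Real.exp (s * (2 * (i : ℝ) - m))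
  simp only [Int.cast_sub, Int.cast_natCast] at h1
  rw [h1]
  have h2 : Finset.range (m + 1) ⊆ Finset.range (N + 1) := by
    intro x hx; simp only [Finset.mem_range] at hx ⊢; omega
  rw [← Finset.sum_subset h2 (fun x _ hx => by
    rw [pz_eq_zero (Or.inr (by simp only [Finset.mem_range] at hx; omega)), zero_mul])]
  rw [Real.cosh_eq, div_pow, add_pow, Finset.sum_div]
  refine Finset.sum_congr rfl fun i hi => ?_
  have hi' : i ≤ m := by simp only [Finset.mem_range] at hi; omega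
  rw [pz_nat, ← Real.exp_nat_mul, ← Real.exp_nat_mul, ← Real.exp_add, Nat.cast_sub hi']
  have : (i : ℝ) * s + ((m : ℝ) - i) * -s = s * (2 * (i : ℝ) - m) := by ring
  rw [this]; ring

theorem pz_sum (m : ℕ) (k : ℤ) {N : ℕ} (h : m ≤ N) :
    ∑ j ∈ Finset.Icc k (k + N), pz m (j - k) = 1 := by
  have h1 := pz_mgf m k h 0
  simpa using h1

theorem pz_cosh (m : ℕ) (k : ℤ) {N : ℕ} (h : m ≤ N) (s y : ℝ) :
    ∑ j ∈ Finset.Icc k (k + N), pz m (j - k) * Real.cosh (y + s * (2 * ((j : ℝ) - k) - m)) =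
      Real.cosh s ^ m * Real.cosh y := by
  have h1 := pz_mgf m k h s
  have h2 := pz_mgf m k h (-s)
  rw [Real.cosh_neg] at h2
  have h3 : Real.cosh s ^ m * Real.cosh y =
      Real.exp y / 2 * Real.cosh s ^ m + Real.exp (-y) / 2 * Real.cosh s ^ m := by
    rw [Real.cosh_eq y]; ring
  rw [h3]
  nth_rewrite 1 [← h1]
  rw [← h2, Finset.mul_sum, Finset.mul_sum, ← Finset.sum_add_distrib]
  refine Finset.sum_congr rfl fun j _ => ?_
  rw [Real.cosh_eq, neg_add, Real.exp_add, Real.exp_add, neg_mul]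
  ring

theorem central_sq (n : ℕ) :
    ((n.centralBinom : ℝ) / 4 ^ n) ^ 2 * (2 * (n : ℝ) + 1) ≤ 1 := by
  induction n with
  | zero => simp
  | succ n ih =>
    have h1 : ((n : ℝ) + 1) * ((n + 1).centralBinom : ℝ) = 2 * (2 * n + 1) * n.centralBinom := by
      exact_mod_cast Nat.succ_mul_centralBinom_succ n
    have h2 : ((n + 1).centralBinom : ℝ) / 4 ^ (n + 1) =
        (n.centralBinom : ℝ) / 4 ^ n * ((2 * n + 1) / (2 * n + 2)) := by
      rw [pow_succ]
      field_simp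
      linarith
    rw [h2, mul_pow]
    push_cast
    have h3 : (((2 : ℝ) * n + 1) / (2 * n + 2)) ^ 2 * (2 * ((n : ℝ) + 1) + 1) ≤ 2 * n + 1 := by
      rw [div_pow, div_mul_eq_mul_div, div_le_iff₀ (by positivity)]
      have : (0 : ℝ) ≤ n := Nat.cast_nonneg n
      nlinarith
    have h4 := mul_le_mul_of_nonneg_left h3 (sq_nonneg ((n.centralBinom : ℝ) / 4 ^ n))
    nlinarith

theorem choose_mid (m : ℕ) : (m.choose (m / 2) : ℝ) / 2 ^ m ≤ 1 / √((m : ℝ) + 1) := by
  have hp : (0 : ℝ) < (m : ℝ) + 1 := by positivity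
  have key : ((m.choose (m / 2) : ℝ) / 2 ^ m) ^ 2 * ((m : ℝ) + 1) ≤ 1 := by
    rcases Nat.even_or_odd' m with ⟨n, rfl | rfl⟩
    · have h1 : 2 * n / 2 = n := by omega
      have h2 := central_sq n
      rw [Nat.centralBinom_eq_two_mul_choose] at h2
      rw [h1, pow_mul]
      push_cast
      norm_num at h2 ⊢
      exact h2
    · have h1 : (2 * n + 1) / 2 = n := by omega
      have h2 := central_sq (n + 1)
      have h3 : (n + 1).centralBinom = 2 * (2 * n + 1).choose n := by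
        rw [Nat.centralBinom_eq_two_mul_choose, show 2 * (n + 1) = 2 * n + 1 + 1 by ring,
          Nat.choose_succ_succ', Nat.choose_symm_half]
        ring
      have h4 : (((n + 1).centralBinom : ℕ) : ℝ) / 4 ^ (n + 1) =
          ((2 * n + 1).choose n : ℝ) / 2 ^ (2 * n + 1) := by
        rw [h3, pow_succ, pow_succ, pow_mul]
        push_cast
        field_simp
        norm_num
        ring
      rw [h4] at h2
      rw [h1]
      push_cast at h2 ⊢
      have h5 := sq_nonneg (((2 * n + 1).choose n : ℝ) / 2 ^ (2 * n + 1))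
      nlinarith
  rw [le_div_iff₀ (Real.sqrt_pos.2 hp)]
  refine (sq_le_one_iff₀ (by positivity)).1 ?_
  rwa [mul_pow, Real.sq_sqrt hp.le]

theorem choose_decay (m n : ℕ) (h : m / 2 ≤ n) : (m.choose n : ℝ) / 2 ^ m *
    Real.exp ((2 * (n : ℝ) - m) ^ 2 / (4 * ((m : ℝ) + 1))) ≤ 2 / √((m : ℝ) + 1) := by
  have hp : (0 : ℝ) < (m : ℝ) + 1 := by positivity
  have hs : (0 : ℝ) < √((m : ℝ) + 1) := Real.sqrt_pos.2 hp
  induction n, h using Nat.le_induction with
  | base =>
    have h1 : (2 * ((m / 2 : ℕ) : ℝ) - m) ^ 2 ≤ 1 := by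
      have h2 : 2 * (m / 2) ≤ m ∧ m ≤ 2 * (m / 2) + 1 := by omega
      have h3 : 2 * ((m / 2 : ℕ) : ℝ) ≤ m := by exact_mod_cast h2.1
      have h4 : (m : ℝ) ≤ 2 * ((m / 2 : ℕ) : ℝ) + 1 := by exact_mod_cast h2.2
      nlinarith
    have h5 : (2 * ((m / 2 : ℕ) : ℝ) - m) ^ 2 / (4 * ((m : ℝ) + 1)) ≤ 1 / 2 := by
      rw [div_le_iff₀ (by positivity)]
      have : (0 : ℝ) ≤ m := Nat.cast_nonneg m
      linarith
    have h6 : Real.exp (1 / 2) ≤ 2 := by
      have h7 := Real.add_one_le_exp (-(1 / 2 : ℝ))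
      have h8 : Real.exp (1 / 2) * Real.exp (-(1 / 2)) = 1 := by
        rw [← Real.exp_add]; simp
      have h9 := Real.exp_pos (1 / 2 : ℝ)
      nlinarith
    have h10 := (Real.exp_le_exp.2 h5).trans h6
    calc _ ≤ 1 / √((m : ℝ) + 1) * 2 :=
          mul_le_mul (choose_mid m) h10 (Real.exp_pos _).le (by positivity)
      _ = _ := by ring
  | succ n hn ih =>
    refine le_trans ?_ ih
    rcases le_or_gt m n with hm | hm
    · rw [Nat.choose_eq_zero_of_lt (by omega : m < n + 1)]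
      simp only [Nat.cast_zero, zero_div, zero_mul]
      positivity
    have h1 : (m.choose (n + 1) : ℝ) * (n + 1) = m.choose n * ((m : ℝ) - n) := by
      have := Nat.choose_succ_right_eq m n
      rw [← Nat.cast_sub hm.le]
      exact_mod_cast this
    have hd : (m : ℝ) ≤ 2 * n + 1 := by
      have : m ≤ 2 * n + 1 := by omega
      exact_mod_cast this
    have hmn : (n : ℝ) ≤ m := by exact_mod_cast hm.le
    set x : ℝ := (2 * (n : ℝ) - m + 1) / ((m : ℝ) + 1) with hx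
    have h2 : (2 * ((n + 1 : ℕ) : ℝ) - m) ^ 2 / (4 * ((m : ℝ) + 1)) =
        (2 * (n : ℝ) - m) ^ 2 / (4 * ((m : ℝ) + 1)) + x := by
      rw [hx]; push_cast; field_simp; ring
    have h3 : (1 - x) * Real.exp x ≤ 1 := by
      have h7 := Real.add_one_le_exp (-x)
      have h8 : Real.exp (-x) * Real.exp x = 1 := by rw [← Real.exp_add]; simp
      have h9 := Real.exp_pos x
      nlinarith
    have h4 : ((m : ℝ) - n) * Real.exp x ≤ n + 1 := by
      have h5 : (m : ℝ) - n = ((m : ℝ) + 1) / 2 * (1 - x) := by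
        rw [hx]; field_simp; ring
      rw [h5, mul_assoc]
      have := mul_le_mul_of_nonneg_left h3 (by positivity : (0 : ℝ) ≤ ((m : ℝ) + 1) / 2)
      linarith
    have h6 : (m.choose (n + 1) : ℝ) * Real.exp x ≤ m.choose n := by
      have hn1 : (0 : ℝ) < (n : ℝ) + 1 := by positivity
      refine le_of_mul_le_mul_right ?_ hn1
      have := mul_le_mul_of_nonneg_left h4 (Nat.cast_nonneg (α := ℝ) (m.choose n))
      calc (m.choose (n + 1) : ℝ) * Real.exp x * (n + 1)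
          = (m.choose (n + 1) : ℝ) * (n + 1) * Real.exp x := by ring
        _ = m.choose n * (((m : ℝ) - n) * Real.exp x) := by rw [h1]; ring
        _ ≤ _ := this
    rw [h2, Real.exp_add]
    have h7 := mul_le_mul_of_nonneg_left h6 (by positivity :
      (0 : ℝ) ≤ Real.exp ((2 * (n : ℝ) - m) ^ 2 / (4 * ((m : ℝ) + 1))) / 2 ^ m)
    calc _ = Real.exp ((2 * (n : ℝ) - m) ^ 2 / (4 * ((m : ℝ) + 1))) / 2 ^ m *
          ((m.choose (n + 1) : ℝ) * Real.exp x) := by ring
      _ ≤ _ := h7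
      _ = _ := by ring

theorem pz_le (m : ℕ) (i : ℤ) :
    pz m i ≤ 2 / √((m : ℝ) + 1) * Real.exp (-(2 * (i : ℝ) - m) ^ 2 / (4 * ((m : ℝ) + 1))) := by
  have hp : (0 : ℝ) < √((m : ℝ) + 1) := Real.sqrt_pos.2 (by positivity)
  by_cases h0 : i < 0 ∨ (m : ℤ) < i
  · rw [pz_eq_zero h0]; positivity
  obtain ⟨n, rfl⟩ : ∃ n : ℕ, i = (n : ℤ) := ⟨i.toNat, by omega⟩
  have hn : n ≤ m := by omega
  have key : (m.choose n : ℝ) / 2 ^ m *
      Real.exp ((2 * (n : ℝ) - m) ^ 2 / (4 * ((m : ℝ) + 1))) ≤ 2 / √((m : ℝ) + 1) := by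
    rcases le_or_gt (m / 2) n with h | h
    · exact choose_decay m n h
    · have h1 := choose_decay m (m - n) (by omega)
      rw [Nat.choose_symm hn, Nat.cast_sub hn] at h1
      have h2 : (2 * ((m : ℝ) - n) - m) ^ 2 = (2 * (n : ℝ) - m) ^ 2 := by ring
      rwa [h2] at h1
  rw [pz_nat, neg_div, Real.exp_neg, Int.cast_natCast, ← div_eq_mul_inv,
    le_div_iff₀ (Real.exp_pos _)]
  exact key

theorem sum_tele {a : ℝ} (ha : 0 < a) (n : ℕ) :
    ∑ l ∈ Finset.range n, 1 / √((l : ℝ) + 1) * Real.exp (-(a ^ 2 * ((l : ℝ) + 1))) ≤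
      4 / a * (1 - 1 / (1 + a * √(n : ℝ))) := by
  induction n with
  | zero => simp
  | succ n ih =>
    rw [Finset.sum_range_succ]
    push_cast
    have hn : (0 : ℝ) ≤ n := Nat.cast_nonneg n
    set u := √(n : ℝ) with hu
    set v := √((n : ℝ) + 1) with hv
    have hu0 : 0 ≤ u := Real.sqrt_nonneg _
    have hv0 : 0 < v := Real.sqrt_pos.2 (by positivity)
    have hu2 : u ^ 2 = n := Real.sq_sqrt hn
    have hv2 : v ^ 2 = n + 1 := Real.sq_sqrt (by positivity)
    have huv : u ≤ v := Real.sqrt_le_sqrt (by linarith)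
    have h1 : Real.exp (-(a ^ 2 * ((n : ℝ) + 1))) ≤ 2 / (1 + a * v) ^ 2 := by
      rw [← hv2, Real.exp_neg, inv_eq_one_div, div_le_div_iff₀ (Real.exp_pos _) (by positivity)]
      have := Real.add_one_le_exp (a ^ 2 * v ^ 2)
      nlinarith [sq_nonneg (1 - a * v)]
    have h2 : 1 / v ≤ 2 * (v - u) := by
      rw [div_le_iff₀ hv0]
      nlinarith [sq_nonneg (v - u)]
    have h3 : 2 / (1 + a * v) ^ 2 ≤ 2 / ((1 + a * u) * (1 + a * v)) := by
      refine div_le_div_of_nonneg_left (by norm_num) (by positivity) ?_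
      have h4 : a * u ≤ a * v := mul_le_mul_of_nonneg_left huv ha.le
      have h5 : 0 < 1 + a * v := by positivity
      nlinarith
    have h4 : 1 / v * Real.exp (-(a ^ 2 * ((n : ℝ) + 1))) ≤
        2 * (v - u) * (2 / ((1 + a * u) * (1 + a * v))) :=
      mul_le_mul h2 (h1.trans h3) (Real.exp_pos _).le (by linarith)
    have h5 : 4 / a * (1 - 1 / (1 + a * v)) = 4 / a * (1 - 1 / (1 + a * u)) +
        2 * (v - u) * (2 / ((1 + a * u) * (1 + a * v))) := by
      field_simp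
      ring
    rw [h5]
    linarith

theorem sum_small {β : ℝ} (hβ : 0 < β) : ∃ b : ℝ, 0 ≤ b ∧ ∀ M : ℕ, 1 ≤ M → ∀ n : ℕ,
    ∑ l ∈ Finset.range n, 1 / √((l : ℝ) + 1) * Real.exp (-b * ((l : ℝ) + 1) / (M : ℝ) ^ 2) ≤
      β * M := by
  refine ⟨(4 / β) ^ 2, by positivity, fun M hM n => ?_⟩
  have hM0 : (0 : ℝ) < M := by exact_mod_cast hM
  have ha : 0 < 4 / β / M := by positivity
  have h1 := sum_tele ha n
  have h2 : ∀ l : ℕ, -(4 / β) ^ 2 * ((l : ℝ) + 1) / (M : ℝ) ^ 2 =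
      -((4 / β / M) ^ 2 * ((l : ℝ) + 1)) := fun l => by
    field_simp
  simp only [h2]
  refine h1.trans ?_
  have h3 : 4 / (4 / β / M) = β * M := by field_simp
  rw [h3]
  have h4 : 0 ≤ 1 / (1 + 4 / β / M * √(n : ℝ)) := by positivity
  have h5 : 0 < β * M := by positivity
  nlinarith

theorem sum_inv_sqrt (n : ℕ) : ∑ l ∈ Finset.range n, 1 / √((l : ℝ) + 1) ≤ 2 * √(n : ℝ) := by
  induction n with
  | zero => simp
  | succ n ih =>
    rw [Finset.sum_range_succ]
    push_cast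
    have hn : (0 : ℝ) ≤ n := Nat.cast_nonneg n
    have hv0 : 0 < √((n : ℝ) + 1) := Real.sqrt_pos.2 (by positivity)
    have hu2 : √(n : ℝ) ^ 2 = n := Real.sq_sqrt hn
    have hv2 : √((n : ℝ) + 1) ^ 2 = n + 1 := Real.sq_sqrt (by positivity)
    have h2 : 1 / √((n : ℝ) + 1) ≤ 2 * (√((n : ℝ) + 1) - √(n : ℝ)) := by
      rw [div_le_iff₀ hv0]
      nlinarith [sq_nonneg (√((n : ℝ) + 1) - √(n : ℝ))]
    linarith

end Pool.Agent.K6329
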