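import Pool.Agent.Lib.MP_632999_pr.K.Edge
import Pool.Agent.Lib.MP_632999_pr.K.Str
import Pool.Agent.Lib.MP_632999_pr.K.Pz

/-! Uniform lower tail (section Tail of the plan). `wt_mean` by induction on `n` (`indep_row`,
`gC_exp_neg`). `L j = exp (prof j) / m^j`, `m = (M+1)/M`; the set `A = {z_{<= kap} <= eta}` reads only
the increments below `kap`. -/

namespace Pool.Agent.K6329

open MeasureTheory ProbabilityTheory Filter Topology Set Function
open scoped NNReal ENNReal

theorem wt_update (c : Rows) (l : ℕ) (r : Row) (n : ℕ) (h : n ≤ l) :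
    ∀ (k : ℤ) (i : ℕ), wt (update c l r) n k i = wt c n k i := by
  induction n with
  | zero => intro k i; rfl
  | succ n ih =>
    intro k i
    simp only [wt, ih (by omega), update_of_ne (show n ≠ l by omega)]

theorem wt_mean (M n : ℕ) (k : ℤ) (i : ℕ) : Integrable (fun c => wt c n k i) (piRR (gC M)) ∧
    ∫ c, wt c n k i ∂piRR (gC M) = (n.choose i : ℝ) / (2 * (M : ℝ) + 1) ^ n := by
  induction n generalizing k i with
  | zero =>
    refine ⟨by simp only [wt]; exact integrable_const _, ?_⟩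
    simp only [wt, integral_const, probReal_univ, smul_eq_mul, one_mul, pow_zero, div_one]
    rcases i with _ | i <;> simp
  | succ n ih =>
    set G : Rows → ℝ := fun c => wt c n k i + if i = 0 then 0 else wt c n (k + 1) (i - 1) with hG
    have hm : Measurable G := by
      refine (measurable_wt n k i).add ?_
      split_ifs
      · exact measurable_const
      · exact measurable_wt _ _ _
    have h1 : Integrable G (piRR (gC M)) ∧
        ∫ c, G c ∂piRR (gC M) = ((n + 1).choose i : ℝ) / (2 * (M : ℝ) + 1) ^ n := by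
      rcases i with _ | i
      · simpa [hG] using ih k 0
      · simp only [hG, if_neg (Nat.succ_ne_zero i), Nat.add_sub_cancel]
        refine ⟨(ih k _).1.add (ih _ _).1, ?_⟩
        rw [integral_add (ih k _).1 (ih _ _).1, (ih k _).2, (ih _ _).2, Nat.choose_succ_succ',
          Nat.cast_add]
        ring
    have h2 : MeasurePreserving (fun c : Rows => c n k) (piRR (gC M)) (gC M) :=
      (measurePreserving_eval_infinitePi (fun _ : ℤ => gC M) k).comp
        (measurePreserving_eval_infinitePi (fun _ : ℕ => piR (gC M)) n)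
    have hme : Measurable fun x : ℝ => Real.exp (-x) := by fun_prop
    have h3 : IndepFun G (fun c : Rows => Real.exp (-c n k)) (piRR (gC M)) :=
      ((indep_row (gC M) hm n fun c r => by simp only [hG, wt_update c n r n le_rfl]).comp
        (φ := fun r : Row => Real.exp (-r k)) (ψ := id) (by fun_prop) measurable_id).symm
    have h4 : Integrable (fun c : Rows => Real.exp (-c n k)) (piRR (gC M)) :=
      h2.integrable_comp_of_integrable (gC_exp_neg M).1
    have h5 : ∫ c : Rows, Real.exp (-c n k) ∂piRR (gC M) = 1 / (2 * (M : ℝ) + 1) := by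
      rw [← integral_map h2.measurable.aemeasurable hme.aestronglyMeasurable, h2.map_eq,
        (gC_exp_neg M).2]
    refine ⟨h3.integrable_mul h1.1 h4, ?_⟩
    have h6 := h3.integral_fun_mul_eq_mul_integral h1.1.aestronglyMeasurable
      h4.aestronglyMeasurable
    rw [h1.2, h5] at h6
    refine h6.trans ?_
    rw [pow_succ, div_mul_div_comm, mul_one]

noncomputable def ee (x : ℝ) : ℝ≥0∞ := ENNReal.ofReal (Real.exp x)

theorem ee_add (x y : ℝ) : ee (x + y) = ee x * ee y := by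
  rw [ee, Real.exp_add, ENNReal.ofReal_mul (Real.exp_pos _).le]; rfl

theorem measurable_ee : Measurable ee := Real.measurable_exp.ennreal_ofReal

theorem prof_update {l j : ℤ} (h0 : 0 ≤ l) (hj : j ≤ l) (ξ : Row) (u : ℝ) :
    prof (update ξ l u) j = prof ξ j := by
  unfold prof
  congr 1
  · refine Finset.sum_congr rfl fun i hi => update_of_ne ?_ _ _
    have := Finset.mem_Ico.1 hi
    omega
  · refine Finset.sum_congr rfl fun i hi => update_of_ne ?_ _ _
    have := Finset.mem_Ico.1 hi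
    omega

theorem lstep (M : ℕ) {F : Row × Rows → ℝ≥0∞} (hF : Measurable F) (j : ℤ)
    (h : ∀ ξ c u, F (update ξ j u, c) = F (ξ, c)) {g : ℝ → ℝ≥0∞} (hg : Measurable g) :
    ∫⁻ ω, F ω * g (ω.1 j) ∂Pd M = (∫⁻ ω, F ω ∂Pd M) * ∫⁻ u, g u ∂mu M := by
  have h1 : Measurable fun ω : Row × Rows => F ω * g (ω.1 j) :=
    hF.mul (hg.comp ((measurable_pi_apply j).comp measurable_fst))
  unfold Pd
  rw [lintegral_prod_symm _ h1.aemeasurable, lintegral_prod_symm _ hF.aemeasurable,
    ← lintegral_mul_const _ hF.lintegral_prod_left']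
  refine lintegral_congr fun c => ?_
  have hc : Measurable fun ξ => F (ξ, c) := hF.comp measurable_prodMk_right
  have h2 : Measurable fun ξ : Row => F (ξ, c) * g (ξ j) :=
    hc.mul (hg.comp (measurable_pi_apply j))
  rw [← (mp_update (mu M) j).lintegral_comp h2]
  simp only [h, update_self]
  exact lintegral_prod_mul hc.aemeasurable hg.aemeasurable

theorem meas_prof (j : ℤ) : Measurable fun ω : Row × Rows => prof ω.1 j :=
  (measurable_prof j).comp measurable_fst

theorem lwalk (M : ℕ) {F : Row × Rows → ℝ≥0∞} (hF : Measurable F) (a : ℕ)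
    (h : ∀ j : ℤ, (a : ℤ) ≤ j → ∀ ξ c u, F (update ξ j u, c) = F (ξ, c)) (s : ℝ) {b : ℕ}
    (hb : a ≤ b) : ∫⁻ ω, F ω * ee (s * (prof ω.1 b - prof ω.1 a)) ∂Pd M =
      (∫⁻ ω, F ω ∂Pd M) * (∫⁻ u, ee (s * u) ∂mu M) ^ (b - a) := by
  induction b, hb using Nat.le_induction with
  | base => simp [ee]
  | succ b hb ih =>
    have h1 := lstep M (F := fun ω => F ω * ee (s * (prof ω.1 b - prof ω.1 a)))
      (hF.mul (measurable_ee.comp (((meas_prof b).sub (meas_prof a)).const_mul s))) b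
      (fun ξ c u => by
        simp only [h b (by exact_mod_cast hb), prof_update (Int.natCast_nonneg b) le_rfl,
          prof_update (Int.natCast_nonneg b) (show (a : ℤ) ≤ b by exact_mod_cast hb)])
      (g := fun u => ee (s * u)) (measurable_ee.comp (measurable_id.const_mul s))
    rw [ih, mul_assoc, ← pow_succ, ← Nat.sub_add_comm hb] at h1
    rw [← h1]
    refine lintegral_congr fun ω => ?_
    rw [mul_assoc, ← ee_add, Nat.cast_succ, prof_succ]
    congr 2
    ring

theorem ph_eq {M : ℕ} {s : ℝ} (h : |s| < (M : ℝ) + 1) :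
    ∫⁻ u, ee (s * u) ∂mu M = ENNReal.ofReal (∫ u, Real.exp (s * u) ∂mu M) :=
  (ofReal_integral_eq_lintegral_ofReal (mu_int h)
    (Eventually.of_forall fun _ => (Real.exp_pos _).le)).symm

theorem ph_one {M : ℕ} (hM : 1 ≤ M) :
    ∫⁻ u, ee (1 * u) ∂mu M = ENNReal.ofReal (((M : ℝ) + 1) / M) := by
  have h : (1 : ℝ) ≤ M := by exact_mod_cast hM
  rw [ph_eq (by rw [abs_one]; linarith), ← mu_exp1 hM]
  simp only [one_mul]

theorem ph_neg {M : ℕ} (hM : 1 ≤ M) :
    ∫⁻ u, ee (-1 * u) ∂mu M = ENNReal.ofReal (((M : ℝ) + 1) / M) := by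
  rw [← ph_one hM, ← (mu_neg M).lintegral_comp (f := fun u => ee (1 * u))
    (measurable_ee.comp (measurable_id.const_mul 1))]
  simp only [neg_mul, one_mul]

theorem ph_two {M : ℕ} (hM : 2 ≤ M) :
    ∫⁻ u, ee (2 * u) ∂mu M = ENNReal.ofReal (((M : ℝ) + 1) * (M + 2) / (M * (M - 1))) := by
  have h : (2 : ℝ) ≤ M := by exact_mod_cast hM
  rw [ph_eq (by rw [abs_two]; linarith), mu_exp2 hM]

/-- the normalised point to point weight -/
noncomputable def nw (M n : ℕ) (k : ℤ) (i : ℕ) (ω : Row × Rows) : ℝ :=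
  wt ω.2 n k i * ((2 * (M : ℝ) + 1) / 2) ^ n

theorem nw_nonneg (M n : ℕ) (k : ℤ) (i : ℕ) (ω : Row × Rows) : 0 ≤ nw M n k i ω :=
  mul_nonneg (wt_nonneg _ _ _ _) (by positivity)

theorem meas_nw (M n : ℕ) (k : ℤ) (i : ℕ) : Measurable (nw M n k i) :=
  ((measurable_wt n k i).comp measurable_snd).mul_const _

theorem zd_exp (M n : ℕ) (k : ℤ) (ω : Row × Rows) :
    zd M n k ω = Real.exp (Hd n k ω) * ((2 * (M : ℝ) + 1) / 2) ^ n := by
  rw [zd, Real.exp_add, Real.exp_nat_mul, Real.exp_log (by positivity)]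

theorem zd_sum (M n : ℕ) (k : ℤ) (ω : Row × Rows) :
    zd M n k ω = ∑ i ∈ Finset.range (n + 1), Real.exp (prof ω.1 (k + i)) * nw M n k i ω := by
  rw [zd_exp, Hd, exp_evol, Finset.sum_mul]
  exact Finset.sum_congr rfl fun i _ => mul_assoc _ _ _

theorem nw_lint (M n : ℕ) (k : ℤ) (i : ℕ) :
    ∫⁻ ω, ENNReal.ofReal (nw M n k i ω) ∂Pd M = ENNReal.ofReal ((n.choose i : ℝ) / 2 ^ n) := by
  have h1 : MeasurePreserving Prod.snd (Pd M) (piRR (gC M)) := measurePreserving_snd
  have h2 := h1.lintegral_comp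
    (f := fun c => ENNReal.ofReal (wt c n k i * ((2 * (M : ℝ) + 1) / 2) ^ n))
    ((measurable_wt n k i).mul_const _).ennreal_ofReal
  refine h2.trans ?_
  rw [← ofReal_integral_eq_lintegral_ofReal ((wt_mean M n k i).1.mul_const _)
    (Eventually.of_forall fun c => mul_nonneg (wt_nonneg _ _ _ _) (by positivity)),
    integral_mul_const, (wt_mean M n k i).2, div_pow]
  congr 1
  field_simp

theorem hi_lint {M : ℕ} (hM : 2 ≤ M) (n : ℕ) (k : ℤ) (i : ℕ) {j r : ℕ} (hj : j ≤ r) :
    ∫⁻ ω, ENNReal.ofReal (Real.exp (prof ω.1 j) * nw M n k i ω * Real.exp (prof ω.1 r)) ∂Pd M =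
      ENNReal.ofReal ((n.choose i : ℝ) / 2 ^ n *
        (((M : ℝ) + 1) * (M + 2) / (M * (M - 1))) ^ j * (((M : ℝ) + 1) / M) ^ (r - j)) := by
  have h : (2 : ℝ) ≤ M := by exact_mod_cast hM
  have h' : (0 : ℝ) < M - 1 := by linarith
  have m1 := (meas_nw M n k i).ennreal_ofReal
  have h1 := lwalk M m1 0 (fun _ _ _ _ _ => rfl) 2 (Nat.zero_le j)
  have h2 := lwalk M (F := fun ω => ENNReal.ofReal (nw M n k i ω) *
      ee (2 * (prof ω.1 j - prof ω.1 (0 : ℕ))))
    (m1.mul (measurable_ee.comp (((meas_prof j).sub (meas_prof _)).const_mul 2))) j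
    (fun l hl ξ c u => by
      have h0 : 0 ≤ l := (Int.natCast_nonneg j).trans hl
      simp only [prof_update h0 hl, prof_update h0 (show ((0 : ℕ) : ℤ) ≤ l from h0)]
      rfl) 1 hj
  rw [h1, nw_lint, ph_two hM, ph_one (by omega), Nat.sub_zero, ← ENNReal.ofReal_pow (by positivity),
    ← ENNReal.ofReal_pow (by positivity), ← ENNReal.ofReal_mul (by positivity),
    ← ENNReal.ofReal_mul (by positivity)] at h2
  rw [← h2]
  refine lintegral_congr fun ω => ?_
  rw [mul_assoc (ENNReal.ofReal _), ← ee_add, ee, ← ENNReal.ofReal_mul (nw_nonneg _ _ _ _ _),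
    mul_comm (Real.exp _), mul_assoc, ← Real.exp_add, Nat.cast_zero, prof_zero]
  congr 3
  ring

theorem tail_core {M : ℕ} (hM : 2 ≤ M) (n : ℕ) (k : ℤ) {r κ : ℕ} (hr : (r : ℤ) = k + n)
    (hκ : κ ≤ r) {η t K : ℝ} (hη : 0 < η) (ht : 0 < t) (hK : 0 ≤ K)
    (h : 2 * η / ((2 * (M : ℝ) + 1) / 2) ^ n * ((M : ℝ) + 1) ^ n +
      ∑ i ∈ (Finset.range (n + 1)).filter (fun i : ℕ => ¬ k + i ≤ κ), η⁻¹ * ((n.choose i : ℝ) / 2 ^ n *
        (((M : ℝ) + 1) * (M + 2) / (M * (M - 1))) ^ (k + i).toNat *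
          (((M : ℝ) + 1) / M) ^ (r - (k + i).toNat)) ≤ K * (((M : ℝ) + 1) / M) ^ r) :
    (Pd M).real {ω | zd M n k ω ≤ η} ≤ t * K + (((M : ℝ) + 1) / M) ^ (2 * κ) / t := by
  have hM' : (2 : ℝ) ≤ M := by exact_mod_cast hM
  have hM1 : (0 : ℝ) < M - 1 := by linarith
  set m : ℝ := ((M : ℝ) + 1) / M with hm
  have m0 : 0 < m := by positivity
  set ρ : ℝ := ((2 * (M : ℝ) + 1) / 2) ^ n with hρ
  have ρ0 : 0 < ρ := by positivity
  set f : ℕ → Row × Rows → ℝ := fun i ω => Real.exp (prof ω.1 (k + i)) * nw M n k i ω with hf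
  have f0 : ∀ i ω, 0 ≤ f i ω := fun i ω => mul_nonneg (Real.exp_pos _).le (nw_nonneg _ _ _ _ _)
  have fm : ∀ i, Measurable (f i) := fun i => (meas_prof _).exp.mul (meas_nw M n k i)
  set lo := (Finset.range (n + 1)).filter (fun i : ℕ => k + i ≤ κ) with hlo
  set hi := (Finset.range (n + 1)).filter (fun i : ℕ => ¬ k + i ≤ κ) with hhi
  have hz : ∀ ω, zd M n k ω = ∑ i ∈ lo, f i ω + ∑ i ∈ hi, f i ω := fun ω => by
    rw [zd_sum, Finset.sum_filter_add_sum_filter_not]
  set A : Set (Row × Rows) := {ω | ∑ i ∈ lo, f i ω ≤ η} with hA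
  have mA : MeasurableSet A :=
    measurableSet_le (Finset.measurable_sum _ fun i _ => fm i) measurable_const
  set F : Row × Rows → ℝ≥0∞ := A.indicator fun ω => ee (prof ω.1 κ) with hF
  have mF : Measurable F := (measurable_ee.comp (meas_prof _)).indicator mA
  have h1 := lwalk M mF κ (fun l hl ξ c u => by
    have h0 : 0 ≤ l := (Int.natCast_nonneg κ).trans hl
    have e : ∑ i ∈ lo, f i (update ξ l u, c) = ∑ i ∈ lo, f i (ξ, c) :=
      Finset.sum_congr rfl fun i hi => by
        simp only [hf, prof_update h0 ((Finset.mem_filter.1 hi).2.trans hl)]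
        rfl
    simp only [hF, hA, indicator, mem_ofPred_eq, e, prof_update h0 hl]) 1 hκ
  rw [ph_one (by omega)] at h1
  have h2 : ∀ ω, F ω * ee (1 * (prof ω.1 r - prof ω.1 κ)) ≤
      ENNReal.ofReal (2 * η / ρ) * ENNReal.ofReal (Real.exp (prof ω.1 (k + n) - Hd n k ω)) +
        ∑ i ∈ hi, ENNReal.ofReal η⁻¹ * ENNReal.ofReal (f i ω * Real.exp (prof ω.1 r)) := by
    intro ω
    by_cases hω : ω ∈ A
    swap
    · rw [hF, indicator_of_notMem hω, zero_mul]; exact zero_le
    rw [hF, indicator_of_mem hω, ← ee_add, one_mul, add_sub_cancel, ee]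
    by_cases h3 : zd M n k ω ≤ 2 * η
    · refine le_add_right ?_
      rw [← ENNReal.ofReal_mul (by positivity), ← hr, Real.exp_sub]
      refine ENNReal.ofReal_le_ofReal ?_
      rw [zd_exp, ← hρ] at h3
      have e0 := Real.exp_pos (Hd n k ω)
      rw [div_mul_div_comm, le_div_iff₀ (by positivity), mul_comm (2 * η), mul_comm ρ]
      exact mul_le_mul_of_nonneg_left h3 (Real.exp_pos _).le
    · refine le_add_left ?_
      rw [← Finset.mul_sum, ← ENNReal.ofReal_sum_of_nonneg
        (fun i _ => mul_nonneg (f0 i ω) (Real.exp_pos _).le), ← ENNReal.ofReal_mul (by positivity),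
        ← Finset.sum_mul, ← mul_assoc]
      refine ENNReal.ofReal_le_ofReal (le_mul_of_one_le_left (Real.exp_pos _).le ?_)
      have h4 : ∑ i ∈ lo, f i ω ≤ η := hω
      rw [hz] at h3
      rw [inv_mul_eq_div, le_div_iff₀ hη]
      linarith
  have me : Measurable fun ω : Row × Rows =>
      ENNReal.ofReal (Real.exp (prof ω.1 (k + n) - Hd n k ω)) :=
    ((meas_prof _).sub (measurable_Hd n k)).exp.ennreal_ofReal
  have mf : ∀ i, Measurable fun ω => ENNReal.ofReal (f i ω * Real.exp (prof ω.1 r)) :=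
    fun i => ((fm i).mul (meas_prof _).exp).ennreal_ofReal
  have h3 : (∫⁻ ω, F ω ∂Pd M) * ENNReal.ofReal m ^ (r - κ) ≤ ENNReal.ofReal (K * m ^ r) := by
    rw [← h1]
    refine (lintegral_mono h2).trans (le_trans (le_of_eq ?_) (ENNReal.ofReal_le_ofReal h))
    rw [lintegral_add_left (me.const_mul _), lintegral_const_mul _ me,
      lintegral_finsetSum _ fun i _ => (mf i).const_mul _,
      ← ofReal_integral_eq_lintegral_ofReal (edge_exp M n k).1
        (Eventually.of_forall fun _ => (Real.exp_pos _).le), (edge_exp M n k).2,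
      ENNReal.ofReal_add (by positivity) (Finset.sum_nonneg fun i _ => by positivity),
      ENNReal.ofReal_mul (by positivity), ENNReal.ofReal_sum_of_nonneg fun i _ => by positivity]
    congr 1
    refine Finset.sum_congr rfl fun i hi' => ?_
    obtain ⟨a1, a2⟩ := Finset.mem_filter.1 hi'
    have a3 := Finset.mem_range.1 a1
    have a4 : (((k + i).toNat : ℕ) : ℤ) = k + i := Int.toNat_of_nonneg (by omega)
    rw [lintegral_const_mul _ (mf i), ENNReal.ofReal_mul (by positivity),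
      ← hi_lint hM n k i (show (k + i).toNat ≤ r by omega), a4]
  have h4 : ∫⁻ ω, F ω ∂Pd M ≤ ENNReal.ofReal (K * m ^ κ) := by
    have e : ENNReal.ofReal (K * m ^ r) = ENNReal.ofReal (K * m ^ κ) * ENNReal.ofReal m ^ (r - κ) := by
      rw [← ENNReal.ofReal_pow m0.le, ← ENNReal.ofReal_mul (by positivity), mul_assoc, ← pow_add,
        Nat.add_sub_cancel' hκ]
    rw [e] at h3
    exact (ENNReal.mul_le_mul_iff_left (pow_ne_zero _ (ENNReal.ofReal_pos.2 m0).ne')
      (ENNReal.pow_ne_top ENNReal.ofReal_ne_top)).1 h3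
  have h5 := lwalk M (F := fun _ => 1) measurable_const 0 (fun _ _ _ _ _ => rfl) (-1) (Nat.zero_le κ)
  rw [ph_neg (by omega), lintegral_one, measure_univ, one_mul, Nat.sub_zero,
    ← ENNReal.ofReal_pow m0.le] at h5
  simp only [one_mul, Nat.cast_zero, prof_zero, sub_zero, neg_mul] at h5
  have h6 : ∀ ω, {ω | zd M n k ω ≤ η}.indicator (1 : Row × Rows → ℝ≥0∞) ω ≤
      ENNReal.ofReal (t / m ^ κ) * F ω + ENNReal.ofReal (m ^ κ / t) * ee (-prof ω.1 κ) := by
    intro ω
    by_cases hω : ω ∈ {ω | zd M n k ω ≤ η}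
    swap
    · rw [indicator_of_notMem hω]; exact zero_le
    have a1 : ω ∈ A := by
      have a2 : zd M n k ω ≤ η := hω
      rw [hz] at a2
      exact le_trans (le_add_of_nonneg_right (Finset.sum_nonneg fun i _ => f0 i ω)) a2
    rw [indicator_of_mem hω, hF, indicator_of_mem a1, ee, ee, ← ENNReal.ofReal_mul (by positivity),
      ← ENNReal.ofReal_mul (by positivity), ← ENNReal.ofReal_add (by positivity) (by positivity),
      Pi.one_apply, ← ENNReal.ofReal_one]
    refine ENNReal.ofReal_le_ofReal ?_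
    have a3 : 0 < t / m ^ κ * Real.exp (prof ω.1 κ) := by positivity
    have a4 : m ^ κ / t * Real.exp (-prof ω.1 κ) = (t / m ^ κ * Real.exp (prof ω.1 κ))⁻¹ := by
      rw [Real.exp_neg, mul_inv, inv_div]
    rw [a4]
    by_cases a5 : 1 ≤ t / m ^ κ * Real.exp (prof ω.1 κ)
    · exact le_add_of_le_of_nonneg a5 (by positivity)
    · exact le_add_of_nonneg_of_le a3.le ((one_le_inv₀ a3).2 (not_le.1 a5).le)
  have h7 := lintegral_mono (μ := Pd M) h6
  have mn : Measurable fun ω : Row × Rows => ee (-prof ω.1 κ) :=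
    measurable_ee.comp (meas_prof _).neg
  rw [lintegral_indicator_one (measurableSet_le (measurable_zd M n k) measurable_const),
    lintegral_add_left (mF.const_mul _), lintegral_const_mul _ mF, lintegral_const_mul _ mn,
    h5] at h7
  refine ENNReal.toReal_le_of_le_ofReal (by positivity) (h7.trans ?_)
  rw [ENNReal.ofReal_add (by positivity) (by positivity), ← ENNReal.ofReal_mul (by positivity)]
  refine add_le_add ((mul_le_mul_right h4 _).trans (le_of_eq ?_)) (le_of_eq ?_)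
  · rw [← ENNReal.ofReal_mul (by positivity)]
    congr 1
    field_simp
  · congr 1
    rw [two_mul, pow_add]
    ring

theorem num_one {M X : ℝ} (hM : 0 < M) (hX : 0 ≤ X) {n r : ℕ} (h : (n : ℝ) ≤ 2 * r + X * M) :
    ((M + 1) / ((2 * M + 1) / 2)) ^ n ≤ Real.exp (X / 2) * ((M + 1) / M) ^ r := by
  have m0 : 0 < (M + 1) / M := by positivity
  obtain ⟨l, hl⟩ : ∃ l, Real.exp l = (M + 1) / M := ⟨_, Real.exp_log m0⟩
  have h0 : 0 ≤ l := by
    rw [← Real.one_le_exp_iff, hl, le_div_iff₀ hM]; linarith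
  have h1 : l * M ≤ 1 := by
    have := Real.add_one_le_exp l
    rw [hl, le_div_iff₀ hM] at this
    linarith
  have h2 : (M + 1) / ((2 * M + 1) / 2) ≤ Real.exp (l / 2) := by
    rw [← pow_le_pow_iff_left₀ (by positivity) (by positivity) two_ne_zero, ← Real.exp_nat_mul,
      show ((2 : ℕ) : ℝ) * (l / 2) = l by push_cast; ring, hl, div_pow,
      div_le_div_iff₀ (by positivity) hM]
    nlinarith
  refine (pow_le_pow_left₀ (by positivity) h2 n).trans ?_
  rw [← hl, ← Real.exp_nat_mul, ← Real.exp_nat_mul, ← Real.exp_add, Real.exp_le_exp]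
  nlinarith [mul_le_mul_of_nonneg_right h h0, mul_le_mul_of_nonneg_left h1 hX]

theorem num_two {M L : ℝ} (hM : 4 ≤ M) {j r : ℕ} (hj : j ≤ r) (h : M * L / 4 ≤ j) :
    ((M + 1) * (M + 2) / (M * (M - 1))) ^ j * ((M + 1) / M) ^ (r - j) ≤
      Real.exp (-L) ^ 2 * ((M + 1) / M) ^ r * Real.exp (12 / M * j) := by
  have h0 : 0 < M := by linarith
  have h1 : 0 < M - 1 := by linarith
  have h2 : (M + 1) * (M + 2) / (M * (M - 1)) ≤ (M + 1) / M * Real.exp (4 / M) := by
    rw [← div_mul_div_comm]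
    refine mul_le_mul_of_nonneg_left (le_trans ?_ (Real.add_one_le_exp _)) (by positivity)
    rw [div_add_one h0.ne', div_le_div_iff₀ h1 h0]
    nlinarith
  refine (mul_le_mul_of_nonneg_right (pow_le_pow_left₀ (by positivity) h2 j)
    (by positivity)).trans ?_
  rw [mul_pow, mul_right_comm, ← pow_add, Nat.add_sub_cancel' hj, mul_comm (Real.exp (-L) ^ 2),
    mul_assoc, ← Real.exp_nat_mul, ← Real.exp_nat_mul, ← Real.exp_add]
  refine mul_le_mul_of_nonneg_left (Real.exp_le_exp.2 ?_) (by positivity)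
  have h3 : L ≤ 4 / M * j := by
    rw [div_mul_eq_mul_div, le_div_iff₀ h0]; linarith
  have h4 : 12 / M * j = 3 * (4 / M * j) := by ring
  push_cast
  linarith

theorem num_three {M T X k : ℝ} (hM : 0 < M) {n : ℕ} (hn : (n : ℝ) ≤ T * M ^ 2)
    (hk : 2 * k + n ≤ X * M) :
    ∑ i ∈ Finset.range (n + 1), (n.choose i : ℝ) / 2 ^ n * Real.exp (12 / M * (k + i)) ≤
      Real.exp (6 * X + 18 * T) := by
  have h1 : ∑ i ∈ Finset.range (n + 1), (n.choose i : ℝ) / 2 ^ n * Real.exp (12 / M * (k + i)) =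
      Real.exp (12 / M * k) * ((Real.exp (12 / M) + 1) / 2) ^ n := by
    rw [div_pow, add_pow, Finset.sum_div, Finset.mul_sum]
    refine Finset.sum_congr rfl fun i _ => ?_
    rw [mul_add, Real.exp_add, mul_comm (12 / M) (i : ℝ), Real.exp_nat_mul]
    ring
  have h2 : (Real.exp (12 / M) + 1) / 2 ≤ Real.exp (6 / M + 18 / M ^ 2) := by
    have e : (Real.exp (12 / M) + 1) / 2 = Real.exp (6 / M) * Real.cosh (6 / M) := by
      rw [Real.cosh_eq, ← mul_div_assoc, mul_add, ← Real.exp_add, ← Real.exp_add, add_neg_cancel,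
        Real.exp_zero]
      congr 3
      ring
    rw [e, Real.exp_add]
    refine mul_le_mul_of_nonneg_left ((Real.cosh_le_exp_half_sq _).trans (le_of_eq ?_))
      (Real.exp_pos _).le
    congr 1
    ring
  rw [h1]
  refine (mul_le_mul_of_nonneg_left (pow_le_pow_left₀ (by positivity) h2 n)
    (Real.exp_pos _).le).trans ?_
  rw [← Real.exp_nat_mul, ← Real.exp_add, Real.exp_le_exp]
  have h3 : (2 * k + n) / M ≤ X := (div_le_iff₀ hM).2 hk
  have h4 : n / M ^ 2 ≤ T := (div_le_iff₀ (by positivity)).2 hn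
  have h5 : 12 / M * k + n * (6 / M + 18 / M ^ 2) = 6 * ((2 * k + n) / M) + 18 * (n / M ^ 2) := by
    ring
  linarith

theorem tail (T X : ℝ) : ∃ (C : ℝ) (M₀ : ℕ), ∀ M : ℕ, M₀ ≤ M → ∀ (n : ℕ) (k : ℤ),
    (n : ℝ) ≤ T * (M : ℝ) ^ 2 → |2 * (k : ℝ) + n| ≤ X * M → -(n : ℤ) ≤ k → k ≤ 0 →
    ∀ η : ℝ, 0 < η → η ≤ 1 → (Pd M).real {ω | zd M n k ω ≤ η} ≤ C * η ^ (1 / 4 : ℝ) := by
  refine ⟨2 * Real.exp (X / 2) + Real.exp (6 * X + 18 * T) + Real.exp 2, 4,
    fun M hM n k hn hk h1 _ η η0 η1 => ?_⟩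
  have hM' : (4 : ℝ) ≤ M := by exact_mod_cast hM
  have M0 : (0 : ℝ) < M := by linarith
  have hX : 0 ≤ X := nonneg_of_mul_nonneg_left ((abs_nonneg _).trans hk) M0
  obtain ⟨r, hr⟩ : ∃ r : ℕ, (r : ℤ) = k + n := ⟨(k + n).toNat, Int.toNat_of_nonneg (by omega)⟩
  have hr' : (r : ℝ) = k + n := by exact_mod_cast hr
  obtain ⟨L, rfl⟩ : ∃ L, Real.exp (-L) = η := ⟨-Real.log η, by rw [neg_neg, Real.exp_log η0]⟩
  have L0 : 0 ≤ L := by
    have := Real.exp_le_one_iff.1 η1
    linarith
  have a1 := num_one M0 hX (n := n) (r := r) (by have := (abs_le.1 hk).1; linarith)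
  have a3 := num_three M0 hn (abs_le.1 hk).2
  have key := tail_core (M := M) (by omega) n k hr (min_le_left r ⌈(M : ℝ) * L / 4⌉₊) η0
    (Real.exp_pos (3 * L / 4))
    (K := Real.exp (-L) * (2 * Real.exp (X / 2) + Real.exp (6 * X + 18 * T))) (by positivity) (by
      rw [mul_add (Real.exp (-L)), add_mul (Real.exp (-L) * _)]
      refine add_le_add ?_ ?_
      · rw [div_pow] at a1
        calc _ = 2 * Real.exp (-L) * (((M : ℝ) + 1) ^ n / ((2 * (M : ℝ) + 1) / 2) ^ n) := by ring
          _ ≤ 2 * Real.exp (-L) * (Real.exp (X / 2) * (((M : ℝ) + 1) / M) ^ r) :=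
            mul_le_mul_of_nonneg_left a1 (by positivity)
          _ = _ := by ring
      · refine le_trans ?_ ((mul_le_mul_of_nonneg_left a3
          (show 0 ≤ Real.exp (-L) * (((M : ℝ) + 1) / M) ^ r by positivity)).trans (le_of_eq (by ring)))
        rw [Finset.mul_sum]
        refine le_trans (Finset.sum_le_sum fun i hi => ?_) (Finset.sum_le_sum_of_subset_of_nonneg
          (Finset.filter_subset (fun i : ℕ => ¬ k + i ≤ (min r ⌈(M : ℝ) * L / 4⌉₊ : ℕ))
            (Finset.range (n + 1))) fun i _ _ => by positivity)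
        obtain ⟨b1, b2⟩ := Finset.mem_filter.1 hi
        have b3 := Finset.mem_range.1 b1
        have b4 : (((k + i).toNat : ℕ) : ℤ) = k + i := Int.toNat_of_nonneg (by omega)
        have b5 : (((k + i).toNat : ℕ) : ℝ) = k + i := by exact_mod_cast b4
        have b6 : ⌈(M : ℝ) * L / 4⌉₊ ≤ (k + i).toNat := by omega
        have b7 := num_two hM' (show (k + i).toNat ≤ r by omega) (Nat.ceil_le.1 b6)
        rw [b5] at b7
        rw [mul_assoc ((n.choose i : ℝ) / 2 ^ n)]
        refine (mul_le_mul_of_nonneg_left (mul_le_mul_of_nonneg_left b7 (by positivity))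
          (by positivity)).trans (le_of_eq ?_)
        field_simp)
  refine key.trans ?_
  rw [← Real.exp_mul, add_mul _ (Real.exp 2)]
  refine add_le_add (le_of_eq ?_) ?_
  · rw [← mul_assoc, ← Real.exp_add, mul_comm]
    congr 2
    ring
  · have b1 : ((M : ℝ) + 1) / M ≤ Real.exp (1 / M) := by
      refine le_trans (le_of_eq ?_) (Real.add_one_le_exp _)
      field_simp
      ring
    have b2 : ((min r ⌈(M : ℝ) * L / 4⌉₊ : ℕ) : ℝ) ≤ M * L / 4 + 1 :=
      le_trans (Nat.cast_le.2 (min_le_right _ _)) (Nat.ceil_lt_add_one (by positivity)).le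
    rw [div_le_iff₀ (Real.exp_pos _), ← Real.exp_add, ← Real.exp_add]
    refine (pow_le_pow_left₀ (by positivity) b1 _).trans ?_
    rw [← Real.exp_nat_mul, Real.exp_le_exp, mul_one_div, div_le_iff₀ M0, Nat.cast_mul]
    push_cast at b2 ⊢
    nlinarith

end Pool.Agent.K6329
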