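import Pool.Agent.Lib.MP_632999_pr.K.CKap
import Pool.Agent.Lib.MP_632999_pr.K.Disc
import Pool.Agent.Lib.MP_632999_pr.K.Tail

/-! Uniform exponential tightness of the exit point. `cd = int_c cov[Hd(.,c), xi j]` (`cov_fubini'`,
`covariance_comm`) `= int_c cov[cond1, id]` (`cov_eval`). By `str_diff` (or the `key` step of `Hd_exit`)
`|cond1 u - cond1 v| <= exp(|u|+|v|) |u-v| int exp|xi j| * sh`, `sh = strShare c n k (fun m => (j < m <-> 0 <= j))`
in `[0,1]`, so `|cd| <= (rhoP/2) E[exp|xi j| sh]` (`cov_one`, `low_int2`, `rhoP_le`), and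
`exp|xi j| sh <= r exp(2|xi j|) + sh / r`. `E sh <= P(zd <= eta) + E[far part of zd] / eta` (`tail`);
`E[far part] = sum over far i of pz n i ((M+1)/M)^|k+i| <= C exp(-2|j|/M)` (`wt_mean`, `pz_mgf`, lemmas of
Tail.lean); `eta = exp(-|j|/M)`, `r = exp(-|j|/(8M))`. -/

namespace Pool.Agent.K6329

open MeasureTheory ProbabilityTheory Filter Topology Set Function
open scoped NNReal ENNReal

theorem ct_line {M : ℕ} (hM : 4 ≤ M) (n : ℕ) (k j : ℤ) (ω : Row × Rows) :
    |cov[fun u => Hd n k (update ω.1 j u, ω.2), fun u : ℝ => u; mu M]| ≤ rhoP (mu M) / 2 *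
      (Real.exp |ω.1 j| * strShare ω.2 n k (fun m => (j < m ↔ 0 ≤ j)) ω.1) := by
  obtain ⟨i1, c1⟩ := cov_one ((Hd_nice ω.2 n k).line (mu_memLp M) j ω.1) (mu_memLp M)
  obtain ⟨q, q0, -, qq, h, e'⟩ := str_diff ω.2 n k j ω.1
  rw [c1, abs_div, abs_two, div_mul_eq_mul_div, rhoP, ← integral_mul_const]
  refine div_le_div_of_nonneg_right (abs_integral_le_integral_abs.trans
    (integral_mono i1.abs ((RhoAux.int_P hM).mul_const _) fun p => ?_)) zero_le_two
  obtain ⟨t, t1, e⟩ := h p.1 p.2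
  have a1 := qq t (strS j * ω.1 j) (2 * (|p.1| + |p.2|) + |ω.1 j|)
    (by rw [abs_strS]; linarith [abs_nonneg p.1, abs_nonneg p.2])
  rw [e', Real.exp_add] at a1
  dsimp only
  rw [e, abs_mul, abs_mul, abs_strS, abs_of_nonneg (q0 t), mul_assoc, ← sq, sq_abs]
  calc _ ≤ _ := mul_le_mul_of_nonneg_right a1 (sq_nonneg _)
    _ = _ := by ring

theorem ct_cov {M : ℕ} (hM : 4 ≤ M) (n : ℕ) (k j : ℤ) {g : Row × Rows → ℝ}
    (hg : Integrable g (Pd M)) (h : ∀ ω : Row × Rows,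
      Real.exp |ω.1 j| * strShare ω.2 n k (fun m => (j < m ↔ 0 ≤ j)) ω.1 ≤ g ω) :
    |cd M n k j| ≤ rhoP (mu M) / 2 * ∫ ω, g ω ∂Pd M := by
  have mp : MeasurePreserving (fun p : (Row × Rows) × ℝ => ((update p.1.1 j p.2, p.1.2) : Row × Rows))
      ((Pd M).prod (mu M)) (Pd M) := eg_mp_upd (mu M) (piRR (gC M)) j
  have e1 := cov_mp mp (f := Hd n k) (g := fun ω => ω.1 j) (measurable_Hd n k).aemeasurable
    ((measurable_pi_apply j).comp measurable_fst).aemeasurable
  simp only [update_self] at e1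
  obtain ⟨i1, e2⟩ := cov_fubini ((Hd_memLp M n k).comp_measurePreserving mp) (mu_memLp M)
  rw [cd, ← e1, ← integral_const_mul]
  refine (congrArg abs e2).trans_le (abs_integral_le_integral_abs.trans
    (integral_mono i1.abs (hg.const_mul _) fun ω => ?_))
  exact (ct_line hM n k j ω).trans
    (mul_le_mul_of_nonneg_left (h ω) (div_nonneg (rhoP_nonneg _) zero_le_two))

theorem ct_msum (m : Measure ℝ) [IsProbabilityMeasure m] (S : Finset ℤ) {s : ℝ}
    (h : Integrable (fun u => Real.exp (s * u)) m) :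
    Integrable (fun ξ : Row => Real.exp (s * ∑ k ∈ S, ξ k)) (piR m) ∧
      ∫ ξ : Row, Real.exp (s * ∑ k ∈ S, ξ k) ∂piR m = (∫ u, Real.exp (s * u) ∂m) ^ S.card := by
  have hi : iIndepFun (fun (k : ℤ) (ξ : Row) => ξ k) (piR m) :=
    iIndepFun_infinitePi (P := fun _ : ℤ => m) (X := fun _ u => u) fun _ => measurable_id
  have hm : ∀ k : ℤ, Measurable fun ξ : Row => ξ k := fun k => measurable_pi_apply k
  have hp : ∀ k : ℤ, MeasurePreserving (fun ξ : Row => ξ k) (piR m) m := fun k =>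
    ⟨hm k, Measure.infinitePi_map_eval (fun _ : ℤ => m) k⟩
  constructor
  · have := hi.integrable_exp_mul_sum (t := s) hm (s := S)
      fun k _ => (hp k).integrable_comp_of_integrable h
    simpa only [Finset.sum_apply] using this
  · have := hi.mgf_sum (t := s) hm S
    have h2 : ∀ k : ℤ, mgf (fun ξ : Row => ξ k) (piR m) s = ∫ u, Real.exp (s * u) ∂m := by
      intro k
      have := integral_map (μ := piR m) (φ := fun ξ : Row => ξ k) (hm k).aemeasurable
        (f := fun u => Real.exp (s * u)) (Measurable.aestronglyMeasurable (by fun_prop))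
      rw [(hp k).map_eq] at this
      exact this.symm
    simp only [h2, Finset.prod_const] at this
    rw [← this]
    simp only [mgf, Finset.sum_apply]

theorem ct_mprof {M : ℕ} {s c : ℝ} (hs : |s| < (M : ℝ) + 1)
    (hc : ∫ u, Real.exp (s * u) ∂mu M ≤ Real.exp c) (j : ℤ) :
    Integrable (fun ξ : Row => Real.exp (s * prof ξ j)) (piR (mu M)) ∧
      ∫ ξ : Row, Real.exp (s * prof ξ j) ∂piR (mu M) ≤ Real.exp (c * |(j : ℝ)|) := by
  have h0 : 0 ≤ ∫ u, Real.exp (s * u) ∂mu M := integral_nonneg fun u => (Real.exp_pos _).le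
  have hpow : ∀ n : ℕ, (n : ℝ) = |(j : ℝ)| →
      (∫ u, Real.exp (s * u) ∂mu M) ^ n ≤ Real.exp (c * |(j : ℝ)|) := by
    intro n hn
    rw [← hn, mul_comm c, Real.exp_nat_mul]
    exact pow_le_pow_left₀ h0 hc n
  rcases le_total 0 j with hj | hj
  · have e : ∀ ξ : Row, prof ξ j = ∑ k ∈ Finset.Ico 0 j, ξ k := fun ξ => by
      rw [prof, Finset.Ico_eq_empty (a := j) (not_lt.2 hj)]; simp
    simp only [e]
    obtain ⟨h1, h2⟩ := ct_msum (mu M) (Finset.Ico 0 j) (mu_int hs)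
    refine ⟨h1, h2.le.trans (hpow _ ?_)⟩
    rw [Int.card_Ico, sub_zero, abs_of_nonneg (by exact_mod_cast hj)]
    exact_mod_cast congrArg (fun z : ℤ => (z : ℝ)) (Int.toNat_of_nonneg hj)
  · have e : ∀ ξ : Row, s * prof ξ j = -s * ∑ k ∈ Finset.Ico j 0, ξ k := fun ξ => by
      rw [prof, Finset.Ico_eq_empty (a := 0) (not_lt.2 hj)]; simp
    simp only [e]
    obtain ⟨h1, h2⟩ := ct_msum (mu M) (Finset.Ico j 0) (s := -s) (mu_int (by rwa [abs_neg]))
    have h3 : ∫ u, Real.exp (-s * u) ∂mu M = ∫ u, Real.exp (s * u) ∂mu M := by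
      have := integral_map (μ := mu M) (φ := fun u : ℝ => -u) (mu_neg M).measurable.aemeasurable
        (f := fun u => Real.exp (s * u)) (Measurable.aestronglyMeasurable (by fun_prop))
      rw [(mu_neg M).map_eq] at this
      rw [this]; simp only [mul_neg, neg_mul]
    rw [h3] at h2
    refine ⟨h1, h2.le.trans (hpow _ ?_)⟩
    rw [Int.card_Ico, zero_sub, abs_of_nonpos (by exact_mod_cast hj)]
    exact_mod_cast congrArg (fun z : ℤ => (z : ℝ)) (Int.toNat_of_nonneg (neg_nonneg.2 hj))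

theorem ct_term {M : ℕ} (hM : 1 ≤ M) (n : ℕ) (k m : ℤ) (i : ℕ) :
    Integrable (fun ω : Row × Rows => Real.exp (prof ω.1 m) * nw M n k i ω) (Pd M) ∧
      ∫ ω, Real.exp (prof ω.1 m) * nw M n k i ω ∂Pd M ≤
        (n.choose i : ℝ) / 2 ^ n * Real.exp (1 / M * |(m : ℝ)|) := by
  have h : (1 : ℝ) ≤ M := by exact_mod_cast hM
  obtain ⟨i1, e1⟩ := ct_mprof (M := M) (s := 1) (c := 1 / M) (by rw [abs_one]; linarith) (by
    simp only [one_mul]
    rw [mu_exp1 hM]
    refine le_trans (le_of_eq ?_) (Real.add_one_le_exp _)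
    field_simp
    ring) m
  simp only [one_mul] at i1 e1
  obtain ⟨i2, e2⟩ := wt_mean M n k i
  refine ⟨i1.mul_prod (i2.mul_const _), ?_⟩
  refine (integral_prod_mul (fun ξ : Row => Real.exp (prof ξ m))
    fun c : Rows => wt c n k i * ((2 * (M : ℝ) + 1) / 2) ^ n).trans_le ?_
  have e3 : (n.choose i : ℝ) / (2 * (M : ℝ) + 1) ^ n * ((2 * (M : ℝ) + 1) / 2) ^ n =
      (n.choose i : ℝ) / 2 ^ n := by
    rw [div_pow]
    field_simp
  rw [integral_mul_const, e2, e3, mul_comm]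
  exact mul_le_mul_of_nonneg_left e1 (by positivity)

theorem ct_sum {M T X k : ℝ} (hM : 0 < M) {n : ℕ} (hn : (n : ℝ) ≤ T * M ^ 2)
    (hk : |2 * k + n| ≤ X * M) :
    ∑ i ∈ Finset.range (n + 1), (n.choose i : ℝ) / 2 ^ n * Real.exp (12 / M * |k + i|) ≤
      2 * Real.exp (6 * X + 18 * T) := by
  have a1 := num_three hM hn (abs_le.1 hk).2
  have a2 := num_three (k := -k - n) hM hn (by have := (abs_le.1 hk).1; linarith : _ ≤ X * M)
  rw [← Finset.sum_flip] at a2
  rw [two_mul]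
  refine le_trans ?_ (add_le_add a1 a2)
  rw [← Finset.sum_add_distrib]
  refine Finset.sum_le_sum fun i hi => ?_
  have hi' : i ≤ n := Nat.lt_succ_iff.1 (Finset.mem_range.1 hi)
  rw [Nat.choose_symm hi', Nat.cast_sub hi', ← mul_add]
  refine mul_le_mul_of_nonneg_left ?_ (by positivity)
  rcases abs_cases (k + i) with e | e <;> rw [e.1]
  · exact le_add_of_nonneg_right (Real.exp_pos _).le
  · rw [show -k - n + (n - i) = -(k + i) by ring]
    exact le_add_of_nonneg_left (Real.exp_pos _).le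

/-- the part of the partition function that comes from sites beyond `j` -/
noncomputable def ctFar (M n : ℕ) (k j : ℤ) (ω : Row × Rows) : ℝ :=
  ∑ i ∈ Finset.range (n + 1),
    if (j < k + i ↔ 0 ≤ j) then Real.exp (prof ω.1 (k + i)) * nw M n k i ω else 0

theorem ct_far {M : ℕ} (hM : 1 ≤ M) {T X : ℝ} {n : ℕ} {k : ℤ} (hn : (n : ℝ) ≤ T * (M : ℝ) ^ 2)
    (hk : |2 * (k : ℝ) + n| ≤ X * M) (j : ℤ) : Integrable (ctFar M n k j) (Pd M) ∧
      ∫ ω, ctFar M n k j ω ∂Pd M ≤
        Real.exp (-2 * (|(j : ℝ)| / M)) * (2 * Real.exp (6 * X + 18 * T)) := by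
  have h : (0 : ℝ) < M := by exact_mod_cast hM
  have i1 : ∀ i ∈ Finset.range (n + 1), Integrable (fun ω : Row × Rows =>
      if (j < k + i ↔ 0 ≤ j) then Real.exp (prof ω.1 (k + i)) * nw M n k i ω else 0) (Pd M) := by
    intro i _
    split_ifs
    · exact (ct_term hM n k _ i).1
    · exact integrable_const _
  refine ⟨integrable_finsetSum _ i1, ?_⟩
  unfold ctFar
  rw [integral_finsetSum _ i1]
  refine le_trans ?_ (mul_le_mul_of_nonneg_left (ct_sum h hn hk) (Real.exp_pos _).le)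
  rw [Finset.mul_sum]
  refine Finset.sum_le_sum fun i _ => ?_
  split_ifs with c
  · refine (ct_term hM n k _ i).2.trans ?_
    rw [mul_left_comm, ← Real.exp_add]
    refine mul_le_mul_of_nonneg_left (Real.exp_le_exp.2 ?_) (by positivity)
    have a1 : |j| ≤ |k + i| := by
      rcases abs_cases j with e | e <;> rcases abs_cases (k + i) with e' | e' <;> omega
    have a2 : |(j : ℝ)| ≤ |(k : ℝ) + i| := by exact_mod_cast a1
    have a3 := div_le_div_of_nonneg_right a2 h.le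
    have a4 := div_nonneg (abs_nonneg ((k : ℝ) + i)) h.le
    push_cast
    calc _ = |(k : ℝ) + i| / M := by ring
      _ ≤ -2 * (|(j : ℝ)| / M) + 12 * (|(k : ℝ) + i| / M) := by linarith
      _ = _ := by ring
  · rw [integral_zero]
    positivity

theorem ct_share (M n : ℕ) (k j : ℤ) (ω : Row × Rows) :
    strShare ω.2 n k (fun m => (j < m ↔ 0 ≤ j)) ω.1 = ctFar M n k j ω / zd M n k ω := by
  have h : (0 : ℝ) < ((2 * (M : ℝ) + 1) / 2) ^ n := by positivity
  rw [strShare, zd_exp, ← mul_div_mul_right _ _ h.ne', Finset.sum_mul, ctFar]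
  congr 1
  refine Finset.sum_congr rfl fun i _ => ?_
  split_ifs
  · exact mul_assoc _ _ _
  · exact zero_mul _

theorem ct_point (M n : ℕ) (k j : ℤ) {r η : ℝ} (hr : 0 < r) (hη : 0 < η) (ω : Row × Rows) :
    Real.exp |ω.1 j| * strShare ω.2 n k (fun m => (j < m ↔ 0 ≤ j)) ω.1 ≤
      r * Real.exp (4 * |ω.1 j|) +
        ({ω | zd M n k ω ≤ η}.indicator (fun _ => (1 : ℝ)) ω + ctFar M n k j ω / η) / r := by
  obtain ⟨q, q0, q1, -, -, e⟩ := str_diff ω.2 n k j ω.1
  have s0 := q0 (strS j * ω.1 j)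
  have s1 := q1 (strS j * ω.1 j)
  rw [e] at s0 s1
  have z0 : 0 < zd M n k ω := Real.exp_pos _
  have f0 : 0 ≤ ctFar M n k j ω := by
    rwa [ct_share M, le_div_iff₀ z0, zero_mul] at s0
  refine (RhoAux.mul_le_of_pos hr).trans (add_le_add (mul_le_mul_of_nonneg_left ?_ hr.le)
    (div_le_div_of_nonneg_right ((pow_le_of_le_one s0 s1 two_ne_zero).trans ?_) hr.le))
  · rw [← Real.exp_nat_mul, Real.exp_le_exp]
    push_cast
    linarith [abs_nonneg (ω.1 j)]
  · by_cases c : ω ∈ {ω | zd M n k ω ≤ η}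
    · rw [indicator_of_mem c]
      exact le_add_of_le_of_nonneg s1 (div_nonneg f0 hη.le)
    · rw [indicator_of_notMem c, zero_add, ct_share M]
      exact div_le_div_of_nonneg_left f0 hη (not_le.1 c).le

theorem tight (T X : ℝ) : ∃ (C c : ℝ) (M₀ : ℕ), 0 < c ∧ ∀ M : ℕ, M₀ ≤ M → ∀ (n : ℕ) (k : ℤ),
    (n : ℝ) ≤ T * (M : ℝ) ^ 2 → |2 * (k : ℝ) + n| ≤ X * M → -(n : ℤ) ≤ k → k ≤ 0 →
    ∀ j : ℤ, |cd M n k j| ≤ C / M * Real.exp (-c * |(j : ℝ)| / M) := by
  obtain ⟨C, M₁, hC⟩ := tail T X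
  obtain ⟨M₂, h₂⟩ := eventually_atTop.1 ((rhoP_le.and (RhoAux.A4_tendsto.eventually_le_const
    (show (1 : ℝ) < 2 by norm_num))).and ((eventually_ge_atTop 4).and (eventually_ge_atTop M₁)))
  refine ⟨5 / 2 * (2 + C + 2 * Real.exp (6 * X + 18 * T)), 1 / 8, M₂, by norm_num,
    fun M hM n k hn hk h1 h2 j => ?_⟩
  obtain ⟨⟨a1, a2⟩, a3, a4⟩ := h₂ M hM
  have M0 : (0 : ℝ) < M := by exact_mod_cast (show 0 < M by omega)
  obtain ⟨L, hL⟩ : ∃ L : ℝ, L = |(j : ℝ)| / M := ⟨_, rfl⟩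
  have L0 : 0 ≤ L := hL ▸ div_nonneg (abs_nonneg _) M0.le
  have b1 := hC M a4 n k hn hk h1 h2 (Real.exp (-L)) (Real.exp_pos _)
    (Real.exp_le_one_iff.2 (by linarith))
  obtain ⟨i2, b2⟩ := ct_far (show 1 ≤ M by omega) hn hk j
  rw [← hL] at b2
  rw [← Real.exp_mul] at b1
  have C0 : 0 ≤ C := nonneg_of_mul_nonneg_left (measureReal_nonneg.trans b1) (Real.exp_pos _)
  have mp : MeasurePreserving (fun ω : Row × Rows => ω.1 j) (Pd M) (mu M) :=
    eg_mp_ev (mu M) (piRR (gC M)) j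
  have i1 : Integrable (fun ω : Row × Rows => Real.exp (4 * |ω.1 j|)) (Pd M) :=
    mp.integrable_comp_of_integrable (mu_abs4 a3)
  have b3 : ∫ ω : Row × Rows, Real.exp (4 * |ω.1 j|) ∂Pd M = RhoAux.A4 M := by
    rw [RhoAux.A4, ← mp.map_eq, integral_map mp.measurable.aemeasurable (by fun_prop)]
  have mA : MeasurableSet {ω | zd M n k ω ≤ Real.exp (-L)} :=
    measurableSet_le (measurable_zd M n k) measurable_const
  have i3 : Integrable ({ω | zd M n k ω ≤ Real.exp (-L)}.indicator fun _ => (1 : ℝ)) (Pd M) :=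
    (integrable_const _).indicator mA
  have i4 := (i3.add (i2.div_const (Real.exp (-L)))).div_const (Real.exp (-L / 8))
  refine (ct_cov a3 n k j ((i1.const_mul (Real.exp (-L / 8))).add i4)
    (ct_point M n k j (Real.exp_pos (-L / 8)) (Real.exp_pos (-L)))).trans ?_
  simp only [Pi.add_apply] at i4 ⊢
  rw [integral_add (i1.const_mul _) i4, integral_const_mul, integral_div,
    integral_add i3 (i2.div_const _), integral_div, b3, integral_indicator_const _ mA, smul_eq_mul,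
    mul_one, show -(1 / 8) * |(j : ℝ)| / M = -L / 8 by rw [hL]; ring]
  have e0 := Real.exp_pos (-L / 8)
  have c1 : (Pd M).real {ω | zd M n k ω ≤ Real.exp (-L)} / Real.exp (-L / 8) ≤
      C * Real.exp (-L / 8) := by
    rw [div_le_iff₀ e0, mul_assoc, ← Real.exp_add, show -L / 8 + -L / 8 = -L * (1 / 4) by ring]
    exact b1
  have c2 : (∫ ω, ctFar M n k j ω ∂Pd M) / Real.exp (-L) / Real.exp (-L / 8) ≤
      2 * Real.exp (6 * X + 18 * T) * Real.exp (-L / 8) := by
    rw [div_le_iff₀ e0, div_le_iff₀ (Real.exp_pos _), mul_assoc, mul_assoc, ← Real.exp_add,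
      ← Real.exp_add, mul_comm]
    exact b2.trans (mul_le_mul_of_nonneg_right (Real.exp_le_exp.2 (by linarith)) (by positivity))
  have c3 := mul_le_mul_of_nonneg_left a2 e0.le
  rw [add_div]
  calc _ ≤ rhoP (mu M) / 2 * ((2 + C + 2 * Real.exp (6 * X + 18 * T)) * Real.exp (-L / 8)) :=
        mul_le_mul_of_nonneg_left (by linarith) (div_nonneg (rhoP_nonneg _) zero_le_two)
    _ ≤ 5 / M / 2 * ((2 + C + 2 * Real.exp (6 * X + 18 * T)) * Real.exp (-L / 8)) :=
        mul_le_mul_of_nonneg_right (by linarith) (by positivity)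
    _ = _ := by ring

end Pool.Agent.K6329
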