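import Pool.Agent.Lib.MP_632999_pr.K.Defs

/-! Cells, lattice indices and measurability of the kernels. -/

namespace Pool.Agent.K6329

open MeasureTheory ProbabilityTheory Filter Topology Set Function
open scoped NNReal ENNReal

theorem cell_vol {M : ℕ} (hM : 1 ≤ M) (m : ℕ) (k : ℤ) :
    volume (cellSet M m k) = ENNReal.ofReal (2 / (M : ℝ) ^ 3) := by
  have h0 : (0 : ℝ) < M := by exact_mod_cast hM
  rw [cellSet, Measure.volume_eq_prod, Measure.prod_prod, Real.volume_Ioc, Real.volume_Ioc,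
    ← ENNReal.ofReal_mul (by
      have : ((m : ℝ) + 1) / (M : ℝ) ^ 2 - m / (M : ℝ) ^ 2 = 1 / (M : ℝ) ^ 2 := by ring
      rw [this]; positivity)]
  congr 1
  field_simp
  ring

theorem cell_after (M m : ℕ) (k : ℤ) :
    (cell M m k).1 ⊆ Ioi ((m : ℝ) / (M : ℝ) ^ 2) ×ˢ univ := by
  exact fun q hq => ⟨hq.1.1, mem_univ _⟩

theorem cell_before (M : ℕ) {m n : ℕ} (h : m < n) (k : ℤ) :
    (cell M m k).1 ⊆ Iic ((n : ℝ) / (M : ℝ) ^ 2) ×ˢ univ := by
  refine fun q hq => ⟨le_trans hq.1.2 ?_, mem_univ _⟩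
  have : (m : ℝ) + 1 ≤ n := by exact_mod_cast h
  exact div_le_div_of_nonneg_right this (by positivity)

theorem mi_bounds {M : ℕ} (hM : 1 ≤ M) {r : ℝ} (hr : 0 < r) :
    (mi M r : ℝ) / (M : ℝ) ^ 2 < r ∧ r ≤ ((mi M r : ℝ) + 1) / (M : ℝ) ^ 2 := by
  have h0 : (0 : ℝ) < M := by exact_mod_cast hM
  have h2 : (0 : ℝ) < (M : ℝ) ^ 2 := by positivity
  have h3 : 0 < r * (M : ℝ) ^ 2 := by positivity
  have h4 : 1 ≤ ⌈r * (M : ℝ) ^ 2⌉₊ := Nat.ceil_pos.2 h3
  have h5 : (mi M r : ℝ) = (⌈r * (M : ℝ) ^ 2⌉₊ : ℝ) - 1 := by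
    rw [mi, Nat.cast_sub h4, Nat.cast_one]
  rw [div_lt_iff₀ h2, le_div_iff₀ h2, h5]
  constructor
  · linarith [Nat.ceil_lt_add_one h3.le]
  · linarith [Nat.le_ceil (r * (M : ℝ) ^ 2)]

theorem ji_bounds {M : ℕ} (hM : 1 ≤ M) (m : ℕ) (u : ℝ) :
    (2 * (ji M m u : ℝ) + m) / M < u ∧ u ≤ (2 * (ji M m u : ℝ) + m + 2) / M := by
  have h0 : (0 : ℝ) < M := by exact_mod_cast hM
  rw [div_lt_iff₀ h0, le_div_iff₀ h0, ji]
  push_cast
  constructor
  · linarith [Int.ceil_lt_add_one ((u * M - m) / 2)]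
  · linarith [Int.le_ceil ((u * M - m) / 2)]

theorem mem_cell {M : ℕ} (hM : 1 ≤ M) (m : ℕ) (k : ℤ) (q : ℝ × ℝ) :
    q ∈ cellSet M m k ↔ 0 < q.1 ∧ mi M q.1 = m ∧ ji M m q.2 = k := by
  have h0 : (0 : ℝ) < M := by exact_mod_cast hM
  have h2 : (0 : ℝ) < (M : ℝ) ^ 2 := by positivity
  constructor
  · rintro ⟨⟨a1, a2⟩, b1, b2⟩
    rw [div_lt_iff₀ h2] at a1
    rw [le_div_iff₀ h2] at a2
    rw [div_lt_iff₀ h0] at b1
    rw [le_div_iff₀ h0] at b2
    refine ⟨?_, ?_, ?_⟩
    · have : (0 : ℝ) ≤ m := by positivity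
      exact (mul_pos_iff_of_pos_right h2).1 (lt_of_le_of_lt this a1)
    · have : ⌈q.1 * (M : ℝ) ^ 2⌉₊ = m + 1 := by
        rw [Nat.ceil_eq_iff (by omega)]
        push_cast
        exact ⟨by simpa using a1, a2⟩
      rw [mi, this]; rfl
    · have : ⌈(q.2 * M - m) / 2⌉ = k + 1 := by
        rw [Int.ceil_eq_iff]
        push_cast
        constructor <;> linarith
      rw [ji, this]; ring
  · rintro ⟨a, rfl, rfl⟩
    exact ⟨mi_bounds hM a, ji_bounds hM _ _⟩

theorem cell_disjoint {M : ℕ} (hM : 1 ≤ M) {p p' : ℕ × ℤ} (h : p ≠ p') :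
    Disjoint (cellSet M p.1 p.2) (cellSet M p'.1 p'.2) := by
  rw [Set.disjoint_left]
  intro q h1 h2
  rw [mem_cell hM] at h1 h2
  apply h
  have e : p.1 = p'.1 := h1.2.1.symm.trans h2.2.1
  exact Prod.ext e (by rw [← h1.2.2, ← h2.2.2, e])

theorem lat_cell {r : ℝ} (hr : 0 < r) (u : ℝ) (e : ℤ) :
    Lat r u (fun M => mi M r) (fun M => ji M (mi M r) u + e) := by
  have inv1 : ∀ c : ℝ, Tendsto (fun M : ℕ => c / (M : ℝ)) atTop (𝓝 0) :=
    fun c => tendsto_const_div_atTop_nhds_zero_nat c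
  have inv2 : Tendsto (fun M : ℕ => 1 / (M : ℝ) ^ 2) atTop (𝓝 0) := by
    have := (inv1 1).mul (inv1 1)
    rw [mul_zero] at this
    refine this.congr fun M => ?_
    ring
  constructor
  · have l : Tendsto (fun M : ℕ => r - 1 / (M : ℝ) ^ 2) atTop (𝓝 r) := by
      simpa using inv2.const_sub r
    refine tendsto_of_tendsto_of_tendsto_of_le_of_le' l tendsto_const_nhds ?_ ?_
    · filter_upwards [eventually_ge_atTop 1] with M hM
      have := (mi_bounds hM hr).2
      rw [add_div] at this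
      linarith
    · filter_upwards [eventually_ge_atTop 1] with M hM
      exact (mi_bounds hM hr).1.le
  · have l1 : Tendsto (fun M : ℕ => u + (2 * (e : ℝ) - 2) / (M : ℝ)) atTop (𝓝 u) := by
      simpa using (inv1 _).const_add u
    have l2 : Tendsto (fun M : ℕ => u + (2 * (e : ℝ)) / (M : ℝ)) atTop (𝓝 u) := by
      simpa using (inv1 _).const_add u
    refine tendsto_of_tendsto_of_tendsto_of_le_of_le' l1 l2 ?_ ?_
    · filter_upwards [eventually_ge_atTop 1] with M hM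
      have := (ji_bounds hM (mi M r) u).2
      have e1 : (2 * ((ji M (mi M r) u + e : ℤ) : ℝ) + (mi M r : ℝ)) / M =
          (2 * (ji M (mi M r) u : ℝ) + (mi M r : ℝ) + 2) / M + (2 * (e : ℝ) - 2) / M := by
        push_cast; ring
      rw [e1]; linarith
    · filter_upwards [eventually_ge_atTop 1] with M hM
      have := (ji_bounds hM (mi M r) u).1
      have e1 : (2 * ((ji M (mi M r) u + e : ℤ) : ℝ) + (mi M r : ℝ)) / M =
          (2 * (ji M (mi M r) u : ℝ) + (mi M r : ℝ)) / M + (2 * (e : ℝ)) / M := by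
        push_cast; ring
      rw [e1]; linarith

theorem measurable_mi (M : ℕ) : Measurable (mi M) := by
  exact (measurable_of_countable fun n : ℕ => n - 1).comp
    (Measurable.nat_ceil (measurable_id.mul_const _))

theorem measurable_ji (M m : ℕ) : Measurable (ji M m) := by
  exact (measurable_of_countable fun n : ℤ => n - 1).comp
    (Measurable.ceil (((measurable_id.mul_const _).sub_const _).div_const _))

theorem measurable_ji_mi (M : ℕ) : Measurable fun q : ℝ × ℝ => ji M (mi M q.1) q.2 := by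
  have h1 : Measurable fun q : ℝ × ℝ => ((mi M q.1 : ℕ) : ℝ) :=
    (measurable_of_countable fun n : ℕ => (n : ℝ)).comp ((measurable_mi M).comp measurable_fst)
  exact (measurable_of_countable fun n : ℤ => n - 1).comp
    (Measurable.ceil (((measurable_snd.mul_const _).sub h1).div_const _))

theorem measurable_Kn (M n : ℕ) (k : ℤ) : Measurable (Kn M n k) := by
  have h1 : Measurable fun q : ℝ × ℝ => mi M q.1 := (measurable_mi M).comp measurable_fst
  have h2 := measurable_ji_mi M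
  refine Measurable.ite ?_ ?_ measurable_const
  · exact (measurableSet_lt measurable_const measurable_fst).inter
      (h1 (MeasurableSet.of_discrete (s := {m | m < n})))
  · exact ((measurable_of_countable fun p : ℕ × ℤ => pz (n - 1 - p.1) (p.2 - k)).comp
      (h1.prodMk h2)).mul_const _

theorem measurable_K0 (M n : ℕ) (k : ℤ) : Measurable (K0 M n k) := by
  exact ((measurable_of_countable fun j : ℤ => pz n (j - k)).comp (measurable_ji M 0)).mul_const _

theorem measurable_heat : Measurable fun p : ℝ × ℝ => heat p.1 p.2 := by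
  unfold heat
  fun_prop

theorem measurable_hk (t x : ℝ) : Measurable (hk t x) := by
  refine Measurable.ite ?_ ?_ measurable_const
  · exact (measurableSet_lt measurable_const measurable_fst).inter
      (measurableSet_lt measurable_fst measurable_const)
  · exact measurable_heat.comp
      ((measurable_fst.const_sub t).prodMk (measurable_snd.const_sub x))

theorem heat_nonneg (r u : ℝ) : 0 ≤ heat r u := by
  unfold heat
  positivity

/-- a lattice sequence with a later one above it, both inside the cone of the origin -/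
theorem exists_lat {t₁ t₂ : ℝ} (h₁ : 0 < t₁) (h₁₂ : t₁ ≤ t₂) (x₁ x₂ : ℝ) :
    ∃ (n m : ℕ → ℕ) (k₁ k₂ : ℕ → ℤ), Lat t₁ x₁ n k₁ ∧ Lat t₂ x₂ (fun M => n M + m M) k₂ := by
  refine ⟨fun M => mi M t₁, fun M => mi M t₂ - mi M t₁, fun M => ji M (mi M t₁) x₁ + 0,
    fun M => ji M (mi M t₂) x₂ + 0, lat_cell h₁ x₁ 0, ?_⟩
  have e : (fun M => mi M t₁ + (mi M t₂ - mi M t₁)) = fun M => mi M t₂ := by
    funext M
    have : ⌈t₁ * (M : ℝ) ^ 2⌉₊ ≤ ⌈t₂ * (M : ℝ) ^ 2⌉₊ :=
      Nat.ceil_mono (mul_le_mul_of_nonneg_right h₁₂ (by positivity))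
    unfold mi
    omega
  rw [e]
  exact lat_cell (h₁.trans_le h₁₂) x₂ 0

theorem Lat.bounds {t x : ℝ} (ht : 0 < t) {n : ℕ → ℕ} {k : ℕ → ℤ} (h : Lat t x n k) :
    ∀ᶠ M : ℕ in atTop, (n M : ℝ) ≤ (t + 1) * (M : ℝ) ^ 2 ∧
      |2 * (k M : ℝ) + n M| ≤ (|x| + 1) * M ∧ -(n M : ℤ) ≤ k M ∧ k M ≤ 0 := by
  have a1 := h.1.eventually (gt_mem_nhds (show t < t + 1 by linarith))
  have a2 := h.1.eventually (lt_mem_nhds (show t / 2 < t by linarith))
  have a3 := h.2.eventually (gt_mem_nhds (show x < x + 1 by linarith))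
  have a4 := h.2.eventually (lt_mem_nhds (show x - 1 < x by linarith))
  have a5 := (tendsto_natCast_atTop_atTop (R := ℝ)).eventually_ge_atTop (2 * (|x| + 1) / t)
  filter_upwards [a1, a2, a3, a4, a5, eventually_ge_atTop 1] with M b1 b2 b3 b4 b5 hM
  have h0 : (0 : ℝ) < M := by exact_mod_cast hM
  have h2 : (0 : ℝ) < (M : ℝ) ^ 2 := by positivity
  rw [div_lt_iff₀ h2] at b1
  rw [lt_div_iff₀ h2] at b2
  rw [div_lt_iff₀ h0] at b3
  rw [lt_div_iff₀ h0] at b4
  rw [div_le_iff₀ ht] at b5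
  have c1 : |2 * (k M : ℝ) + n M| ≤ (|x| + 1) * M := by
    have p1 := mul_le_mul_of_nonneg_right (le_abs_self x) h0.le
    have p2 := mul_le_mul_of_nonneg_right (neg_abs_le x) h0.le
    rw [abs_le]
    constructor <;> nlinarith
  have c2 : (|x| + 1) * M ≤ (n M : ℝ) := by
    have := mul_le_mul_of_nonneg_right b5 h0.le
    nlinarith
  have c3 := abs_le.1 (c1.trans c2)
  refine ⟨b1.le, c1, ?_, ?_⟩
  · have : -((n M : ℤ) : ℝ) ≤ (k M : ℝ) := by push_cast; linarith [c3.1]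
    exact_mod_cast this
  · have : (k M : ℝ) ≤ 0 := by linarith [c3.2]
    exact_mod_cast this

end Pool.Agent.K6329
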