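import Pool.Agent.Lib.MP_632999_pr.K.CShift
import Pool.Agent.Lib.MP_632999_pr.K.CTight
import Pool.Agent.Lib.MP_632999_pr.K.Cell

/-! Properties of the limit variance. `exists_lat ht le_rfl x x` gives a lattice sequence `(n, k)` to
`(t, x)`; `(n, k - j M)` tends to `(t, x - y)` when `2 j M / M -> y`. Even: `var_rev`. Convex:
`vd_convex` gives monotone slopes on the integers, then `convexOn_of_slope_mono_adjacent`. `asym`: take
`(n, k)` to `(t, 0)`; `cov_prof`, `cd_sum_right`, `cov_right` and `mu_var` give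
`vd (k - j) - j wv = -(wv/2)(2k+n) + 2 sum_{j <= i < k+n} cd i` for `j <= k+n`; the sum is between `0`
(`cd_nonneg`) and `C' exp(-c j/M)` (`tight`); `wv_tendsto`; so `0 <= V(-y) - y <= C' exp(-c y/2)`. -/

namespace Pool.Agent.K6329

open MeasureTheory ProbabilityTheory Filter Topology Set Function
open scoped NNReal ENNReal

theorem clim_shift {t x y : ℝ} {n : ℕ → ℕ} {k j : ℕ → ℤ} (hl : Lat t x n k)
    (hj : Tendsto (fun M : ℕ => 2 * (j M : ℝ) / M) atTop (𝓝 y)) :
    Lat t (x - y) n (fun M => k M - j M) := by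
  refine ⟨hl.1, (hl.2.sub hj).congr fun M => ?_⟩
  push_cast
  ring

theorem clim_nat {y : ℝ} (hy : 0 ≤ y) :
    ∃ j : ℕ → ℕ, Tendsto (fun M : ℕ => 2 * (j M : ℝ) / M) atTop (𝓝 y) := by
  have h := ((tendsto_nat_floor_mul_div_atTop (show 0 ≤ y / 2 by positivity)).comp
    (tendsto_natCast_atTop_atTop (R := ℝ))).const_mul 2
  refine ⟨fun M => ⌊y / 2 * (M : ℝ)⌋₊, ?_⟩
  rw [show 2 * (y / 2) = y by ring] at h
  refine h.congr fun M => ?_
  simp only [Function.comp]
  ring

theorem clim_wv {a : ℕ → ℝ} {y : ℝ} (hj : Tendsto (fun M : ℕ => 2 * a M / M) atTop (𝓝 y)) :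
    Tendsto (fun M : ℕ => a M * wv M) atTop (𝓝 y) := by
  have h := (hj.mul wv_tendsto).div_const 2
  rw [show y * 2 / 2 = y by ring] at h
  refine h.congr' ?_
  filter_upwards [eventually_ge_atTop 1] with M hM
  have h0 : (M : ℝ) ≠ 0 := by exact_mod_cast (by omega : M ≠ 0)
  field_simp

theorem clim_disc {f : ℤ → ℝ} (hf : ∀ k, 2 * f k ≤ f (k - 1) + f (k + 1)) (b : ℤ) (p q : ℕ) :
    (q : ℝ) * (f b - f (b - p)) ≤ p * (f (b + q) - f b) := by
  have mono : Monotone fun i : ℤ => f (i + 1) - f i := monotone_int_of_le_succ fun i => by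
    have := hf (i + 1)
    rw [add_sub_cancel_right] at this
    linarith
  have h1 : ∀ m : ℕ, f b - f (b - m) ≤ m * (f (b + 1) - f b) := by
    intro m
    induction m with
    | zero => simp
    | succ m ih =>
      have := mono (show b - (m + 1 : ℕ) ≤ b by omega)
      simp only at this
      rw [show b - ((m + 1 : ℕ) : ℤ) + 1 = b - m by push_cast; ring] at this
      push_cast at this ⊢
      linarith
  have h2 : ∀ m : ℕ, m * (f (b + 1) - f b) ≤ f (b + m) - f b := by
    intro m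
    induction m with
    | zero => simp
    | succ m ih =>
      have := mono (show b ≤ b + m by omega)
      simp only at this
      rw [show b + ((m + 1 : ℕ) : ℤ) = b + m + 1 by push_cast; ring]
      push_cast
      linarith
  have a1 := mul_le_mul_of_nonneg_left (h1 p) (Nat.cast_nonneg (α := ℝ) q)
  have a2 := mul_le_mul_of_nonneg_left (h2 q) (Nat.cast_nonneg (α := ℝ) p)
  nlinarith

theorem clim_geom {c : ℝ} (hc : 0 < c) {M : ℕ} (hM : 1 ≤ M) (j N : ℕ) :
    ∑ i ∈ Finset.Ico j N, 1 / (M : ℝ) * Real.exp (-c * (i : ℝ) / M) ≤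
      (1 + c) / c * Real.exp (-c * (j : ℝ) / M) := by
  have h0 : (1 : ℝ) ≤ M := by exact_mod_cast hM
  have e : ∀ i : ℕ, Real.exp (-c * (i : ℝ) / M) = Real.exp (-(c / M)) ^ i := fun i => by
    rw [← Real.exp_nat_mul]
    congr 1
    ring
  have hu : 0 < c / M := by positivity
  have r0 : 0 < Real.exp (-(c / M)) := Real.exp_pos _
  have r1 : Real.exp (-(c / M)) < 1 := Real.exp_lt_one_iff.2 (by linarith)
  have r2 : Real.exp (-(c / M)) * (1 + c / M) ≤ 1 := by
    have := Real.add_one_le_exp (c / M)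
    calc Real.exp (-(c / M)) * (1 + c / M) ≤ Real.exp (-(c / M)) * Real.exp (c / M) :=
          mul_le_mul_of_nonneg_left (by linarith) r0.le
      _ = 1 := by rw [← Real.exp_add]; simp
  simp only [e]
  rw [← Finset.mul_sum]
  have g := geom_sum_Ico_le_of_lt_one (m := j) (n := N) r0.le r1
  generalize Real.exp (-(c / M)) = r at r0 r1 r2 g ⊢
  refine (mul_le_mul_of_nonneg_left g (by positivity)).trans ?_
  have hp : 0 ≤ r ^ j := by positivity
  have k : 1 / (M : ℝ) * (1 / (1 - r)) ≤ (1 + c) / c := by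
    have h1 : 0 < 1 - r := by linarith
    rw [div_mul_div_comm, one_mul, div_le_div_iff₀ (by positivity) hc]
    have h2 : r * (M + c) ≤ M := by
      have := mul_le_mul_of_nonneg_right r2 (show (0 : ℝ) ≤ M by linarith)
      have e2 : r * (1 + c / M) * M = r * (M + c) := by field_simp
      linarith
    have h3 : c * (1 - r) * 1 ≤ c * (1 - r) * M :=
      mul_le_mul_of_nonneg_left h0 (by positivity)
    nlinarith
  calc 1 / (M : ℝ) * (r ^ j / (1 - r)) = 1 / (M : ℝ) * (1 / (1 - r)) * r ^ j := by ring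
    _ ≤ _ := mul_le_mul_of_nonneg_right k hp

theorem IsLim.even {t : ℝ} (ht : 0 < t) {V : ℝ → ℝ} (h : IsLim t V) (x : ℝ) : V (-x) = V x := by
  obtain ⟨n, -, k, -, hl, -⟩ := exists_lat ht le_rfl x x
  have hl' : Lat t (-x) n (fun M => -(n M : ℤ) - k M) := by
    refine ⟨hl.1, hl.2.neg.congr fun M => ?_⟩
    push_cast
    ring
  refine tendsto_nhds_unique (h _ _ _ hl') ((h _ _ _ hl).congr fun M => ?_)
  exact var_rev M (n M) (k M)

theorem IsLim.convex {t : ℝ} (ht : 0 < t) {V : ℝ → ℝ} (h : IsLim t V) : ConvexOn ℝ univ V := by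
  refine convexOn_of_slope_mono_adjacent convex_univ fun {x y z} _ _ hxy hyz => ?_
  obtain ⟨n, -, k, -, hl, -⟩ := exists_lat ht le_rfl y y
  obtain ⟨p, hp⟩ := clim_nat (sub_pos.2 hxy).le
  obtain ⟨q, hq⟩ := clim_nat (sub_pos.2 hyz).le
  have l1 := h _ _ _ (clim_shift (j := fun M => (p M : ℤ)) (y := y - x) hl (by simpa using hp))
  have l2 := h _ _ _ (clim_shift (j := fun M => -(q M : ℤ)) (y := -(z - y)) hl
    (hq.neg.congr fun M => by push_cast; ring))
  have l0 := h _ _ _ hl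
  rw [show y - (y - x) = x by ring] at l1
  rw [show y - -(z - y) = z by ring] at l2
  have key := le_of_tendsto_of_tendsto' (hq.mul (l0.sub l1)) (hp.mul (l2.sub l0)) fun M => by
    have a := clim_disc (vd_convex M (n M)) (k M) (p M) (q M)
    have b := mul_le_mul_of_nonneg_left a (show (0 : ℝ) ≤ 2 / M by positivity)
    rw [sub_neg_eq_add]
    calc _ = 2 / (M : ℝ) * ((q M : ℝ) * (vd M (n M) (k M) - vd M (n M) (k M - p M))) := by ring
      _ ≤ _ := b
      _ = _ := by ring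
  rw [div_le_div_iff₀ (sub_pos.2 hxy) (sub_pos.2 hyz)]
  linarith

theorem IsLim.decay {t : ℝ} (ht : 0 < t) {V : ℝ → ℝ} (h : IsLim t V) :
    ∃ K c : ℝ, 0 < c ∧ ∀ y, 0 ≤ y → |V (-y) - y| ≤ K * Real.exp (-c * y) := by
  obtain ⟨n, -, k, -, hl, -⟩ := exists_lat ht le_rfl 0 0
  obtain ⟨C, c, M₀, hc, H⟩ := tight (t + 1) (|0| + 1)
  refine ⟨2 * (|C| * ((1 + c) / c)), c / 2, by positivity, fun y hy => ?_⟩
  obtain ⟨j, hj⟩ := clim_nat hy
  have l1 := h _ _ _ (clim_shift (j := fun M => (j M : ℤ)) (y := y) hl (by simpa using hj))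
  have l2 := clim_wv (a := fun M => (j M : ℝ)) hj
  have l3 := clim_wv (a := fun M => (2 * (k M : ℝ) + n M) / 2) (y := 0)
    (hl.2.congr fun M => by ring)
  have l4 := ((l1.sub l2).add l3).abs
  rw [zero_sub, add_zero] at l4
  have l5 : Tendsto (fun M : ℕ => 2 * (|C| * ((1 + c) / c)) * Real.exp (-c * (j M : ℝ) / M)) atTop
      (𝓝 (2 * (|C| * ((1 + c) / c)) * Real.exp (-(c / 2) * y))) := by
    refine Tendsto.const_mul _ (Tendsto.rexp ((hj.const_mul (-(c / 2))).congr fun M => ?_))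
    ring
  refine le_of_tendsto_of_tendsto l4 l5 ?_
  have a2 := hl.1.eventually (lt_mem_nhds (show t / 2 < t by linarith))
  have a3 := hj.eventually (gt_mem_nhds (show y < y + 1 by linarith))
  have a5 := (tendsto_natCast_atTop_atTop (R := ℝ)).eventually_ge_atTop (2 * (y + 2) / t)
  filter_upwards [hl.bounds ht, a2, a3, a5, eventually_ge_atTop 1, eventually_ge_atTop M₀]
    with M b1 b2 b3 b5 hM hM0
  obtain ⟨d1, d2, d3, d4⟩ := b1
  have h0 : (0 : ℝ) < M := by exact_mod_cast hM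
  rw [lt_div_iff₀ (by positivity)] at b2
  rw [div_lt_iff₀ h0] at b3
  rw [div_le_iff₀ ht] at b5
  obtain ⟨N, hN⟩ : ∃ N : ℕ, (N : ℤ) = k M + n M := ⟨(k M + n M).toNat, by omega⟩
  have hN' : (N : ℝ) = k M + n M := by exact_mod_cast hN
  have hjN : j M ≤ N := by
    have e1 := (abs_le.1 d2).1
    rw [abs_zero] at e1
    have e2 := mul_le_mul_of_nonneg_right b5 h0.le
    have : (j M : ℝ) ≤ N := by nlinarith
    exact_mod_cast this
  have s1 := cd_sum_right M (n M) (k M) N
  have s2 := cd_sum_right M (n M) (k M) (j M)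
  have s3 := cov_right M (n M) d3
  have s4 := K6329.cov_prof M (n M) (k M) (j M)
  have s5 : wv M = 2 * Var[fun a : ℝ => a; gA M] := mu_var M
  rw [← hN, ← s1] at s3
  rw [← s2, Int.cast_natCast, Nat.abs_cast] at s4
  have s6 := Finset.sum_Ico_eq_sub (fun i : ℕ => cd M (n M) (k M) i) hjN
  have s7 : vd M (n M) (k M - j M) - j M * wv M + (2 * (k M : ℝ) + n M) / 2 * wv M =
      2 * ∑ i ∈ Finset.Ico (j M) N, cd M (n M) (k M) i := by
    rw [s6]
    have : Var[Hd (n M) (k M); Pd M] = vd M (n M) (k M) := rfl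
    rw [this] at s3
    rw [s5] at s4 ⊢
    linarith
  show |vd M (n M) (k M - j M) - j M * wv M + (2 * (k M : ℝ) + n M) / 2 * wv M| ≤ _
  rw [s7, abs_mul, abs_two, mul_assoc, mul_assoc]
  refine mul_le_mul_of_nonneg_left ((Finset.abs_sum_le_sum_abs _ _).trans ?_) zero_le_two
  refine le_trans ?_ (mul_le_mul_of_nonneg_left (clim_geom hc hM (j M) N) (abs_nonneg C))
  rw [Finset.mul_sum]
  refine Finset.sum_le_sum fun i _ => (H M hM0 _ _ d1 d2 d3 d4 i).trans ?_
  rw [Int.cast_natCast, Nat.abs_cast, ← mul_assoc, mul_one_div]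
  exact mul_le_mul_of_nonneg_right (div_le_div_of_nonneg_right (le_abs_self C) h0.le)
    (Real.exp_pos _).le

theorem IsLim.asym {t : ℝ} (ht : 0 < t) {V : ℝ → ℝ} (h : IsLim t V) :
    Tendsto (fun x => V x - x) atTop (𝓝 0) ∧ Tendsto (fun x => V x + x) atBot (𝓝 0) := by
  obtain ⟨K, c, hc, H⟩ := h.decay ht
  have l0 : Tendsto (fun y : ℝ => K * Real.exp (-c * y)) atTop (𝓝 0) := by
    have := (Real.tendsto_exp_atBot.comp
      (tendsto_id.const_mul_atTop_of_neg (neg_lt_zero.2 hc))).const_mul K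
    simpa using this
  have l1 : Tendsto (fun y => V (-y) - y) atTop (𝓝 0) :=
    squeeze_zero_norm' ((eventually_ge_atTop 0).mono fun y hy => H y hy) l0
  refine ⟨l1.congr fun y => by rw [h.even ht], (l1.comp tendsto_neg_atBot_atTop).congr fun x => ?_⟩
  simp

theorem IsLim.cov_prof {t x y : ℝ} {V : ℝ → ℝ} (h : IsLim t V) {n : ℕ → ℕ} {k j : ℕ → ℤ}
    (hl : Lat t x n k) (hj : Tendsto (fun M : ℕ => 2 * (j M : ℝ) / M) atTop (𝓝 y)) :
    Tendsto (fun M => cov[Hd (n M) (k M), fun ω => prof ω.1 (j M); Pd M]) atTop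
      (𝓝 ((V x + |y| - V (x - y)) / 2)) := by
  have l2 := clim_wv (a := fun M => |(j M : ℝ)|) (y := |y|) (hj.abs.congr fun M => by
    rw [abs_div, abs_mul, abs_two, Nat.abs_cast])
  refine ((((h _ _ _ hl).add l2).sub (h _ _ _ (clim_shift hl hj))).div_const 2).congr fun M => ?_
  have := K6329.cov_prof M (n M) (k M) (j M)
  linarith

end Pool.Agent.K6329
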