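import Pool.Agent.Lib.MP_632999_pr.K.CDefs
import Pool.Agent.Lib.MP_632999_pr.K.Low

/-! The product form of the abstract lower bound. `hoeffding` on `s ∪ s'` (`low_const` outside `s`). With
`f = cond1 m F k`, `E = |u|+|u'|`: multiply `low_slope` by `|v-v'| exp (-|v|-|v'|)` and integrate in
`(v, v')`: `|f u - f u'| * rhoM <= exp E |u-u'| * 2 |cov(f,id)|` (`low_sign_mono`, `low_sign_anti`,
`cov_one`); the same for `g`; so `|cov(f,g)| <= 2 rhoP |cov(f,id)| |cov(g,id)| / rhoM^2`, and the two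
covariances with `id` have opposite signs; `cov_eval`. -/

namespace Pool.Agent.K6329

open MeasureTheory ProbabilityTheory Filter Topology Set Function
open scoped NNReal ENNReal

/-- pointwise slope bound through the covariance with the identity -/
theorem clow_pt {m : Measure ℝ} [IsProbabilityMeasure m]
    (hm : Integrable (fun u => Real.exp (4 * |u|)) m) (hρ : 0 < rhoM m)
    {g : ℝ → ℝ} {ε : ℝ} (hg : ∀ u v, |g u - g v| ≤ 1 * |u - v|) (hg2 : MemLp g 2 m)
    (hs : ∀ u u' v v', |g u - g u'| * |v - v'| ≤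
      Real.exp (|u| + |u'| + |v| + |v'|) * (|g v - g v'| * |u - u'|))
    (hε : ∀ u v, |g u - g v| * |u - v| = ε * ((g u - g v) * (u - v))) :
    0 ≤ 2 * (ε * cov[g, fun u => u; m]) / rhoM m ∧ ∀ u v, |g u - g v| ≤
      2 * (ε * cov[g, fun u => u; m]) / rhoM m * Real.exp (|u| + |v|) * |u - v| := by
  have mg := low_meas hg
  have hE : ∀ p : ℝ × ℝ, 0 ≤ |p.1| + |p.2| := fun p => by positivity
  have hd : ∀ p : ℝ × ℝ, |g p.1 - g p.2| * |p.1 - p.2| ≤ (p.1 - p.2) ^ 2 := fun p => by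
    have := mul_le_mul_of_nonneg_right (hg p.1 p.2) (abs_nonneg (p.1 - p.2))
    rw [one_mul, ← sq, sq_abs] at this
    exact this
  have ib : Integrable (fun p : ℝ × ℝ => (p.1 - p.2) ^ 2 * Real.exp (-(|p.1| + |p.2|)))
      (m.prod m) := by
    refine low_int2 hm (by fun_prop) fun p => ?_
    rw [abs_of_nonneg (by positivity)]
    exact mul_le_mul_of_nonneg_left (Real.exp_le_exp.2 (by linarith [hE p])) (sq_nonneg _)
  have ie : Integrable (fun p : ℝ × ℝ => |g p.1 - g p.2| * |p.1 - p.2|) (m.prod m) := by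
    refine low_int2 hm (by fun_prop) fun p => ?_
    rw [abs_of_nonneg (by positivity)]
    exact (hd p).trans (le_mul_of_one_le_right (sq_nonneg _)
      (Real.one_le_exp (by linarith [hE p])))
  obtain ⟨-, c2⟩ := cov_one hg2 (low_memLp hm)
  have hJ : ∫ p : ℝ × ℝ, |g p.1 - g p.2| * |p.1 - p.2| ∂m.prod m =
      2 * (ε * cov[g, fun u => u; m]) := by
    rw [c2]
    simp_rw [hε]
    rw [integral_const_mul]; ring
  refine ⟨div_nonneg (hJ ▸ integral_nonneg fun p => by positivity) hρ.le, fun u v => ?_⟩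
  have key : |g u - g v| * rhoM m ≤ Real.exp (|u| + |v|) * |u - v| *
      ∫ p : ℝ × ℝ, |g p.1 - g p.2| * |p.1 - p.2| ∂m.prod m := by
    rw [rhoM, ← integral_const_mul, ← integral_const_mul]
    refine integral_mono (ib.const_mul _) (ie.const_mul _) fun q => ?_
    have h2 : 0 ≤ |q.1 - q.2| * Real.exp (-(|q.1| + |q.2|)) := by positivity
    have h3 := mul_le_mul_of_nonneg_right (hs u v q.1 q.2) h2
    have e1 : Real.exp (|u| + |v| + |q.1| + |q.2|) * Real.exp (-(|q.1| + |q.2|)) =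
        Real.exp (|u| + |v|) := by
      rw [← Real.exp_add]; congr 1; ring
    show |g u - g v| * ((q.1 - q.2) ^ 2 * Real.exp (-(|q.1| + |q.2|))) ≤
      Real.exp (|u| + |v|) * |u - v| * (|g q.1 - g q.2| * |q.1 - q.2|)
    rw [← sq_abs (q.1 - q.2), ← e1]
    calc _ = |g u - g v| * |q.1 - q.2| * (|q.1 - q.2| * Real.exp (-(|q.1| + |q.2|))) := by ring
      _ ≤ _ := h3
      _ = _ := by ring
  rw [hJ] at key
  have k2 := (le_div_iff₀ hρ).2 key
  refine k2.trans (le_of_eq ?_)
  ring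

theorem low_two {m : Measure ℝ} [IsProbabilityMeasure m]
    (hm : Integrable (fun u => Real.exp (4 * |u|)) m) (hρ : 0 < rhoM m) {s s' : Finset ℤ}
    {F G : Row → ℝ} (hF : Nice s 1 F) (hG : Nice s' 1 G) (sF : Super F) (sG : Super G)
    (slF : Slope F) (slG : Slope G) (aF : ∀ k, 0 ≤ k → AntiAt F k) (mF : ∀ k, k < 0 → MonoAt F k)
    (mG : ∀ k, 0 ≤ k → MonoAt G k) (aG : ∀ k, k < 0 → AntiAt G k) :
    2 * rhoP m / rhoM m ^ 2 *
      ∑ k ∈ s, cov[F, fun ξ => ξ k; piR m] * cov[G, fun ξ => ξ k; piR m] ≤ cov[F, G; piR m] := by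
  have h2 := low_memLp hm
  have hh := hoeffding h2 (hF.mono (Finset.subset_union_left (s₂ := s')))
    (hG.mono Finset.subset_union_right) sF sG
  rw [← Finset.sum_subset (Finset.subset_union_left (s₂ := s'))
    (fun k _ hk => low_const hF hk _)] at hh
  refine le_trans ?_ hh
  rw [Finset.mul_sum]
  refine Finset.sum_le_sum fun k _ => ?_
  rw [cov_eval h2 hF k, cov_eval h2 hG k]
  rcases le_or_gt 0 k with hk | hk
  · obtain ⟨a0, a1⟩ := clow_pt hm hρ (cond1_lip h2 hG k) (cond1_memLp h2 hG k)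
      (low_slope h2 hG slG (Or.inl (mG k hk))) (low_sign_mono h2 hG (mG k hk))
    have := low_one hm hρ a0 (cond1_lip h2 hF k) (cond1_memLp h2 hF k) (cond1_memLp h2 hG k) a1
      (low_slope h2 hF slF (Or.inr (aF k hk))) (low_sign_anti h2 hF (aF k hk))
    refine le_trans (le_of_eq ?_) this
    ring
  · obtain ⟨a0, a1⟩ := clow_pt hm hρ (cond1_lip h2 hG k) (cond1_memLp h2 hG k)
      (low_slope h2 hG slG (Or.inr (aG k hk))) (low_sign_anti h2 hG (aG k hk))
    have := low_one hm hρ a0 (cond1_lip h2 hF k) (cond1_memLp h2 hF k) (cond1_memLp h2 hG k) a1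
      (low_slope h2 hF slF (Or.inl (mF k hk))) (low_sign_mono h2 hF (mF k hk))
    refine le_trans (le_of_eq ?_) this
    ring

end Pool.Agent.K6329
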