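import Pool.Agent.Lib.MP_632999_pr.K.Defs

/-! A convex function asymptotic to `|x|` is the potential of a centred probability measure. Let `D` be
the right derivative (monotone, `ConvexOn` derivative API; values in `[-1, 1]`, limits `-1`, `1`),
`F = (1 + D)/2` made right continuous (`Monotone.stieltjesFunction`, differs on a countable set),
`S = F.measure`. `V b - V a = int_a^b D` (`intervalIntegral.integral_eq_sub_of_hasDeriv_right`); layer cake
`int (y-x)^+ dS = int_x^oo (1 - F) = (V x - x)/2`, `int (x-y)^+ dS = int_{-oo}^x F = (V x + x)/2`. -/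

namespace Pool.Agent.K6329

open MeasureTheory ProbabilityTheory Filter Topology Set Function
open scoped NNReal ENNReal

theorem rep_half {φ : ℝ → ℝ} {L : ℝ} (h0 : ∀ t, 0 ≤ φ t)
    (hi : ∀ b, IntervalIntegrable φ volume 0 b)
    (hl : Tendsto (fun b => ∫ t in (0 : ℝ)..b, φ t) atTop (𝓝 L)) :
    0 ≤ L ∧ ∫⁻ t in Ioi (0 : ℝ), ENNReal.ofReal (φ t) = ENNReal.ofReal L := by
  have h1 : IntegrableOn φ (Ioi 0) := by
    refine integrableOn_Ioi_of_intervalIntegral_norm_tendsto L 0 (fun b : ℝ => (hi b).1)
      tendsto_id ?_
    simpa only [Real.norm_eq_abs, abs_of_nonneg (h0 _), id] using hl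
  have h2 : ∫ t in Ioi (0 : ℝ), φ t = L :=
    tendsto_nhds_unique (intervalIntegral_tendsto_integral_Ioi 0 h1 tendsto_id) hl
  refine ⟨h2 ▸ integral_nonneg h0, ?_⟩
  rw [← h2, ofReal_integral_eq_lintegral_ofReal h1 (Eventually.of_forall h0)]

theorem rep_int {S : Measure ℝ} {f : ℝ → ℝ} {L : ℝ} (hf : Measurable f) (h0 : ∀ y, 0 ≤ f y)
    (hL : 0 ≤ L) (h : ∫⁻ y, ENNReal.ofReal (f y) ∂S = ENNReal.ofReal L) :
    Integrable f S ∧ ∫ y, f y ∂S = L := by
  refine ⟨⟨hf.aestronglyMeasurable, ?_⟩, ?_⟩
  · rw [hasFiniteIntegral_iff_ofReal (Eventually.of_forall h0), h]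
    exact ENNReal.ofReal_lt_top
  · rw [integral_eq_lintegral_of_nonneg_ae (Eventually.of_forall h0) hf.aestronglyMeasurable, h,
      ENNReal.toReal_ofReal hL]

theorem rep_cdf {V : ℝ → ℝ} (hc : ConvexOn ℝ univ V)
    (h₁ : Tendsto (fun x => V x - x) atTop (𝓝 0)) (h₂ : Tendsto (fun x => V x + x) atBot (𝓝 0)) :
    ∃ g : StieltjesFunction ℝ, Tendsto g atBot (𝓝 0) ∧ Tendsto g atTop (𝓝 1) ∧
      ∀ a b, ∫ t in a..b, g t = (V b + b - (V a + a)) / 2 := by
  set D : ℝ → ℝ := fun x => derivWithin V (Ioi x) x with hD
  have hDm : Monotone D := by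
    have := hc.monotoneOn_rightDeriv
    rwa [interior_univ, monotoneOn_univ] at this
  have hVc : Continuous V := by
    have := hc.continuousOn isOpen_univ
    rwa [continuousOn_univ] at this
  have hI : ∀ a b, ∫ t in a..b, D t = V b - V a := fun a b =>
    intervalIntegral.integral_eq_sub_of_hasDeriv_right hVc.continuousOn
      (fun x _ => hc.hasDerivWithinAt_rightDeriv_of_mem_interior (by simp))
      (hDm.intervalIntegrable)
  have hup : ∀ x, D x ≤ V (x + 1) - V x := by
    intro x
    have := hc.rightDeriv_le_slope_of_mem_interior (x := x) (y := x + 1) (by simp) (mem_univ _)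
      (lt_add_one x)
    rwa [slope_def_field, add_sub_cancel_left, div_one] at this
  have hlo : ∀ x, V x - V (x - 1) ≤ D x := by
    intro x
    have h3 := hc.slope_le_leftDeriv_of_mem_interior (x := x - 1) (y := x) (mem_univ _) (by simp)
      (sub_one_lt x)
    rw [slope_def_field, sub_sub_cancel, div_one] at h3
    exact h3.trans (hc.leftDeriv_le_rightDeriv_of_mem_interior (by simp))
  have ht : Tendsto D atTop (𝓝 1) := by
    refine tendsto_of_tendsto_of_tendsto_of_le_of_le ?_ ?_ hlo hup
    · have := (h₁.sub (h₁.comp (tendsto_atTop_add_const_right _ (-1) tendsto_id))).add_const 1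
      simp only [sub_zero, zero_add] at this
      refine this.congr fun x => ?_
      simp only [comp, id, ← sub_eq_add_neg]; ring
    · have := ((h₁.comp (tendsto_atTop_add_const_right _ 1 tendsto_id)).sub h₁).add_const 1
      simp only [sub_zero, zero_add] at this
      refine this.congr fun x => ?_
      simp only [comp, id]; ring
  have hb : Tendsto D atBot (𝓝 (-1)) := by
    refine tendsto_of_tendsto_of_tendsto_of_le_of_le ?_ ?_ hlo hup
    · have := (h₂.sub (h₂.comp (tendsto_atBot_add_const_right _ (-1) tendsto_id))).add_const (-1)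
      simp only [sub_zero, zero_add] at this
      refine this.congr fun x => ?_
      simp only [comp, id, ← sub_eq_add_neg]; ring
    · have := ((h₂.comp (tendsto_atBot_add_const_right _ 1 tendsto_id)).sub h₂).add_const (-1)
      simp only [sub_zero, zero_add] at this
      refine this.congr fun x => ?_
      simp only [comp, id]; ring
  set F : ℝ → ℝ := fun x => (D x + 1) / 2 with hF
  have hFm : Monotone F := fun x y h => by
    have := hDm h
    simp only [hF]; linarith
  have hFt : Tendsto F atTop (𝓝 1) := by
    have := (ht.add_const 1).div_const 2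
    rwa [add_self_div_two] at this
  have hFb : Tendsto F atBot (𝓝 0) := by
    have := (hb.add_const 1).div_const 2
    rwa [neg_add_cancel, zero_div] at this
  refine ⟨hFm.stieltjesFunction, tendsto_rightLim_atBot_of_tendsto hFb,
    tendsto_rightLim_atTop_of_tendsto hFt, fun a b => ?_⟩
  have hae : ∀ᵐ t : ℝ, hFm.stieltjesFunction t = F t := by
    have := hFm.countable_not_continuousAt.measure_zero (volume : Measure ℝ)
    filter_upwards [compl_mem_ae_iff.2 this] with t ht
    rw [hFm.stieltjesFunction_eq]
    exact (not_not.1 ht).continuousWithinAt.rightLim_eq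
  rw [intervalIntegral.integral_congr_ae (g := F) (hae.mono fun t ht _ => ht)]
  simp only [hF]
  rw [intervalIntegral.integral_div, intervalIntegral.integral_add hDm.intervalIntegrable
    intervalIntegrable_const, hI, intervalIntegral.integral_const, smul_eq_mul]
  ring

theorem rep_exists {V : ℝ → ℝ} (hc : ConvexOn ℝ univ V)
    (h₁ : Tendsto (fun x => V x - x) atTop (𝓝 0)) (h₂ : Tendsto (fun x => V x + x) atBot (𝓝 0)) :
    ∃ S : Measure ℝ, IsProbabilityMeasure S ∧ Integrable (fun y : ℝ => y) S ∧ ∫ y, y ∂S = 0 ∧
      ∀ x, V x = ∫ y, |x - y| ∂S := by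
  obtain ⟨g, hb, ht, hI⟩ := rep_cdf hc h₁ h₂
  have hg1 : ∀ t, g t ≤ 1 := fun t => g.mono.ge_of_tendsto ht t
  have hg0 : ∀ t, 0 ≤ g t := fun t => g.mono.le_of_tendsto hb t
  have hP : ∀ x, Integrable (fun y => max (y - x) 0) g.measure ∧
      ∫ y, max (y - x) 0 ∂g.measure = (V x - x) / 2 := by
    intro x
    have hm : Monotone fun t => g (x + t) := fun s t h => g.mono (by linarith)
    obtain ⟨h3, h4⟩ := rep_half (φ := fun t => 1 - g (x + t)) (L := (V x - x) / 2)
      (fun t => sub_nonneg.2 (hg1 _)) (fun b => intervalIntegrable_const.sub hm.intervalIntegrable)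
      (by
        have := ((h₁.comp (tendsto_atTop_add_const_left _ x tendsto_id)).const_sub
          (V x - x)).div_const 2
        rw [sub_zero] at this
        refine this.congr fun b => ?_
        rw [intervalIntegral.integral_sub intervalIntegrable_const hm.intervalIntegrable,
          intervalIntegral.integral_comp_add_left (fun t => g t), hI,
          intervalIntegral.integral_const]
        simp only [comp, id, add_zero, smul_eq_mul]; ring)
    refine rep_int (by fun_prop) (fun y => le_max_right _ _) h3 ?_
    rw [lintegral_eq_lintegral_meas_lt g.measure (f := fun y => max (y - x) 0)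
      (Eventually.of_forall fun y => le_max_right _ _) (Measurable.aemeasurable (by fun_prop)),
      ← h4]
    refine setLIntegral_congr_fun measurableSet_Ioi fun t ht0 => ?_
    have : {a : ℝ | t < max (a - x) 0} = Ioi (x + t) := by
      ext a
      simp only [mem_ofPred_eq, lt_max_iff, mem_Ioi, not_lt.2 (mem_Ioi.1 ht0).le, or_false]
      constructor <;> intro h <;> linarith
    simp only [this, g.measure_Ioi ht]
  have hN : ∀ x, Integrable (fun y => max (x - y) 0) g.measure ∧
      ∫ y, max (x - y) 0 ∂g.measure = (V x + x) / 2 := by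
    intro x
    have hm : Antitone fun t => g (x - t) := fun s t h => g.mono (by linarith)
    obtain ⟨h3, h4⟩ := rep_half (φ := fun t => g (x - t)) (L := (V x + x) / 2)
      (fun t => hg0 _) (fun b => hm.intervalIntegrable)
      (by
        have := ((h₂.comp (tendsto_atBot_add_const_left _ x tendsto_neg_atTop_atBot)).const_sub
          (V x + x)).div_const 2
        rw [sub_zero] at this
        refine this.congr fun b => ?_
        rw [intervalIntegral.integral_comp_sub_left (fun t => g t), hI]
        simp only [comp, sub_zero, ← sub_eq_add_neg])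
    refine rep_int (by fun_prop) (fun y => le_max_right _ _) h3 ?_
    rw [lintegral_eq_lintegral_meas_le g.measure (f := fun y => max (x - y) 0)
      (Eventually.of_forall fun y => le_max_right _ _) (Measurable.aemeasurable (by fun_prop)),
      ← h4]
    refine setLIntegral_congr_fun measurableSet_Ioi fun t ht0 => ?_
    have : {a : ℝ | t ≤ max (x - a) 0} = Iic (x - t) := by
      ext a
      simp only [mem_ofPred_eq, le_max_iff, mem_Iic, not_le.2 (mem_Ioi.1 ht0), or_false]
      constructor <;> intro h <;> linarith
    simp only [this, g.measure_Iic hb, sub_zero]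
  have hid : (fun y : ℝ => y) = fun y => max (y - 0) 0 - max (0 - y) 0 := by
    ext y
    rw [sub_zero, zero_sub, max_zero_sub_max_neg_zero_eq_self]
  refine ⟨g.measure, g.isProbabilityMeasure hb ht, ?_, ?_, fun x => ?_⟩
  · rw [hid]; exact (hP 0).1.sub (hN 0).1
  · rw [hid, integral_sub (hP 0).1 (hN 0).1, (hP 0).2, (hN 0).2]; ring
  · have : (fun y : ℝ => |x - y|) = fun y => max (y - x) 0 + max (x - y) 0 := by
      ext y
      rcases le_total x y with h | h
      · rw [abs_of_nonpos (sub_nonpos.2 h), max_eq_left (sub_nonneg.2 h),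
          max_eq_right (sub_nonpos.2 h)]; ring
      · rw [abs_of_nonneg (sub_nonneg.2 h), max_eq_right (sub_nonpos.2 h),
          max_eq_left (sub_nonneg.2 h)]; ring
    rw [this, integral_add (hP x).1 (hN x).1, (hP x).2, (hN x).2]; ring

end Pool.Agent.K6329
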