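import Pool.Agent.Lib.MP_632999_pr.K.Defs

/-! Limit of the product sums. With `al M y = (M/2) a M (floor (y M/2))` the left side is at most
`int_0^oo al M y * be M y dy`; antitone gives `a j <= (sum_{i<j+1} a - sum_{i<j+1-L} a)/L`, so
`limsup al M y <= (Phi y - Phi (y-h))/h <= A{phi >= y-h}` for `0 < h < y`, hence `<= A{phi >= y}`;
domination by the exponential; reverse Fatou (`limsup_lintegral_le`);
`int_0^oo A{phi >= y} B{psi >= y} dy = int int min (phi^+) (psi^+)` (Tonelli). Any other route is fine. -/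

namespace Pool.Agent.K6329

open MeasureTheory ProbabilityTheory Filter Topology Set Function
open scoped NNReal ENNReal

theorem csum_step (f : ℕ → ℝ) {r : ℝ} (hr : 0 < r) (N : ℕ) (h0 : ∀ j, 0 ≤ f j)
    (hi : IntegrableOn (fun y : ℝ => f ⌊y * r⌋₊) (Ioi 0)) :
    r⁻¹ * ∑ j ∈ Finset.range N, f j ≤ ∫ y in Ioi (0 : ℝ), f ⌊y * r⌋₊ := by
  have hle : ∀ k : ℕ, (k : ℝ) / r ≤ ((k + 1 : ℕ) : ℝ) / r := fun k =>
    div_le_div_of_nonneg_right (by push_cast; linarith) hr.le
  have h1 := intervalIntegral.sum_integral_adjacent_intervals (μ := volume)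
    (f := fun y : ℝ => f ⌊y * r⌋₊) (a := fun k : ℕ => (k : ℝ) / r) (n := N) (fun k _ => by
      rw [intervalIntegrable_iff_integrableOn_Ioc_of_le (hle k)]
      exact hi.mono_set fun y hy => lt_of_le_of_lt (by positivity) hy.1)
  have h2 : ∀ k : ℕ, ∫ y in ((k : ℝ) / r)..(((k + 1 : ℕ) : ℝ) / r), f ⌊y * r⌋₊ = r⁻¹ * f k := by
    intro k
    rw [intervalIntegral.integral_congr_uIoo (g := fun _ => f k)]
    · rw [intervalIntegral.integral_const, smul_eq_mul]
      congr 1
      push_cast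
      field_simp
      ring
    · intro y hy
      rw [uIoo_of_le (hle k)] at hy
      have h3 : (k : ℝ) ≤ y * r := ((div_lt_iff₀ hr).1 hy.1).le
      have h4 : y * r < (k : ℝ) + 1 := by
        have := (lt_div_iff₀ hr).1 hy.2
        push_cast at this
        exact this
      simp only
      rw [(Nat.floor_eq_iff (le_trans (by positivity) h3)).2 ⟨h3, h4⟩]
  simp only [h2] at h1
  rw [Finset.mul_sum, h1, intervalIntegral.integral_of_le (by simp; positivity)]
  refine setIntegral_mono_set hi (Eventually.of_forall fun y => h0 _)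
    (LE.le.eventuallyLE fun y hy => ?_)
  simpa using hy.1

theorem csum_left {A : Measure ℝ} [IsProbabilityMeasure A] {φ : ℝ → ℝ} (mφ : Measurable φ)
    {y δ : ℝ} (hy : 0 < y) (hδ : 0 < δ) :
    ∃ h, 0 < h ∧ h < y ∧ A.real {u | y - h ≤ φ u} < A.real {u | y ≤ φ u} + δ := by
  let s : ℕ → Set ℝ := fun n => {u | y - y / ((n : ℝ) + 2) ≤ φ u}
  have hanti : Antitone s := by
    intro m n hmn u hu
    have h1 : (m : ℝ) ≤ n := by exact_mod_cast hmn
    have h2 : y / ((n : ℝ) + 2) ≤ y / ((m : ℝ) + 2) :=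
      div_le_div_of_nonneg_left hy.le (by positivity) (by linarith)
    have h3 : y - y / ((n : ℝ) + 2) ≤ φ u := hu
    change y - y / ((m : ℝ) + 2) ≤ φ u
    linarith
  have h1 := tendsto_measure_iInter_atTop (μ := A) (s := s)
    (fun n => (measurableSet_le measurable_const mφ).nullMeasurableSet) hanti
    ⟨0, measure_ne_top _ _⟩
  have hl : Tendsto (fun n : ℕ => y - y / ((n : ℝ) + 2)) atTop (𝓝 y) := by
    have h3 : Tendsto (fun n : ℕ => y / ((n : ℝ) + 2)) atTop (𝓝 0) :=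
      tendsto_const_nhds.div_atTop (tendsto_natCast_atTop_atTop.atTop_add tendsto_const_nhds)
    simpa using tendsto_const_nhds.sub h3
  have h2 : ⋂ n, s n = {u | y ≤ φ u} := by
    ext u
    simp only [mem_iInter, mem_ofPred_eq, s]
    refine ⟨fun h => le_of_tendsto' hl h, fun h n => ?_⟩
    have : 0 ≤ y / ((n : ℝ) + 2) := by positivity
    linarith
  rw [h2] at h1
  have h3 := (ENNReal.tendsto_toReal (measure_ne_top A _)).comp h1
  obtain ⟨n, hn⟩ := (h3.eventually (eventually_lt_nhds (lt_add_of_pos_right _ hδ))).exists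
  refine ⟨y / ((n : ℝ) + 2), by positivity, ?_, hn⟩
  rw [div_lt_iff₀ (by positivity)]
  have : (0 : ℝ) ≤ n := by positivity
  nlinarith

theorem csum_floor {y : ℝ} (hy : 0 ≤ y) :
    Tendsto (fun M : ℕ => 2 * ((⌊y * ((M : ℝ) / 2)⌋₊ : ℕ) : ℝ) / M) atTop (𝓝 y) := by
  have h1 := ((tendsto_nat_floor_mul_div_atTop (R := ℝ) (a := y / 2) (by positivity)).comp
    tendsto_natCast_atTop_atTop).const_mul 2
  rw [show 2 * (y / 2) = y by ring] at h1
  refine h1.congr fun M => ?_
  simp only [comp]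
  rw [show y / 2 * (M : ℝ) = y * ((M : ℝ) / 2) by ring, mul_div_assoc]

theorem csum_point {A : Measure ℝ} [IsProbabilityMeasure A] {φ : ℝ → ℝ} (mφ : Measurable φ)
    {a : ℕ → ℕ → ℝ} (ha : ∀ᶠ M : ℕ in atTop, Antitone (a M))
    (la : ∀ y : ℝ, 0 ≤ y → ∀ j : ℕ → ℕ, Tendsto (fun M : ℕ => 2 * (j M : ℝ) / M) atTop (𝓝 y) →
      Tendsto (fun M => ∑ i ∈ Finset.range (j M), a M i) atTop (𝓝 (∫ u, min (max (φ u) 0) y ∂A)))
    {y δ : ℝ} (hy : 0 < y) (hδ : 0 < δ) : ∀ᶠ M : ℕ in atTop,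
      (M : ℝ) / 2 * a M ⌊y * ((M : ℝ) / 2)⌋₊ ≤ A.real {u | y ≤ φ u} + δ := by
  obtain ⟨h, h0, hhy, hm⟩ := csum_left (A := A) mφ hy hδ
  have hy' : 0 ≤ y - h := by linarith
  have hint : ∀ z : ℝ, 0 ≤ z → Integrable (fun u => min (max (φ u) 0) z) A := fun z hz =>
    (integrable_const z).mono' (Measurable.aestronglyMeasurable (by fun_prop))
      (Eventually.of_forall fun u => by
        rw [Real.norm_eq_abs, abs_of_nonneg (le_min (le_max_right _ _) hz)]
        exact min_le_right _ _)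
  have ms : MeasurableSet {u | y - h ≤ φ u} := measurableSet_le measurable_const mφ
  have hd : ∫ u, min (max (φ u) 0) y ∂A - ∫ u, min (max (φ u) 0) (y - h) ∂A ≤
      A.real {u | y - h ≤ φ u} * h := by
    rw [← integral_sub (hint _ hy.le) (hint _ hy'), ← smul_eq_mul, ← integral_indicator_const _ ms]
    refine integral_mono ((hint _ hy.le).sub (hint _ hy')) ((integrable_const h).indicator ms)
      fun u => ?_
    by_cases hu : y - h ≤ φ u
    · rw [indicator_of_mem (show u ∈ {u | y - h ≤ φ u} from hu)]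
      have h1 : min (max (φ u) 0) (y - h) = y - h := min_eq_right (hu.trans (le_max_left _ _))
      have h2 := min_le_right (max (φ u) 0) y
      simp only [h1]
      linarith
    · rw [indicator_of_notMem (show u ∉ {u | y - h ≤ φ u} from hu)]
      have h1 : max (φ u) 0 ≤ y - h := max_le (not_le.1 hu).le hy'
      simp only [min_eq_left h1, min_eq_left (h1.trans (by linarith : y - h ≤ y))]
      simp
  have hden := (csum_floor hy.le).sub (csum_floor hy')
  rw [show y - (y - h) = h by ring] at hden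
  have hq := ((la y hy.le _ (csum_floor hy.le)).sub (la _ hy' _ (csum_floor hy'))).div hden h0.ne'
  have hlt : (∫ u, min (max (φ u) 0) y ∂A - ∫ u, min (max (φ u) 0) (y - h) ∂A) / h <
      A.real {u | y ≤ φ u} + δ := lt_of_le_of_lt ((div_le_iff₀ h0).2 hd) hm
  filter_upwards [ha, hq.eventually (eventually_lt_nhds hlt),
    hden.eventually (eventually_gt_nhds h0), eventually_gt_atTop 0] with M h1 h2 h3 h4
  have hM : (0 : ℝ) < M := by exact_mod_cast h4
  refine le_trans ?_ h2.le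
  simp only [Pi.div_apply]
  rw [le_div_iff₀ h3]
  set j := ⌊y * ((M : ℝ) / 2)⌋₊ with hj
  set j' := ⌊(y - h) * ((M : ℝ) / 2)⌋₊ with hj'
  have hjj : j' ≤ j := Nat.floor_le_floor (by nlinarith)
  rw [← Finset.sum_Ico_eq_sub _ hjj]
  have h5 := Finset.card_nsmul_le_sum (Finset.Ico j' j) (a M) (a M j) fun i hi =>
    h1 (Finset.mem_Ico.1 hi).2.le
  rw [Nat.card_Ico, nsmul_eq_mul, Nat.cast_sub hjj] at h5
  refine le_trans (le_of_eq ?_) h5
  field_simp

theorem csum_dom {a : ℕ → ℝ} {C c : ℝ} (hc : 0 < c) {M : ℕ} (hM : 0 < M)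
    (h : ∀ j, 0 ≤ a j ∧ a j ≤ C / M * Real.exp (-c * (j : ℝ) / M)) (y : ℝ) :
    (M : ℝ) / 2 * a ⌊y * ((M : ℝ) / 2)⌋₊ ≤ C / 2 * Real.exp c * Real.exp (-(c / 2) * y) := by
  have hM0 : (0 : ℝ) < M := by exact_mod_cast hM
  have hM1 : (1 : ℝ) ≤ M := by exact_mod_cast hM
  have hC : 0 ≤ C := by
    have h1 := (h 0).1.trans (h 0).2
    have h2 := nonneg_of_mul_nonneg_left h1 (Real.exp_pos _)
    by_contra hn
    exact absurd h2 (not_le.2 (div_neg_of_neg_of_pos (not_le.1 hn) hM0))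
  set j := ⌊y * ((M : ℝ) / 2)⌋₊ with hj
  have h1 : y * ((M : ℝ) / 2) < j + 1 := Nat.lt_floor_add_one _
  have h2 : -c * (j : ℝ) / M ≤ c + -(c / 2) * y := by
    rw [div_le_iff₀ hM0]
    nlinarith
  calc (M : ℝ) / 2 * a j ≤ (M : ℝ) / 2 * (C / M * Real.exp (-c * (j : ℝ) / M)) :=
        mul_le_mul_of_nonneg_left (h j).2 (by positivity)
    _ = C / 2 * Real.exp (-c * (j : ℝ) / M) := by field_simp
    _ ≤ C / 2 * Real.exp (c + -(c / 2) * y) :=
        mul_le_mul_of_nonneg_left (Real.exp_le_exp.2 h2) (by positivity)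
    _ = _ := by rw [Real.exp_add, mul_assoc]

theorem csum_layer {α : Type*} [MeasurableSpace α] {μ : Measure α} {f : α → ℝ}
    (hf : Integrable f μ) (h0 : ∀ x, 0 ≤ f x) :
    IntegrableOn (fun t : ℝ => μ.real {x | t ≤ f x}) (Ioi 0) := by
  have hm : Measurable fun t : ℝ => μ {x | t ≤ f x} :=
    Antitone.measurable fun s t hst => measure_mono fun x hx => le_trans hst hx
  refine integrable_toReal_of_lintegral_ne_top hm.aemeasurable ?_
  rw [← lintegral_eq_lintegral_meas_le μ (Eventually.of_forall h0) hf.aemeasurable,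
    ← ofReal_integral_eq_lintegral_ofReal hf (Eventually.of_forall h0)]
  exact ENNReal.ofReal_ne_top

theorem sum_limit {A B : Measure ℝ} [IsProbabilityMeasure A] [IsProbabilityMeasure B]
    {φ ψ : ℝ → ℝ} (mφ : Measurable φ) (mψ : Measurable ψ) (iφ : Integrable φ A)
    (iψ : Integrable ψ B) {a b : ℕ → ℕ → ℝ} (N : ℕ → ℕ) {C c : ℝ} (hc : 0 < c)
    (ha : ∀ᶠ M : ℕ in atTop, Antitone (a M) ∧
      ∀ j, 0 ≤ a M j ∧ a M j ≤ C / M * Real.exp (-c * (j : ℝ) / M))
    (hb : ∀ᶠ M : ℕ in atTop, Antitone (b M) ∧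
      ∀ j, 0 ≤ b M j ∧ b M j ≤ C / M * Real.exp (-c * (j : ℝ) / M))
    (la : ∀ y : ℝ, 0 ≤ y → ∀ j : ℕ → ℕ, Tendsto (fun M : ℕ => 2 * (j M : ℝ) / M) atTop (𝓝 y) →
      Tendsto (fun M => ∑ i ∈ Finset.range (j M), a M i) atTop (𝓝 (∫ u, min (max (φ u) 0) y ∂A)))
    (lb : ∀ y : ℝ, 0 ≤ y → ∀ j : ℕ → ℕ, Tendsto (fun M : ℕ => 2 * (j M : ℝ) / M) atTop (𝓝 y) →
      Tendsto (fun M => ∑ i ∈ Finset.range (j M), b M i) atTop (𝓝 (∫ u, min (max (ψ u) 0) y ∂B)))
    {ε : ℝ} (hε : 0 < ε) : ∀ᶠ M : ℕ in atTop,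
      (M : ℝ) / 2 * ∑ j ∈ Finset.range (N M), a M j * b M j ≤
        ∫ p : ℝ × ℝ, min (max (φ p.1) 0) (max (ψ p.2) 0) ∂A.prod B + ε := by
  let f : ℝ × ℝ → ℝ := fun p => min (max (φ p.1) 0) (max (ψ p.2) 0)
  have f0 : ∀ p, 0 ≤ f p := fun p => le_min (le_max_right _ _) (le_max_right _ _)
  have fi : Integrable f (A.prod B) := by
    refine (iφ.abs.comp_fst B).mono' (Measurable.aestronglyMeasurable (by fun_prop))
      (Eventually.of_forall fun p => ?_)
    rw [Real.norm_eq_abs, abs_of_nonneg (f0 p)]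
    exact (min_le_left _ _).trans (max_le (le_abs_self _) (abs_nonneg _))
  let F : ℝ → ℝ := fun t => (A.prod B).real {p | t ≤ f p}
  have Fi : IntegrableOn F (Ioi 0) := csum_layer fi f0
  have Fe : ∫ p, f p ∂A.prod B = ∫ t in Ioi 0, F t :=
    fi.integral_eq_integral_meas_le (Eventually.of_forall f0)
  have Fp : ∀ t, 0 < t → F t = A.real {u | t ≤ φ u} * B.real {u | t ≤ ψ u} := by
    intro t ht
    rw [← measureReal_prod_prod]
    simp only [F]
    congr 1
    ext p
    simp only [f, mem_ofPred_eq, mem_prod, le_min_iff, le_max_iff, not_le.2 ht, or_false]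
  let g : ℕ → ℕ → ℝ := fun M j => ((M : ℝ) / 2 * a M j) * ((M : ℝ) / 2 * b M j)
  let G : ℕ → ℝ → ℝ := fun M y => g M ⌊y * ((M : ℝ) / 2)⌋₊
  have Gm : ∀ M, Measurable (G M) := fun M =>
    (Measurable.of_discrete (f := g M)).comp
      (Nat.measurable_floor.comp (measurable_id.mul_const _))
  let K : ℝ := (C / 2 * Real.exp c) ^ 2
  have Ki : IntegrableOn (fun y : ℝ => K * Real.exp (-c * y)) (Ioi 0) :=
    (exp_neg_integrableOn_Ioi 0 hc).const_mul K
  have Gb : ∀ᶠ M : ℕ in atTop, (∀ j, 0 ≤ g M j) ∧ ∀ y, G M y ≤ K * Real.exp (-c * y) := by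
    filter_upwards [ha, hb, eventually_gt_atTop 0] with M h1 h2 h3
    refine ⟨fun j => mul_nonneg (mul_nonneg (by positivity) (h1.2 j).1)
      (mul_nonneg (by positivity) (h2.2 j).1), fun y => ?_⟩
    have h4 := csum_dom hc h3 h1.2 y
    have h5 := csum_dom hc h3 h2.2 y
    have h6 : 0 ≤ (M : ℝ) / 2 * a M ⌊y * ((M : ℝ) / 2)⌋₊ := mul_nonneg (by positivity) (h1.2 _).1
    have h7 : 0 ≤ (M : ℝ) / 2 * b M ⌊y * ((M : ℝ) / 2)⌋₊ := mul_nonneg (by positivity) (h2.2 _).1
    refine (mul_le_mul h4 h5 h7 (h6.trans h4)).trans (le_of_eq ?_)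
    have h8 : Real.exp (-c * y) = Real.exp (-(c / 2) * y) * Real.exp (-(c / 2) * y) := by
      rw [← Real.exp_add]; congr 1; ring
    simp only [K, h8]
    ring
  have F0 : ∀ t, 0 ≤ F t := fun t => measureReal_nonneg
  have hlim : Tendsto (fun M => ∫ y in Ioi (0 : ℝ), max (G M y - F y) 0) atTop
      (𝓝 (∫ _ in Ioi (0 : ℝ), (0 : ℝ))) := by
    refine tendsto_integral_filter_of_dominated_convergence (fun y => K * Real.exp (-c * y))
      (Eventually.of_forall fun M =>
        (((Gm M).aemeasurable.sub Fi.aemeasurable).max aemeasurable_const).aestronglyMeasurable)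
      (Gb.mono fun M h => Eventually.of_forall fun y => ?_) Ki
      ((ae_restrict_iff' measurableSet_Ioi).2 (Eventually.of_forall fun y hy => ?_))
    · rw [Real.norm_eq_abs, abs_of_nonneg (le_max_right _ _)]
      have h1 := h.2 y
      have h2 : 0 ≤ G M y := h.1 _
      have h3 := F0 y
      exact max_le (by linarith) (by linarith)
    · refine tendsto_order.2 ⟨fun e he => Eventually.of_forall fun M =>
        lt_of_lt_of_le he (le_max_right _ _), fun e he => ?_⟩
      have hy' : 0 < y := hy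
      have hδ : 0 < min (e / 4) 1 := lt_min (by linarith) one_pos
      filter_upwards [csum_point mφ (ha.mono fun _ h => h.1) la hy' hδ,
        csum_point mψ (hb.mono fun _ h => h.1) lb hy' hδ, ha, hb] with M h1 h2 h3 h4
      refine max_lt ?_ he
      have h7 : 0 ≤ (M : ℝ) / 2 * b M ⌊y * ((M : ℝ) / 2)⌋₊ :=
        mul_nonneg (by positivity) (h4.2 _).1
      have a0 : 0 ≤ A.real {u | y ≤ φ u} := measureReal_nonneg
      have a1 : A.real {u | y ≤ φ u} ≤ 1 := measureReal_le_one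
      have b1 : B.real {u | y ≤ ψ u} ≤ 1 := measureReal_le_one
      have h8 : G M y ≤ (A.real {u | y ≤ φ u} + min (e / 4) 1) *
          (B.real {u | y ≤ ψ u} + min (e / 4) 1) := mul_le_mul h1 h2 h7 (by linarith)
      have d1 := min_le_left (e / 4) 1
      have d2 := min_le_right (e / 4) 1
      rw [Fp y hy']
      nlinarith
  rw [integral_zero] at hlim
  filter_upwards [hlim.eventually (eventually_le_nhds hε), Gb, eventually_gt_atTop 0]
    with M h1 h2 h3
  have hM : (0 : ℝ) < M := by exact_mod_cast h3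
  have Gi : IntegrableOn (G M) (Ioi 0) :=
    Ki.mono' (Gm M).aestronglyMeasurable (Eventually.of_forall fun y => by
      rw [Real.norm_eq_abs, abs_of_nonneg (h2.1 _)]
      exact h2.2 y)
  have h4 := csum_step (g M) (r := (M : ℝ) / 2) (by positivity) (N M) h2.1 Gi
  have Pi : IntegrableOn (fun y => max (G M y - F y) 0) (Ioi 0) := (Gi.sub Fi).pos_part
  have h5 : ∫ y in Ioi (0 : ℝ), G M y ≤
      (∫ y in Ioi (0 : ℝ), F y) + ∫ y in Ioi (0 : ℝ), max (G M y - F y) 0 := by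
    rw [← integral_add Fi Pi]
    refine integral_mono Gi (Fi.add Pi) fun y => ?_
    have := le_max_left (G M y - F y) 0
    simp only
    linarith
  have h6 : (M : ℝ) / 2 * ∑ j ∈ Finset.range (N M), a M j * b M j =
      ((M : ℝ) / 2)⁻¹ * ∑ j ∈ Finset.range (N M), g M j := by
    rw [Finset.mul_sum, Finset.mul_sum]
    refine Finset.sum_congr rfl fun j _ => ?_
    simp only [g]
    field_simp
  rw [h6]
  change _ ≤ ∫ p, f p ∂A.prod B + ε
  rw [Fe]
  have h7 : ∫ y in Ioi (0 : ℝ), g M ⌊y * ((M : ℝ) / 2)⌋₊ = ∫ y in Ioi (0 : ℝ), G M y := rfl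
  linarith

end Pool.Agent.K6329
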