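import Pool.Agent.Lib.MP_632999_pr.K.Main
import Pool.Agent.Lib.MP_632999_pr.K.CDisc
import Pool.Agent.Lib.MP_632999_pr.K.CLim
import Pool.Agent.Lib.MP_632999_pr.K.CRep
import Pool.Agent.Lib.MP_632999_pr.K.CSum
import Pool.Agent.Lib.MP_632999_pr.K.CCx

/-! Stage 2: the convex order of the two-point function (owner 20). -/

namespace Pool.Agent.K6329

open MeasureTheory ProbabilityTheory Filter Topology Set Function
open scoped NNReal ENNReal

variable {Ω : Type} [MeasurableSpace Ω] {P : Measure Ω} {B : ℝ → Ω → ℝ} {W : Test → Ω → ℝ}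
  {Z : ℝ → ℝ → Ω → ℝ} {Tx Tc : ℕ → ℝ → ℝ}

theorem cov_tendsto (hN : IsNoise P B W) (hZ : IsMild P B W Z) {t₁ t₂ x₁ x₂ : ℝ} (h₁ : 0 < t₁)
    (h₂ : 0 < t₂) {n₁ n₂ : ℕ → ℕ} {k₁ k₂ : ℕ → ℤ} (l₁ : Lat t₁ x₁ n₁ k₁) (l₂ : Lat t₂ x₂ n₂ k₂) :
    Tendsto (fun M => cov[Hd (n₁ M) (k₁ M), Hd (n₂ M) (k₂ M); Pd M]) atTop
      (𝓝 cov[coleHopf Z t₁ x₁, coleHopf Z t₂ x₂; P]) := by
  have := hN.prob
  obtain ⟨Tx, Tc, hQ⟩ := exists_quant
  obtain ⟨-, m₁, c₁⟩ := log_point hN hZ hQ h₁ l₁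
  obtain ⟨-, m₂, c₂⟩ := log_point hN hZ hQ h₂ l₂
  exact (cov_conv ((eventually_ge_atTop 1).mono fun M hM => log_memLp hN hQ hM _ _)
    ((eventually_ge_atTop 1).mono fun M hM => log_memLp hN hQ hM _ _) m₁ m₂ c₁ c₂).congr'
      ((eventually_ge_atTop 1).mono fun M hM => cov_log hN hQ hM _ _ _ _)

theorem isLim_var (hN : IsNoise P B W) (hZ : IsMild P B W Z) {t : ℝ} (ht : 0 < t) :
    IsLim t fun x => Var[coleHopf Z t x; P] := by
  intro x n k h
  have h1 := cov_tendsto hN hZ ht ht h h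
  rw [covariance_self ((main hN hZ).1 t ht x).2.aemeasurable] at h1
  exact h1.congr fun M => covariance_self (measurable_Hd _ _).aemeasurable

theorem Lat.sub {t₁ t₂ x₁ x₂ : ℝ} {n m : ℕ → ℕ} {k₁ k₂ : ℕ → ℤ} (l₁ : Lat t₁ x₁ n k₁)
    (l₂ : Lat t₂ x₂ (fun M => n M + m M) k₂) :
    Lat (t₂ - t₁) (x₂ - x₁) m fun M => k₂ M - k₁ M := by
  refine ⟨(l₂.1.sub l₁.1).congr fun M => ?_, (l₂.2.sub l₁.2).congr fun M => ?_⟩
  · push_cast; ring
  · push_cast; ring

theorem Lat.rev {t x : ℝ} {n : ℕ → ℕ} {k : ℕ → ℤ} (l : Lat t x n k) :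
    Lat t (-x) n fun M => -(n M : ℤ) - k M := by
  refine ⟨l.1, l.2.neg.congr fun M => ?_⟩
  push_cast; ring

/-- stationarity: the covariance from the variances -/
theorem cov_eq_var (hN : IsNoise P B W) (hZ : IsMild P B W Z) {t₁ t₂ : ℝ} (h₁ : 0 < t₁)
    (h₁₂ : t₁ < t₂) (x₁ x₂ : ℝ) :
    2 * cov[coleHopf Z t₁ x₁, coleHopf Z t₂ x₂; P] = Var[coleHopf Z t₁ x₁; P] +
      Var[coleHopf Z t₂ x₂; P] - Var[coleHopf Z (t₂ - t₁) (x₂ - x₁); P] := by
  obtain ⟨n, m, k₁, k₂, l₁, l₂⟩ := exists_lat h₁ h₁₂.le x₁ x₂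
  have a := (cov_tendsto hN hZ h₁ (h₁.trans h₁₂) l₁ l₂).const_mul 2
  have b := ((isLim_var hN hZ h₁ _ _ _ l₁).add (isLim_var hN hZ (h₁.trans h₁₂) _ _ _ l₂)).sub
    (isLim_var hN hZ (sub_pos.2 h₁₂) _ _ _ (l₁.sub l₂))
  exact tendsto_nhds_unique (a.congr fun M => cov_eq_vd M _ _ _ _) b

theorem cm_min (J y : ℝ) (hy : 0 ≤ y) : min (max J 0) y = (|J| + y - |J - y|) / 2 := by
  rcases le_total J 0 with h | h
  · rw [max_eq_right h, min_eq_left hy, abs_of_nonpos h, abs_of_nonpos (by linarith)]; ring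
  · rw [max_eq_left h, abs_of_nonneg h]
    rcases le_total J y with h' | h'
    · rw [min_eq_left h', abs_of_nonpos (by linarith)]; ring
    · rw [min_eq_right h', abs_of_nonneg (by linarith)]; ring

theorem cm_abs (a b : ℝ) :
    |a - b| = |a| + |b| - 2 * (min (max a 0) (max b 0) + min (max (-a) 0) (max (-b) 0)) := by
  rcases le_total a 0 with ha | ha <;> rcases le_total b 0 with hb | hb <;>
    rcases le_total a b with h | h <;>
    simp only [max_def, min_def, abs_eq_max_neg] <;> split_ifs <;> linarith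

theorem cm_int {S : Measure ℝ} [IsProbabilityMeasure S] (iS : Integrable (fun y : ℝ => y) S)
    (x : ℝ) : Integrable (fun y => |x - y|) S := ((integrable_const x).sub iS).abs

theorem cm_part {S : Measure ℝ} [IsProbabilityMeasure S] (iS : Integrable (fun y : ℝ => y) S)
    {V : ℝ → ℝ} (hV : ∀ x, V x = ∫ y, |x - y| ∂S) (x : ℝ) {y : ℝ} (hy : 0 ≤ y) :
    ∫ u, min (max (x - u) 0) y ∂S = (V x + |y| - V (x - y)) / 2 ∧
    ∫ u, min (max (-(x - u)) 0) y ∂S = (V x + |-y| - V (x - -y)) / 2 := by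
  have gen : ∀ z : ℝ, ∫ u, (|x - u| + y - |z - u|) / 2 ∂S = (V x + y - V z) / 2 := by
    intro z
    have i1 : Integrable (fun u => |x - u| + y) S := (cm_int iS x).add (integrable_const y)
    rw [integral_div, integral_sub i1 (cm_int iS z), integral_add (cm_int iS x) (integrable_const y),
      ← hV, ← hV]
    simp
  constructor
  · rw [abs_of_nonneg hy, ← gen]
    refine integral_congr_ae (Eventually.of_forall fun u => ?_)
    simp only
    rw [cm_min _ _ hy, show x - u - y = x - y - u by ring]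
  · rw [abs_neg, abs_of_nonneg hy, ← gen]
    refine integral_congr_ae (Eventually.of_forall fun u => ?_)
    simp only
    rw [cm_min _ _ hy, abs_neg, ← abs_neg (-(x - u) - y), show -(-(x - u) - y) = x - -y - u by ring]

theorem cm_split (f : ℤ → ℝ) {l r : ℤ} (hl : l ≤ 0) (hr : 0 ≤ r) :
    ∑ j ∈ Finset.Ico l r, f j =
      ∑ i ∈ Finset.range r.toNat, f i + ∑ i ∈ Finset.range (-l).toNat, f (-1 - i) := by
  rw [← Finset.Ico_union_Ico_eq_Ico hl hr,
    Finset.sum_union (Finset.Ico_disjoint_Ico_consecutive l 0 r), add_comm]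
  congr 1
  · refine Finset.sum_bij' (fun j _ => j.toNat) (fun i _ => (i : ℤ)) ?_ ?_ ?_ ?_ ?_
    · intro j hj; simp only [Finset.mem_Ico, Finset.mem_range] at hj ⊢; omega
    · intro i hi; simp only [Finset.mem_Ico, Finset.mem_range] at hi ⊢; omega
    · intro j hj; simp only [Finset.mem_Ico] at hj; omega
    · intro i _; simp
    · intro j hj; simp only [Finset.mem_Ico] at hj; congr 1; omega
  · refine Finset.sum_bij' (fun j _ => (-1 - j).toNat) (fun i _ => -1 - (i : ℤ)) ?_ ?_ ?_ ?_ ?_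
    · intro j hj; simp only [Finset.mem_Ico, Finset.mem_range] at hj ⊢; omega
    · intro i hi; simp only [Finset.mem_Ico, Finset.mem_range] at hi ⊢; omega
    · intro j hj; simp only [Finset.mem_Ico] at hj; omega
    · intro i _; simp
    · intro j hj; simp only [Finset.mem_Ico] at hj; congr 1; omega

/-- the data that `sum_limit` needs, on both sides of the origin -/
theorem cm_data {t x : ℝ} (ht : 0 < t) {V : ℝ → ℝ} (h : IsLim t V) {S : Measure ℝ}
    [IsProbabilityMeasure S] (iS : Integrable (fun y : ℝ => y) S)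
    (hV : ∀ x, V x = ∫ y, |x - y| ∂S) {n : ℕ → ℕ} {k : ℕ → ℤ} (hl : Lat t x n k) :
    (∃ C c : ℝ, 0 < c ∧ ∀ᶠ M : ℕ in atTop, ∀ j : ℕ,
      cd M (n M) (k M) j ≤ C / M * Real.exp (-c * (j : ℝ) / M) ∧
      -cd M (n M) (k M) (-1 - j) ≤ C / M * Real.exp (-c * (j : ℝ) / M)) ∧
    ∀ y : ℝ, 0 ≤ y → ∀ j : ℕ → ℕ, Tendsto (fun M : ℕ => 2 * (j M : ℝ) / M) atTop (𝓝 y) →
      Tendsto (fun M => ∑ i ∈ Finset.range (j M), cd M (n M) (k M) i) atTop
        (𝓝 (∫ u, min (max (x - u) 0) y ∂S)) ∧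
      Tendsto (fun M => ∑ i ∈ Finset.range (j M), -cd M (n M) (k M) (-1 - i)) atTop
        (𝓝 (∫ u, min (max (-(x - u)) 0) y ∂S)) := by
  constructor
  · obtain ⟨C, c, M₀, hc, hC⟩ := tight (t + 1) (|x| + 1)
    refine ⟨|C|, c, hc, ?_⟩
    filter_upwards [hl.bounds ht, eventually_ge_atTop M₀] with M hb h0 j
    have hh := hC M h0 (n M) (k M) hb.1 hb.2.1 hb.2.2.1 hb.2.2.2
    have hM : (0 : ℝ) ≤ M := Nat.cast_nonneg M
    have gen : ∀ i : ℤ, (j : ℝ) ≤ |(i : ℝ)| →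
        |cd M (n M) (k M) i| ≤ |C| / M * Real.exp (-c * (j : ℝ) / M) := by
      intro i hi
      refine (hh i).trans (mul_le_mul (div_le_div_of_nonneg_right (le_abs_self C) hM)
        (Real.exp_le_exp.2 (div_le_div_of_nonneg_right ?_ hM)) (Real.exp_pos _).le (by positivity))
      nlinarith
    refine ⟨(le_abs_self _).trans (gen j (by simp)), (neg_le_abs _).trans (gen (-1 - j) ?_)⟩
    push_cast
    exact le_trans (by linarith) (neg_le_abs _)
  · intro y hy j hj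
    obtain ⟨e1, e2⟩ := cm_part iS hV x hy
    rw [e1, e2]
    simp only [cd_sum_right, cd_sum_left]
    refine ⟨h.cov_prof hl (j := fun M => (j M : ℤ)) (by simpa using hj),
      h.cov_prof hl (j := fun M => -(j M : ℤ)) (hj.neg.congr fun M => ?_)⟩
    push_cast; ring

theorem conv_abs {s t : ℝ} (hs : 0 < s) (ht : 0 < t) {Vs Vt Vu : ℝ → ℝ} (ls : IsLim s Vs)
    (lt : IsLim t Vt) (lu : IsLim (t + s) Vu) {Ss St : Measure ℝ} [IsProbabilityMeasure Ss]
    [IsProbabilityMeasure St] (is : Integrable (fun y : ℝ => y) Ss)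
    (it : Integrable (fun y : ℝ => y) St) (rs : ∀ x, Vs x = ∫ y, |x - y| ∂Ss)
    (rt : ∀ x, Vt x = ∫ y, |x - y| ∂St) (x : ℝ) :
    ∫ p : ℝ × ℝ, |x - (p.1 + p.2)| ∂St.prod Ss ≤ Vu x := by
  obtain ⟨n, m, k₁, k₂, l₁, l₂⟩ := exists_lat ht (le_add_of_nonneg_right hs.le) 0 x
  have l₃ := l₁.sub l₂
  rw [add_sub_cancel_left, sub_zero] at l₃
  have l₄ := l₁.rev
  rw [neg_zero] at l₄
  obtain ⟨⟨C₁, c₁, hc₁, b₁⟩, p₁⟩ := cm_data ht lt it rt l₄
  obtain ⟨⟨C₂, c₂, hc₂, b₂⟩, p₂⟩ := cm_data hs ls is rs l₃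
  have hc : 0 < min c₁ c₂ := lt_min hc₁ hc₂
  have weak : ∀ {C c a : ℝ} {M j : ℕ}, C ≤ max (max C₁ C₂) 0 → min c₁ c₂ ≤ c →
      a ≤ C / M * Real.exp (-c * (j : ℝ) / M) →
      a ≤ max (max C₁ C₂) 0 / M * Real.exp (-min c₁ c₂ * (j : ℝ) / M) := by
    intro C c a M j h1 h2 h3
    have hM : (0 : ℝ) ≤ M := Nat.cast_nonneg M
    have hj : (0 : ℝ) ≤ j := Nat.cast_nonneg j
    refine h3.trans (mul_le_mul (div_le_div_of_nonneg_right h1 hM)
      (Real.exp_le_exp.2 (div_le_div_of_nonneg_right ?_ hM)) (Real.exp_pos _).le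
      (div_nonneg (le_max_right _ _) hM))
    nlinarith
  have q₁ : C₁ ≤ max (max C₁ C₂) 0 := (le_max_left _ _).trans (le_max_left _ _)
  have q₂ : C₂ ≤ max (max C₁ C₂) 0 := (le_max_right _ _).trans (le_max_left _ _)
  have i0 : Integrable (fun u : ℝ => 0 - u) St := (integrable_const 0).sub it
  have ix : Integrable (fun u : ℝ => x - u) Ss := (integrable_const x).sub is
  set R := ∫ p : ℝ × ℝ, min (max (0 - p.1) 0) (max (x - p.2) 0) ∂St.prod Ss with hR
  set L := ∫ p : ℝ × ℝ, min (max (-(0 - p.1)) 0) (max (-(x - p.2)) 0) ∂St.prod Ss with hL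
  have key : Vt 0 + Vs x - 2 * (R + L) ≤ Vu x := by
    refine le_of_forall_pos_le_add fun ε hε => ?_
    have sR := sum_limit (A := St) (B := Ss) (φ := fun u => 0 - u) (ψ := fun u => x - u)
      (by fun_prop) (by fun_prop) i0 ix
      (a := fun M j => cd M (n M) (-(n M : ℤ) - k₁ M) j)
      (b := fun M j => cd M (m M) (k₂ M - k₁ M) j) (fun M => (-k₁ M).toNat) hc
      (b₁.mono fun M hM => ⟨cd_anti_right _ _ _, fun j => ⟨cd_nonneg _ _ _ (Int.natCast_nonneg j),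
        weak q₁ (min_le_left _ _) (hM j).1⟩⟩)
      (b₂.mono fun M hM => ⟨cd_anti_right _ _ _, fun j => ⟨cd_nonneg _ _ _ (Int.natCast_nonneg j),
        weak q₂ (min_le_right _ _) (hM j).1⟩⟩)
      (fun y hy j hj => (p₁ y hy j hj).1) (fun y hy j hj => (p₂ y hy j hj).1)
      (ε := ε / 4) (by positivity)
    have sL := sum_limit (A := St) (B := Ss) (φ := fun u => -(0 - u)) (ψ := fun u => -(x - u))
      (by fun_prop) (by fun_prop) i0.neg ix.neg
      (a := fun M j => -cd M (n M) (-(n M : ℤ) - k₁ M) (-1 - j))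
      (b := fun M j => -cd M (m M) (k₂ M - k₁ M) (-1 - j))
      (fun M => (-(-(n M : ℤ) - k₁ M)).toNat) hc
      (b₁.mono fun M hM => ⟨cd_anti_left _ _ _, fun j =>
        ⟨neg_nonneg.2 (cd_nonpos _ _ _ (by omega)), weak q₁ (min_le_left _ _) (hM j).2⟩⟩)
      (b₂.mono fun M hM => ⟨cd_anti_left _ _ _, fun j =>
        ⟨neg_nonneg.2 (cd_nonpos _ _ _ (by omega)), weak q₂ (min_le_right _ _) (hM j).2⟩⟩)
      (fun y hy j hj => (p₁ y hy j hj).2) (fun y hy j hj => (p₂ y hy j hj).2)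
      (ε := ε / 4) (by positivity)
    rw [← hR] at sR
    rw [← hL] at sL
    have tl := ((lt _ _ _ l₁).add (ls _ _ _ l₃)).sub
      ((kap_tendsto.const_mul 2).mul_const (R + ε / 4 + (L + ε / 4)))
    have := le_of_tendsto_of_tendsto tl (lu _ _ _ l₂) (by
      filter_upwards [sR, sL, l₁.bounds ht, rhoM_pos, eventually_ge_atTop 4] with M h1 h2 hb hρ h4
      have hM : (0 : ℝ) < M := by exact_mod_cast (by omega : 0 < M)
      have d := disc_two h4 hρ (n M) (m M) (k₂ M) hb.2.2.1 hb.2.2.2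
      rw [cm_split _ (by have := hb.2.2.1; omega) (by have := hb.2.2.2; omega)] at d
      simp only [neg_mul_neg] at h2
      have hk : 0 ≤ kap M * (2 / (M : ℝ)) :=
        mul_nonneg (div_nonneg (mul_nonneg zero_le_two (rhoP_nonneg _)) (sq_nonneg _))
          (by positivity)
      have h3 := mul_le_mul_of_nonneg_left (add_le_add h1 h2) hk
      refine le_trans ?_ d
      have e : ∀ u v : ℝ, kap M * (2 / (M : ℝ)) * ((M : ℝ) / 2 * u + (M : ℝ) / 2 * v) =
          kap M * (u + v) := fun u v => by field_simp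
      rw [e] at h3
      linarith)
    linarith
  refine le_trans (le_of_eq ?_) key
  have j1 : Integrable (fun p : ℝ × ℝ => 0 - p.1) (St.prod Ss) := i0.comp_fst Ss
  have j2 : Integrable (fun p : ℝ × ℝ => x - p.2) (St.prod Ss) := ix.comp_snd St
  have jR : Integrable (fun p : ℝ × ℝ => min (max (0 - p.1) 0) (max (x - p.2) 0)) (St.prod Ss) :=
    (j1.sup (integrable_const 0)).inf (j2.sup (integrable_const 0))
  have jL : Integrable (fun p : ℝ × ℝ => min (max (-(0 - p.1)) 0) (max (-(x - p.2)) 0))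
      (St.prod Ss) := (j1.neg.sup (integrable_const 0)).inf (j2.neg.sup (integrable_const 0))
  have e1 : ∫ p : ℝ × ℝ, |0 - p.1 - (x - p.2)| ∂St.prod Ss = Vt 0 + Vs x - 2 * (R + L) := by
    simp only [cm_abs (0 - _) (x - _)]
    have j3 : Integrable (fun p : ℝ × ℝ => |0 - p.1| + |x - p.2|) (St.prod Ss) := j1.abs.add j2.abs
    have j4 : Integrable (fun p : ℝ × ℝ => min (max (0 - p.1) 0) (max (x - p.2) 0) +
        min (max (-(0 - p.1)) 0) (max (-(x - p.2)) 0)) (St.prod Ss) := jR.add jL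
    rw [integral_sub j3 (j4.const_mul 2), integral_const_mul, integral_add jR jL,
      integral_add j1.abs j2.abs, integral_fun_fst (fun u : ℝ => |0 - u|),
      integral_fun_snd (fun u : ℝ => |x - u|), ← rs, ← rt]
    simp [hR, hL]
  rw [← e1]
  have k1 : Integrable (fun p : ℝ × ℝ => |x - (p.1 + p.2)|) (St.prod Ss) :=
    ((integrable_const x).sub ((it.comp_fst Ss).add (is.comp_snd St))).abs
  have k2 : Integrable (fun p : ℝ × ℝ => |0 - p.1 - (x - p.2)|) (St.prod Ss) := (j1.sub j2).abs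
  rw [integral_prod_symm _ k1, integral_prod_symm _ k2]
  refine integral_congr_ae (Eventually.of_forall fun z => ?_)
  have a1 : ∫ y, |x - (y + z)| ∂St = Vt (x - z) := by
    rw [rt]; congr 1; funext y; congr 1; ring
  have a2 : ∫ y, |0 - y - (x - z)| ∂St = Vt (-(x - z)) := by
    rw [rt]; congr 1; funext y; congr 1; ring
  simp only
  rw [a1, a2, lt.even ht]

theorem main2 (hN : IsNoise P B W) (hZ : IsMild P B W Z) :
    ∃ S : ℝ → Measure ℝ,
      (∀ t, 0 < t → IsProbabilityMeasure (S t) ∧ Integrable (fun y : ℝ => y) (S t) ∧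
        ∫ y, y ∂S t = 0 ∧ ∀ x, (∀ᵐ ω ∂P, 0 < Z t x ω) ∧ MemLp (coleHopf Z t x) 2 P ∧
          Var[coleHopf Z t x; P] = ∫ y, |x - y| ∂S t) ∧
      ∀ s t, 0 < s → 0 < t → ∀ φ : ℝ → ℝ, ConvexOn ℝ univ φ → Integrable φ (S (t + s)) →
        Integrable (fun p : ℝ × ℝ => φ (p.1 + p.2)) ((S t).prod (S s)) ∧
          ∫ p : ℝ × ℝ, φ (p.1 + p.2) ∂(S t).prod (S s) ≤ ∫ y, φ y ∂S (t + s) := by
  have ex : ∀ t : ℝ, ∃ S : Measure ℝ, 0 < t → IsProbabilityMeasure S ∧
      Integrable (fun y : ℝ => y) S ∧ ∫ y, y ∂S = 0 ∧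
        ∀ x, Var[coleHopf Z t x; P] = ∫ y, |x - y| ∂S := by
    intro t
    by_cases ht : 0 < t
    · have h := isLim_var hN hZ ht
      obtain ⟨S, hS⟩ := rep_exists (h.convex ht) (h.asym ht).1 (h.asym ht).2
      exact ⟨S, fun _ => hS⟩
    · exact ⟨0, fun h => absurd h ht⟩
  choose S hS using ex
  refine ⟨S, fun t ht => ⟨(hS t ht).1, (hS t ht).2.1, (hS t ht).2.2.1, fun x =>
    ⟨((main hN hZ).1 t ht x).1, ((main hN hZ).1 t ht x).2, (hS t ht).2.2.2 x⟩⟩,
    fun s t hs ht φ hφ iφ => ?_⟩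
  obtain ⟨ps, is, ms, rs⟩ := hS s hs
  obtain ⟨pt, it, mt, rt⟩ := hS t ht
  obtain ⟨pu, iu, mu', ru⟩ := hS (t + s) (add_pos ht hs)
  refine cx_of_abs (X := fun p : ℝ × ℝ => p.1 + p.2) (Y := fun y : ℝ => y) (by fun_prop)
    (by fun_prop) ((it.comp_fst (S s)).add (is.comp_snd (S t))) iu ?_ (fun x => ?_) hφ iφ
  · rw [integral_add (it.comp_fst (S s)) (is.comp_snd (S t)), integral_fun_fst (fun u : ℝ => u),
      integral_fun_snd (fun u : ℝ => u), ms, mt, mu']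
    simp
  · rw [← ru]
    exact conv_abs hs ht (isLim_var hN hZ hs) (isLim_var hN hZ ht)
      (isLim_var hN hZ (add_pos ht hs)) is it rs rt x

end Pool.Agent.K6329
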