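import Pool.Agent.Lib.MP_632999_pr.K.Defs

/-! Gaussian limits of the two laws by dominated convergence of the rescaled densities. For `mu`:
`exp (th u - 2 th sp u) = (2 cosh (u/2))^(-2 th)`, `cosh (s y/2)^(-2 th) -> exp (-y^2/2)`, dominated by
`1/(1 + y^2/2)` (Bernoulli). For `gC`: `exp (2 th (s y - exp (s y) + 1)) -> exp (-y^2/2)`, dominated by
`exp (1 - |y|)` up to constants (`exp s - 1 - s >= s^2/(2(1+|s|))`). First prove a general lemma:
`f M -> exp (-y^2/2)` pointwise and dominated gives `(int_{Iic x} f M)/(int f M) -> cdf N01 x`. -/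

namespace Pool.Agent.K6329

open MeasureTheory ProbabilityTheory Filter Topology Set Function
open scoped NNReal ENNReal

theorem cdf_aff_int (F : ℝ → ℝ) (a : ℝ) {s : ℝ} (hs : 0 < s) :
    ∫ y, F (a + s * y) = s⁻¹ * ∫ u, F u := by
  have h := Measure.integral_comp_mul_left (fun t => F (a + t)) s
  rw [h, integral_add_left_eq_self (fun u => F u) a, abs_of_pos (inv_pos.2 hs), smul_eq_mul]

theorem cdf_tilt (g : ℝ → ℝ) [IsProbabilityMeasure (volume.tilted g)] (a c x : ℝ) {s : ℝ}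
    (hs : 0 < s) :
    cdf (volume.tilted g) (a + s * x) =
      (∫ y in Iic x, Real.exp (g (a + s * y) + c)) / ∫ y, Real.exp (g (a + s * y) + c) := by
  rw [cdf_eq_real, Measure.real, tilted_apply_eq_ofReal_integral' _ measurableSet_Iic,
    ENNReal.toReal_ofReal (integral_nonneg fun u =>
      div_nonneg (Real.exp_pos _).le (integral_nonneg fun _ => (Real.exp_pos _).le)),
    integral_div]
  simp only [Real.exp_add, integral_mul_const]
  rw [mul_div_mul_right _ _ (Real.exp_pos c).ne', cdf_aff_int (fun u => Real.exp (g u)) a hs,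
    ← integral_indicator measurableSet_Iic, ← integral_indicator measurableSet_Iic]
  have h2 : (Iic x).indicator (fun y => Real.exp (g (a + s * y))) =
      fun y => (Iic (a + s * x)).indicator (fun u => Real.exp (g u)) (a + s * y) := by
    funext y
    by_cases hy : y ≤ x
    · rw [indicator_of_mem (mem_Iic.2 hy), indicator_of_mem (mem_Iic.2 (by nlinarith))]
    · have hy' : x < y := not_le.1 hy
      rw [indicator_of_notMem (by simpa using hy'),
        indicator_of_notMem (by simp only [mem_Iic, not_le]; nlinarith)]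
  rw [h2, cdf_aff_int _ a hs, mul_div_mul_left _ _ (inv_pos.2 hs).ne']

theorem cdf_N01 (x : ℝ) :
    cdf N01 x = (∫ y in Iic x, Real.exp (-(y ^ 2 / 2))) / ∫ y : ℝ, Real.exp (-(y ^ 2 / 2)) := by
  have h1 : ∫ y : ℝ, Real.exp (-(y ^ 2 / 2)) = √(2 * Real.pi) := by
    have h := integral_gaussian (1 / 2)
    rw [show Real.pi / (1 / 2) = 2 * Real.pi by ring] at h
    rw [← h]
    refine integral_congr_ae (Eventually.of_forall fun y => ?_)
    simp only
    congr 1; ring
  rw [cdf_eq_real, Measure.real, gaussianReal_apply_eq_integral _ one_ne_zero,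
    ENNReal.toReal_ofReal (integral_nonneg fun u => gaussianPDFReal_nonneg _ _ _), h1,
    ← integral_div]
  refine integral_congr_ae (Eventually.of_forall fun y => ?_)
  simp only [gaussianPDFReal, NNReal.coe_one, mul_one, sub_zero]
  rw [neg_div, div_eq_inv_mul (Real.exp _)]

theorem cdf_ratio (f : ℕ → ℝ → ℝ) (C : ℝ) (hm : ∀ M, Measurable (f M))
    (hb : ∀ᶠ M in atTop, ∀ y, Real.exp (f M y) ≤ C * (1 + y ^ 2)⁻¹)
    (hl : ∀ y, Tendsto (fun M => f M y) atTop (𝓝 (-(y ^ 2 / 2)))) (x : ℝ) :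
    Tendsto (fun M => (∫ y in Iic x, Real.exp (f M y)) / ∫ y, Real.exp (f M y)) atTop
      (𝓝 (cdf N01 x)) := by
  have key : ∀ S : Set ℝ, Tendsto (fun M => ∫ y in S, Real.exp (f M y)) atTop
      (𝓝 (∫ y in S, Real.exp (-(y ^ 2 / 2)))) := by
    intro S
    refine tendsto_integral_filter_of_dominated_convergence (fun y => C * (1 + y ^ 2)⁻¹)
      (Eventually.of_forall fun M => (Real.measurable_exp.comp (hm M)).aestronglyMeasurable)
      (hb.mono fun M h => Eventually.of_forall fun y => ?_)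
      (integrable_inv_one_add_sq.const_mul C).restrict
      (Eventually.of_forall fun y => (Real.continuous_exp.tendsto _).comp (hl y))
    rw [Real.norm_eq_abs, abs_of_pos (Real.exp_pos _)]
    exact h y
  have h2 := key univ
  simp only [Measure.restrict_univ] at h2
  rw [cdf_N01]
  refine (key _).div h2 (ne_of_gt ?_)
  refine integral_exp_pos ?_
  have h := integrable_exp_neg_mul_sq (b := 1 / 2) (by norm_num)
  refine h.congr (Eventually.of_forall fun y => ?_)
  simp only
  congr 1; ring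

theorem cdf_sp_cosh (u : ℝ) : sp u = u / 2 + Real.log 2 + Real.log (Real.cosh (u / 2)) := by
  have hc := Real.cosh_pos (u / 2)
  have h : 1 + Real.exp u = Real.exp (u / 2) * 2 * Real.cosh (u / 2) := by
    rw [Real.cosh_eq]
    have h1 : Real.exp (u / 2) * Real.exp (u / 2) = Real.exp u := by
      rw [← Real.exp_add]; congr 1; ring
    have h2 : Real.exp (u / 2) * Real.exp (-(u / 2)) = 1 := by
      rw [← Real.exp_add]; simp
    nlinarith
  rw [sp, h, Real.log_mul (by positivity) hc.ne', Real.log_mul (by positivity) (by norm_num),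
    Real.log_exp]

theorem cdf_cosh_ge (v : ℝ) : 1 + v ^ 2 / 2 ≤ Real.cosh v := by
  have h1 : Real.cosh v = Real.cosh (|v| / 2) ^ 2 + Real.sinh (|v| / 2) ^ 2 := by
    rw [← Real.cosh_two_mul, ← Real.cosh_abs v]; congr 1; ring
  have h2 := Real.cosh_sq (|v| / 2)
  have h0 : 0 ≤ |v| / 2 := by positivity
  have h3 : |v| / 2 ≤ Real.sinh (|v| / 2) := Real.self_le_sinh_iff.2 h0
  have h4 : (|v| / 2) ^ 2 ≤ Real.sinh (|v| / 2) ^ 2 := pow_le_pow_left₀ h0 h3 2
  have h5 : |v| ^ 2 = v ^ 2 := sq_abs v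
  nlinarith

theorem cdf_lim_ratio : Tendsto (fun M : ℕ => ((M : ℝ) + 1) / M) atTop (𝓝 1) := by
  have h : Tendsto (fun M : ℕ => 1 + ((M : ℝ))⁻¹) atTop (𝓝 (1 + 0)) :=
    tendsto_const_nhds.add tendsto_inv_atTop_nhds_zero_nat
  rw [add_zero] at h
  refine h.congr' ((eventually_gt_atTop 0).mono fun M hM => ?_)
  have : (0 : ℝ) < M := by exact_mod_cast hM
  field_simp

theorem cdf_mu (x : ℝ) :
    Tendsto (fun M : ℕ => cdf (mu M) (0 + √(2 / (M : ℝ)) * x)) atTop (𝓝 (cdf N01 x)) := by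
  let f : ℕ → ℝ → ℝ := fun M y =>
    -(2 * ((M : ℝ) + 1) * Real.log (Real.cosh (√(2 / (M : ℝ)) * y / 2)))
  have hw : ∀ M : ℕ, 0 < M → ∀ y : ℝ,
      (√(2 / (M : ℝ)) * y / 2) ^ 2 / 2 = y ^ 2 / 4 * ((M : ℝ))⁻¹ := by
    intro M hM y
    have : (0 : ℝ) < M := by exact_mod_cast hM
    rw [div_pow, mul_pow, Real.sq_sqrt (by positivity)]
    field_simp
    ring
  have hlow : ∀ M : ℕ, 0 < M → ∀ y : ℝ, Real.log (1 + y ^ 2 / 4 * ((M : ℝ))⁻¹) ≤
      Real.log (Real.cosh (√(2 / (M : ℝ)) * y / 2)) := by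
    intro M hM y
    refine Real.log_le_log (by positivity) ?_
    rw [← hw M hM y]
    exact cdf_cosh_ge _
  have h := cdf_ratio f 2 (fun M => ?_) ?_ ?_ x
  · refine h.congr' ((eventually_gt_atTop 0).mono fun M hM => ?_)
    have hM' : (0 : ℝ) < M := by exact_mod_cast hM
    have hs : 0 < √(2 / (M : ℝ)) := Real.sqrt_pos.2 (by positivity)
    have : IsProbabilityMeasure (volume.tilted fun u : ℝ =>
        ((M : ℝ) + 1) * u - 2 * ((M : ℝ) + 1) * sp u) := probMu M
    have h3 := cdf_tilt (fun u : ℝ => ((M : ℝ) + 1) * u - 2 * ((M : ℝ) + 1) * sp u) 0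
      (2 * ((M : ℝ) + 1) * Real.log 2) x hs
    have h4 : ∀ y : ℝ, ((M : ℝ) + 1) * (0 + √(2 / (M : ℝ)) * y) -
        2 * ((M : ℝ) + 1) * sp (0 + √(2 / (M : ℝ)) * y) + 2 * ((M : ℝ) + 1) * Real.log 2 =
        f M y := by
      intro y
      rw [cdf_sp_cosh, zero_add]
      simp only [f]
      ring
    simp only [h4] at h3
    exact h3.symm
  · have := Real.continuous_cosh.measurable
    simp only [f]
    fun_prop
  · refine (eventually_gt_atTop 0).mono fun M hM y => ?_
    have hM' : (0 : ℝ) < M := by exact_mod_cast hM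
    have hw0 : 0 ≤ y ^ 2 / 4 * ((M : ℝ))⁻¹ := by positivity
    have h1 := one_add_mul_le_pow (a := y ^ 2 / 4 * ((M : ℝ))⁻¹) (by linarith) (2 * (M + 1))
    have h2 : (1 + y ^ 2) / 2 ≤ 1 + ((2 * (M + 1) : ℕ) : ℝ) * (y ^ 2 / 4 * ((M : ℝ))⁻¹) := by
      push_cast
      have h5 : 2 * ((M : ℝ) + 1) * (y ^ 2 / 4 * ((M : ℝ))⁻¹) =
          y ^ 2 / 2 + 2 * (y ^ 2 / 4 * ((M : ℝ))⁻¹) := by
        field_simp
        ring
      linarith
    have h3 := Real.log_le_log (by positivity) (h2.trans h1)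
    rw [Real.log_pow] at h3
    push_cast at h3
    have h4 := mul_le_mul_of_nonneg_left (hlow M hM y) (by positivity : 0 ≤ 2 * ((M : ℝ) + 1))
    have h6 : f M y ≤ -Real.log ((1 + y ^ 2) / 2) := by
      simp only [f]
      linarith
    refine (Real.exp_le_exp.2 h6).trans_eq ?_
    rw [Real.exp_neg, Real.exp_log (by positivity)]
    field_simp
  · intro y
    refine Tendsto.neg ?_
    have hw' : Tendsto (fun M : ℕ => y ^ 2 / 4 * ((M : ℝ))⁻¹) atTop (𝓝 0) := by
      simpa using (tendsto_inv_atTop_nhds_zero_nat (𝕜 := ℝ)).const_mul (y ^ 2 / 4)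
    have hup : Tendsto (fun M : ℕ => ((M : ℝ) + 1) / M * (y ^ 2 / 2)) atTop (𝓝 (y ^ 2 / 2)) := by
      simpa using cdf_lim_ratio.mul_const (y ^ 2 / 2)
    have hlo : Tendsto (fun M : ℕ => ((M : ℝ) + 1) / M * (y ^ 2 / 2) *
        (2 / (y ^ 2 / 4 * ((M : ℝ))⁻¹ + 2))) atTop (𝓝 (y ^ 2 / 2)) := by
      have h1 : Tendsto (fun M : ℕ => 2 / (y ^ 2 / 4 * ((M : ℝ))⁻¹ + 2)) atTop
          (𝓝 (2 / (0 + 2))) := tendsto_const_nhds.div (hw'.add_const 2) (by norm_num)
      simpa using hup.mul h1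
    refine tendsto_of_tendsto_of_tendsto_of_le_of_le' hlo hup
      ((eventually_gt_atTop 0).mono fun M hM => ?_) ((eventually_gt_atTop 0).mono fun M hM => ?_)
    · have hM' : (0 : ℝ) < M := by exact_mod_cast hM
      have hw0 : 0 ≤ y ^ 2 / 4 * ((M : ℝ))⁻¹ := by positivity
      have h1 := (Real.le_log_one_add_of_nonneg hw0).trans (hlow M hM y)
      refine le_trans (le_of_eq ?_) (mul_le_mul_of_nonneg_left h1 (by positivity))
      field_simp
      ring
    · have hM' : (0 : ℝ) < M := by exact_mod_cast hM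
      have h1 : Real.log (Real.cosh (√(2 / (M : ℝ)) * y / 2)) ≤ y ^ 2 / 4 * ((M : ℝ))⁻¹ := by
        rw [← hw M hM y, Real.log_le_iff_le_exp (Real.cosh_pos _)]
        exact Real.cosh_le_exp_half_sq _
      refine (mul_le_mul_of_nonneg_left h1 (by positivity)).trans (le_of_eq ?_)
      field_simp
      ring

theorem cdf_psi_ge (u : ℝ) : u ^ 2 / (2 + |u|) ≤ Real.exp u - 1 - u := by
  rcases le_total 0 u with hu | hu
  · have h1 := Real.quadratic_le_exp_of_nonneg hu
    have h2 : u ^ 2 / (2 + |u|) ≤ u ^ 2 / 2 :=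
      div_le_div_of_nonneg_left (sq_nonneg u) (by norm_num) (by have := abs_nonneg u; linarith)
    linarith
  · have he : 1 ≤ Real.exp (-u) := Real.one_le_exp (by linarith)
    have h1 := Real.le_log_one_add_of_nonneg (x := Real.exp (-u) - 1) (by linarith)
    rw [show 1 + (Real.exp (-u) - 1) = Real.exp (-u) by ring, Real.log_exp,
      div_le_iff₀ (by linarith)] at h1
    have h2 : Real.exp u * Real.exp (-u) = 1 := by rw [← Real.exp_add]; simp
    have h3 := mul_le_mul_of_nonneg_left h1 (Real.exp_pos u).le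
    rw [abs_of_nonpos hu, div_le_iff₀ (by linarith)]
    have h4 : Real.exp u * (2 * (Real.exp (-u) - 1)) = 2 - 2 * Real.exp u := by
      linear_combination 2 * h2
    have h5 : Real.exp u * (-u * (Real.exp (-u) - 1 + 2)) = -u - u * Real.exp u := by
      linear_combination (-u) * h2
    rw [h4, h5] at h3
    nlinarith

theorem cdf_psi_near {u : ℝ} (hu : |u| ≤ 1) : |Real.exp u - 1 - u - u ^ 2 / 2| ≤ |u| ^ 3 := by
  have h := Real.exp_bound hu (n := 3) (by norm_num)
  simp only [Finset.sum_range_succ, Finset.sum_range_zero, Nat.factorial] at h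
  norm_num at h
  have h0 : 0 ≤ |u| ^ 3 := by positivity
  have h1 : Real.exp u - 1 - u - u ^ 2 / 2 = Real.exp u - (1 + u + u ^ 2 / 2) := by ring
  rw [h1]
  linarith

theorem cdf_gC (x : ℝ) :
    Tendsto (fun M : ℕ => cdf (gC M) (Real.log (2 * ((M : ℝ) + 1)) + √(1 / (2 * (M : ℝ))) * x))
      atTop (𝓝 (cdf N01 x)) := by
  let s : ℕ → ℝ := fun M => √(1 / (2 * (M : ℝ)))
  let f : ℕ → ℝ → ℝ := fun M y =>
    -(2 * ((M : ℝ) + 1) * (Real.exp (s M * y) - 1 - s M * y))
  have hs0 : ∀ M, 0 ≤ s M := fun M => Real.sqrt_nonneg _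
  have hs2 : ∀ M : ℕ, 0 < M → 2 * ((M : ℝ) + 1) * s M ^ 2 = ((M : ℝ) + 1) / M := by
    intro M hM
    have : (0 : ℝ) < M := by exact_mod_cast hM
    simp only [s]
    rw [Real.sq_sqrt (by positivity)]
    field_simp
  have hsl : Tendsto s atTop (𝓝 0) := by
    have h1 : Tendsto (fun M : ℕ => 1 / 2 * ((M : ℝ))⁻¹) atTop (𝓝 (1 / 2 * 0)) :=
      (tendsto_inv_atTop_nhds_zero_nat (𝕜 := ℝ)).const_mul _
    have h2 := h1.sqrt
    rw [mul_zero, Real.sqrt_zero] at h2
    refine h2.congr fun M => ?_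
    simp only [s]
    congr 1
    rw [one_div, one_div, mul_inv]
  have h := cdf_ratio f (2 * Real.exp 2) (fun M => ?_) ?_ ?_ x
  · refine h.congr' ((eventually_gt_atTop 0).mono fun M hM => ?_)
    have hM' : (0 : ℝ) < M := by exact_mod_cast hM
    have hs : 0 < s M := Real.sqrt_pos.2 (by positivity)
    have : IsProbabilityMeasure (volume.tilted fun a : ℝ =>
        2 * ((M : ℝ) + 1) * a - Real.exp a) := probC M
    have h3 := cdf_tilt (fun a : ℝ => 2 * ((M : ℝ) + 1) * a - Real.exp a)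
      (Real.log (2 * ((M : ℝ) + 1)))
      (2 * ((M : ℝ) + 1) - 2 * ((M : ℝ) + 1) * Real.log (2 * ((M : ℝ) + 1))) x hs
    have h4 : ∀ y : ℝ, 2 * ((M : ℝ) + 1) * (Real.log (2 * ((M : ℝ) + 1)) + s M * y) -
        Real.exp (Real.log (2 * ((M : ℝ) + 1)) + s M * y) +
        (2 * ((M : ℝ) + 1) - 2 * ((M : ℝ) + 1) * Real.log (2 * ((M : ℝ) + 1))) = f M y := by
      intro y
      rw [Real.exp_add, Real.exp_log (by positivity)]
      simp only [f]
      ring
    simp only [h4] at h3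
    exact h3.symm
  · simp only [f]
    fun_prop
  · have hs1 : ∀ᶠ M in atTop, s M ≤ 1 := hsl.eventually (eventually_le_nhds (by norm_num))
    refine ((eventually_gt_atTop 0).and hs1).mono fun M hM y => ?_
    have hM' : (0 : ℝ) < M := by exact_mod_cast hM.1
    have hy := abs_nonneg y
    have h1 := mul_le_mul_of_nonneg_left (cdf_psi_ge (s M * y))
      (by positivity : 0 ≤ 2 * ((M : ℝ) + 1))
    have h2 : |s M * y| ≤ |y| := by
      rw [abs_mul, abs_of_nonneg (hs0 M)]
      exact mul_le_of_le_one_left hy hM.2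
    have h3 : (1 : ℝ) ≤ ((M : ℝ) + 1) / M := by rw [le_div_iff₀ hM']; linarith
    have h4 : y ^ 2 / (2 + |y|) ≤ 2 * ((M : ℝ) + 1) * ((s M * y) ^ 2 / (2 + |s M * y|)) := by
      rw [mul_pow, ← mul_div_assoc, ← mul_assoc, hs2 M hM.1]
      refine div_le_div₀ (by positivity) (le_mul_of_one_le_left (sq_nonneg y) h3)
        (by positivity) (by linarith)
    have h5 : |y| - 2 ≤ y ^ 2 / (2 + |y|) := by
      rw [le_div_iff₀ (by positivity)]
      have := sq_abs y
      nlinarith
    have h6 : f M y ≤ 2 - |y| := by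
      simp only [f]
      linarith
    refine (Real.exp_le_exp.2 h6).trans ?_
    have h7 := Real.quadratic_le_exp_of_nonneg hy
    rw [sq_abs] at h7
    rw [Real.exp_sub, ← div_eq_mul_inv, div_le_div_iff₀ (Real.exp_pos _) (by positivity)]
    have h8 := Real.exp_pos 2
    have h9 : 1 + y ^ 2 ≤ 2 * Real.exp |y| := by linarith
    nlinarith
  · intro y
    refine Tendsto.neg ?_
    have hup : Tendsto (fun M : ℕ => ((M : ℝ) + 1) / M * (y ^ 2 / 2)) atTop (𝓝 (y ^ 2 / 2)) := by
      simpa using cdf_lim_ratio.mul_const (y ^ 2 / 2)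
    have he : Tendsto (fun M : ℕ => ((M : ℝ) + 1) / M * (s M * |y| ^ 3)) atTop (𝓝 0) := by
      simpa using cdf_lim_ratio.mul (hsl.mul_const (|y| ^ 3))
    have hsy : ∀ᶠ M in atTop, |s M * y| ≤ 1 := by
      have h1 : Tendsto (fun M => |s M * y|) atTop (𝓝 0) := by
        simpa using (hsl.mul_const y).abs
      exact h1.eventually (eventually_le_nhds (by norm_num))
    have hd : Tendsto (fun M : ℕ => 2 * ((M : ℝ) + 1) * (Real.exp (s M * y) - 1 - s M * y) -
        ((M : ℝ) + 1) / M * (y ^ 2 / 2)) atTop (𝓝 0) := by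
      refine squeeze_zero_norm' (((eventually_gt_atTop 0).and hsy).mono fun M hM => ?_) he
      have h1 := mul_le_mul_of_nonneg_left (cdf_psi_near hM.2)
        (by positivity : 0 ≤ 2 * ((M : ℝ) + 1))
      rw [← hs2 M hM.1, Real.norm_eq_abs]
      have h2 : 2 * ((M : ℝ) + 1) * (Real.exp (s M * y) - 1 - s M * y) -
          2 * ((M : ℝ) + 1) * s M ^ 2 * (y ^ 2 / 2) =
          2 * ((M : ℝ) + 1) * (Real.exp (s M * y) - 1 - s M * y - (s M * y) ^ 2 / 2) := by ring
      rw [h2, abs_mul, abs_of_nonneg (by positivity : 0 ≤ 2 * ((M : ℝ) + 1))]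
      refine h1.trans (le_of_eq ?_)
      rw [abs_mul, abs_of_nonneg (hs0 M)]
      ring
    have h9 := hd.add hup
    simpa using h9

end Pool.Agent.K6329
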