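import Pool.Agent.Lib.MP_632999_pr.K.Lclt
import Pool.Agent.Lib.MP_632999_pr.K.Cell

/-! The kernel of the initial condition. -/

namespace Pool.Agent.K6329

open MeasureTheory ProbabilityTheory Filter Topology Set Function
open scoped NNReal ENNReal

theorem K0_nonneg' (M n : ℕ) (k : ℤ) (u : ℝ) : 0 ≤ K0 M n k u :=
  mul_nonneg (pz_nonneg _ _) (by positivity)

theorem ji_zero_iff {M : ℕ} (hM : 1 ≤ M) (u : ℝ) (j : ℤ) :
    ji M 0 u = j ↔ u ∈ Ioc (2 * (j : ℝ) / M) ((2 * (j : ℝ) + 2) / M) := by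
  have h0 : (0 : ℝ) < M := by exact_mod_cast hM
  rw [ji, sub_eq_iff_eq_add, Int.ceil_eq_iff, mem_Ioc, div_lt_iff₀ h0, le_div_iff₀ h0]
  push_cast
  constructor <;> rintro ⟨h1, h2⟩ <;> constructor <;> linarith

theorem K0_int' {M : ℕ} (hM : 1 ≤ M) (n : ℕ) (k : ℤ) (f : ℤ → ℝ) :
    Integrable (fun u => K0 M n k u * f (ji M 0 u)) ∧
      ∫ u, K0 M n k u * f (ji M 0 u) = ∑ j ∈ Finset.Icc k (k + n), pz n (j - k) * f j := by
  have h0 : (0 : ℝ) < M := by exact_mod_cast hM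
  have e : (fun u => K0 M n k u * f (ji M 0 u)) = fun u => ∑ j ∈ Finset.Icc k (k + n),
      (Ioc (2 * (j : ℝ) / M) ((2 * (j : ℝ) + 2) / M)).indicator
        (fun _ => pz n (j - k) * ((M : ℝ) / 2) * f j) u := by
    funext u
    rw [Finset.sum_eq_single (ji M 0 u)]
    · rw [indicator_of_mem ((ji_zero_iff hM u _).1 rfl)]
      rfl
    · exact fun j _ hj => indicator_of_notMem (fun h => hj ((ji_zero_iff hM u j).2 h).symm) _
    · intro h
      rw [indicator_of_mem ((ji_zero_iff hM u _).1 rfl), pz_eq_zero, zero_mul, zero_mul]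
      rw [Finset.mem_Icc] at h
      omega
  have i : ∀ j ∈ Finset.Icc k (k + n), Integrable
      ((Ioc (2 * (j : ℝ) / M) ((2 * (j : ℝ) + 2) / M)).indicator
        fun _ => pz n (j - k) * ((M : ℝ) / 2) * f j) := fun j _ =>
    (integrable_indicator_iff measurableSet_Ioc).2 (integrableOn_const measure_Ioc_lt_top.ne)
  rw [e]
  refine ⟨integrable_finsetSum _ i, ?_⟩
  rw [integral_finsetSum _ i]
  refine Finset.sum_congr rfl fun j _ => ?_
  have e2 : (2 * (j : ℝ) + 2) / M - 2 * (j : ℝ) / M = 2 / M := by ring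
  rw [integral_indicator_const _ measurableSet_Ioc, Real.volume_real_Ioc, e2,
    max_eq_left (by positivity), smul_eq_mul]
  field_simp

theorem K0_dom' {t x : ℝ} (ht : 0 < t) {n : ℕ → ℕ} {k : ℕ → ℤ} (h : Lat t x n k) :
    ∃ C c : ℝ, 0 < c ∧ ∀ᶠ M : ℕ in atTop, ∀ u,
      K0 M (n M) (k M) u ≤ C * Real.exp (-c * (u - x) ^ 2) := by
  refine ⟨√(2 / t) * Real.exp (9 / (4 * (t + 2))), 1 / (8 * (t + 2)), by positivity, ?_⟩
  filter_upwards [h.1.eventually (Ioo_mem_nhds (half_lt_self ht) (lt_add_one t)),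
    h.2.eventually (Ioo_mem_nhds (sub_one_lt x) (lt_add_one x)), eventually_ge_atTop 1]
    with M h1 h2 hM u
  have h0 : (1 : ℝ) ≤ M := by exact_mod_cast hM
  have hp : (0 : ℝ) < M := by linarith
  have hq : (1 : ℝ) ≤ (M : ℝ) ^ 2 := one_le_pow₀ h0
  obtain ⟨a1, a2⟩ := h1
  rw [lt_div_iff₀ (by positivity)] at a1
  rw [div_lt_iff₀ (by positivity)] at a2
  obtain ⟨b1, b2⟩ := ji_bounds hM 0 u
  obtain ⟨y, hy⟩ : ∃ y : ℝ, y = (2 * ((ji M 0 u - k M : ℤ) : ℝ) - n M) / M := ⟨_, rfl⟩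
  have b3 : 2 / (M : ℝ) ≤ 2 := div_le_self zero_le_two h0
  have b4 : (y - (u - x)) ^ 2 ≤ 9 := by
    have e1 : y = 2 * (ji M 0 u : ℝ) / M - (2 * (k M : ℝ) + n M) / M := by
      rw [hy]
      push_cast
      ring
    have e2 : (2 * (ji M 0 u : ℝ) + (0 : ℕ) + 2) / M = 2 * (ji M 0 u : ℝ) / M + 2 / M := by
      push_cast
      ring
    have e3 : (2 * (ji M 0 u : ℝ) + (0 : ℕ)) / M = 2 * (ji M 0 u : ℝ) / M := by
      push_cast
      ring
    rw [e2] at b2
    rw [e3] at b1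
    have := h2.1
    have := h2.2
    nlinarith
  have b5 : (u - x) ^ 2 / 2 - 9 ≤ y ^ 2 := by nlinarith [sq_nonneg (2 * y - (u - x))]
  have c1 : 2 / √((n M : ℝ) + 1) * ((M : ℝ) / 2) ≤ √(2 / t) := by
    apply Real.le_sqrt_of_sq_le
    rw [mul_pow, div_pow, Real.sq_sqrt (by positivity), div_mul_eq_mul_div,
      div_le_div_iff₀ (by positivity) ht]
    nlinarith
  have c2 : -(2 * ((ji M 0 u - k M : ℤ) : ℝ) - n M) ^ 2 / (4 * ((n M : ℝ) + 1)) ≤
      9 / (4 * (t + 2)) + -(1 / (8 * (t + 2))) * (u - x) ^ 2 := by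
    have e1 : 2 * ((ji M 0 u - k M : ℤ) : ℝ) - n M = y * M := by
      rw [hy]
      field_simp
    have d1 : y ^ 2 / (4 * (t + 2)) ≤ (y * M) ^ 2 / (4 * ((n M : ℝ) + 1)) := by
      rw [div_le_div_iff₀ (by positivity) (by positivity)]
      have : (n M : ℝ) + 1 ≤ (M : ℝ) ^ 2 * (t + 2) := by nlinarith
      nlinarith [mul_le_mul_of_nonneg_left this (sq_nonneg y)]
    have d2 := div_le_div_of_nonneg_right b5 (by positivity : 0 ≤ 4 * (t + 2))
    have d3 : ((u - x) ^ 2 / 2 - 9) / (4 * (t + 2)) =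
        -(9 / (4 * (t + 2)) + -(1 / (8 * (t + 2))) * (u - x) ^ 2) := by
      field_simp
      ring
    rw [e1, neg_div]
    linarith
  calc K0 M (n M) (k M) u ≤ _ * ((M : ℝ) / 2) :=
        mul_le_mul_of_nonneg_right (pz_le _ _) (by positivity)
    _ = 2 / √((n M : ℝ) + 1) * ((M : ℝ) / 2) * Real.exp _ := mul_right_comm _ _ _
    _ ≤ √(2 / t) * Real.exp _ :=
        mul_le_mul c1 (Real.exp_le_exp.2 c2) (Real.exp_pos _).le (Real.sqrt_nonneg _)
    _ = _ := by rw [Real.exp_add, mul_assoc]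

theorem K0_lim' {t x : ℝ} (ht : 0 < t) {n : ℕ → ℕ} {k : ℕ → ℤ} (h : Lat t x n k) (u : ℝ) :
    Tendsto (fun M => K0 M (n M) (k M) u) atTop (𝓝 (heat t (x - u))) := by
  have h1 : Tendsto (fun M : ℕ => 2 * (ji M 0 u : ℝ) / M) atTop (𝓝 u) := by
    have l : Tendsto (fun M : ℕ => u - 2 / (M : ℝ)) atTop (𝓝 (u - 0)) :=
      (tendsto_const_div_atTop_nhds_zero_nat 2).const_sub u
    rw [sub_zero] at l
    refine tendsto_of_tendsto_of_tendsto_of_le_of_le' l tendsto_const_nhds ?_ ?_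
    · filter_upwards [eventually_ge_atTop 1] with M hM
      have := (ji_bounds hM 0 u).2
      rw [Nat.cast_zero, add_zero, add_div] at this
      linarith
    · filter_upwards [eventually_ge_atTop 1] with M hM
      have := (ji_bounds hM 0 u).1
      rw [Nat.cast_zero, add_zero] at this
      exact this.le
  have h2 := lclt ht h.1 (i := fun M => ji M 0 u - k M) (y := u - x)
    ((h1.sub h.2).congr fun M => by push_cast; ring)
  have e : heat t (x - u) = heat t (u - x) := by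
    unfold heat
    rw [show (x - u) ^ 2 = (u - x) ^ 2 by ring]
  rw [e]
  exact h2

end Pool.Agent.K6329
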