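import Pool.Agent.Lib.MP_632999_pr.K.KerL1

/-! The discrete kernel tends to the heat kernel in the weighted space. -/

namespace Pool.Agent.K6329

open MeasureTheory ProbabilityTheory Filter Topology Set Function
open scoped NNReal ENNReal

noncomputable section

/-- lattice time left after the cell of `r` -/
def tauL (M n : ℕ) (r : ℝ) : ℝ := ((n : ℝ) - mi M r) / (M : ℝ) ^ 2

theorem measurable_tauL (M n : ℕ) : Measurable (tauL M n) := by
  have h1 : Measurable fun r => (mi M r : ℝ) :=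
    (measurable_from_top (f := fun j : ℕ => (j : ℝ))).comp (measurable_mi M)
  unfold tauL
  fun_prop

theorem Kn_nonneg' (M n : ℕ) (k : ℤ) (q : ℝ × ℝ) : 0 ≤ Kn M n k q := by
  unfold Kn
  split_ifs
  · exact mul_nonneg (pz_nonneg _ _) (by positivity)
  · exact le_rfl

theorem hk_nonneg' (t x : ℝ) (q : ℝ × ℝ) : 0 ≤ hk t x q := by
  unfold hk
  split_ifs
  · exact heat_nonneg _ _
  · exact le_rfl

theorem tauL_facts {M : ℕ} (hM : 1 ≤ M) {n : ℕ} {r : ℝ} (h0 : 0 < r) (h1 : mi M r < n) :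
    1 / (M : ℝ) ^ 2 ≤ tauL M n r ∧ (n : ℝ) / (M : ℝ) ^ 2 - r < tauL M n r ∧
      tauL M n r ≤ (n : ℝ) / (M : ℝ) ^ 2 ∧ r ≤ (n : ℝ) / (M : ℝ) ^ 2 := by
  have hM0 : (0 : ℝ) < M := by exact_mod_cast hM
  have h2 : (mi M r : ℝ) + 1 ≤ n := by exact_mod_cast h1
  obtain ⟨b1, b2⟩ := mi_bounds hM h0
  have h3 : (0 : ℝ) ≤ mi M r := Nat.cast_nonneg _
  unfold tauL
  refine ⟨by gcongr; linarith, by rw [sub_div]; linarith, by gcongr; linarith, b2.trans ?_⟩
  gcongr

theorem Kn_sq_le {M : ℕ} (hM : 1 ≤ M) (n : ℕ) (k : ℤ) {q : ℝ × ℝ} (h0 : 0 < q.1)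
    (h1 : mi M q.1 < n) :
    Kn M n k q ^ 2 ≤ 2 * maj0 ((2 * (k : ℝ) + n) / M) (tauL M n q.1) q.2 := by
  have hM0 : (0 : ℝ) < M := by exact_mod_cast hM
  have e0 : Kn M n k q =
      pz (n - 1 - mi M q.1) (ji M (mi M q.1) q.2 - k) * ((M : ℝ) / 2) := if_pos ⟨h0, h1⟩
  obtain ⟨j1, j2⟩ := ji_bounds hM (mi M q.1) q.2
  have hp := pz_le (n - 1 - mi M q.1) (ji M (mi M q.1) q.2 - k)
  have hp0 := pz_nonneg (n - 1 - mi M q.1) (ji M (mi M q.1) q.2 - k)
  unfold maj0 tauL
  rw [e0]
  generalize pz (n - 1 - mi M q.1) (ji M (mi M q.1) q.2 - k) = p at hp hp0 ⊢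
  generalize ji M (mi M q.1) q.2 = j at hp j1 j2
  generalize mi M q.1 = i at hp j1 j2 h1
  generalize q.2 = u at j1 j2
  have hm : ((n - 1 - i : ℕ) : ℝ) = (n : ℝ) - i - 1 := by
    rw [Nat.sub_sub, Nat.cast_sub (by omega)]; push_cast; ring
  have hL : (1 : ℝ) ≤ (n : ℝ) - i := by
    have : (i : ℝ) + 1 ≤ n := by exact_mod_cast h1
    linarith
  rw [hm, show (n : ℝ) - i - 1 + 1 = n - i by ring] at hp
  set L : ℝ := (n : ℝ) - i with hLd
  set d : ℝ := 2 * ((j - k : ℤ) : ℝ) - (L - 1) with hd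
  have hL0 : 0 < L := by linarith
  have hs : 0 < √L := Real.sqrt_pos.2 hL0
  set y : ℝ := M * u - (2 * (k : ℝ) + n) with hy
  rw [div_lt_iff₀ hM0] at j1
  rw [le_div_iff₀ hM0] at j2
  have hyd : y ^ 2 ≤ 2 * d ^ 2 + 2 := by
    have e1 : d = 2 * (j : ℝ) + i + 1 - (2 * (k : ℝ) + n) := by
      rw [hd, hLd]; push_cast; ring
    have e2 : y - d ≤ 1 := by rw [hy, e1]; linarith
    have e3 : -1 ≤ y - d := by rw [hy, e1]; linarith
    nlinarith [sq_nonneg (y - 2 * d), mul_nonneg (sub_nonneg.2 e2) (sub_nonneg.2 e3)]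
  have e4 : -(u - (2 * (k : ℝ) + n) / M) ^ 2 / (4 * (L / (M : ℝ) ^ 2)) = -y ^ 2 / (4 * L) := by
    rw [hy]; field_simp
  rw [e4]
  have e5 : ((2 : ℕ) : ℝ) * (-d ^ 2 / (4 * L)) ≤ 1 / 2 + -y ^ 2 / (4 * L) := by
    have : (1 : ℝ) / 2 + -y ^ 2 / (4 * L) - ((2 : ℕ) : ℝ) * (-d ^ 2 / (4 * L)) =
        (2 * L - y ^ 2 + 2 * d ^ 2) / (4 * L) := by
      push_cast; field_simp; ring
    have h2 : 0 ≤ (2 * L - y ^ 2 + 2 * d ^ 2) / (4 * L) := by
      apply div_nonneg _ (by positivity); linarith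
    linarith
  have e6 : Real.exp (1 / 2) ≤ 2 := by
    have h2 : Real.exp (1 / 2) * Real.exp (1 / 2) = Real.exp 1 := by
      rw [← Real.exp_add]; norm_num
    nlinarith [Real.exp_one_lt_three, Real.exp_pos (1 / 2)]
  have e7 : Real.exp (-d ^ 2 / (4 * L)) ^ 2 ≤ 2 * Real.exp (-y ^ 2 / (4 * L)) := by
    rw [← Real.exp_nat_mul]
    refine (Real.exp_le_exp.2 e5).trans ?_
    rw [Real.exp_add]
    exact mul_le_mul_of_nonneg_right e6 (Real.exp_pos _).le
  calc (p * ((M : ℝ) / 2)) ^ 2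
      ≤ (2 / √L * Real.exp (-d ^ 2 / (4 * L)) * ((M : ℝ) / 2)) ^ 2 := by gcongr
    _ = (M : ℝ) ^ 2 / (√L) ^ 2 * Real.exp (-d ^ 2 / (4 * L)) ^ 2 := by field_simp
    _ = (L / (M : ℝ) ^ 2)⁻¹ * Real.exp (-d ^ 2 / (4 * L)) ^ 2 := by
        rw [Real.sq_sqrt hL0.le, inv_div]
    _ ≤ (L / (M : ℝ) ^ 2)⁻¹ * (2 * Real.exp (-y ^ 2 / (4 * L))) := by gcongr
    _ = _ := by ring

theorem heat_neg (τ y : ℝ) : heat τ (-y) = heat τ y := by
  unfold heat; rw [neg_sq]

theorem inv_sq_tendsto : Tendsto (fun M : ℕ => 1 / (M : ℝ) ^ 2) atTop (𝓝 0) := by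
  have h := tendsto_one_div_atTop_nhds_zero_nat (𝕜 := ℝ)
  have := h.mul h
  rw [mul_zero] at this
  refine this.congr fun M => ?_
  rw [div_mul_div_comm, one_mul, sq]

theorem Kn_lim {t x : ℝ} {n : ℕ → ℕ} {k : ℕ → ℤ} (h : Lat t x n k) {q : ℝ × ℝ}
    (hq : q.1 < t) : Tendsto (fun M => Kn M (n M) (k M) q) atTop (𝓝 (hk t x q)) := by
  by_cases h0 : 0 < q.1
  · obtain ⟨l1, l2⟩ := lat_cell h0 q.2 0
    simp only [add_zero] at l1 l2
    have hev : ∀ᶠ M : ℕ in atTop, mi M q.1 < n M := by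
      filter_upwards [l1.eventually_lt h.1 hq, eventually_ge_atTop 1] with M h1 hM
      have hM0 : (0 : ℝ) < M := by exact_mod_cast hM
      rw [div_lt_div_iff_of_pos_right (by positivity)] at h1
      exact_mod_cast h1
    have hc : ∀ᶠ M : ℕ in atTop,
        ((n M - 1 - mi M q.1 : ℕ) : ℝ) = (n M : ℝ) - mi M q.1 - 1 := by
      filter_upwards [hev] with M h1
      rw [Nat.sub_sub, Nat.cast_sub (by omega)]; push_cast; ring
    have hm : Tendsto (fun M : ℕ => ((n M - 1 - mi M q.1 : ℕ) : ℝ) / (M : ℝ) ^ 2) atTop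
        (𝓝 (t - q.1)) := by
      have := (h.1.sub l1).sub inv_sq_tendsto
      rw [sub_zero] at this
      refine this.congr' ?_
      filter_upwards [hc] with M h1
      rw [h1]; ring
    have hi : Tendsto (fun M : ℕ => (2 * ((ji M (mi M q.1) q.2 - k M : ℤ) : ℝ) -
        ((n M - 1 - mi M q.1 : ℕ) : ℝ)) / M) atTop (𝓝 (-(x - q.2))) := by
      have := (l2.sub h.2).add (tendsto_one_div_atTop_nhds_zero_nat (𝕜 := ℝ))
      rw [add_zero, ← neg_sub] at this
      refine this.congr' ?_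
      filter_upwards [hc] with M h1
      rw [h1]; push_cast; ring
    have h3 := lclt (sub_pos.2 hq) hm hi
    rw [heat_neg] at h3
    have e1 : hk t x q = heat (t - q.1) (x - q.2) := if_pos ⟨h0, hq⟩
    rw [e1]
    refine h3.congr' ?_
    filter_upwards [hev] with M h1
    exact (if_pos ⟨h0, h1⟩).symm
  · have e1 : hk t x q = 0 := if_neg fun h' => h0 h'.1
    have e2 : ∀ M, Kn M (n M) (k M) q = 0 := fun M => if_neg fun h' => h0 h'.1
    simp only [e1, e2]
    exact tendsto_const_nhds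

/-- comparison of majorants away from the diagonal -/
theorem maj0_le {x x' τ σ T : ℝ} (hσ : 0 < σ) (h1 : σ ≤ τ) (h2 : τ ≤ T) (hT : 1 ≤ T)
    (hx : |x' - x| ≤ 1) (u : ℝ) : maj0 x' τ u ≤ 6 * T / σ * maj0 x (2 * T) u := by
  have hτ : 0 < τ := by linarith
  have hT0 : 0 < T := by linarith
  unfold maj0
  have e1 : -(u - x') ^ 2 / (4 * τ) ≤ 1 + -(u - x) ^ 2 / (4 * (2 * T)) := by
    have a1 : (u - x') ^ 2 / (4 * T) ≤ (u - x') ^ 2 / (4 * τ) := by gcongr
    have a2 : (x' - x) ^ 2 ≤ 1 := by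
      have := abs_le.1 hx
      nlinarith [this.1, this.2]
    have a3 : (u - x) ^ 2 / (4 * (2 * T)) ≤ 1 + (u - x') ^ 2 / (4 * T) := by
      have : 1 + (u - x') ^ 2 / (4 * T) = (8 * T + 2 * (u - x') ^ 2) / (4 * (2 * T)) := by
        field_simp; ring
      rw [this]
      gcongr
      nlinarith [sq_nonneg (u - x' - (x' - x))]
    rw [neg_div, neg_div]; linarith
  have e2 := Real.exp_le_exp.2 e1
  rw [Real.exp_add] at e2
  have e3 := Real.exp_one_lt_three
  have e4 := Real.exp_pos (-(u - x) ^ 2 / (4 * (2 * T)))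
  calc τ⁻¹ * Real.exp (-(u - x') ^ 2 / (4 * τ))
      ≤ σ⁻¹ * (3 * Real.exp (-(u - x) ^ 2 / (4 * (2 * T)))) := by
        apply mul_le_mul (inv_anti₀ hσ h1) _ (Real.exp_pos _).le (by positivity)
        nlinarith
    _ = _ := by field_simp; ring

theorem sub_sq_le_of_nonneg {a b : ℝ} (ha : 0 ≤ a) (hb : 0 ≤ b) : (a - b) ^ 2 ≤ a ^ 2 + b ^ 2 := by
  nlinarith [mul_nonneg ha hb]

/-- below the cut: dominated convergence -/
theorem Kn_low {t x : ℝ} (ht : 0 < t) {n : ℕ → ℕ} {k : ℕ → ℤ} (h : Lat t x n k) (a : ℝ)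
    {σ : ℝ} (hσ : 0 < σ) :
    Tendsto (fun M => ∫⁻ q : ℝ × ℝ, ENNReal.ofReal (if q.1 ≤ t - 2 * σ then
      (Kn M (n M) (k M) q - hk t x q) ^ 2 * Real.cosh (a * q.2) else 0)) atTop (𝓝 0) := by
  set T : ℝ := t + 1 with hT
  set W : ℝ := 18 * T / σ with hW
  have hT0 : 0 < T := by linarith
  have hW0 : 0 ≤ W := by positivity
  set G : ℝ × ℝ → ℝ := fun q => if q.1 ∈ Ioo 0 t then
    W * (maj0 x (2 * T) q.2 * Real.cosh (a * q.2)) else 0 with hG
  have hcosh := Real.continuous_cosh.measurable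
  have key := tendsto_lintegral_filter_of_dominated_convergence (μ := (volume : Measure (ℝ × ℝ)))
    (l := atTop) (F := fun M q => ENNReal.ofReal (if q.1 ≤ t - 2 * σ then
      (Kn M (n M) (k M) q - hk t x q) ^ 2 * Real.cosh (a * q.2) else 0)) (f := fun _ => 0)
    (fun q => ENNReal.ofReal (G q)) (Eventually.of_forall fun M => ?_) ?_ ?_
    (Eventually.of_forall fun q => ?_)
  · simpa only [lintegral_zero] using key
  · have m1 := measurable_Kn M (n M) (k M)
    have m2 := measurable_hk t x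
    refine Measurable.ennreal_ofReal (Measurable.ite
      (measurableSet_le measurable_fst measurable_const) (by fun_prop) measurable_const)
  · have hx : ∀ᶠ M : ℕ in atTop, |(2 * (k M : ℝ) + n M) / M - x| ≤ 1 := by
      have := (h.2.sub_const x).abs
      rw [sub_self, abs_zero] at this
      exact this.eventually (eventually_le_nhds one_pos)
    filter_upwards [hx, eventually_ge_atTop 1,
      h.1.eventually (eventually_le_nhds (show t < T by linarith)),
      h.1.eventually (eventually_ge_nhds (show t - σ < t by linarith))] with M hx hM h1 h2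
    refine Eventually.of_forall fun q => ENNReal.ofReal_le_ofReal ?_
    have hc := Real.cosh_pos (a * q.2)
    have hm0 := maj0_nonneg x (show 0 < 2 * T by positivity) q.2
    have hG0 : 0 ≤ G q := by
      rw [hG]; simp only; split_ifs
      · positivity
      · exact le_rfl
    split_ifs with hq
    swap
    · exact hG0
    by_cases h0 : 0 < q.1
    · have hqt : q.1 < t := by linarith
      have eG : G q = W * (maj0 x (2 * T) q.2 * Real.cosh (a * q.2)) := if_pos ⟨h0, hqt⟩
      have b1 : Kn M (n M) (k M) q ^ 2 ≤ 2 * (6 * T / σ * maj0 x (2 * T) q.2) := by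
        by_cases hi : mi M q.1 < n M
        · obtain ⟨-, f2, f3, -⟩ := tauL_facts hM h0 hi
          refine (Kn_sq_le hM _ _ h0 hi).trans ?_
          have := maj0_le hσ (show σ ≤ tauL M (n M) q.1 by linarith) (f3.trans h1)
            (by linarith) hx q.2
          linarith
        · have : Kn M (n M) (k M) q = 0 := if_neg fun h' => hi h'.2
          rw [this, sq, mul_zero]; positivity
      have b2 : hk t x q ^ 2 ≤ 6 * T / σ * maj0 x (2 * T) q.2 := by
        have e1 : hk t x q = heat (t - q.1) (x - q.2) := if_pos ⟨h0, hqt⟩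
        rw [e1]
        exact (heat_sq_le (sub_pos.2 hqt) x q.2).trans
          (maj0_le hσ (by linarith) (by linarith) (by linarith) (by simp) q.2)
      have b3 := sub_sq_le_of_nonneg (Kn_nonneg' M (n M) (k M) q) (hk_nonneg' t x q)
      rw [eG, hW]
      calc _ ≤ (3 * (6 * T / σ * maj0 x (2 * T) q.2)) * Real.cosh (a * q.2) := by
            gcongr; linarith
        _ = _ := by ring
    · have e1 : hk t x q = 0 := if_neg fun h' => h0 h'.1
      have e2 : Kn M (n M) (k M) q = 0 := if_neg fun h' => h0 h'.1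
      rw [e1, e2]; simpa using hG0
  · refine ne_top_of_le_ne_top ?_ (strip_le a x (measurableSet_Ioo (a := 0) (b := t))
      (τ := fun _ => 2 * T) (w := fun _ => W) measurable_const measurable_const
      (fun _ _ => by positivity) (fun _ => hW0) (fun q hq => (if_pos hq).le)
      (fun q hq => (if_neg hq).le))
    rw [setLIntegral_const]
    exact ENNReal.mul_ne_top ENNReal.ofReal_ne_top measure_Ioo_lt_top.ne
  · split_ifs with hq
    · have := (((Kn_lim h (show q.1 < t by linarith)).sub_const (hk t x q)).pow 2).mul_const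
        (Real.cosh (a * q.2))
      have h2 := ENNReal.tendsto_ofReal this
      simpa using h2
    · simp

/-- above the cut: the strip -/
theorem Kn_high {t x : ℝ} {n : ℕ → ℕ} {k : ℕ → ℤ} (h : Lat t x n k) (a : ℝ) :
    ∃ C : ℝ, 0 < C ∧ ∀ σ : ℝ, 0 < σ → ∀ᶠ M : ℕ in atTop,
      ∫⁻ q : ℝ × ℝ, ENNReal.ofReal (if t - 2 * σ < q.1 then
        Kn M (n M) (k M) q ^ 2 * Real.cosh (a * q.2) else 0) ≤ ENNReal.ofReal (C * √σ) := by
  have hcx := Real.cosh_pos (a * x)
  refine ⟨288 * Real.exp (2 * a ^ 2 * (t + 1)) * (Real.cosh (a * x) * Real.exp |a|),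
    by positivity, fun σ hσ => ?_⟩
  have hx : ∀ᶠ M : ℕ in atTop, |(2 * (k M : ℝ) + n M) / M - x| ≤ 1 := by
    have := (h.2.sub_const x).abs
    rw [sub_self, abs_zero] at this
    exact this.eventually (eventually_le_nhds one_pos)
  filter_upwards [hx, eventually_ge_atTop 1,
    h.1.eventually (eventually_le_nhds (show t < t + 1 by linarith)),
    h.1.eventually (eventually_le_nhds (show t < t + σ by linarith)),
    inv_sq_tendsto.eventually (eventually_le_nhds hσ)] with M hx hM h1 h2 h3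
  have hM0 : (0 : ℝ) < M := by exact_mod_cast hM
  have hinv : 0 < 1 / (M : ℝ) ^ 2 := by positivity
  set x' : ℝ := (2 * (k M : ℝ) + n M) / M with hx'
  set S : Set ℝ := {r | t - 2 * σ < r ∧ 0 < r ∧ mi M r < n M} with hSd
  have hS : MeasurableSet S :=
    (measurableSet_lt measurable_const measurable_id).inter
      ((measurableSet_lt measurable_const measurable_id).inter
        (measurable_mi M (MeasurableSet.of_discrete (s := Iio (n M)))))
  have hcx' : Real.cosh (a * x') ≤ Real.cosh (a * x) * Real.exp |a| := by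
    have := cosh_add_le (a * x) (a * (x' - x))
    rw [show a * x + a * (x' - x) = a * x' by ring] at this
    refine this.trans (mul_le_mul_of_nonneg_left (Real.exp_le_exp.2 ?_) hcx.le)
    rw [abs_mul]
    exact mul_le_of_le_one_right (abs_nonneg a) hx
  calc _ ≤ ∫⁻ r in S, ENNReal.ofReal (2 * majI a x' (tauL M (n M) r)) := by
        refine strip_le a x' hS (w := fun _ => 2) (measurable_tauL M (n M)) measurable_const
          (fun r hr => hinv.trans_le (tauL_facts hM hr.2.1 hr.2.2).1) (fun _ => by norm_num)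
          (fun q hq => ?_) (fun q hq => ?_)
        · rw [if_pos hq.1, ← mul_assoc]
          exact mul_le_mul_of_nonneg_right (Kn_sq_le hM _ _ hq.2.1 hq.2.2) (Real.cosh_pos _).le
        · split_ifs with h4
          · have : Kn M (n M) (k M) q = 0 := if_neg fun h' => hq ⟨h4, h'⟩
            rw [this]; simp
          · exact le_rfl
    _ ≤ ENNReal.ofReal (72 * 2 * Real.exp (2 * a ^ 2 * (t + 1)) * Real.cosh (a * x') *
          √(4 * σ)) := by
        refine strip_cost a x' hS (hi := (n M : ℝ) / (M : ℝ) ^ 2 + 1 / (M : ℝ) ^ 2)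
          (by positivity) (by norm_num) fun r hr => ?_
        obtain ⟨f1, f2, f3, f4⟩ := tauL_facts hM hr.2.1 hr.2.2
        have f5 := hr.1
        exact ⟨by linarith, by linarith, by linarith, by linarith⟩
    _ ≤ _ := by
        apply ENNReal.ofReal_le_ofReal
        have e1 : √(4 * σ) = 2 * √σ := by
          rw [Real.sqrt_mul (by norm_num), show (4 : ℝ) = 2 ^ 2 by norm_num,
            Real.sqrt_sq (by norm_num)]
        rw [e1]
        calc _ ≤ 72 * 2 * Real.exp (2 * a ^ 2 * (t + 1)) * (Real.cosh (a * x) * Real.exp |a|) *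
              (2 * √σ) := by gcongr
          _ = _ := by ring

theorem hk_high {t : ℝ} (x a : ℝ) :
    ∃ C : ℝ, 0 < C ∧ ∀ σ : ℝ, 0 < σ →
      ∫⁻ q : ℝ × ℝ, ENNReal.ofReal (if t - 2 * σ < q.1 then
        hk t x q ^ 2 * Real.cosh (a * q.2) else 0) ≤ ENNReal.ofReal (C * √σ) := by
  have hcx := Real.cosh_pos (a * x)
  refine ⟨144 * Real.exp (2 * a ^ 2 * t) * Real.cosh (a * x), by positivity, fun σ hσ => ?_⟩
  set S : Set ℝ := {r | t - 2 * σ < r ∧ 0 < r ∧ r < t} with hSd
  have hS : MeasurableSet S :=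
    (measurableSet_lt measurable_const measurable_id).inter
      ((measurableSet_lt measurable_const measurable_id).inter
        (measurableSet_lt measurable_id measurable_const))
  calc _ ≤ ∫⁻ r in S, ENNReal.ofReal (1 * majI a x (t - r)) := by
        refine strip_le a x hS (τ := fun r => t - r) (w := fun _ => 1) (by fun_prop)
          measurable_const (fun r hr => sub_pos.2 hr.2.2) (fun _ => by norm_num)
          (fun q hq => ?_) (fun q hq => ?_)
        · have e1 : hk t x q = heat (t - q.1) (x - q.2) := if_pos hq.2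
          rw [if_pos hq.1, one_mul, e1]
          exact mul_le_mul_of_nonneg_right (heat_sq_le (sub_pos.2 hq.2.2) x q.2)
            (Real.cosh_pos _).le
        · split_ifs with h4
          · have : hk t x q = 0 := if_neg fun h' => hq ⟨h4, h'⟩
            rw [this]; simp
          · exact le_rfl
    _ ≤ ENNReal.ofReal (72 * 1 * Real.exp (2 * a ^ 2 * t) * Real.cosh (a * x) * √(4 * σ)) := by
        refine strip_cost a x hS (τ := fun r => t - r) (hi := t)
          (by positivity) (by norm_num) fun r hr => ?_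
        obtain ⟨f1, f2, f3⟩ := hr
        exact ⟨f3, by linarith, by linarith, by linarith⟩
    _ ≤ _ := by
        apply ENNReal.ofReal_le_ofReal
        have e1 : √(4 * σ) = 2 * √σ := by
          rw [Real.sqrt_mul (by norm_num), show (4 : ℝ) = 2 ^ 2 by norm_num,
            Real.sqrt_sq (by norm_num)]
        rw [e1]
        exact le_of_eq (by ring)

theorem Kn_L2' {t x : ℝ} (ht : 0 < t) {n : ℕ → ℕ} {k : ℕ → ℤ} (h : Lat t x n k) (a : ℝ) :
    Tendsto (fun M => ∫⁻ q : ℝ × ℝ,
      ENNReal.ofReal ((Kn M (n M) (k M) q - hk t x q) ^ 2 * Real.cosh (a * q.2))) atTop (𝓝 0) := by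
  obtain ⟨C₁, hC₁, H₁⟩ := Kn_high h a
  obtain ⟨C₂, hC₂, H₂⟩ := hk_high (t := t) x a
  rw [ENNReal.tendsto_nhds_zero]
  intro ε hε
  obtain ⟨e, he0, he⟩ : ∃ e : ℝ, 0 < e ∧ ENNReal.ofReal e ≤ ε := by
    obtain ⟨e, h1, h2, h3⟩ := ENNReal.lt_iff_exists_real_btwn.1 hε
    exact ⟨e, ENNReal.ofReal_pos.1 h2, h3.le⟩
  set s : ℝ := e / (2 * (C₁ + C₂)) with hs
  have hs0 : 0 < s := by positivity
  have hσ : 0 < s ^ 2 := by positivity
  have hlow := (ENNReal.tendsto_nhds_zero.1 (Kn_low ht h a hσ)) (ENNReal.ofReal (e / 2))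
    (ENNReal.ofReal_pos.2 (by positivity))
  filter_upwards [hlow, H₁ _ hσ] with M h1 h2
  have h3 := H₂ _ hσ
  rw [Real.sqrt_sq hs0.le] at h2 h3
  have hcosh := Real.continuous_cosh.measurable
  have m1 := measurable_Kn M (n M) (k M)
  have m2 := measurable_hk t x
  have mA : Measurable fun q : ℝ × ℝ => ENNReal.ofReal (if t - 2 * s ^ 2 < q.1 then
      Kn M (n M) (k M) q ^ 2 * Real.cosh (a * q.2) else 0) :=
    Measurable.ennreal_ofReal (Measurable.ite
      (measurableSet_lt measurable_const measurable_fst) (by fun_prop) measurable_const)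
  have mB : Measurable fun q : ℝ × ℝ => ENNReal.ofReal (if t - 2 * s ^ 2 < q.1 then
      hk t x q ^ 2 * Real.cosh (a * q.2) else 0) :=
    Measurable.ennreal_ofReal (Measurable.ite
      (measurableSet_lt measurable_const measurable_fst) (by fun_prop) measurable_const)
  calc _ ≤ ∫⁻ q : ℝ × ℝ, (ENNReal.ofReal (if q.1 ≤ t - 2 * s ^ 2 then
          (Kn M (n M) (k M) q - hk t x q) ^ 2 * Real.cosh (a * q.2) else 0) +
        ENNReal.ofReal (if t - 2 * s ^ 2 < q.1 then
          Kn M (n M) (k M) q ^ 2 * Real.cosh (a * q.2) else 0)) +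
        ENNReal.ofReal (if t - 2 * s ^ 2 < q.1 then
          hk t x q ^ 2 * Real.cosh (a * q.2) else 0) := by
        refine lintegral_mono fun q => ?_
        have hc := Real.cosh_pos (a * q.2)
        by_cases hq : q.1 ≤ t - 2 * s ^ 2
        · simp only [if_pos hq]
          exact le_add_right (le_add_right le_rfl)
        · have hq' : t - 2 * s ^ 2 < q.1 := not_le.1 hq
          simp only [if_neg hq, if_pos hq', ENNReal.ofReal_zero, zero_add]
          rw [← ENNReal.ofReal_add (by positivity) (by positivity), ← add_mul]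
          exact ENNReal.ofReal_le_ofReal (mul_le_mul_of_nonneg_right
            (sub_sq_le_of_nonneg (Kn_nonneg' M (n M) (k M) q) (hk_nonneg' t x q)) hc.le)
    _ ≤ ENNReal.ofReal (e / 2) + ENNReal.ofReal (C₁ * s) + ENNReal.ofReal (C₂ * s) := by
        rw [lintegral_add_right _ mB, lintegral_add_right _ mA]
        exact add_le_add (add_le_add h1 h2) h3
    _ = ENNReal.ofReal e := by
        rw [← ENNReal.ofReal_add (by positivity) (by positivity),
          ← ENNReal.ofReal_add (by positivity) (by positivity)]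
        congr 1
        rw [hs]; field_simp; ring
    _ ≤ ε := he

end

end Pool.Agent.K6329
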