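import Pool.Agent.Lib.MP_632999_pr.K.Lclt
import Pool.Agent.Lib.MP_632999_pr.K.Cell
import Pool.Agent.Lib.MP_632999_pr.K.KerL2
import Pool.Agent.Lib.MP_632999_pr.K.KerK0

/-! Integrated kernel bounds. No fixed function dominates `Kn` near `r = t` (the lattice time moves):
cut at `r = t - tau0`. Below: dominated convergence (`pz_le`, `lclt`). Above: both kernels satisfy
`kappa(r,u)^2 <= C (t'-r)^(-3/4) |u-x'|^(-1/2) exp (-c (u-x')^2)` for `0 < r < t'`, with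
`(t', x')` = the lattice point or `(t, x)` (use `tau' = (n - mi)/M^2 >= max (t'-r, 1/M^2)`,
`(1/tau) exp (-y^2/(c tau)) <= C tau^(-3/4) |y|^(-1/2)`), so the strip costs `C tau0^(1/4)`.
`hk_contr`: the same bound, `cosh (a u) <= 2 cosh (a x) cosh (a (u-x))`,
`int exp (-lam tau) tau^(-3/4) -> 0`. -/

namespace Pool.Agent.K6329

open MeasureTheory ProbabilityTheory Filter Topology Set Function
open scoped NNReal ENNReal

theorem K0_nonneg (M n : ℕ) (k : ℤ) (u : ℝ) : 0 ≤ K0 M n k u := by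
  exact K0_nonneg' M n k u

theorem K0_int {M : ℕ} (hM : 1 ≤ M) (n : ℕ) (k : ℤ) (f : ℤ → ℝ) :
    Integrable (fun u => K0 M n k u * f (ji M 0 u)) ∧
      ∫ u, K0 M n k u * f (ji M 0 u) = ∑ j ∈ Finset.Icc k (k + n), pz n (j - k) * f j := by
  exact K0_int' hM n k f

theorem K0_dom {t x : ℝ} (ht : 0 < t) {n : ℕ → ℕ} {k : ℕ → ℤ} (h : Lat t x n k) :
    ∃ C c : ℝ, 0 < c ∧ ∀ᶠ M : ℕ in atTop, ∀ u,
      K0 M (n M) (k M) u ≤ C * Real.exp (-c * (u - x) ^ 2) := by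
  exact K0_dom' ht h

theorem K0_lim {t x : ℝ} (ht : 0 < t) {n : ℕ → ℕ} {k : ℕ → ℤ} (h : Lat t x n k) (u : ℝ) :
    Tendsto (fun M => K0 M (n M) (k M) u) atTop (𝓝 (heat t (x - u))) := by
  exact K0_lim' ht h u

theorem hk_contr (a T : ℝ) : ∃ lam : ℝ, 0 ≤ lam ∧ ∀ t, 0 < t → t ≤ T → ∀ x,
    ∫⁻ q : ℝ × ℝ, ENNReal.ofReal (hk t x q ^ 2 * (Real.exp (lam * q.1) * Real.cosh (a * q.2))) ≤
      ENNReal.ofReal (Real.exp (lam * t) * Real.cosh (a * x) / 4) :=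
  hk_contr' a T

theorem Kn_L2 {t x : ℝ} (ht : 0 < t) {n : ℕ → ℕ} {k : ℕ → ℤ} (h : Lat t x n k) (a : ℝ) :
    Tendsto (fun M => ∫⁻ q : ℝ × ℝ,
      ENNReal.ofReal ((Kn M (n M) (k M) q - hk t x q) ^ 2 * Real.cosh (a * q.2))) atTop (𝓝 0) :=
  Kn_L2' ht h a

end Pool.Agent.K6329
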