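import Pool.Agent.Lib.MP_632999_pr.K.Mom2
import Pool.Agent.Lib.MP_632999_pr.K.KerInt

/-! Two error terms vanish. `err2`: `ito` with `h g = eta M (Tc M g) - sqrt (1/(2M)) g`, `zb_sq`,
`pz^2 <= 2 (m+1)^(-1/2) pz`, `pz_cosh`, `sum_inv_sqrt` (the sum is at most `C M`), `Quant.cc`.
`err3`: Tonelli, `zbt_sq` with `T = t + 1`, `Kn_L2`. -/

namespace Pool.Agent.K6329

open MeasureTheory ProbabilityTheory Filter Topology Set Function
open scoped NNReal ENNReal

variable {Ω : Type} [MeasurableSpace Ω] {P : Measure Ω} {B : ℝ → Ω → ℝ} {W : Test → Ω → ℝ}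
  {Z : ℝ → ℝ → Ω → ℝ} {Tx Tc : ℕ → ℝ → ℝ}

theorem err_of_sq {α : Type} [MeasurableSpace α] {μ : Measure α} {f : ℕ → α → ℝ}
    {g : ℕ → ℝ≥0∞} (hg : Tendsto g atTop (𝓝 0))
    (h : ∀ᶠ M in atTop, ∫⁻ a, ENNReal.ofReal (f M a ^ 2) ∂μ ≤ g M) :
    Tendsto (fun M => eLpNorm (f M) 2 μ) atTop (𝓝 0) := by
  have h1 : Tendsto (fun M => g M ^ (1 / 2 : ℝ)) atTop (𝓝 0) := by
    have h0 := (ENNReal.continuous_rpow_const (y := (1 / 2 : ℝ))).tendsto 0
    rw [ENNReal.zero_rpow_of_pos (by norm_num)] at h0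
    exact h0.comp hg
  refine tendsto_of_tendsto_of_tendsto_of_le_of_le' tendsto_const_nhds h1
    (Eventually.of_forall fun _ => zero_le) (h.mono fun M hM => ?_)
  rw [eLpNorm_eq_lintegral_rpow_enorm_toReal two_ne_zero ENNReal.ofNat_ne_top,
    ENNReal.toReal_ofNat]
  refine ENNReal.rpow_le_rpow (le_trans (le_of_eq ?_) hM) (by norm_num)
  refine lintegral_congr fun a => ?_
  rw [Real.enorm_eq_ofReal_abs, ENNReal.ofReal_rpow_of_nonneg (abs_nonneg _) (by norm_num),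
    Real.rpow_two, sq_abs]

theorem err_pz_sq (l : ℕ) (i : ℤ) : pz l i ^ 2 ≤ 2 / √((l : ℝ) + 1) * pz l i := by
  rw [sq]
  refine mul_le_mul_of_nonneg_right ((pz_le l i).trans ?_) (pz_nonneg l i)
  refine mul_le_of_le_one_right (by positivity) (Real.exp_le_one_iff.2 ?_)
  exact div_nonpos_of_nonpos_of_nonneg (neg_nonpos.2 (sq_nonneg _)) (by positivity)

theorem err_row {M n m : ℕ} (hM : 1 ≤ M) (hm : m < n) (k : ℤ) {T X : ℝ}
    (hn : (n : ℝ) ≤ T * (M : ℝ) ^ 2) (hk : |2 * (k : ℝ) + n| ≤ X * M) :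
    ∑ j ∈ Finset.Icc k (k + n), pz (n - 1 - m) (j - k) ^ 2 *
        Real.cosh (4 * ((2 * (j : ℝ) + m + 1) / M)) ≤
      1 / √(((n - 1 - m : ℕ) : ℝ) + 1) * (2 * (Real.exp (8 * T) * Real.cosh (4 * X))) := by
  obtain ⟨l, rfl⟩ : ∃ l, n = m + 1 + l := ⟨n - 1 - m, by omega⟩
  rw [show m + 1 + l - 1 - m = l by omega]
  have M0 : (0 : ℝ) < M := by exact_mod_cast hM
  have h1 := pz_cosh l k (N := m + 1 + l) (by omega) (4 / M)
    (4 * ((2 * (k : ℝ) + ((m + 1 + l : ℕ) : ℝ)) / M))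
  have h2 : Real.cosh (4 / M) ^ l ≤ Real.exp (8 * T) := by
    refine (pow_le_pow_left₀ (Real.cosh_pos _).le (Real.cosh_le_exp_half_sq _) l).trans ?_
    rw [← Real.exp_nat_mul, Real.exp_le_exp]
    have a1 : (l : ℝ) ≤ T * (M : ℝ) ^ 2 := le_trans (by exact_mod_cast (by omega)) hn
    have a2 : (l : ℝ) * ((4 / (M : ℝ)) ^ 2 / 2) = 8 * (l / (M : ℝ) ^ 2) := by
      field_simp
      ring
    have a3 : (l : ℝ) / (M : ℝ) ^ 2 ≤ T := by
      rw [div_le_iff₀ (by positivity)]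
      exact a1
    linarith
  have h3 : Real.cosh (4 * ((2 * (k : ℝ) + ((m + 1 + l : ℕ) : ℝ)) / M)) ≤ Real.cosh (4 * X) := by
    rw [Real.cosh_le_cosh, abs_mul, abs_mul, abs_div, abs_of_pos M0]
    refine mul_le_mul_of_nonneg_left (le_trans ?_ (le_abs_self X)) (abs_nonneg _)
    rw [div_le_iff₀ M0]
    exact hk
  calc _ ≤ ∑ j ∈ Finset.Icc k (k + (m + 1 + l : ℕ)), 2 / √((l : ℝ) + 1) * (pz l (j - k) *
        Real.cosh (4 * ((2 * (k : ℝ) + ((m + 1 + l : ℕ) : ℝ)) / M) +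
          4 / M * (2 * ((j : ℝ) - k) - l))) := by
        refine Finset.sum_le_sum fun j _ => ?_
        have e : 4 * ((2 * (k : ℝ) + ((m + 1 + l : ℕ) : ℝ)) / M) +
            4 / M * (2 * ((j : ℝ) - k) - l) = 4 * ((2 * (j : ℝ) + m + 1) / M) := by
          push_cast
          ring
        rw [e, ← mul_assoc]
        exact mul_le_mul_of_nonneg_right (err_pz_sq _ _) (Real.cosh_pos _).le
    _ = 2 / √((l : ℝ) + 1) * (Real.cosh (4 / M) ^ l *
        Real.cosh (4 * ((2 * (k : ℝ) + ((m + 1 + l : ℕ) : ℝ)) / M))) := by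
        rw [← Finset.mul_sum, h1]
    _ ≤ 2 / √((l : ℝ) + 1) * (Real.exp (8 * T) * Real.cosh (4 * X)) :=
        mul_le_mul_of_nonneg_left
          (mul_le_mul h2 h3 (Real.cosh_pos _).le (Real.exp_pos _).le) (by positivity)
    _ = _ := by ring

theorem err_cone {M n : ℕ} (hM : 1 ≤ M) (k : ℤ) {T X : ℝ} (hT : 0 ≤ T)
    (hn : (n : ℝ) ≤ T * (M : ℝ) ^ 2) (hk : |2 * (k : ℝ) + n| ≤ X * M) :
    ∑ p ∈ cone n k, pz (n - 1 - p.1) (p.2 - k) ^ 2 *
        Real.cosh (4 * ((2 * (p.2 : ℝ) + p.1 + 1) / M)) ≤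
      M * (4 * √T * (Real.exp (8 * T) * Real.cosh (4 * X))) := by
  rw [cone, Finset.sum_product]
  refine (Finset.sum_le_sum fun m hm => err_row hM (Finset.mem_range.1 hm) k hn hk).trans ?_
  rw [← Finset.sum_mul, Finset.sum_range_reflect (fun l : ℕ => 1 / √((l : ℝ) + 1)) n]
  have h1 : √(n : ℝ) ≤ √T * M := by
    refine (Real.sqrt_le_sqrt hn).trans (le_of_eq ?_)
    rw [Real.sqrt_mul hT, Real.sqrt_sq (Nat.cast_nonneg M)]
  have h2 : 0 ≤ 2 * (Real.exp (8 * T) * Real.cosh (4 * X)) := by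
    have := Real.cosh_pos (4 * X)
    positivity
  calc _ ≤ 2 * (√T * M) * (2 * (Real.exp (8 * T) * Real.cosh (4 * X))) :=
        mul_le_mul_of_nonneg_right ((sum_inv_sqrt n).trans (by linarith)) h2
    _ = _ := by ring

theorem err2_tendsto (hN : IsNoise P B W) (hQ : Quant Tx Tc) {t x : ℝ} (ht : 0 < t) {n : ℕ → ℕ}
    {k : ℕ → ℤ} (h : Lat t x n k) :
    Tendsto (fun M => eLpNorm (err2 Tx Tc B W M (n M) (k M)) 2 P) atTop (𝓝 0) := by
  obtain ⟨C, hC0, hC⟩ := zb_sq hN hQ (t + 1)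
  have hg := ENNReal.tendsto_ofReal (hQ.cc.mul_const
    (C * (4 * √(t + 1) * (Real.exp (8 * (t + 1)) * Real.cosh (4 * (|x| + 1))))))
  rw [zero_mul, ENNReal.ofReal_zero] at hg
  refine err_of_sq hg ?_
  filter_upwards [h.bounds ht, eventually_ge_atTop 6] with M hb hM
  have hM1 : 1 ≤ M := by omega
  have mp : MeasurePreserving (Tc M) N01 (gC M) := ⟨hQ.mc M, hQ.lc M⟩
  have me : Measurable (eta M) := by
    unfold eta
    fun_prop
  have l1 : MemLp (fun g => eta M (Tc M g)) 2 N01 := (eta_memLp hM1).comp_measurePreserving mp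
  have l2 : MemLp (fun g : ℝ => √(1 / (2 * (M : ℝ))) * g) 2 N01 :=
    (memLp_id_gaussianReal' 2 ENNReal.ofNat_ne_top).const_mul _
  have i1 : ∫ g, eta M (Tc M g) ∂N01 = 0 := by
    rw [← eta_mean M, ← hQ.lc M, integral_map (hQ.mc M).aemeasurable me.aestronglyMeasurable]
  have i0 : ∫ g, (eta M (Tc M g) - √(1 / (2 * (M : ℝ))) * g) ∂N01 = 0 := by
    rw [integral_sub (l1.integrable one_le_two) (l2.integrable one_le_two), i1, integral_const_mul,
      integral_id_gaussianReal, mul_zero, sub_zero]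
  obtain ⟨a1, a2⟩ := ito hN hM1 (h := fun g => eta M (Tc M g) - √(1 / (2 * (M : ℝ))) * g)
    ((me.comp (hQ.mc M)).sub (measurable_const.mul measurable_id)) (l1.sub l2) i0
    (Y := fun p ω => pz (n M - 1 - p.1) (p.2 - k M) * zb M p.1 p.2 (lift Tx Tc B W M ω))
    (cone (n M) (k M)) (fun p _ => (zb_adapted hQ M p.1 p.2).const_mul _)
    (fun p _ => (zb_memLp hN hQ hM p.1 p.2).const_mul _)
  have a3 := ofReal_integral_eq_lintegral_ofReal a1.integrable_sq
    (Eventually.of_forall fun ω => sq_nonneg _)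
  refine le_trans (le_of_eq a3.symm) (ENNReal.ofReal_le_ofReal ?_)
  rw [a2, mul_comm (M : ℝ), mul_assoc]
  refine mul_le_mul_of_nonneg_left ?_ (integral_nonneg fun g => sq_nonneg _)
  have a4 := mul_le_mul_of_nonneg_left (err_cone hM1 (k M) (by linarith) hb.1 hb.2.1) hC0
  rw [mul_left_comm, Finset.mul_sum] at a4
  refine le_trans (Finset.sum_le_sum fun p hp => ?_) a4
  have hp1 : p.1 < n M := Finset.mem_range.1 (Finset.mem_product.1 hp).1
  have a5 := hC M hM p.1 (le_trans (by exact_mod_cast hp1.le) hb.1) p.2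
  simp only [mul_pow]
  rw [integral_const_mul, mul_left_comm]
  exact mul_le_mul_of_nonneg_left a5 (sq_nonneg _)

theorem err3_tendsto (hN : IsNoise P B W) (hQ : Quant Tx Tc) {t x : ℝ} (ht : 0 < t) {n : ℕ → ℕ}
    {k : ℕ → ℤ} (h : Lat t x n k) :
    Tendsto (fun M => eLpNorm (fun p : (ℝ × ℝ) × Ω =>
      (Kn M (n M) (k M) p.1 - hk t x p.1) * zbt M p.1 (lift Tx Tc B W M p.2)) 2 (volume.prod P))
      atTop (𝓝 0) := by
  obtain ⟨C, hC0, hC⟩ := zbt_sq hN hQ (t + 1)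
  have := hN.prob
  have hg := ENNReal.Tendsto.const_mul (a := ENNReal.ofReal C) (Kn_L2 ht h 4)
    (Or.inr ENNReal.ofReal_ne_top)
  rw [mul_zero] at hg
  refine err_of_sq hg ?_
  filter_upwards [h.bounds ht, eventually_ge_atTop 6] with M hb hM
  have hM1 : 1 ≤ M := by omega
  have M0 : (0 : ℝ) < M := by exact_mod_cast hM1
  refine (lintegral_prod_le _).trans ?_
  rw [← lintegral_const_mul' _ _ ENNReal.ofReal_ne_top]
  refine lintegral_mono fun q => ?_
  by_cases hq : 0 < q.1 ∧ q.1 ≤ t + 1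
  · have a1 : MemLp (fun ω => (Kn M (n M) (k M) q - hk t x q) * zbt M q (lift Tx Tc B W M ω))
        2 P := (zb_memLp hN hQ hM _ _).const_mul _
    have a3 := ofReal_integral_eq_lintegral_ofReal a1.integrable_sq
      (Eventually.of_forall fun ω => sq_nonneg _)
    refine le_trans (le_of_eq a3.symm) ?_
    rw [← ENNReal.ofReal_mul hC0]
    refine ENNReal.ofReal_le_ofReal ?_
    simp only [mul_pow]
    rw [integral_const_mul, mul_left_comm]
    exact mul_le_mul_of_nonneg_left (hC M hM q hq.1 hq.2) (sq_nonneg _)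
  · have e1 : Kn M (n M) (k M) q = 0 := by
      refine if_neg fun hc => hq ⟨hc.1, (mi_bounds hM1 hc.1).2.trans ?_⟩
      rw [div_le_iff₀ (by positivity)]
      refine le_trans ?_ hb.1
      exact_mod_cast hc.2
    have e2 : hk t x q = 0 := if_neg fun hc => hq ⟨hc.1, by linarith [hc.2]⟩
    simp [e1, e2]

end Pool.Agent.K6329
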