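import Pool.Agent.Lib.MP_632999_pr.K.Mom2
import Pool.Agent.Lib.MP_632999_pr.K.KerInt

/-! The initial data. `init_point`: `zd M 0 j = exp (prof xi j)`,
`prof (sqrt (2/M) GB) j = B (2j/M) - B 0`, so `E (prof xi j - B u)^2 <= 2 |j| E (Tx - sqrt(2/M) g)^2 +
2 |2j/M - u| -> 0` (independent, mean 0: `mp_GB`, `mu_mean`), and
`(e^a - e^b)^2 <= |a-b| (e^a + e^b)^2` with Cauchy-Schwarz. `init_conv`: `K0_int`;
`(int K f)^2 <= int K f^2`, `(int |K-g| e^B)^2 <= (int |K-g|) (int |K-g| e^(2B))`,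
`E e^(2 B u) = e^(2|u|)`, dominated convergence with `K0_dom`, `K0_lim`. -/

namespace Pool.Agent.K6329

open MeasureTheory ProbabilityTheory Filter Topology Set Function
open scoped NNReal ENNReal

variable {Ω : Type} [MeasurableSpace Ω] {P : Measure Ω} {B : ℝ → Ω → ℝ} {W : Test → Ω → ℝ}
  {Z : ℝ → ℝ → Ω → ℝ} {Tx Tc : ℕ → ℝ → ℝ}

theorem in_expB (hN : IsNoise P B W) (u s : ℝ) :
    Integrable (fun ω => Real.exp (s * B u ω)) P ∧
      ∫ ω, Real.exp (s * B u ω) ∂P = Real.exp (|u| * s ^ 2 / 2) := by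
  have hl := hN.lawB u
  constructor
  · have h1 := integrable_exp_mul_gaussianReal (μ := 0) (v := Real.toNNReal |u|) s
    rw [← hl.map_eq] at h1
    exact (integrable_map_measure (by fun_prop) hl.aemeasurable).1 h1
  · have h1 := mgf_gaussianReal hl.map_eq s
    rw [mgf] at h1
    rw [h1]
    simp

theorem in_sqB (hN : IsNoise P B W) (x y : ℝ) :
    Integrable (fun ω => (B x ω - B y ω) ^ 2) P ∧ ∫ ω, (B x ω - B y ω) ^ 2 ∂P = |x - y| := by
  have hl := hN.lawB_sub x y
  have h2 : MemLp (fun z : ℝ => z) 2 (gaussianReal 0 (Real.toNNReal |x - y|)) :=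
    memLp_id_gaussianReal 2
  constructor
  · have h1 := h2.integrable_sq
    rw [← hl.map_eq] at h1
    exact (integrable_map_measure (by fun_prop) hl.aemeasurable).1 h1
  · have h1 := hl.integral_comp (f := fun z : ℝ => z ^ 2) (by fun_prop)
    have h3 : Var[fun z : ℝ => z; gaussianReal 0 (Real.toNNReal |x - y|)] =
        ∫ z, z ^ 2 ∂(gaussianReal 0 (Real.toNNReal |x - y|)) :=
      variance_of_integral_eq_zero measurable_id'.aemeasurable (by simp)
    rw [variance_fun_id_gaussianReal] at h3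
    simp only [Function.comp_def] at h1
    rw [h1, ← h3]
    simp

theorem in_B0 (hN : IsNoise P B W) : ∀ᵐ ω ∂P, B 0 ω = 0 := by
  have hl := hN.lawB 0
  simp only [abs_zero, Real.toNNReal_zero, gaussianReal_zero_var] at hl
  exact hl.ae_eq_of_dirac

theorem in_sum_sq {h : ℝ → ℝ} (hm : Measurable h) (h2 : MemLp h 2 N01) (h0 : ∫ g, h g ∂N01 = 0)
    (s : Finset ℤ) :
    MemLp (fun g : Row => ∑ k ∈ s, h (g k)) 2 (piR N01) ∧
      ∫ g, (∑ k ∈ s, h (g k)) ^ 2 ∂piR N01 = s.card * ∫ g, h g ^ 2 ∂N01 := by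
  have hp : ∀ k : ℤ, MeasurePreserving (fun g : Row => g k) (piR N01) N01 := fun k =>
    measurePreserving_eval_infinitePi (fun _ : ℤ => N01) k
  have hk : ∀ k : ℤ, MemLp (fun g : Row => h (g k)) 2 (piR N01) := fun k =>
    h2.comp_measurePreserving (hp k)
  have hmean : ∀ k : ℤ, ∫ g : Row, h (g k) ∂piR N01 = 0 := fun k => by
    rw [← h0, ← (hp k).map_eq, integral_map (hp k).measurable.aemeasurable
      hm.aestronglyMeasurable, (hp k).map_eq]
  have hsq : ∀ k : ℤ, ∫ g : Row, h (g k) ^ 2 ∂piR N01 = ∫ g, h g ^ 2 ∂N01 := fun k => by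
    have := integral_map (μ := piR N01) (hp k).measurable.aemeasurable
      (f := fun g : ℝ => h g ^ 2) (by fun_prop)
    rw [(hp k).map_eq] at this
    exact this.symm
  have hind : iIndepFun (fun (k : ℤ) (g : Row) => h (g k)) (piR N01) :=
    iIndepFun_infinitePi (P := fun _ : ℤ => N01) (X := fun _ => h) fun _ => hm
  have hS := memLp_finsetSum s (fun k _ => hk k)
  refine ⟨hS, ?_⟩
  have hv := IndepFun.variance_sum (μ := piR N01) (X := fun (k : ℤ) (g : Row) => h (g k)) (s := s)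
    (fun k _ => hk k) (fun i _ j _ hij => hind.indepFun hij)
  have e1 : (∑ i ∈ s, fun g : Row => h (g i)) = fun g : Row => ∑ k ∈ s, h (g k) := by
    ext g; simp
  rw [e1, variance_of_integral_eq_zero hS.aemeasurable] at hv
  · rw [hv, Finset.sum_congr rfl fun k _ =>
      (variance_of_integral_eq_zero (hk k).aemeasurable (hmean k)).trans (hsq k)]
    simp
  · rw [integral_finsetSum _ fun k _ => (hk k).integrable one_le_two]
    exact Finset.sum_eq_zero fun k _ => hmean k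

theorem in_prof_sq {h : ℝ → ℝ} (hm : Measurable h) (h2 : MemLp h 2 N01) (h0 : ∫ g, h g ∂N01 = 0)
    (j : ℤ) :
    Integrable (fun g : Row => prof (fun k => h (g k)) j ^ 2) (piR N01) ∧
      ∫ g, prof (fun k => h (g k)) j ^ 2 ∂piR N01 = |(j : ℝ)| * ∫ g, h g ^ 2 ∂N01 := by
  rcases le_total 0 j with hj | hj
  · obtain ⟨a, b⟩ := in_sum_sq hm h2 h0 (Finset.Ico 0 j)
    have e : ∀ g : Row, prof (fun k => h (g k)) j = ∑ k ∈ Finset.Ico 0 j, h (g k) := fun g => by
      rw [prof, Finset.Ico_eq_empty_of_le hj]; simp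
    simp only [e]
    refine ⟨a.integrable_sq, ?_⟩
    rw [b, Int.card_Ico]
    congr 1
    have : ((j - 0).toNat : ℤ) = j := by omega
    rw [abs_of_nonneg (by exact_mod_cast hj)]
    exact_mod_cast this
  · obtain ⟨a, b⟩ := in_sum_sq hm h2 h0 (Finset.Ico j 0)
    have e : ∀ g : Row, prof (fun k => h (g k)) j ^ 2 = (∑ k ∈ Finset.Ico j 0, h (g k)) ^ 2 :=
      fun g => by rw [prof, Finset.Ico_eq_empty_of_le hj]; simp
    simp only [e]
    refine ⟨a.integrable_sq, ?_⟩
    rw [b, Int.card_Ico]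
    congr 1
    have : ((0 - j).toNat : ℤ) = -j := by omega
    rw [abs_of_nonpos (by exact_mod_cast hj)]
    exact_mod_cast this

theorem in_exp_ineq (a b δ : ℝ) (hδ : 0 < δ) :
    (Real.exp a - Real.exp b) ^ 2 ≤
      (a - b) ^ 2 / δ + 8 * δ * (Real.exp a ^ 4 + Real.exp b ^ 4) := by
  have key : ∀ a b : ℝ, b ≤ a → (Real.exp a - Real.exp b) ^ 2 ≤
      (a - b) * (Real.exp a + Real.exp b) ^ 2 := by
    intro a b hab
    have ha := Real.exp_pos a
    have hb := Real.exp_pos b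
    have h1 : Real.exp b ≤ Real.exp a := Real.exp_le_exp.2 hab
    have h2 : Real.exp a - Real.exp b ≤ (a - b) * Real.exp a := by
      have h3 := Real.add_one_le_exp (b - a)
      have h4 : Real.exp b = Real.exp (b - a) * Real.exp a := by
        rw [← Real.exp_add]; congr 1; ring
      nlinarith
    have h5 : Real.exp a - Real.exp b ≤ (a - b) * (Real.exp a + Real.exp b) := by
      nlinarith
    calc (Real.exp a - Real.exp b) ^ 2 = (Real.exp a - Real.exp b) * (Real.exp a - Real.exp b) := by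
          ring
      _ ≤ ((a - b) * (Real.exp a + Real.exp b)) * (Real.exp a + Real.exp b) :=
          mul_le_mul h5 (by linarith) (by linarith) (by nlinarith)
      _ = _ := by ring
  have h1 : (Real.exp a - Real.exp b) ^ 2 ≤ |a - b| * (Real.exp a + Real.exp b) ^ 2 := by
    rcases le_total b a with h | h
    · rw [abs_of_nonneg (by linarith)]; exact key a b h
    · have := key b a h
      rw [abs_of_nonpos (by linarith)]
      nlinarith
  set x := Real.exp a
  set y := Real.exp b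
  have h2 : (x + y) ^ 4 ≤ 8 * (x ^ 4 + y ^ 4) := by
    nlinarith [sq_nonneg (x - y), sq_nonneg (x ^ 2 - y ^ 2), sq_nonneg ((x - y) ^ 2),
      sq_nonneg ((x + y) * (x - y))]
  have h3 : |a - b| * (x + y) ^ 2 ≤ (a - b) ^ 2 / δ + δ * (x + y) ^ 4 := by
    rw [← sq_abs (a - b)]
    set d := |a - b|
    have hd : 0 ≤ d := abs_nonneg _
    have : d ^ 2 / δ + δ * (x + y) ^ 4 - d * (x + y) ^ 2 =
        ((d - δ * (x + y) ^ 2) ^ 2 + d * δ * (x + y) ^ 2) / δ := by
      field_simp; ring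
    have h4 : 0 ≤ ((d - δ * (x + y) ^ 2) ^ 2 + d * δ * (x + y) ^ 2) / δ := by positivity
    linarith
  nlinarith

omit [MeasurableSpace Ω] in
theorem in_zd0 (M : ℕ) (j : ℤ) (ω : Ω) :
    zd M 0 j (lift Tx Tc B W M ω) = Real.exp (prof (fun k => Tx M (GB B M k ω)) j) := by
  simp [zd, Hd, evol, lift]

omit [MeasurableSpace Ω] in
theorem in_prof_split {M : ℕ} (hM : 1 ≤ M) (j : ℤ) (ω : Ω) :
    prof (fun k => Tx M (GB B M k ω)) j =
      prof (fun k => Tx M (GB B M k ω) - √(2 / (M : ℝ)) * GB B M k ω) j +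
        (B (2 * (j : ℝ) / M) ω - B 0 ω) := by
  have hM' : (0 : ℝ) < M := by exact_mod_cast hM
  have hs : (0 : ℝ) < √(2 / (M : ℝ)) := Real.sqrt_pos.2 (by positivity)
  have h1 := prof_eq (h := fun k : ℤ => B (2 * (k : ℝ) / M) ω)
    (ξ := fun k => √(2 / (M : ℝ)) * GB B M k ω) (fun k => by
      simp only [GB]
      rw [mul_div_cancel₀ _ hs.ne']
      congr 3
      push_cast; ring) j
  simp only [Int.cast_zero, mul_zero, zero_div] at h1
  rw [← h1]
  simp only [prof, Finset.sum_sub_distrib]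
  ring

theorem in_h (hQ : Quant Tx Tc) (M : ℕ) :
    Measurable (fun g => Tx M g - √(2 / (M : ℝ)) * g) ∧
      MemLp (fun g => Tx M g - √(2 / (M : ℝ)) * g) 2 N01 ∧
      ∫ g, (Tx M g - √(2 / (M : ℝ)) * g) ∂N01 = 0 := by
  have hm := hQ.mx M
  have hp : MeasurePreserving (Tx M) N01 (mu M) := ⟨hm, hQ.lx M⟩
  have h1 : MemLp (Tx M) 2 N01 := (mu_memLp M).comp_measurePreserving hp
  have h2 : MemLp (fun g : ℝ => √(2 / (M : ℝ)) * g) 2 N01 :=
    (memLp_id_gaussianReal 2).const_mul _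
  refine ⟨by fun_prop, h1.sub h2, ?_⟩
  rw [integral_sub (h1.integrable one_le_two) (h2.integrable one_le_two), integral_const_mul]
  have h3 : ∫ g, Tx M g ∂N01 = 0 := by
    rw [← mu_mean M, ← hQ.lx M, integral_map hm.aemeasurable (by fun_prop)]
  simp [h3]

theorem in_d_sq (hN : IsNoise P B W) (hQ : Quant Tx Tc) {M : ℕ} (hM : 1 ≤ M) (j : ℤ) (u : ℝ) :
    Integrable (fun ω => (prof (fun k => Tx M (GB B M k ω)) j - B u ω) ^ 2) P ∧
      ∫ ω, (prof (fun k => Tx M (GB B M k ω)) j - B u ω) ^ 2 ∂P ≤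
        2 * (|(j : ℝ)| * ∫ g, (Tx M g - √(2 / (M : ℝ)) * g) ^ 2 ∂N01) +
          2 * |2 * (j : ℝ) / M - u| := by
  obtain ⟨a1, a2, a3⟩ := in_h hQ M
  obtain ⟨b1, b2⟩ := in_prof_sq a1 a2 a3 j
  obtain ⟨c1, c2⟩ := in_sqB hN (2 * (j : ℝ) / M) u
  have hp := mp_GB hN hM
  have b3 : Integrable (fun ω => prof (fun k => Tx M (GB B M k ω) -
      √(2 / (M : ℝ)) * GB B M k ω) j ^ 2) P := hp.integrable_comp_of_integrable b1
  have b4 : ∫ ω, prof (fun k => Tx M (GB B M k ω) - √(2 / (M : ℝ)) * GB B M k ω) j ^ 2 ∂P =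
      |(j : ℝ)| * ∫ g, (Tx M g - √(2 / (M : ℝ)) * g) ^ 2 ∂N01 := by
    rw [← b2, ← hp.map_eq, integral_map hp.measurable.aemeasurable]
    rw [hp.map_eq]; exact b1.aestronglyMeasurable
  have hle : ∀ᵐ ω ∂P, (prof (fun k => Tx M (GB B M k ω)) j - B u ω) ^ 2 ≤
      2 * prof (fun k => Tx M (GB B M k ω) - √(2 / (M : ℝ)) * GB B M k ω) j ^ 2 +
        2 * (B (2 * (j : ℝ) / M) ω - B u ω) ^ 2 := by
    filter_upwards [in_B0 hN] with ω hω
    rw [in_prof_split hM, hω]
    nlinarith [sq_nonneg (prof (fun k => Tx M (GB B M k ω) - √(2 / (M : ℝ)) * GB B M k ω) j -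
      (B (2 * (j : ℝ) / M) ω - B u ω))]
  have hI := (b3.const_mul 2).add (c1.const_mul 2)
  have hmeas : Measurable fun ω => (prof (fun k => Tx M (GB B M k ω)) j - B u ω) ^ 2 := by
    have h1 : Measurable fun ω => prof (fun k => Tx M (GB B M k ω)) j :=
      (measurable_prof j).comp (measurable_pi_lambda _ fun k =>
        (hQ.mx M).comp ((measurable_pi_apply k).comp hp.measurable))
    exact (h1.sub (hN.measB' u)).pow_const 2
  have hI2 : Integrable (fun ω => (prof (fun k => Tx M (GB B M k ω)) j - B u ω) ^ 2) P := by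
    refine hI.mono' hmeas.aestronglyMeasurable ?_
    filter_upwards [hle] with ω hω
    rw [Real.norm_eq_abs, abs_of_nonneg (sq_nonneg _)]
    exact hω
  refine ⟨hI2, (integral_mono_ae hI2 hI hle).trans (le_of_eq ?_)⟩
  simp only [Pi.add_apply]
  rw [integral_add (b3.const_mul 2) (c1.const_mul 2), integral_const_mul, integral_const_mul,
    b4, c2]

theorem in_z_mom (hN : IsNoise P B W) (hQ : Quant Tx Tc) {M : ℕ} (hM : 6 ≤ M) (j : ℤ) :
    Integrable (fun ω => zd M 0 j (lift Tx Tc B W M ω) ^ 4) P ∧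
      ∫ ω, zd M 0 j (lift Tx Tc B W M ω) ^ 4 ∂P ≤ Real.exp (32 * |(j : ℝ)| / M) ∧
      Integrable (fun ω => zd M 0 j (lift Tx Tc B W M ω) ^ 2) P ∧
      ∫ ω, zd M 0 j (lift Tx Tc B W M ω) ^ 2 ∂P ≤ Real.exp (8 * |(j : ℝ)| / M) := by
  obtain ⟨a, b, c, d⟩ := z0_mom hM j
  have hp := mp_lift hN hQ (M := M) (by omega)
  refine ⟨hp.integrable_comp_of_integrable a, ?_,
    hp.integrable_comp_of_integrable c.integrable_sq, ?_⟩
  · refine le_trans (le_of_eq ?_) b
    rw [← hp.map_eq, integral_map hp.measurable.aemeasurable]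
    rw [hp.map_eq]; exact a.aestronglyMeasurable
  · refine le_trans (le_of_eq ?_) d
    rw [← hp.map_eq, integral_map hp.measurable.aemeasurable]
    rw [hp.map_eq]; exact c.integrable_sq.aestronglyMeasurable

theorem in_diff_int (hN : IsNoise P B W) (hQ : Quant Tx Tc) {M : ℕ} (hM : 6 ≤ M) (j : ℤ) (u : ℝ) :
    Integrable (fun ω => (zd M 0 j (lift Tx Tc B W M ω) - Real.exp (B u ω)) ^ 2) P ∧
      ∫ ω, (zd M 0 j (lift Tx Tc B W M ω) - Real.exp (B u ω)) ^ 2 ∂P ≤
        2 * Real.exp (8 * |(j : ℝ)| / M) + 2 * Real.exp (2 * |u|) := by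
  obtain ⟨-, -, c, d⟩ := in_z_mom hN hQ hM j
  obtain ⟨e, f⟩ := in_expB hN u 2
  have hI := (c.const_mul 2).add (e.const_mul 2)
  have hle : ∀ ω, (zd M 0 j (lift Tx Tc B W M ω) - Real.exp (B u ω)) ^ 2 ≤
      2 * zd M 0 j (lift Tx Tc B W M ω) ^ 2 + 2 * Real.exp (2 * B u ω) := fun ω => by
    have : Real.exp (2 * B u ω) = Real.exp (B u ω) ^ 2 := by
      rw [← Real.exp_nat_mul]; norm_num
    rw [this]
    nlinarith [sq_nonneg (zd M 0 j (lift Tx Tc B W M ω) + Real.exp (B u ω))]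
  have hmeas : Measurable fun ω => (zd M 0 j (lift Tx Tc B W M ω) - Real.exp (B u ω)) ^ 2 :=
    (((measurable_zd M 0 j).comp (measurable_lift hN hQ M)).sub (hN.measB' u).exp).pow_const 2
  have hI2 : Integrable (fun ω => (zd M 0 j (lift Tx Tc B W M ω) - Real.exp (B u ω)) ^ 2) P := by
    refine hI.mono' hmeas.aestronglyMeasurable (Eventually.of_forall fun ω => ?_)
    rw [Real.norm_eq_abs, abs_of_nonneg (sq_nonneg _)]
    exact hle ω
  refine ⟨hI2, (integral_mono hI2 hI hle).trans ?_⟩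
  simp only [Pi.add_apply]
  rw [integral_add (c.const_mul 2) (e.const_mul 2), integral_const_mul, integral_const_mul, f]
  have : |u| * 2 ^ 2 / 2 = 2 * |u| := by ring
  rw [this]
  linarith

theorem init_point (hN : IsNoise P B W) (hQ : Quant Tx Tc) {u : ℝ} {j : ℕ → ℤ}
    (hj : Tendsto (fun M : ℕ => 2 * (j M : ℝ) / M) atTop (𝓝 u)) :
    Tendsto (fun M => ∫ ω, (zd M 0 (j M) (lift Tx Tc B W M ω) - Real.exp (B u ω)) ^ 2 ∂P)
      atTop (𝓝 0) := by
  obtain ⟨e, f⟩ := in_expB hN u 4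
  set A : ℝ := Real.exp (16 * (|u| + 1)) + Real.exp (|u| * 4 ^ 2 / 2) with hA
  have hA0 : 0 < A := by positivity
  have habs : Tendsto (fun M : ℕ => |2 * (j M : ℝ) / M|) atTop (𝓝 |u|) := hj.abs
  have hd : Tendsto (fun M : ℕ => 2 * (|(j M : ℝ)| * ∫ g, (Tx M g - √(2 / (M : ℝ)) * g) ^ 2 ∂N01) +
      2 * |2 * (j M : ℝ) / M - u|) atTop (𝓝 0) := by
    have h1 := habs.mul hQ.cx
    have h2 := ((hj.sub_const u).abs).const_mul 2
    have h3 := h1.add h2
    simp only [mul_zero, sub_self, abs_zero, add_zero] at h3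
    refine h3.congr' ?_
    filter_upwards [eventually_ge_atTop 1] with M hM
    have hM' : (0 : ℝ) < M := by exact_mod_cast hM
    rw [abs_div, abs_mul, abs_of_pos hM', abs_two]
    field_simp
  rw [Metric.tendsto_atTop]
  intro ε hε
  set δ : ℝ := ε / (16 * A) with hδ
  have hδ0 : 0 < δ := by positivity
  have ev1 := hd.eventually (gt_mem_nhds (show (0 : ℝ) < δ * (ε / 2) by positivity))
  have ev2 := habs.eventually (gt_mem_nhds (show |u| < |u| + 1 by linarith))
  obtain ⟨N, hN'⟩ := eventually_atTop.1 (ev1.and (ev2.and (eventually_ge_atTop 6)))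
  refine ⟨N, fun M hM => ?_⟩
  obtain ⟨p1, p2, p3⟩ := hN' M hM
  have hM' : (0 : ℝ) < M := by exact_mod_cast (show 0 < M by omega)
  obtain ⟨a, b, -, -⟩ := in_z_mom hN hQ p3 (j M)
  obtain ⟨c, d⟩ := in_d_sq hN hQ (show 1 ≤ M by omega) (j M) u
  obtain ⟨g, -⟩ := in_diff_int hN hQ p3 (j M) u
  have hae : Integrable (fun ω => zd M 0 (j M) (lift Tx Tc B W M ω) ^ 4 + Real.exp (4 * B u ω)) P :=
    a.add e
  have hI := (c.div_const δ).add (hae.const_mul (8 * δ))
  have hle : ∀ ω, (zd M 0 (j M) (lift Tx Tc B W M ω) - Real.exp (B u ω)) ^ 2 ≤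
      (prof (fun k => Tx M (GB B M k ω)) (j M) - B u ω) ^ 2 / δ +
        8 * δ * (zd M 0 (j M) (lift Tx Tc B W M ω) ^ 4 + Real.exp (4 * B u ω)) := fun ω => by
    have : Real.exp (4 * B u ω) = Real.exp (B u ω) ^ 4 := by
      rw [← Real.exp_nat_mul]; norm_num
    rw [this, in_zd0]
    exact in_exp_ineq _ _ _ hδ0
  have h1 := integral_mono g hI hle
  simp only [Pi.add_apply] at h1
  rw [integral_add (c.div_const δ) (hae.const_mul (8 * δ)), integral_div,
    integral_const_mul, integral_add a e, f] at h1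
  have h2 : Real.exp (32 * |(j M : ℝ)| / M) ≤ Real.exp (16 * (|u| + 1)) := by
    rw [Real.exp_le_exp]
    rw [abs_div, abs_mul, abs_of_pos hM', abs_two] at p2
    have : 32 * |(j M : ℝ)| / M = 16 * (2 * |(j M : ℝ)| / M) := by ring
    linarith
  have h3 : (∫ ω, (prof (fun k => Tx M (GB B M k ω)) (j M) - B u ω) ^ 2 ∂P) / δ < ε / 2 := by
    rw [div_lt_iff₀ hδ0]; linarith
  have h4 : 8 * δ * ((∫ ω, zd M 0 (j M) (lift Tx Tc B W M ω) ^ 4 ∂P) +
      Real.exp (|u| * 4 ^ 2 / 2)) ≤ 8 * δ * A :=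
    mul_le_mul_of_nonneg_left (by rw [hA]; linarith) (by positivity)
  have h5 : 8 * δ * A = ε / 2 := by rw [hδ]; field_simp; ring
  rw [Real.dist_eq, sub_zero, abs_of_nonneg (integral_nonneg fun ω => sq_nonneg _)]
  linarith

/-- Cauchy-Schwarz in `u`, then Tonelli -/
theorem in_cs [SFinite P] {v : ℝ → ℝ≥0∞} {E : ℝ × Ω → ℝ≥0∞} (hv : Measurable v)
    (hE : Measurable E) :
    ∫⁻ ω, (∫⁻ u, v u * E (u, ω)) ^ (2 : ℝ) ∂P ≤
      (∫⁻ u, v u ^ (2 : ℝ)) * ∫⁻ u, ∫⁻ ω, E (u, ω) ^ (2 : ℝ) ∂P := by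
  have h1 : ∀ ω, (∫⁻ u, v u * E (u, ω)) ^ (2 : ℝ) ≤
      (∫⁻ u, v u ^ (2 : ℝ)) * ∫⁻ u, E (u, ω) ^ (2 : ℝ) := fun ω => by
    have h2 := ENNReal.lintegral_mul_le_Lp_mul_Lq volume Real.HolderConjugate.two_two
      (f := v) (g := fun u => E (u, ω)) hv.aemeasurable
      (hE.comp (measurable_id.prodMk measurable_const)).aemeasurable
    have h3 := ENNReal.rpow_le_rpow h2 (show (0 : ℝ) ≤ 2 by norm_num)
    rw [ENNReal.mul_rpow_of_nonneg _ _ (by norm_num), ← ENNReal.rpow_mul, ← ENNReal.rpow_mul] at h3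
    norm_num at h3
    simpa using h3
  have hm : Measurable fun p : ℝ × Ω => E p ^ (2 : ℝ) := hE.pow_const _
  refine (lintegral_mono h1).trans (le_of_eq ?_)
  rw [lintegral_const_mul _ hm.lintegral_prod_left',
    lintegral_lintegral_swap (f := fun u ω => E (u, ω) ^ (2 : ℝ)) hm.aemeasurable]

theorem in_gauss {c : ℝ} (hc : 0 < c) (x C a : ℝ) :
    ∫⁻ u, ENNReal.ofReal (C * (Real.exp (-c * (u - x) ^ 2) * Real.exp (a * |u|))) ≠ ⊤ := by
  have h1 : Integrable fun u : ℝ => Real.exp (-(c / 2) * (u - x) ^ 2) :=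
    (integrable_exp_neg_mul_sq (by positivity : 0 < c / 2)).comp_sub_right x
  have h2 : Integrable fun u : ℝ => C * (Real.exp (-c * (u - x) ^ 2) * Real.exp (a * |u|)) := by
    refine Integrable.const_mul ?_ C
    refine (h1.const_mul (Real.exp (|a| * |x| + a ^ 2 / (2 * c)))).mono'
      (Measurable.aestronglyMeasurable (by fun_prop)) (Eventually.of_forall fun u => ?_)
    rw [Real.norm_eq_abs, abs_of_nonneg (by positivity), ← Real.exp_add, ← Real.exp_add,
      Real.exp_le_exp]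
    have e1 : |u| ≤ |x| + |u - x| := by
      have := abs_add_le x (u - x)
      simpa using this
    have e2 : a * |u| ≤ |a| * (|x| + |u - x|) :=
      (mul_le_mul_of_nonneg_right (le_abs_self a) (abs_nonneg u)).trans
        (mul_le_mul_of_nonneg_left e1 (abs_nonneg a))
    have e3 : |a| * |u - x| ≤ c / 2 * (u - x) ^ 2 + a ^ 2 / (2 * c) := by
      rw [← sq_abs (u - x), ← sq_abs a]
      have : c / 2 * |u - x| ^ 2 + |a| ^ 2 / (2 * c) - |a| * |u - x| =
          (c * |u - x| - |a|) ^ 2 / (2 * c) := by field_simp; ring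
      have h4 : 0 ≤ (c * |u - x| - |a|) ^ 2 / (2 * c) := by positivity
      linarith
    nlinarith
  exact ((lintegral_ofReal_le_lintegral_enorm _).trans_lt h2.2).ne

theorem in_enorm_sq (a : ℝ) : ‖a‖ₑ ^ (2 : ℝ) = ENNReal.ofReal (a ^ 2) := by
  rw [Real.enorm_eq_ofReal_abs, ENNReal.ofReal_rpow_of_nonneg (abs_nonneg a) (by norm_num)]
  congr 1
  rw [show (2 : ℝ) = ((2 : ℕ) : ℝ) by norm_num, Real.rpow_natCast, sq_abs]

/-- `L^2` bound for an integral in `u` of a jointly measurable field -/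
theorem in_cs' [SFinite P] {c : ℝ} (x : ℝ) {D : ℝ × Ω → ℝ} (hD : Measurable D) :
    ∫⁻ ω, (∫⁻ u, ‖D (u, ω)‖ₑ) ^ (2 : ℝ) ∂P ≤
      (∫⁻ u, ENNReal.ofReal (Real.exp (-c * (u - x) ^ 2))) *
        ∫⁻ u, ∫⁻ ω, ENNReal.ofReal (D (u, ω) ^ 2 * Real.exp (c * (u - x) ^ 2)) ∂P := by
  have h := in_cs (P := P) (v := fun u => ‖Real.exp (-(c / 2) * (u - x) ^ 2)‖ₑ)
    (E := fun p => ‖D p * Real.exp (c / 2 * (p.1 - x) ^ 2)‖ₑ) (by fun_prop) (by fun_prop)
  have e1 : ∀ u ω, ‖Real.exp (-(c / 2) * (u - x) ^ 2)‖ₑ *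
      ‖D (u, ω) * Real.exp (c / 2 * (u - x) ^ 2)‖ₑ = ‖D (u, ω)‖ₑ := fun u ω => by
    rw [← enorm_mul, mul_left_comm, ← Real.exp_add]
    simp
  have e2 : ∀ u : ℝ, Real.exp (-(c / 2) * (u - x) ^ 2) ^ 2 = Real.exp (-c * (u - x) ^ 2) :=
    fun u => by rw [← Real.exp_nat_mul]; congr 1; push_cast; ring
  have e3 : ∀ u : ℝ, Real.exp (c / 2 * (u - x) ^ 2) ^ 2 = Real.exp (c * (u - x) ^ 2) :=
    fun u => by rw [← Real.exp_nat_mul]; congr 1; push_cast; ring
  simp only [e1, in_enorm_sq, e2, mul_pow, e3] at h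
  exact h

theorem in_heat_le {t : ℝ} (ht : 0 < t) (x u : ℝ) {c : ℝ} (hc : c ≤ 1 / (2 * t)) :
    heat t (x - u) ≤ (√(2 * Real.pi * t))⁻¹ * Real.exp (-c * (u - x) ^ 2) := by
  rw [heat]
  refine mul_le_mul_of_nonneg_left (Real.exp_le_exp.2 ?_) (by positivity)
  have : -(x - u) ^ 2 / (2 * t) = -(1 / (2 * t)) * (u - x) ^ 2 := by ring
  rw [this]
  nlinarith [sq_nonneg (u - x)]

theorem in_lin_int (hN : IsNoise P B W) {t : ℝ} (ht : 0 < t) (x : ℝ) :
    ∀ᵐ ω ∂P, Integrable fun u => heat t (x - u) * Real.exp (B u ω) := by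
  have := hN.prob
  have hh : Measurable fun u : ℝ => heat t (x - u) :=
    measurable_heat.comp (measurable_const.prodMk (measurable_const.sub measurable_id))
  have hD : Measurable fun p : ℝ × Ω => heat t (x - p.1) * Real.exp (B p.1 p.2) :=
    (hh.comp measurable_fst).mul hN.measB.exp
  have hc : (0 : ℝ) < 1 / (2 * t) := by positivity
  have hfin : ∫⁻ ω, ∫⁻ u, ‖heat t (x - u) * Real.exp (B u ω)‖ₑ ∂volume ∂P ≠ ⊤ := by
    rw [← lintegral_lintegral_swap
      (f := fun u ω => ‖heat t (x - u) * Real.exp (B u ω)‖ₑ) hD.enorm.aemeasurable]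
    refine ne_top_of_le_ne_top (in_gauss hc x (√(2 * Real.pi * t))⁻¹ (1 / 2))
      (lintegral_mono fun u => ?_)
    obtain ⟨a, b⟩ := in_expB hN u 1
    simp only [one_mul] at a b
    have h0 := heat_nonneg t (x - u)
    have e : ∀ ω, ‖heat t (x - u) * Real.exp (B u ω)‖ₑ =
        ENNReal.ofReal (heat t (x - u) * Real.exp (B u ω)) := fun ω =>
      Real.enorm_eq_ofReal (by positivity)
    simp only [e]
    rw [← ofReal_integral_eq_lintegral_ofReal (a.const_mul _)
      (Eventually.of_forall fun ω => by positivity), integral_const_mul, b]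
    refine ENNReal.ofReal_le_ofReal ?_
    have e2 : |u| * 1 ^ 2 / 2 = 1 / 2 * |u| := by ring
    rw [e2, ← mul_assoc]
    exact mul_le_mul_of_nonneg_right (in_heat_le ht x u le_rfl) (by positivity)
  filter_upwards [ae_lt_top hD.enorm.lintegral_prod_left' hfin] with ω hω
  exact ⟨(hD.comp (measurable_id.prodMk measurable_const)).aestronglyMeasurable, hω⟩

theorem in_ji_lim (u : ℝ) : Tendsto (fun M : ℕ => 2 * (ji M 0 u : ℝ) / M) atTop (𝓝 u) := by
  have h1 : Tendsto (fun M : ℕ => u - 2 / (M : ℝ)) atTop (𝓝 u) := by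
    have := (tendsto_const_div_atTop_nhds_zero_nat (2 : ℝ)).const_sub u
    simpa using this
  refine tendsto_of_tendsto_of_tendsto_of_le_of_le' h1 tendsto_const_nhds ?_ ?_
  · filter_upwards [eventually_ge_atTop 1] with M hM
    have := (ji_bounds hM 0 u).2
    have e : (2 * (ji M 0 u : ℝ) + (0 : ℕ) + 2) / M = 2 * (ji M 0 u : ℝ) / M + 2 / M := by
      push_cast; ring
    linarith
  · filter_upwards [eventually_ge_atTop 1] with M hM
    have := (ji_bounds hM 0 u).1
    simpa using this.le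

theorem in_ji_abs {M : ℕ} (hM : 1 ≤ M) (u : ℝ) : 8 * |(ji M 0 u : ℝ)| / M ≤ 4 * |u| + 8 := by
  have hM' : (1 : ℝ) ≤ M := by exact_mod_cast hM
  obtain ⟨a, b⟩ := ji_bounds hM 0 u
  have e1 : (2 * (ji M 0 u : ℝ) + (0 : ℕ) + 2) / M = 2 * ((ji M 0 u : ℝ) / M) + 2 / M := by
    push_cast; ring
  have e2 : (2 * (ji M 0 u : ℝ) + (0 : ℕ)) / M = 2 * ((ji M 0 u : ℝ) / M) := by
    push_cast; ring
  have e3 : 2 / (M : ℝ) ≤ 2 := div_le_self (by norm_num) hM'
  have e4 : 8 * |(ji M 0 u : ℝ)| / M = 8 * |(ji M 0 u : ℝ) / M| := by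
    rw [abs_div, abs_of_pos (show (0 : ℝ) < M by linarith)]; ring
  rw [e4]
  have : |(ji M 0 u : ℝ) / M| ≤ |u| / 2 + 1 := by
    rw [abs_le]
    constructor
    · have := neg_abs_le u; linarith
    · have := le_abs_self u; linarith
  linarith

theorem init_conv (hN : IsNoise P B W) (hQ : Quant Tx Tc) {t x : ℝ} (ht : 0 < t) {n : ℕ → ℕ}
    {k : ℕ → ℤ} (h : Lat t x n k) :
    Tendsto (fun M => eLpNorm (fun ω => lind M (n M) (k M) (lift Tx Tc B W M ω) - lin B t x ω) 2 P)
      atTop (𝓝 0) := by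
  have := hN.prob
  obtain ⟨C, c₁, hc₁, hK⟩ := K0_dom ht h
  set c : ℝ := min c₁ (1 / (2 * t)) with hc
  have hc0 : 0 < c := lt_min hc₁ (by positivity)
  set C' : ℝ := |C| + (√(2 * Real.pi * t))⁻¹ with hC'
  have hh : Measurable fun u : ℝ => heat t (x - u) :=
    measurable_heat.comp (measurable_const.prodMk (measurable_const.sub measurable_id))
  set D : ℕ → ℝ × Ω → ℝ := fun M p =>
    K0 M (n M) (k M) p.1 * zd M 0 (ji M 0 p.1) (lift Tx Tc B W M p.2) -
      heat t (x - p.1) * Real.exp (B p.1 p.2) with hDdef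
  have hD : ∀ M, Measurable (D M) := fun M => by
    have h1 : Measurable fun q : ℤ × Ω => zd M 0 q.1 (lift Tx Tc B W M q.2) :=
      measurable_from_prod_countable_right fun j =>
        (measurable_zd M 0 j).comp (measurable_lift hN hQ M)
    have h2 := h1.comp (((measurable_ji M 0).comp measurable_fst).prodMk
      (measurable_snd (α := ℝ) (β := Ω)))
    exact (((measurable_K0 M _ _).comp measurable_fst).mul h2).sub
      ((hh.comp measurable_fst).mul hN.measB.exp)
  set F : ℕ → ℝ → ℝ≥0∞ := fun M u =>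
    ∫⁻ ω, ENNReal.ofReal (D M (u, ω) ^ 2 * Real.exp (c * (u - x) ^ 2)) ∂P with hF
  set I : ℕ → ℝ → ℝ := fun M u =>
    ∫ ω, (zd M 0 (ji M 0 u) (lift Tx Tc B W M ω) - Real.exp (B u ω)) ^ 2 ∂P with hI
  have hFle : ∀ M, 6 ≤ M → ∀ u, F M u ≤ ENNReal.ofReal
      ((2 * K0 M (n M) (k M) u ^ 2 * I M u +
        2 * (K0 M (n M) (k M) u - heat t (x - u)) ^ 2 * Real.exp (2 * |u|)) *
          Real.exp (c * (u - x) ^ 2)) := fun M hM u => by
    obtain ⟨a, -⟩ := in_diff_int hN hQ hM (ji M 0 u) u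
    obtain ⟨e, f⟩ := in_expB hN u 2
    have e2 : |u| * 2 ^ 2 / 2 = 2 * |u| := by ring
    rw [e2] at f
    have a' := a.const_mul (2 * K0 M (n M) (k M) u ^ 2)
    have e' := e.const_mul (2 * (K0 M (n M) (k M) u - heat t (x - u)) ^ 2)
    have hs : Integrable (fun ω => 2 * K0 M (n M) (k M) u ^ 2 *
        (zd M 0 (ji M 0 u) (lift Tx Tc B W M ω) - Real.exp (B u ω)) ^ 2 +
        2 * (K0 M (n M) (k M) u - heat t (x - u)) ^ 2 * Real.exp (2 * B u ω)) P := a'.add e'
    rw [← f, hI, ← integral_const_mul, ← integral_const_mul, ← integral_add a' e',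
      ← integral_mul_const, ofReal_integral_eq_lintegral_ofReal (hs.mul_const _)
        (Eventually.of_forall fun ω => by positivity)]
    refine lintegral_mono fun ω => ENNReal.ofReal_le_ofReal
      (mul_le_mul_of_nonneg_right ?_ (by positivity))
    have : Real.exp (2 * B u ω) = Real.exp (B u ω) ^ 2 := by
      rw [← Real.exp_nat_mul]; norm_num
    rw [this]
    simp only [hDdef]
    nlinarith [sq_nonneg (K0 M (n M) (k M) u *
      (zd M 0 (ji M 0 u) (lift Tx Tc B W M ω) - Real.exp (B u ω)) -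
        (K0 M (n M) (k M) u - heat t (x - u)) * Real.exp (B u ω))]
  have hlim : Tendsto (fun M => ∫⁻ u, F M u) atTop (𝓝 0) := by
    have key := tendsto_lintegral_filter_of_dominated_convergence (μ := volume) (l := atTop)
      (F := F) (f := fun _ => 0)
      (fun u => ENNReal.ofReal (C' ^ 2 * (10 * Real.exp 8) *
        (Real.exp (-c * (u - x) ^ 2) * Real.exp (4 * |u|))))
      (Eventually.of_forall fun M => by
        have : Measurable fun p : ℝ × Ω =>
            ENNReal.ofReal (D M p ^ 2 * Real.exp (c * (p.1 - x) ^ 2)) := by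
          have := hD M
          fun_prop
        exact this.lintegral_prod_right') ?_ (in_gauss hc0 x _ 4) ?_
    · simpa using key
    · filter_upwards [hK, eventually_ge_atTop 6] with M h1 h2
      refine Eventually.of_forall fun u => (hFle M h2 u).trans (ENNReal.ofReal_le_ofReal ?_)
      set w := Real.exp (-c * (u - x) ^ 2) with hw
      have hw0 : 0 < w := Real.exp_pos _
      have hw1 : w * Real.exp (c * (u - x) ^ 2) = 1 := by
        rw [hw, ← Real.exp_add]; simp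
      have k0 := K0_nonneg M (n M) (k M) u
      have g0 := heat_nonneg t (x - u)
      have s0 : 0 ≤ (√(2 * Real.pi * t))⁻¹ := by positivity
      have k1 : K0 M (n M) (k M) u ≤ C' * w := by
        have p1 : Real.exp (-c₁ * (u - x) ^ 2) ≤ w := by
          rw [hw, Real.exp_le_exp]
          nlinarith [min_le_left c₁ (1 / (2 * t)), sq_nonneg (u - x)]
        calc K0 M (n M) (k M) u ≤ C * Real.exp (-c₁ * (u - x) ^ 2) := h1 u
          _ ≤ |C| * Real.exp (-c₁ * (u - x) ^ 2) :=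
            mul_le_mul_of_nonneg_right (le_abs_self C) (by positivity)
          _ ≤ |C| * w := mul_le_mul_of_nonneg_left p1 (abs_nonneg C)
          _ ≤ C' * w := mul_le_mul_of_nonneg_right (by rw [hC']; linarith) hw0.le
      have g1 : heat t (x - u) ≤ C' * w :=
        (in_heat_le ht x u (min_le_right _ _)).trans
          (mul_le_mul_of_nonneg_right (by rw [hC']; have := abs_nonneg C; linarith) hw0.le)
      have k2 : K0 M (n M) (k M) u ^ 2 ≤ (C' * w) ^ 2 := pow_le_pow_left₀ k0 k1 2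
      have g2 : (K0 M (n M) (k M) u - heat t (x - u)) ^ 2 ≤ (C' * w) ^ 2 :=
        sq_le_sq' (by linarith) (by linarith)
      set Y := Real.exp 8 * Real.exp (4 * |u|) with hY
      have y1 : Real.exp (2 * |u|) ≤ Y := by
        rw [hY, ← Real.exp_add, Real.exp_le_exp]; have := abs_nonneg u; linarith
      have y2 : I M u ≤ 4 * Y := by
        have q1 := (in_diff_int hN hQ h2 (ji M 0 u) u).2
        have q2 : Real.exp (8 * |(ji M 0 u : ℝ)| / M) ≤ Y := by
          rw [hY, ← Real.exp_add, Real.exp_le_exp]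
          have := in_ji_abs (show 1 ≤ M by omega) u
          linarith
        simp only [hI]
        linarith
      have i0 : 0 ≤ I M u := integral_nonneg fun ω => sq_nonneg _
      have z1 : K0 M (n M) (k M) u ^ 2 * I M u ≤ (C' * w) ^ 2 * (4 * Y) :=
        mul_le_mul k2 y2 i0 (by positivity)
      have z2 : (K0 M (n M) (k M) u - heat t (x - u)) ^ 2 * Real.exp (2 * |u|) ≤
          (C' * w) ^ 2 * Y := mul_le_mul g2 y1 (by positivity) (by positivity)
      calc _ ≤ (10 * ((C' * w) ^ 2 * Y)) * Real.exp (c * (u - x) ^ 2) :=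
            mul_le_mul_of_nonneg_right (by linarith) (by positivity)
        _ = 10 * (C' ^ 2 * w * Y) * (w * Real.exp (c * (u - x) ^ 2)) := by ring
        _ = _ := by rw [hw1, hY]; ring
    · refine Eventually.of_forall fun u => ?_
      have l1 := K0_lim ht h u
      have l2 : Tendsto (fun M => I M u) atTop (𝓝 0) := init_point hN hQ (in_ji_lim u)
      have l3 := ((((l1.pow 2).const_mul 2).mul l2).add
        ((((l1.sub_const (heat t (x - u))).pow 2).const_mul 2).mul_const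
          (Real.exp (2 * |u|)))).mul_const (Real.exp (c * (u - x) ^ 2))
      have l4 := ENNReal.tendsto_ofReal l3
      simp only [mul_zero, sub_self, ne_eq, OfNat.ofNat_ne_zero, not_false_eq_true, zero_pow,
        zero_mul, add_zero, ENNReal.ofReal_zero] at l4
      refine tendsto_of_tendsto_of_tendsto_of_le_of_le' tendsto_const_nhds l4
        (Eventually.of_forall fun _ => zero_le) ?_
      filter_upwards [eventually_ge_atTop 6] with M hM
      exact hFle M hM u
  have hG : ∫⁻ u, ENNReal.ofReal (Real.exp (-c * (u - x) ^ 2)) ≠ ⊤ := by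
    simpa using in_gauss hc0 x 1 0
  have hlim2 := ENNReal.Tendsto.const_mul hlim (Or.inr hG)
  have hlim3 := (ENNReal.continuous_rpow_const (y := 1 / 2)).continuousAt.tendsto.comp hlim2
  rw [mul_zero, ENNReal.zero_rpow_of_pos (by norm_num)] at hlim3
  refine tendsto_of_tendsto_of_tendsto_of_le_of_le' tendsto_const_nhds hlim3
    (Eventually.of_forall fun _ => zero_le) ?_
  filter_upwards [eventually_ge_atTop 1] with M hM
  rw [eLpNorm_eq_lintegral_rpow_enorm_toReal (by norm_num) (by norm_num)]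
  simp only [ENNReal.toReal_ofNat, Function.comp_apply]
  refine ENNReal.rpow_le_rpow (le_trans (lintegral_mono_ae ?_) (in_cs' (c := c) x (hD M)))
    (by norm_num)
  filter_upwards [in_lin_int hN ht x] with ω hω
  refine ENNReal.rpow_le_rpow ?_ (by norm_num)
  obtain ⟨a, b⟩ := K0_int hM (n M) (k M) fun j => zd M 0 j (lift Tx Tc B W M ω)
  rw [lind, ← b, lin, ← integral_sub a hω]
  exact enorm_integral_le_lintegral_enorm _

end Pool.Agent.K6329
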