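import Pool.Agent.Lib.MP_632999_pr.K.Split
import Pool.Agent.Lib.MP_632999_pr.K.Err
import Pool.Agent.Lib.MP_632999_pr.K.Init

/-! The contraction (owner 20). -/

namespace Pool.Agent.K6329

open MeasureTheory ProbabilityTheory Filter Topology Set Function
open scoped NNReal ENNReal

variable {Ω : Type} [MeasurableSpace Ω] {P : Measure Ω} {B : ℝ → Ω → ℝ} {W : Test → Ω → ℝ}
  {Z : ℝ → ℝ → Ω → ℝ} {Tx Tc : ℕ → ℝ → ℝ}

theorem ct_sq {α : Type} [MeasurableSpace α] (μ : Measure α) (f : α → ℝ) :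
    eLpNorm f 2 μ ^ 2 = ∫⁻ a, ‖f a‖ₑ ^ 2 ∂μ := by
  rw [eLpNorm_eq_lintegral_rpow_enorm_toReal two_ne_zero ENNReal.ofNat_ne_top]
  simp only [ENNReal.toReal_ofNat]
  rw [← ENNReal.rpow_natCast, ← ENNReal.rpow_mul]
  norm_num

theorem ct_le_of_sq {x : ℝ≥0∞} {c : ℝ} (hc : 0 ≤ c) (h : x ^ 2 ≤ ENNReal.ofReal (c ^ 2)) :
    x ≤ ENNReal.ofReal c := by
  rw [ENNReal.ofReal_pow hc] at h
  exact (ENNReal.pow_le_pow_left_iff two_ne_zero).1 h

theorem ct_enorm_sq (x : ℝ) : ‖x‖ₑ ^ 2 = ENNReal.ofReal (x ^ 2) := by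
  rw [Real.enorm_eq_ofReal_abs, ← ENNReal.ofReal_pow (abs_nonneg x), sq_abs]

theorem ct_le {α : Type} [MeasurableSpace α] {μ : Measure α} {f : α → ℝ} (hf : MemLp f 2 μ)
    {c : ℝ} (h : ∫ a, f a ^ 2 ∂μ ≤ c) : eLpNorm f 2 μ ≤ ENNReal.ofReal (√c) := by
  refine ct_le_of_sq (Real.sqrt_nonneg c) ?_
  rw [ct_sq]
  simp only [ct_enorm_sq]
  rw [← ofReal_integral_eq_lintegral_ofReal hf.integrable_sq
    (Eventually.of_forall fun a => sq_nonneg _)]
  refine ENNReal.ofReal_le_ofReal (h.trans ?_)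
  rw [Real.sq_sqrt']; exact le_max_left _ _

theorem ct_tonelli [SFinite P] {κ : ℝ × ℝ → ℝ} {F : (ℝ × ℝ) × Ω → ℝ} (hκ : Measurable κ)
    (hF : Measurable F) :
    Measurable (fun q => ENNReal.ofReal (κ q ^ 2) * eLpNorm (fun ω => F (q, ω)) 2 P ^ 2) ∧
    eLpNorm (fun p : (ℝ × ℝ) × Ω => κ p.1 * F p) 2 (volume.prod P) ^ 2 =
      ∫⁻ q, ENNReal.ofReal (κ q ^ 2) * eLpNorm (fun ω => F (q, ω)) 2 P ^ 2 := by
  have hm : Measurable fun p : (ℝ × ℝ) × Ω => ‖F p‖ₑ ^ 2 := hF.enorm.pow_const 2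
  constructor
  · simp only [ct_sq]
    exact (hκ.pow_const 2).ennreal_ofReal.mul hm.lintegral_prod_right'
  · have hm2 : Measurable fun p : (ℝ × ℝ) × Ω => ‖κ p.1 * F p‖ₑ ^ 2 :=
      ((hκ.comp measurable_fst).mul hF).enorm.pow_const 2
    rw [ct_sq, lintegral_prod _ hm2.aemeasurable]
    refine lintegral_congr fun q => ?_
    have hm3 : Measurable fun ω => ‖F (q, ω)‖ₑ ^ 2 := hm.comp measurable_prodMk_left
    rw [ct_sq, ← lintegral_const_mul _ hm3]
    refine lintegral_congr fun ω => ?_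
    rw [enorm_mul, mul_pow, ct_enorm_sq]

theorem ct_cosh_mono {a b : ℝ} (hb : 0 ≤ b) (h : b ≤ a) (x : ℝ) :
    Real.cosh (b * x) ≤ Real.cosh (a * x) := by
  rw [Real.cosh_le_cosh, abs_mul, abs_mul, abs_of_nonneg hb, abs_of_nonneg (hb.trans h)]
  exact mul_le_mul_of_nonneg_right h (abs_nonneg x)

theorem ct_exp_le (y : ℝ) : Real.exp |y| ≤ 2 * Real.cosh y := by
  rw [← Real.cosh_abs, Real.cosh_eq]
  have := Real.exp_pos (-|y|)
  linarith

theorem ct_cosh_shift {x y : ℝ} (h : |y - x| ≤ 4) : Real.cosh y ≤ 2 * Real.exp 4 * Real.cosh x := by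
  have h1 : Real.cosh y ≤ Real.exp |y| := by
    rw [← Real.cosh_abs, Real.cosh_eq]
    have : Real.exp (-|y|) ≤ Real.exp |y| := Real.exp_le_exp.2 (by linarith [abs_nonneg y])
    linarith
  have h2 : |y| ≤ 4 + |x| := by
    have := abs_add_le (y - x) x
    rw [sub_add_cancel] at this; linarith
  calc Real.cosh y ≤ Real.exp (4 + |x|) := h1.trans (Real.exp_le_exp.2 h2)
    _ = Real.exp 4 * Real.exp |x| := Real.exp_add _ _
    _ ≤ Real.exp 4 * (2 * Real.cosh x) :=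
        mul_le_mul_of_nonneg_left (ct_exp_le x) (Real.exp_pos 4).le
    _ = _ := by ring

/-- the size of `Z` in the weight `cosh` -/
theorem ct_Z (hZ : IsMild P B W Z) (T : ℝ) : ∃ C a : ℝ, 0 ≤ C ∧ 4 ≤ a ∧ ∀ t, 0 < t → t ≤ T → ∀ x,
    eLpNorm (Z t x) 2 P ≤ ENNReal.ofReal (C * √(Real.cosh (a * x))) := by
  obtain ⟨C, a, h⟩ := hZ.bound T
  refine ⟨√(2 * |C|), max |a| 4, Real.sqrt_nonneg _, le_max_right _ _, fun t ht hT x => ?_⟩
  rw [← Real.sqrt_mul (by positivity)]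
  refine ct_le (hZ.sq t ht x) ((h t ht hT x).trans ?_)
  have h1 : Real.exp (a * |x|) ≤ 2 * Real.cosh (max |a| 4 * x) := by
    refine le_trans (Real.exp_le_exp.2 ?_) (ct_exp_le _)
    rw [abs_mul]
    exact mul_le_mul_of_nonneg_right
      ((le_abs_self a).trans ((le_max_left _ _).trans (le_abs_self _))) (abs_nonneg x)
  calc C * Real.exp (a * |x|) ≤ |C| * Real.exp (a * |x|) :=
        mul_le_mul_of_nonneg_right (le_abs_self C) (Real.exp_pos _).le
    _ ≤ |C| * (2 * Real.cosh (max |a| 4 * x)) := mul_le_mul_of_nonneg_left h1 (abs_nonneg C)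
    _ = _ := by ring

theorem ct_measZ (hZ : IsMild P B W Z) (t x : ℝ) : Measurable (Z t x) :=
  hZ.meas.comp (f := fun ω : Ω => (((t, x), ω) : (ℝ × ℝ) × Ω)) (by fun_prop)

theorem ct_half {f g h : Ω → ℝ} (hf : Measurable f) (hg : Measurable g) (hh : Measurable h)
    {c : ℝ} (hc : 0 ≤ c) (h1 : eLpNorm (fun ω => f ω - h ω) 2 P ≤ ENNReal.ofReal c)
    (h2 : eLpNorm (fun ω => g ω - h ω) 2 P ≤ ENNReal.ofReal c) :
    eLpNorm (fun ω => (f ω + g ω) / 2 - h ω) 2 P ≤ ENNReal.ofReal c := by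
  have e : (fun ω => (f ω + g ω) / 2 - h ω) =
      (1 / 2 : ℝ) • ((fun ω => f ω - h ω) + fun ω => g ω - h ω) := by
    funext ω; simp only [Pi.smul_apply, Pi.add_apply, smul_eq_mul]; ring
  rw [e, eLpNorm_const_smul]
  have h3 := eLpNorm_add_le (μ := P) (p := 2) (hf.sub hh).aestronglyMeasurable
    (hg.sub hh).aestronglyMeasurable one_le_two
  calc ‖(1 / 2 : ℝ)‖ₑ * eLpNorm ((fun ω => f ω - h ω) + fun ω => g ω - h ω) 2 P
      ≤ ENNReal.ofReal (1 / 2) * (ENNReal.ofReal c + ENNReal.ofReal c) := by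
        rw [Real.enorm_eq_ofReal (by norm_num)]
        exact mul_le_mul_right (h3.trans (add_le_add h1 h2)) _
    _ = ENNReal.ofReal c := by
        rw [← ENNReal.ofReal_add hc hc, ← ENNReal.ofReal_mul (by norm_num)]
        congr 1; ring

/-- one contraction step for the last error term -/
theorem ct_step (hN : IsNoise P B W) (hZ : IsMild P B W Z) (hQ : Quant Tx Tc) {T a lam K K' : ℝ}
    (hK : 0 < K) (hK' : 0 ≤ K') (hlam : 0 ≤ lam)
    (hc : ∀ t, 0 < t → t ≤ T → ∀ x, ∫⁻ q : ℝ × ℝ,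
      ENNReal.ofReal (hk t x q ^ 2 * (Real.exp (lam * q.1) * Real.cosh (a * q.2))) ≤
        ENNReal.ofReal (Real.exp (lam * t) * Real.cosh (a * x) / 4))
    (hd : ∀ M : ℕ, 6 ≤ M → ∀ q : ℝ × ℝ, 0 < q.1 → q.1 ≤ T →
      eLpNorm (fun ω => zbt M q (lift Tx Tc B W M ω) - Z q.1 q.2 ω) 2 P ≤
        ENNReal.ofReal (K' * √(Real.cosh (a * q.2))))
    (ih : ∀ t, 0 < t → t ≤ T → ∀ x n k, Lat t x n k → ∀ᶠ M in atTop,
      eLpNorm (fun ω => zd M (n M) (k M) (lift Tx Tc B W M ω) - Z t x ω) 2 P ≤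
        ENNReal.ofReal (K * √(Real.exp (lam * t) * Real.cosh (a * x))))
    {t : ℝ} (ht : 0 < t) (hT : t ≤ T) (x : ℝ) : ∀ᶠ M in atTop,
      eLpNorm (fun p : (ℝ × ℝ) × Ω =>
        hk t x p.1 * (zbt M p.1 (lift Tx Tc B W M p.2) - Z p.1.1 p.1.2 p.2)) 2 (volume.prod P) ≤
        ENNReal.ofReal (5 / 8 * K * √(Real.exp (lam * t) * Real.cosh (a * x))) := by
  have := hN.prob
  have hw : ∀ r u : ℝ, 0 < Real.exp (lam * r) * Real.cosh (a * u) := fun r u =>
    mul_pos (Real.exp_pos _) (Real.cosh_pos _)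
  have hF : ∀ M, Measurable fun p : (ℝ × ℝ) × Ω =>
      zbt M p.1 (lift Tx Tc B W M p.2) - Z p.1.1 p.1.2 p.2 := fun M =>
    (measurable_zbt hN hQ M).sub hZ.meas
  set φ : ℕ → ℝ × ℝ → ℝ≥0∞ := fun M q => ENNReal.ofReal (hk t x q ^ 2) *
    eLpNorm (fun ω => zbt M q (lift Tx Tc B W M ω) - Z q.1 q.2 ω) 2 P ^ 2 with hφ
  have hφm : ∀ M, Measurable (φ M) := fun M => (ct_tonelli (measurable_hk t x) (hF M)).1
  have hwm : Measurable fun q : ℝ × ℝ =>
      ENNReal.ofReal (hk t x q ^ 2 * (Real.exp (lam * q.1) * Real.cosh (a * q.2))) := by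
    have := measurable_hk t x
    refine Measurable.ennreal_ofReal (Measurable.mul (by fun_prop) ?_)
    exact (Continuous.measurable (by fun_prop))
  have gen : ∀ (M : ℕ) (q : ℝ × ℝ) (c : ℝ), 0 ≤ c → (0 < q.1 → q.1 < t →
      eLpNorm (fun ω => zbt M q (lift Tx Tc B W M ω) - Z q.1 q.2 ω) 2 P ≤
        ENNReal.ofReal (c * √(Real.exp (lam * q.1) * Real.cosh (a * q.2)))) →
      φ M q ≤ ENNReal.ofReal (c ^ 2) *
        ENNReal.ofReal (hk t x q ^ 2 * (Real.exp (lam * q.1) * Real.cosh (a * q.2))) := by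
    intro M q c hc0 h
    by_cases hq : 0 < q.1 ∧ q.1 < t
    · have h1 := pow_le_pow_left' (h hq.1 hq.2) 2
      rw [← ENNReal.ofReal_pow (by positivity), mul_pow, Real.sq_sqrt (hw _ _).le] at h1
      refine (mul_le_mul_right h1 _).trans (le_of_eq ?_)
      rw [← ENNReal.ofReal_mul (sq_nonneg _), ← ENNReal.ofReal_mul (sq_nonneg _)]
      congr 1; ring
    · simp [hφ, hk, hq]
  have hdom : ∀ M, φ (M + 6) ≤ᵐ[volume] fun q => ENNReal.ofReal (K' ^ 2) *
      ENNReal.ofReal (hk t x q ^ 2 * (Real.exp (lam * q.1) * Real.cosh (a * q.2))) := fun M =>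
    Eventually.of_forall fun q => gen (M + 6) q K' hK' fun h0 h1 => by
      refine (hd (M + 6) (by omega) q h0 (h1.le.trans hT)).trans (ENNReal.ofReal_le_ofReal ?_)
      refine mul_le_mul_of_nonneg_left (Real.sqrt_le_sqrt ?_) hK'
      exact le_mul_of_one_le_left (Real.cosh_pos _).le (Real.one_le_exp (by positivity))
  have hfin : ∫⁻ q : ℝ × ℝ, ENNReal.ofReal (K' ^ 2) *
      ENNReal.ofReal (hk t x q ^ 2 * (Real.exp (lam * q.1) * Real.cosh (a * q.2))) ≠ ⊤ := by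
    rw [lintegral_const_mul _ hwm]
    exact ENNReal.mul_ne_top ENNReal.ofReal_ne_top
      (ne_top_of_le_ne_top ENNReal.ofReal_ne_top (hc t ht hT x))
  have hls := limsup_lintegral_le _ (fun M => hφm (M + 6)) hdom hfin
  have hpt : ∀ q : ℝ × ℝ, limsup (fun M => φ (M + 6) q) atTop ≤ ENNReal.ofReal (K ^ 2) *
      ENNReal.ofReal (hk t x q ^ 2 * (Real.exp (lam * q.1) * Real.cosh (a * q.2))) := by
    intro q
    refine limsup_le_of_le (by isBoundedDefault) ((tendsto_add_atTop_nat 6).eventually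
      (p := fun M => φ M q ≤ _) ?_)
    by_cases hq : 0 < q.1 ∧ q.1 < t
    · filter_upwards [ih q.1 hq.1 (hq.2.le.trans hT) q.2 _ _ (lat_cell hq.1 q.2 0),
        ih q.1 hq.1 (hq.2.le.trans hT) q.2 _ _ (lat_cell hq.1 q.2 1)] with M h0 h1
      refine gen M q K hK.le fun _ _ => ?_
      simp only [add_zero] at h0
      exact ct_half ((measurable_zd _ _ _).comp (measurable_lift hN hQ M))
        ((measurable_zd _ _ _).comp (measurable_lift hN hQ M)) (ct_measZ hZ _ _)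
        (by positivity) h0 h1
    · exact Eventually.of_forall fun M => gen M q K hK.le fun h0 h1 => absurd ⟨h0, h1⟩ hq
  have hlt : limsup (fun M => ∫⁻ q, φ (M + 6) q) atTop <
      ENNReal.ofReal ((5 / 8 * K * √(Real.exp (lam * t) * Real.cosh (a * x))) ^ 2) := by
    refine lt_of_le_of_lt (hls.trans (lintegral_mono hpt)) ?_
    rw [lintegral_const_mul _ hwm]
    refine lt_of_le_of_lt (mul_le_mul_right (hc t ht hT x) _) ?_
    rw [← ENNReal.ofReal_mul (sq_nonneg _), mul_pow, Real.sq_sqrt (hw _ _).le,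
      ENNReal.ofReal_lt_ofReal_iff (by have := hw t x; positivity)]
    have := mul_pos (pow_pos hK 2) (hw t x)
    nlinarith
  have hev := eventually_lt_of_limsup_lt hlt
  rw [eventually_atTop] at hev ⊢
  obtain ⟨M₀, hM₀⟩ := hev
  refine ⟨M₀ + 6, fun M hM => ?_⟩
  have h1 := hM₀ (M - 6) (by omega)
  rw [show M - 6 + 6 = M by omega] at h1
  refine ct_le_of_sq (by positivity) ?_
  rw [(ct_tonelli (measurable_hk t x) (hF M)).2]
  exact h1.le

theorem conv_L2 (hN : IsNoise P B W) (hZ : IsMild P B W Z) (hQ : Quant Tx Tc) {t x : ℝ}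
    (ht : 0 < t) {n : ℕ → ℕ} {k : ℕ → ℤ} (h : Lat t x n k) :
    Tendsto (fun M => eLpNorm (fun ω => zd M (n M) (k M) (lift Tx Tc B W M ω) - Z t x ω) 2 P)
      atTop (𝓝 0) := by
  have := hN.prob
  obtain ⟨CZ, a, hCZ, ha, hZb⟩ := ct_Z hZ t
  obtain ⟨C₁, hC₁, h₁⟩ := zd_sq hN hQ (t + 1)
  obtain ⟨C₂, hC₂, h₂⟩ := zbt_sq hN hQ t
  obtain ⟨lam, hlam, hc⟩ := hk_contr a t
  have hd : ∀ M : ℕ, 6 ≤ M → ∀ q : ℝ × ℝ, 0 < q.1 → q.1 ≤ t →
      eLpNorm (fun ω => zbt M q (lift Tx Tc B W M ω) - Z q.1 q.2 ω) 2 P ≤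
        ENNReal.ofReal ((√C₂ + CZ) * √(Real.cosh (a * q.2))) := by
    intro M hM q h0 h1
    have m1 : MemLp (fun ω => zbt M q (lift Tx Tc B W M ω)) 2 P := zb_memLp hN hQ hM _ _
    have b1 := ct_le m1 ((h₂ M hM q h0 h1).trans
      (mul_le_mul_of_nonneg_left (ct_cosh_mono (by norm_num) ha q.2) hC₂))
    rw [Real.sqrt_mul hC₂] at b1
    refine (eLpNorm_sub_le m1.1 (hZ.sq _ h0 _).1 one_le_two).trans
      ((add_le_add b1 (hZb _ h0 h1 _)).trans (le_of_eq ?_))
    rw [← ENNReal.ofReal_add (by positivity) (by positivity)]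
    congr 1; ring
  set K : ℝ := √(C₁ * (2 * Real.exp 4)) + CZ + 1 with hK
  have hK0 : 0 < K := by positivity
  have claim : ∀ i : ℕ, ∀ s, 0 < s → s ≤ t → ∀ y n k, Lat s y n k → ∀ᶠ M in atTop,
      eLpNorm (fun ω => zd M (n M) (k M) (lift Tx Tc B W M ω) - Z s y ω) 2 P ≤
        ENNReal.ofReal (K * (3 / 4) ^ i * √(Real.exp (lam * s) * Real.cosh (a * y))) := by
    intro i
    induction i with
    | zero =>
      intro s hs hst y n k hl
      have hx : ∀ᶠ M : ℕ in atTop, |(2 * (k M : ℝ) + n M) / M - y| ≤ 1 := by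
        have := (Metric.tendsto_nhds.1 hl.2) 1 one_pos
        exact this.mono fun M hM => by rw [Real.dist_eq] at hM; exact hM.le
      filter_upwards [hl.bounds hs, eventually_ge_atTop 6, hx] with M hb hM hy
      have m1 := zd_memLp hN hQ hM (n M) (k M)
      have hn : (n M : ℝ) ≤ (t + 1) * (M : ℝ) ^ 2 :=
        hb.1.trans (mul_le_mul_of_nonneg_right (by linarith) (sq_nonneg _))
      have hcs : Real.cosh (4 * ((2 * (k M : ℝ) + n M) / M)) ≤
          2 * Real.exp 4 * Real.cosh (a * y) := by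
        refine (ct_cosh_shift (x := 4 * y) ?_).trans
          (mul_le_mul_of_nonneg_left (ct_cosh_mono (by norm_num) ha y) (by positivity))
        rw [← mul_sub, abs_mul, abs_of_pos (by norm_num : (0 : ℝ) < 4)]; linarith
      have b1 := ct_le m1 ((h₁ M hM (n M) hn (k M)).trans (mul_le_mul_of_nonneg_left hcs hC₁))
      rw [← mul_assoc, Real.sqrt_mul (by positivity)] at b1
      refine (eLpNorm_sub_le m1.1 (hZ.sq _ hs _).1 one_le_two).trans
        ((add_le_add b1 (hZb _ hs hst _)).trans ?_)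
      rw [← ENNReal.ofReal_add (by positivity) (by positivity)]
      refine ENNReal.ofReal_le_ofReal ?_
      have s1 : √(Real.cosh (a * y)) ≤ √(Real.exp (lam * s) * Real.cosh (a * y)) :=
        Real.sqrt_le_sqrt
          (le_mul_of_one_le_left (Real.cosh_pos _).le (Real.one_le_exp (by positivity)))
      have s2 := Real.sqrt_nonneg (Real.cosh (a * y))
      have s3 := mul_le_mul_of_nonneg_left s1 hK0.le
      rw [pow_zero, mul_one]
      refine le_trans ?_ s3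
      rw [hK]; nlinarith
    | succ i ih =>
      intro s hs hst y n k hl
      have hKi : 0 < K * (3 / 4) ^ i := by positivity
      have hsq : 0 < √(Real.exp (lam * s) * Real.cosh (a * y)) :=
        Real.sqrt_pos.2 (mul_pos (Real.exp_pos _) (Real.cosh_pos _))
      have e4 := ct_step hN hZ hQ hKi (by positivity) hlam hc hd ih hs hst y
      have e123 := ((init_conv hN hQ hs hl).add (err2_tendsto hN hQ hs hl)).add
        (err3_tendsto hN hQ hs hl)
      simp only [add_zero] at e123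
      have hpos : (0 : ℝ≥0∞) < ENNReal.ofReal
          (1 / 8 * (K * (3 / 4) ^ i) * √(Real.exp (lam * s) * Real.cosh (a * y))) :=
        ENNReal.ofReal_pos.2 (by positivity)
      filter_upwards [e4, e123.eventually (ge_mem_nhds hpos), eventually_ge_atTop 6] with M h4 h3 hM
      refine (split4 hN hZ hQ hM (n M) (k M) hs y).trans ((add_le_add h3 h4).trans (le_of_eq ?_))
      rw [← ENNReal.ofReal_add (by positivity) (by positivity)]
      congr 1; ring
  rw [ENNReal.tendsto_nhds_zero]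
  intro ε hε
  have hlim : Tendsto (fun i : ℕ => ENNReal.ofReal
      (K * (3 / 4) ^ i * √(Real.exp (lam * t) * Real.cosh (a * x)))) atTop (𝓝 0) := by
    have := ((tendsto_pow_atTop_nhds_zero_of_lt_one (r := (3 / 4 : ℝ)) (by norm_num)
      (by norm_num)).const_mul K).mul_const (√(Real.exp (lam * t) * Real.cosh (a * x)))
    simpa using ENNReal.tendsto_ofReal this
  obtain ⟨i, hi⟩ := (hlim.eventually (ge_mem_nhds hε)).exists
  exact (claim i t ht le_rfl x n k h).mono fun M hM => hM.trans hi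

end Pool.Agent.K6329
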