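import Pool.Agent.Lib.MP_632999_pr.K.Stmt

/-! The discrete model (stationary log-gamma polymer on antidiagonals, in log variables) and its
coupling with `(B, W)`. Plan: team store file 632999_r3_h20.md. Site `k` at time `n` sits at
`t = n / M^2`, `x = (2 k + n) / M`. -/

namespace Pool.Agent.K6329

open MeasureTheory ProbabilityTheory Filter Topology Set Function
open scoped NNReal ENNReal

noncomputable section

abbrev Row : Type := ℤ → ℝ
abbrev Rows : Type := ℕ → Row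

def lse (a b : ℝ) : ℝ := Real.log (Real.exp a + Real.exp b)
def sp (u : ℝ) : ℝ := Real.log (1 + Real.exp u)

/-- the profile with increments `ξ` and value `0` at `0` -/
def prof (ξ : Row) (j : ℤ) : ℝ := ∑ k ∈ Finset.Ico 0 j, ξ k - ∑ k ∈ Finset.Ico j 0, ξ k

/-- the log partition function after `n` steps -/
def evol (h : Row) (c : Rows) : ℕ → Row
  | 0 => h
  | n + 1 => fun k => lse (evol h c n k) (evol h c n (k + 1)) - c n k

/-- point to point partition functions: `exp (evol h c n k) = sum_i exp (h (k+i)) * wt c n k i` -/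
def wt (c : Rows) : ℕ → ℤ → ℕ → ℝ
  | 0 => fun _ i => if i = 0 then 1 else 0
  | n + 1 => fun k i =>
      (wt c n k i + if i = 0 then 0 else wt c n (k + 1) (i - 1)) * Real.exp (-c n k)

/-- law of the log of a Gamma variable -/
def gam (θ : ℝ) : Measure ℝ := volume.tilted fun a => θ * a - Real.exp a
/-- law of the log of the ratio of two independent Gamma variables -/
def lgt (θ : ℝ) : Measure ℝ := volume.tilted fun u => θ * u - 2 * θ * sp u

def gA (M : ℕ) : Measure ℝ := gam ((M : ℝ) + 1)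
def gC (M : ℕ) : Measure ℝ := gam (2 * ((M : ℝ) + 1))
def mu (M : ℕ) : Measure ℝ := lgt ((M : ℝ) + 1)
abbrev N01 : Measure ℝ := gaussianReal 0 1

def piR (m : Measure ℝ) : Measure Row := Measure.infinitePi fun _ => m
def piRR (m : Measure ℝ) : Measure Rows := Measure.infinitePi fun _ => piR m
/-- law of (initial increments, noise rows) -/
def Pd (M : ℕ) : Measure (Row × Rows) := (piR (mu M)).prod (piRR (gC M))
/-- law of (dual rows of the past, increments, noise rows) -/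
def Pt (M : ℕ) : Measure (Rows × (Row × Rows)) := (piRR (gC M)).prod (Pd M)

def Hd (n : ℕ) (k : ℤ) (ω : Row × Rows) : ℝ := evol (prof ω.1) ω.2 n k
/-- the normalised partition function -/
def zd (M n : ℕ) (k : ℤ) (ω : Row × Rows) : ℝ :=
  Real.exp (Hd n k ω + n * Real.log ((2 * (M : ℝ) + 1) / 2))
def zb (M n : ℕ) (k : ℤ) (ω : Row × Rows) : ℝ := (zd M n k ω + zd M n (k + 1) ω) / 2
def eta (M : ℕ) (c : ℝ) : ℝ := (2 * (M : ℝ) + 1) * Real.exp (-c) - 1

theorem int_gam {θ : ℝ} (h : 0 < θ) : Integrable fun a => Real.exp (θ * a - Real.exp a) := by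
  have h1 := Real.GammaIntegral_convergent h
  have h2 := integrableOn_image_iff_integrableOn_abs_deriv_smul (s := (univ : Set ℝ))
    MeasurableSet.univ (f := Real.exp) (f' := Real.exp)
    (fun x _ => (Real.hasDerivAt_exp x).hasDerivWithinAt) Real.exp_injective.injOn
    (fun x => Real.exp (-x) * x ^ (θ - 1))
  rw [image_univ, Real.range_exp] at h2
  have h3 := h2.1 h1
  rw [integrableOn_univ] at h3
  refine h3.congr (Eventually.of_forall fun a => ?_)
  simp only [smul_eq_mul, abs_of_pos (Real.exp_pos a)]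
  rw [← Real.exp_mul, ← Real.exp_add, ← Real.exp_add]
  congr 1; ring

theorem abs_le_sp (u : ℝ) : |u| ≤ 2 * sp u - u := by
  have h0 : 0 ≤ sp u := Real.log_nonneg (by have := Real.exp_pos u; linarith)
  have h1 : u ≤ sp u := by
    rw [sp, Real.le_log_iff_exp_le (by positivity)]; linarith
  rw [abs_le]; constructor <;> linarith

theorem measurable_sp : Measurable sp := by unfold sp; fun_prop

theorem int_lgt {θ : ℝ} (h : 0 < θ) : Integrable fun u => Real.exp (θ * u - 2 * θ * sp u) := by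
  have h1 : Integrable fun u : ℝ => Real.exp (-θ * |u|) := by
    rw [← integrableOn_univ, ← Iic_union_Ioi (a := (0 : ℝ)), integrableOn_union]
    constructor
    · refine (integrableOn_exp_mul_Iic h 0).congr_fun (fun u hu => ?_) measurableSet_Iic
      simp only [abs_of_nonpos (mem_Iic.1 hu)]; congr 1; ring
    · refine (integrableOn_exp_mul_Ioi (neg_lt_zero.2 h) 0).congr_fun (fun u hu => ?_)
        measurableSet_Ioi
      simp only [abs_of_pos (mem_Ioi.1 hu)]
  have hm := measurable_sp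
  refine h1.mono' (Measurable.aestronglyMeasurable (by fun_prop))
    (Eventually.of_forall fun u => ?_)
  rw [Real.norm_eq_abs, abs_of_pos (Real.exp_pos _), Real.exp_le_exp]
  have := mul_le_mul_of_nonneg_left (abs_le_sp u) h.le
  nlinarith

theorem prob_gam {θ : ℝ} (h : 0 < θ) : IsProbabilityMeasure (gam θ) :=
  isProbabilityMeasure_tilted (int_gam h)
theorem prob_lgt {θ : ℝ} (h : 0 < θ) : IsProbabilityMeasure (lgt θ) :=
  isProbabilityMeasure_tilted (int_lgt h)

instance probA (M : ℕ) : IsProbabilityMeasure (gA M) := prob_gam (by positivity)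
instance probC (M : ℕ) : IsProbabilityMeasure (gC M) := prob_gam (by positivity)
instance probMu (M : ℕ) : IsProbabilityMeasure (mu M) := prob_lgt (by positivity)
instance probPiR (m : Measure ℝ) [IsProbabilityMeasure m] : IsProbabilityMeasure (piR m) := by
  unfold piR; infer_instance
instance probPiRR (m : Measure ℝ) [IsProbabilityMeasure m] : IsProbabilityMeasure (piRR m) := by
  unfold piRR; infer_instance
instance probPd (M : ℕ) : IsProbabilityMeasure (Pd M) := by unfold Pd; infer_instance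
instance probPt (M : ℕ) : IsProbabilityMeasure (Pt M) := by unfold Pt; infer_instance

/-! One step of the dynamics on increments. -/

def aOf (ξ c : Row) : Row := fun k => c k - sp (ξ k)
def bOf (ξ c : Row) : Row := fun k => c k - sp (ξ k) + ξ k
def xiOf (a b : Row) : Row := fun k => b k - a (k + 1)
def xOf (a b : Row) : Row := fun k => lse (b k) (a (k + 1))
/-- the state after one step -/
def th0 (ω : Row × Rows) : Row × Rows :=
  (xiOf (aOf ω.1 (ω.2 0)) (bOf ω.1 (ω.2 0)), fun m => ω.2 (m + 1))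

/-! Functions of the increments. -/

structure Nice (s : Finset ℤ) (L : ℝ) (F : Row → ℝ) : Prop where
  meas : Measurable F
  dep : DependsOn F (s : Set ℤ)
  lip : ∀ k ξ u v, |F (update ξ k u) - F (update ξ k v)| ≤ L * |u - v|

def MonoAt (F : Row → ℝ) (k : ℤ) : Prop := ∀ ξ, Monotone fun u => F (update ξ k u)
def AntiAt (F : Row → ℝ) (k : ℤ) : Prop := ∀ ξ, Antitone fun u => F (update ξ k u)
/-- supermodular -/
def Super (F : Row → ℝ) : Prop :=
  ∀ k l, k ≠ l → ∀ ξ u u' v v', u' ≤ u → v' ≤ v →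
    F (update (update ξ k u) l v') - F (update (update ξ k u') l v') ≤
      F (update (update ξ k u) l v) - F (update (update ξ k u') l v)
/-- slopes in one coordinate are comparable -/
def Slope (F : Row → ℝ) : Prop :=
  ∀ k ξ u u' v v', |F (update ξ k u) - F (update ξ k u')| * |v - v'| ≤
    Real.exp (|u| + |u'| + |v| + |v'|) * (|F (update ξ k v) - F (update ξ k v')| * |u - u'|)
/-- slopes right of the origin are at most `qp`, left of it at most `qm`, and `qp + qm <= 1` -/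
structure Exit (G qp qm : Row → ℝ) : Prop where
  mp : Measurable qp
  mm : Measurable qm
  p0 : ∀ ξ, 0 ≤ qp ξ
  m0 : ∀ ξ, 0 ≤ qm ξ
  le1 : ∀ ξ, qp ξ + qm ξ ≤ 1
  sp : ∀ k, 0 ≤ k → ∀ ξ u u', |G (update ξ k u) - G (update ξ k u')| ≤
    Real.exp (|u| + |u'| + |ξ k|) * qp ξ * |u - u'|
  sm : ∀ k, k < 0 → ∀ ξ u u', |G (update ξ k u) - G (update ξ k u')| ≤
    Real.exp (|u| + |u'| + |ξ k|) * qm ξ * |u - u'|
/-- the mean of `F` given the coordinate `k` -/
def cond1 (m : Measure ℝ) (F : Row → ℝ) (k : ℤ) (u : ℝ) : ℝ := ∫ ξ, F (update ξ k u) ∂piR m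

def rhoP (m : Measure ℝ) : ℝ :=
  ∫ p : ℝ × ℝ, (p.1 - p.2) ^ 2 * Real.exp (2 * (|p.1| + |p.2|)) ∂m.prod m
def rhoM (m : Measure ℝ) : ℝ :=
  ∫ p : ℝ × ℝ, (p.1 - p.2) ^ 2 * Real.exp (-(|p.1| + |p.2|)) ∂m.prod m
def om (m : Measure ℝ) : ℝ := ∫ u, Real.exp |u| ∂m - 1
def rho (M : ℕ) : ℝ := rhoP (mu M) / rhoM (mu M) * (1 + 2 * om (mu M))

/-! Kernels. -/

def pz (m : ℕ) (i : ℤ) : ℝ := if 0 ≤ i then (m.choose i.toNat : ℝ) / 2 ^ m else 0
/-- time index of the cell that holds time `r > 0` -/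
def mi (M : ℕ) (r : ℝ) : ℕ := ⌈r * (M : ℝ) ^ 2⌉₊ - 1
/-- site index of the cell of row `m` that holds the point `u` -/
def ji (M m : ℕ) (u : ℝ) : ℤ := ⌈(u * M - m) / 2⌉ - 1
def Kn (M n : ℕ) (k : ℤ) (q : ℝ × ℝ) : ℝ :=
  if 0 < q.1 ∧ mi M q.1 < n then
    pz (n - 1 - mi M q.1) (ji M (mi M q.1) q.2 - k) * ((M : ℝ) / 2) else 0
def K0 (M n : ℕ) (k : ℤ) (u : ℝ) : ℝ := pz n (ji M 0 u - k) * ((M : ℝ) / 2)
def hk (t x : ℝ) (q : ℝ × ℝ) : ℝ := if 0 < q.1 ∧ q.1 < t then heat (t - q.1) (x - q.2) else 0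
/-- lattice points that tend to `(t, x)` -/
def Lat (t x : ℝ) (n : ℕ → ℕ) (k : ℕ → ℤ) : Prop :=
  Tendsto (fun M : ℕ => (n M : ℝ) / (M : ℝ) ^ 2) atTop (𝓝 t) ∧
    Tendsto (fun M : ℕ => (2 * (k M : ℝ) + n M) / M) atTop (𝓝 x)
def cone (n : ℕ) (k : ℤ) : Finset (ℕ × ℤ) := Finset.range n ×ˢ Finset.Icc k (k + n)

/-! The coupling. -/

def cellSet (M m : ℕ) (k : ℤ) : Set (ℝ × ℝ) :=
  Ioc ((m : ℝ) / (M : ℝ) ^ 2) (((m : ℝ) + 1) / (M : ℝ) ^ 2) ×ˢ
    Ioc ((2 * (k : ℝ) + m) / M) ((2 * (k : ℝ) + m + 2) / M)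

def cell (M m : ℕ) (k : ℤ) : Test :=
  ⟨cellSet M m k, measurableSet_Ioc.prod measurableSet_Ioc, by
    rw [cellSet, Measure.volume_eq_prod, Measure.prod_prod]
    exact ENNReal.mul_ne_top measure_Ioc_lt_top.ne measure_Ioc_lt_top.ne,
    fun _ hq => ⟨le_trans (by positivity) hq.1.1.le, mem_univ _⟩⟩

/-- quantile maps from the standard Gaussian to the laws of the discrete model -/
structure Quant (Tx Tc : ℕ → ℝ → ℝ) : Prop where
  mx : ∀ M, Measurable (Tx M)
  mc : ∀ M, Measurable (Tc M)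
  lx : ∀ M, N01.map (Tx M) = mu M
  lc : ∀ M, N01.map (Tc M) = gC M
  cx : Tendsto (fun M : ℕ => (M : ℝ) * ∫ g, (Tx M g - √(2 / (M : ℝ)) * g) ^ 2 ∂N01) atTop (𝓝 0)
  cc : Tendsto (fun M : ℕ => (M : ℝ) * ∫ g, (eta M (Tc M g) - √(1 / (2 * (M : ℝ))) * g) ^ 2 ∂N01)
    atTop (𝓝 0)

variable {Ω : Type}

def GB (B : ℝ → Ω → ℝ) (M : ℕ) (k : ℤ) (ω : Ω) : ℝ :=
  (B ((2 * (k : ℝ) + 2) / M) ω - B (2 * (k : ℝ) / M) ω) / √(2 / (M : ℝ))
def GW (W : Test → Ω → ℝ) (M m : ℕ) (k : ℤ) (ω : Ω) : ℝ :=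
  W (cell M m k) ω / √(2 / (M : ℝ) ^ 3)
def lift (Tx Tc : ℕ → ℝ → ℝ) (B : ℝ → Ω → ℝ) (W : Test → Ω → ℝ) (M : ℕ) (ω : Ω) : Row × Rows :=
  (fun k => Tx M (GB B M k ω), fun m k => Tc M (GW W M m k ω))
/-- the piecewise constant field of the averages `zb` -/
def zbt (M : ℕ) (q : ℝ × ℝ) (ω : Row × Rows) : ℝ := zb M (mi M q.1) (ji M (mi M q.1) q.2) ω
/-- the linear part of the mild equation -/
def lin (B : ℝ → Ω → ℝ) (t x : ℝ) (ω : Ω) : ℝ := ∫ u, heat t (x - u) * Real.exp (B u ω)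
/-- the linear part of the discrete equation -/
def lind (M n : ℕ) (k : ℤ) (ω : Row × Rows) : ℝ :=
  ∑ j ∈ Finset.Icc k (k + n), pz n (j - k) * zd M 0 j ω

/-- the error made by replacing `eta` by the Gaussian of the cell -/
def err2 (Tx Tc : ℕ → ℝ → ℝ) (B : ℝ → Ω → ℝ) (W : Test → Ω → ℝ) (M n : ℕ) (k : ℤ) (ω : Ω) : ℝ :=
  ∑ p ∈ cone n k, pz (n - 1 - p.1) (p.2 - k) * zb M p.1 p.2 (lift Tx Tc B W M ω) *
    (eta M (Tc M (GW W M p.1 p.2 ω)) - √(1 / (2 * (M : ℝ))) * GW W M p.1 p.2 ω)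
/-- the monotone map that sends the standard Gaussian to `ν` -/
def quant (ν : Measure ℝ) (g : ℝ) : ℝ := sInf {x | cdf N01 g ≤ cdf ν x}

end

end Pool.Agent.K6329
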