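import Pool.Agent.Lib.MP_632999_pr.K.Defs

/-! The noise as one Gaussian family. `IndepFun.hasGaussianLaw`,
`IsGaussianProcess.of_isGaussianProcess`, `indepFun_of_covariance_eq_zero`. -/

namespace Pool.Agent.K6329

open MeasureTheory ProbabilityTheory Filter Topology Set Function
open scoped NNReal ENNReal

variable {Ω : Type} [MeasurableSpace Ω] {P : Measure Ω} {B : ℝ → Ω → ℝ} {W : Test → Ω → ℝ}
  {Z : ℝ → ℝ → Ω → ℝ} {Tx Tc : ℕ → ℝ → ℝ}

/-- two independent Gaussian processes are jointly Gaussian -/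
theorem gauss_sum {S T : Type} {X : S → Ω → ℝ} {Y : T → Ω → ℝ} (hX : IsGaussianProcess X P)
    (hY : IsGaussianProcess Y P) (h : IndepFun (fun ω s => X s ω) (fun ω t => Y t ω) P) :
    IsGaussianProcess (Sum.elim X Y) P where
  hasGaussianLaw I := by
    have h1 : IndepFun (fun ω => I.toLeft.restrict (X · ω))
        (fun ω => I.toRight.restrict (Y · ω)) P :=
      h.comp (Finset.measurable_restrict I.toLeft) (Finset.measurable_restrict I.toRight)
    have h2 := h1.hasGaussianLaw (hX.hasGaussianLaw _) (hY.hasGaussianLaw _)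
    let L : (I.toLeft → ℝ) × (I.toRight → ℝ) →L[ℝ] (I → ℝ) :=
      ContinuousLinearMap.pi fun i => match i with
        | ⟨Sum.inl s, hs⟩ => (ContinuousLinearMap.proj ⟨s, Finset.mem_toLeft.2 hs⟩).comp
            (ContinuousLinearMap.fst ℝ _ _)
        | ⟨Sum.inr t, ht⟩ => (ContinuousLinearMap.proj ⟨t, Finset.mem_toRight.2 ht⟩).comp
            (ContinuousLinearMap.snd ℝ _ _)
    refine (h2.map L).congr (Eventually.of_forall fun ω => ?_)
    funext i
    rcases i with ⟨s | t, hi⟩ <;> rfl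

theorem IsNoise.prob (hN : IsNoise P B W) : IsProbabilityMeasure P :=
  hN.gaussW.isProbabilityMeasure

theorem IsNoise.measB' (hN : IsNoise P B W) (x : ℝ) : Measurable (B x) := by
  exact hN.measB.comp (measurable_const.prodMk measurable_id)

theorem IsNoise.gaussB (hN : IsNoise P B W) : IsGaussianProcess B P := by
  have h := (gauss_sum hN.right.isGaussianProcess hN.left.isGaussianProcess hN.indepB).comp_right
    (fun x : ℝ => if 0 ≤ x then Sum.inl (Real.toNNReal x) else Sum.inr (Real.toNNReal (-x)))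
  refine h.congr fun x => Eventually.of_forall fun ω => ?_
  by_cases hx : 0 ≤ x
  · simp only [comp_apply, if_pos hx, Sum.elim_inl, Real.coe_toNNReal x hx]
  · simp only [comp_apply, if_neg hx, Sum.elim_inr,
      Real.coe_toNNReal (-x) (by linarith [not_le.1 hx]), neg_neg]

theorem IsNoise.gauss (hN : IsNoise P B W) : IsGaussianProcess (Sum.elim B W) P := by
  exact gauss_sum hN.gaussB hN.gaussW hN.indep

theorem IsNoise.meanB (hN : IsNoise P B W) (x : ℝ) : ∫ ω, B x ω ∂P = 0 := by
  rcases le_total 0 x with hx | hx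
  · exact hN.right.integral_eval ⟨x, hx⟩
  · have h : ∫ ω, B (-(-x)) ω ∂P = 0 := hN.left.integral_eval ⟨-x, neg_nonneg.2 hx⟩
    rwa [neg_neg] at h

theorem IsNoise.memLpB (hN : IsNoise P B W) (x : ℝ) : MemLp (B x) 2 P :=
  (hN.gaussB.hasGaussianLaw_eval x).memLp_two

theorem IsNoise.covB_mixed (hN : IsNoise P B W) {x y : ℝ} (hx : 0 ≤ x) (hy : y ≤ 0) :
    cov[B x, B y; P] = 0 := by
  have := hN.prob
  have h : IndepFun (B x) (B (-(-y))) P :=
    hN.indepB.comp (measurable_pi_apply (⟨x, hx⟩ : ℝ≥0))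
      (measurable_pi_apply (⟨-y, neg_nonneg.2 hy⟩ : ℝ≥0))
  rw [neg_neg] at h
  exact h.covariance_eq_zero (hN.memLpB x) (hN.memLpB y)

theorem IsNoise.covB (hN : IsNoise P B W) (x y : ℝ) :
    cov[B x, B y; P] = (|x| + |y| - |x - y|) / 2 := by
  rcases le_total 0 x with hx | hx <;> rcases le_total 0 y with hy | hy
  · have h : cov[B x, B y; P] = min x y := by
      have h0 := hN.right.covariance_eval ⟨x, hx⟩ ⟨y, hy⟩
      rw [NNReal.coe_min] at h0
      exact h0
    rw [h, abs_of_nonneg hx, abs_of_nonneg hy]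
    rcases le_total x y with hxy | hxy
    · rw [min_eq_left hxy, abs_of_nonpos (sub_nonpos.2 hxy)]; ring
    · rw [min_eq_right hxy, abs_of_nonneg (sub_nonneg.2 hxy)]; ring
  · rw [hN.covB_mixed hx hy, abs_of_nonneg hx, abs_of_nonpos hy,
      abs_of_nonneg (by linarith : 0 ≤ x - y)]
    ring
  · rw [covariance_comm, hN.covB_mixed hy hx, abs_of_nonpos hx, abs_of_nonneg hy,
      abs_of_nonpos (by linarith : x - y ≤ 0)]
    ring
  · have h : cov[B (-(-x)), B (-(-y)); P] = min (-x) (-y) := by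
      have h0 := hN.left.covariance_eval ⟨-x, neg_nonneg.2 hx⟩ ⟨-y, neg_nonneg.2 hy⟩
      rw [NNReal.coe_min] at h0
      exact h0
    rw [neg_neg, neg_neg] at h
    rw [h, abs_of_nonpos hx, abs_of_nonpos hy]
    rcases le_total x y with hxy | hxy
    · rw [min_eq_right (neg_le_neg hxy), abs_of_nonpos (sub_nonpos.2 hxy)]; ring
    · rw [min_eq_left (neg_le_neg hxy), abs_of_nonneg (sub_nonneg.2 hxy)]; ring

theorem IsNoise.covBW (hN : IsNoise P B W) (x : ℝ) (A : Test) : cov[B x, W A; P] = 0 := by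
  have := hN.prob
  have h : IndepFun (B x) (W A) P :=
    hN.indep.comp (measurable_pi_apply x) (measurable_pi_apply A)
  exact h.covariance_eq_zero (hN.memLpB x) (hN.gaussW.hasGaussianLaw_eval A).memLp_two

theorem IsNoise.lawB (hN : IsNoise P B W) (x : ℝ) :
    HasLaw (B x) (gaussianReal 0 (Real.toNNReal |x|)) P := by
  refine ⟨(hN.measB' x).aemeasurable, ?_⟩
  rw [(hN.gaussB.hasGaussianLaw_eval x).map_eq_gaussianReal, hN.meanB,
    ← covariance_self (hN.measB' x).aemeasurable, hN.covB]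
  congr 2
  rw [sub_self, abs_zero]; ring

theorem IsNoise.lawB_sub (hN : IsNoise P B W) (x y : ℝ) :
    HasLaw (fun ω => B x ω - B y ω) (gaussianReal 0 (Real.toNNReal |x - y|)) P := by
  have := hN.prob
  refine ⟨((hN.measB' x).sub (hN.measB' y)).aemeasurable, ?_⟩
  rw [hN.gaussB.hasGaussianLaw_fun_sub.map_eq_gaussianReal,
    integral_sub ((hN.memLpB x).integrable one_le_two) ((hN.memLpB y).integrable one_le_two),
    hN.meanB, hN.meanB, sub_zero, variance_fun_sub (hN.memLpB x) (hN.memLpB y),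
    ← covariance_self (hN.measB' x).aemeasurable, ← covariance_self (hN.measB' y).aemeasurable,
    hN.covB, hN.covB, hN.covB]
  congr 2
  rw [sub_self, sub_self, abs_zero]; ring

theorem IsNoise.lawW (hN : IsNoise P B W) (A : Test) :
    HasLaw (W A) (gaussianReal 0 (volume A.1).toNNReal) P := by
  refine ⟨(hN.measW A).aemeasurable, ?_⟩
  rw [(hN.gaussW.hasGaussianLaw_eval A).map_eq_gaussianReal, hN.meanW,
    ← covariance_self (hN.measW A).aemeasurable, hN.covW, inter_self, ENNReal.toReal,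
    Real.toNNReal_coe]

theorem IsNoise.memLpW (hN : IsNoise P B W) (A : Test) : MemLp (W A) 2 P := by
  exact (hN.gaussW.hasGaussianLaw_eval A).memLp_two

theorem IsNoise.intWW (hN : IsNoise P B W) (A A' : Test) :
    ∫ ω, W A ω * W A' ω ∂P = (volume (A.1 ∩ A'.1)).toReal := by
  have := hN.prob
  have h := covariance_eq_sub (hN.memLpW A) (hN.memLpW A')
  rw [hN.covW, hN.meanW, zero_mul, sub_zero] at h
  exact h.symm

theorem IsNoise.addW (hN : IsNoise P B W) {A A₁ A₂ : Test} (h : A.1 = A₁.1 ∪ A₂.1)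
    (hd : Disjoint A₁.1 A₂.1) : ∀ᵐ ω ∂P, W A ω = W A₁ ω + W A₂ ω := by
  have := hN.prob
  have i : ∀ C C' : Test, Integrable (fun ω => W C ω * W C' ω) P := fun C C' =>
    (hN.memLpW C).integrable_mul (hN.memLpW C')
  have e : (fun ω => (W A ω - (W A₁ ω + W A₂ ω)) ^ 2) = fun ω =>
      W A ω * W A ω + W A₁ ω * W A₁ ω + W A₂ ω * W A₂ ω - 2 * (W A ω * W A₁ ω) -
        2 * (W A ω * W A₂ ω) + 2 * (W A₁ ω * W A₂ ω) := by
    funext ω; ring
  have j1 : Integrable (fun ω => W A ω * W A ω + W A₁ ω * W A₁ ω) P := (i A A).add (i A₁ A₁)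
  have j2 : Integrable (fun ω => W A ω * W A ω + W A₁ ω * W A₁ ω + W A₂ ω * W A₂ ω) P :=
    j1.add (i A₂ A₂)
  have j3 : Integrable (fun ω => W A ω * W A ω + W A₁ ω * W A₁ ω + W A₂ ω * W A₂ ω -
      2 * (W A ω * W A₁ ω)) P := j2.sub ((i A A₁).const_mul 2)
  have j4 : Integrable (fun ω => W A ω * W A ω + W A₁ ω * W A₁ ω + W A₂ ω * W A₂ ω -
      2 * (W A ω * W A₁ ω) - 2 * (W A ω * W A₂ ω)) P := j3.sub ((i A A₂).const_mul 2)
  have j5 := j4.add ((i A₁ A₂).const_mul 2)
  have hz : ∫ ω, (W A ω - (W A₁ ω + W A₂ ω)) ^ 2 ∂P = 0 := by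
    rw [e, integral_add j4 ((i A₁ A₂).const_mul 2), integral_sub j3 ((i A A₂).const_mul 2),
      integral_sub j2 ((i A A₁).const_mul 2), integral_add j1 (i A₂ A₂),
      integral_add (i A A) (i A₁ A₁)]
    simp only [integral_const_mul, hN.intWW, inter_self]
    rw [h, union_inter_cancel_left, union_inter_cancel_right, hd.inter_eq, measure_empty,
      measure_union hd A₂.2.1, ENNReal.toReal_add A₁.2.2.1 A₂.2.2.1, ENNReal.toReal_zero]
    ring
  have hi : Integrable (fun ω => (W A ω - (W A₁ ω + W A₂ ω)) ^ 2) P := by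
    rw [e]; exact j5
  filter_upwards [(integral_eq_zero_iff_of_nonneg (fun ω => sq_nonneg _) hi).1 hz] with ω hω
  exact sub_eq_zero.1 (pow_eq_zero_iff two_ne_zero |>.1 hω)

theorem IsNoise.past_le (hN : IsNoise P B W) (t : ℝ) :
    past B W t ≤ (inferInstance : MeasurableSpace Ω) := by
  refine Measurable.comap_le ?_
  exact (measurable_pi_lambda _ fun x => hN.measB' x).prodMk
    (measurable_pi_lambda _ fun A => hN.measW A.1)

omit [MeasurableSpace Ω] in
theorem past_mono {s t : ℝ} (h : s ≤ t) : past B W s ≤ past B W t := by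
  have hm : Measurable fun z : (ℝ → ℝ) × ({A : Test // A.1 ⊆ Iic t ×ˢ univ} → ℝ) =>
      (z.1, fun A : {A : Test // A.1 ⊆ Iic s ×ˢ univ} =>
        z.2 ⟨A.1, A.2.trans (prod_mono (Iic_subset_Iic.2 h) subset_rfl)⟩) :=
    measurable_fst.prodMk (measurable_pi_lambda _ fun A =>
      (measurable_pi_apply _).comp measurable_snd)
  exact Measurable.comap_le (hm.comp (comap_measurable (pastMap B W t)))

omit [MeasurableSpace Ω] in
theorem meas_B_past (t x : ℝ) : Measurable[past B W t] (B x) := by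
  exact ((measurable_pi_apply x).comp measurable_fst).comp (comap_measurable (pastMap B W t))

omit [MeasurableSpace Ω] in
theorem meas_W_past {t : ℝ} {A : Test} (h : A.1 ⊆ Iic t ×ˢ univ) :
    Measurable[past B W t] (W A) := by
  exact ((measurable_pi_apply (⟨A, h⟩ : {A : Test // A.1 ⊆ Iic t ×ˢ univ})).comp
    measurable_snd).comp (comap_measurable (pastMap B W t))

/-- what is known at time `a` is independent of the noise after time `a` -/
theorem IsNoise.indep_past (hN : IsNoise P B W) {a : ℝ} {ι β : Type} [MeasurableSpace β]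
    {R : ι → Test} (hR : ∀ i, (R i).1 ⊆ Ioi a ×ˢ univ) {X : Ω → β}
    (hX : Measurable[past B W a] X) : IndepFun X (fun ω i => W (R i) ω) P := by
  have hg : IsGaussianProcess (Sum.elim
      (Sum.elim B fun A : {A : Test // A.1 ⊆ Iic a ×ˢ univ} => W A.1) fun i => W (R i)) P := by
    refine (hN.gauss.comp_right (Sum.elim (Sum.elim Sum.inl
      fun A : {A : Test // A.1 ⊆ Iic a ×ˢ univ} => Sum.inr A.1) fun i => Sum.inr (R i))).congr ?_
    rintro ((x | A) | i) <;> exact Eventually.of_forall fun ω => rfl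
  have h1 := hg.indepFun_of_covariance_eq_zero
    (by
      rintro (x | A)
      · exact (hN.measB' x).aemeasurable
      · exact (hN.measW A.1).aemeasurable)
    (fun i => (hN.measW (R i)).aemeasurable)
    (by
      rintro (x | A) i
      · exact hN.covBW x (R i)
      · have he : A.1.1 ∩ (R i).1 = ∅ := eq_empty_of_forall_notMem fun q hq =>
          absurd (mem_Ioi.1 (hR i hq.2).1) (not_lt.2 (mem_Iic.1 (A.2 hq.1).1))
        have h := hN.covW A.1 (R i)
        rw [he, measure_empty, ENNReal.toReal_zero] at h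
        exact h)
  have hm : Measurable fun z : ℝ ⊕ {A : Test // A.1 ⊆ Iic a ×ˢ univ} → ℝ =>
      (fun x => z (Sum.inl x), fun A => z (Sum.inr A)) :=
    (measurable_pi_lambda _ fun x => measurable_pi_apply _).prodMk
      (measurable_pi_lambda _ fun A => measurable_pi_apply _)
  have h2 : IndepFun (pastMap B W a) (fun ω i => W (R i) ω) P := h1.comp hm measurable_id
  rw [IndepFun_iff_Indep] at h2 ⊢
  exact indep_of_indep_of_le_left h2 hX.comap_le

end Pool.Agent.K6329
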