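import Pool.Agent.Lib.MP_632999_pr.K.Prod
import Pool.Agent.Lib.MP_632999_pr.K.Cov

/-! Harris inequality and its Hoeffding refinement. Induction on `s`: with
`A F xi = int F (update xi k u) dm(u)` (Nice on `s.erase k`, same monotonicity, supermodular, same
`cond1` at `j != k`), `cov(F,G) = E cov_k(F,G) + cov(A F, A G)` by `mp_update`, and
`cov_k = (1/2) int int dF dG` (`cov_one`). For `hoeffding`: for fixed `u, u'` the differences
`xi -> F (update xi k u) - F (update xi k u')` are Nice with constant `2 L`, both increasing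
(`u >= u'`) or both decreasing in every coordinate, so `harris` applies. -/

namespace Pool.Agent.K6329

open MeasureTheory ProbabilityTheory Filter Topology Set Function
open scoped NNReal ENNReal

variable {m : Measure ℝ} [IsProbabilityMeasure m] {s : Finset ℤ} {L L' : ℝ} {F G : Row → ℝ}

theorem Nice.mono {s' : Finset ℤ} (h : Nice s L F) (hs : s ⊆ s') : Nice s' L F :=
  ⟨h.meas, h.dep.mono (Finset.coe_subset.2 hs), h.lip⟩

theorem Nice.nonneg (h : Nice s L F) : 0 ≤ L := by
  simpa using (abs_nonneg _).trans (h.lip 0 0 1 0)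

theorem Nice.upd (h : Nice s L F) (k : ℤ) (u : ℝ) :
    Nice (s.erase k) L fun ξ => F (update ξ k u) := by
  refine ⟨h.meas.comp (measurable_update'.comp (measurable_id.prodMk measurable_const)),
    fun ξ ζ e => h.dep fun j hj => ?_, fun j ξ a b => ?_⟩
  · by_cases c : j = k
    · subst c; simp
    · simp only [update_of_ne c]
      exact e j (by simpa [c] using hj)
  · by_cases c : j = k
    · subst c
      simp only [update_idem, sub_self, abs_zero]
      exact mul_nonneg h.nonneg (abs_nonneg _)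
    · simp only [update_comm c]
      exact h.lip _ _ _ _

theorem Nice.const (h : Nice ∅ L F) : F = fun _ => F 0 :=
  funext fun _ => h.dep fun j hj => by simp at hj

theorem Nice.bound (h : Nice s L F) (ξ ζ : Row) : |F ξ - F ζ| ≤ L * ∑ k ∈ s, |ξ k - ζ k| := by
  induction s using Finset.induction_on generalizing F with
  | empty => rw [h.const]; simp
  | insert k s hk ih =>
    have h1 := h.upd k (ζ k)
    rw [Finset.erase_insert hk] at h1
    have h2 := ih h1
    have h3 := h.lip k ξ (ξ k) (ζ k)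
    simp only [update_eq_self] at h2 h3
    rw [Finset.sum_insert hk, mul_add]
    exact (abs_sub_le _ _ _).trans (add_le_add h3 h2)

theorem memLp_eval (hm : MemLp (fun u : ℝ => u) 2 m) (k : ℤ) :
    MemLp (fun ξ : Row => ξ k) 2 (piR m) :=
  hm.comp_measurePreserving (measurePreserving_eval_infinitePi (fun _ : ℤ => m) k)

theorem Nice.memLp (hm : MemLp (fun u : ℝ => u) 2 m) (h : Nice s L F) : MemLp F 2 (piR m) := by
  have h0 : ∀ k, MemLp (fun ξ : Row => |ξ k|) 2 (piR m) := fun k => (memLp_eval hm k).norm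
  have h1 : MemLp (fun ξ : Row => |F 0| + L * ∑ k ∈ s, |ξ k|) 2 (piR m) :=
    (memLp_const |F 0|).add ((memLp_finsetSum s fun k _ => h0 k).const_mul L)
  refine h1.mono' h.meas.aestronglyMeasurable (Eventually.of_forall fun ξ => ?_)
  have h2 := h.bound ξ 0
  simp only [Pi.zero_apply, sub_zero] at h2
  have h3 := abs_sub_abs_le_abs_sub (F ξ) (F 0)
  rw [Real.norm_eq_abs]; linarith

theorem lip_memLp (hm : MemLp (fun u : ℝ => u) 2 m) {f : ℝ → ℝ} (hL : 0 ≤ L)
    (h : ∀ u v, |f u - f v| ≤ L * |u - v|) : MemLp f 2 m := by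
  have h0 : Continuous f :=
    (LipschitzWith.of_dist_le_mul (K := ⟨L, hL⟩) fun u v => h u v).continuous
  have h4 : MemLp (fun u : ℝ => |u|) 2 m := hm.norm
  have h1 : MemLp (fun u : ℝ => |f 0| + L * |u|) 2 m := (memLp_const |f 0|).add (h4.const_mul L)
  refine h1.mono' h0.aestronglyMeasurable (Eventually.of_forall fun u => ?_)
  have h2 := h u 0
  have h3 := abs_sub_abs_le_abs_sub (f u) (f 0)
  rw [sub_zero] at h2
  rw [Real.norm_eq_abs]; linarith

theorem abs_int_sub {α : Type} [MeasurableSpace α] {μ : Measure α} [IsProbabilityMeasure μ]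
    {f g : α → ℝ} (hf : Integrable f μ) (hg : Integrable g μ) {c : ℝ}
    (h : ∀ a, |f a - g a| ≤ c) : |∫ a, f a ∂μ - ∫ a, g a ∂μ| ≤ c := by
  rw [← integral_sub hf hg]
  simpa using norm_integral_le_of_norm_le_const (μ := μ) (f := fun a => f a - g a) (C := c)
    (Eventually.of_forall h)

theorem cond1_int (hm : MemLp (fun u : ℝ => u) 2 m) (h : Nice s L F) (k : ℤ) (u : ℝ) :
    Integrable (fun ξ => F (update ξ k u)) (piR m) :=
  ((h.upd k u).memLp hm).integrable one_le_two

theorem cond1_lip (hm : MemLp (fun u : ℝ => u) 2 m) (h : Nice s L F) (k : ℤ) (u v : ℝ) :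
    |cond1 m F k u - cond1 m F k v| ≤ L * |u - v| :=
  abs_int_sub (cond1_int hm h k u) (cond1_int hm h k v) fun ξ => h.lip k ξ u v

theorem cond1_memLp (hm : MemLp (fun u : ℝ => u) 2 m) (h : Nice s L F) (k : ℤ) :
    MemLp (cond1 m F k) 2 m := lip_memLp hm h.nonneg (cond1_lip hm h k)

theorem int_upd {f : Row → ℝ} (hf : Integrable f (piR m)) (k : ℤ) :
    Integrable (fun p : Row × ℝ => f (update p.1 k p.2)) ((piR m).prod m) ∧
      ∫ ξ, f ξ ∂piR m = ∫ p : Row × ℝ, f (update p.1 k p.2) ∂(piR m).prod m := by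
  have h := mp_update m k
  refine ⟨h.integrable_comp_of_integrable hf, ?_⟩
  have h1 := integral_map h.measurable.aemeasurable (f := f)
    (by rw [h.map_eq]; exact hf.aestronglyMeasurable)
  rwa [h.map_eq] at h1

theorem cov_eval (hm : MemLp (fun u : ℝ => u) 2 m) (h : Nice s L F) (k : ℤ) :
    cov[F, fun ξ => ξ k; piR m] = cov[cond1 m F k, fun u => u; m] := by
  have h1 := h.memLp hm
  have h2 := memLp_eval hm k
  obtain ⟨a1, a2⟩ := int_upd (h1.integrable_mul h2) k
  obtain ⟨b1, b2⟩ := int_upd (h1.integrable one_le_two) k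
  obtain ⟨c1, c2⟩ := int_upd (h2.integrable one_le_two) k
  rw [integral_prod_symm _ a1] at a2
  rw [integral_prod_symm _ b1] at b2
  rw [integral_prod_symm _ c1] at c2
  rw [covariance_eq_sub h1 h2, covariance_eq_sub (cond1_memLp hm h k) hm, a2, b2, c2]
  simp [cond1, integral_mul_const]

/-- the mean over the coordinate `k` -/
noncomputable def avg (m : Measure ℝ) (k : ℤ) (F : Row → ℝ) (ξ : Row) : ℝ :=
  ∫ u, F (update ξ k u) ∂m

theorem Nice.line (hm : MemLp (fun u : ℝ => u) 2 m) (h : Nice s L F) (k : ℤ) (ξ : Row) :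
    MemLp (fun u => F (update ξ k u)) 2 m := lip_memLp hm h.nonneg (h.lip k ξ)

theorem Nice.lineI (hm : MemLp (fun u : ℝ => u) 2 m) (h : Nice s L F) (k : ℤ) (ξ : Row) :
    Integrable (fun u => F (update ξ k u)) m := (h.line hm k ξ).integrable one_le_two

theorem Nice.avg (hm : MemLp (fun u : ℝ => u) 2 m) (h : Nice s L F) (k : ℤ) :
    Nice (s.erase k) L (avg m k F) := by
  refine ⟨?_, fun ξ ζ e => ?_, fun j ξ a b => ?_⟩
  · exact ((h.meas.comp measurable_update').stronglyMeasurable.integral_prod_right'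
      (ν := m)).measurable
  · exact integral_congr_ae (Eventually.of_forall fun u => (h.upd k u).dep e)
  · exact abs_int_sub (h.lineI hm _ _) (h.lineI hm _ _) fun u => (h.upd k u).lip j ξ a b

theorem int_avg {f : Row → ℝ} (hf : Integrable f (piR m)) (k : ℤ) :
    Integrable (avg m k f) (piR m) ∧ ∫ ξ, avg m k f ξ ∂piR m = ∫ ξ, f ξ ∂piR m := by
  obtain ⟨a1, a2⟩ := int_upd hf k
  exact ⟨a1.integral_prod_left, by rw [a2, integral_prod _ a1]; rfl⟩

theorem decomp (hm : MemLp (fun u : ℝ => u) 2 m) (hF : Nice s L F) (hG : Nice s L' G) (k : ℤ) :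
    cov[F, G; piR m] =
      ∫ ξ, cov[fun u => F (update ξ k u), fun u => G (update ξ k u); m] ∂piR m +
        cov[avg m k F, avg m k G; piR m] := by
  have f1 := hF.memLp hm
  have g1 := hG.memLp hm
  have f2 := (hF.avg hm k).memLp hm
  have g2 := (hG.avg hm k).memLp hm
  obtain ⟨a1, a2⟩ := int_avg (f1.integrable_mul g1) k
  have e : ∀ ξ, cov[fun u => F (update ξ k u), fun u => G (update ξ k u); m] =
      avg m k (F * G) ξ - (avg m k F * avg m k G) ξ := fun ξ =>
    covariance_eq_sub (hF.line hm k ξ) (hG.line hm k ξ)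
  simp only [e]
  rw [integral_sub a1 (f2.integrable_mul g2), covariance_eq_sub f1 g1, covariance_eq_sub f2 g2,
    a2, (int_avg (f1.integrable one_le_two) k).2, (int_avg (g1.integrable one_le_two) k).2]
  ring

theorem MonoAt.avg (hm : MemLp (fun u : ℝ => u) 2 m) (h : Nice s L F) {j : ℤ} (hj : MonoAt F j)
    (k : ℤ) : MonoAt (avg m k F) j := fun ξ a b hab =>
  integral_mono (h.lineI hm _ _) (h.lineI hm _ _) fun u => by
    by_cases c : j = k
    · subst c; simp
    · simp only [update_comm c]; exact hj _ hab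

theorem AntiAt.avg (hm : MemLp (fun u : ℝ => u) 2 m) (h : Nice s L F) {j : ℤ} (hj : AntiAt F j)
    (k : ℤ) : AntiAt (avg m k F) j := fun ξ a b hab =>
  integral_mono (h.lineI hm _ _) (h.lineI hm _ _) fun u => by
    by_cases c : j = k
    · subst c; simp
    · simp only [update_comm c]; exact hj _ hab

theorem harris (hm : MemLp (fun u : ℝ => u) 2 m) (hF : Nice s L F) (hG : Nice s L' G)
    (h : ∀ k, (MonoAt F k ∧ MonoAt G k) ∨ (AntiAt F k ∧ AntiAt G k)) :
    0 ≤ cov[F, G; piR m] := by
  induction s using Finset.induction_on generalizing F G with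
  | empty => rw [hF.const, covariance_const_left]
  | insert k s hk ih =>
    have f1 := hF.avg hm k
    have g1 := hG.avg hm k
    rw [Finset.erase_insert hk] at f1 g1
    rw [decomp hm hF hG k]
    refine add_nonneg (integral_nonneg fun ξ => ?_) (ih f1 g1 fun j => (h j).imp
      (fun c => ⟨c.1.avg hm hF k, c.2.avg hm hG k⟩) fun c => ⟨c.1.avg hm hF k, c.2.avg hm hG k⟩)
    show 0 ≤ cov[fun u => F (update ξ k u), fun u => G (update ξ k u); m]
    rw [(cov_one (hF.line hm k ξ) (hG.line hm k ξ)).2]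
    refine div_nonneg (integral_nonneg fun p => ?_) two_pos.le
    rcases le_total p.1 p.2 with c | c <;> rcases h k with d | d
    · exact mul_nonneg_of_nonpos_of_nonpos (sub_nonpos.2 (d.1 ξ c)) (sub_nonpos.2 (d.2 ξ c))
    · exact mul_nonneg (sub_nonneg.2 (d.1 ξ c)) (sub_nonneg.2 (d.2 ξ c))
    · exact mul_nonneg (sub_nonneg.2 (d.1 ξ c)) (sub_nonneg.2 (d.2 ξ c))
    · exact mul_nonneg_of_nonpos_of_nonpos (sub_nonpos.2 (d.1 ξ c)) (sub_nonpos.2 (d.2 ξ c))

theorem Nice.diff (h : Nice s L F) (k : ℤ) (u u' : ℝ) :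
    Nice (s.erase k) (2 * L) fun ξ => F (update ξ k u) - F (update ξ k u') := by
  have h1 := h.upd k u
  have h2 := h.upd k u'
  refine ⟨h1.meas.sub h2.meas, fun ξ ζ e => by simp only [h1.dep e, h2.dep e], fun j ξ a b => ?_⟩
  have c1 := abs_le.1 (h1.lip j ξ a b)
  have c2 := abs_le.1 (h2.lip j ξ a b)
  rw [abs_le]
  constructor <;> linarith [c1.1, c1.2, c2.1, c2.2]

theorem Super.diff (h : Super F) (k : ℤ) {u u' : ℝ} (c : u' ≤ u) (j : ℤ) :
    MonoAt (fun ξ => F (update ξ k u) - F (update ξ k u')) j := fun ξ a b hab => by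
  by_cases d : j = k
  · subst d; simp
  · simp only [update_comm d]
    exact h k j (Ne.symm d) ξ u u' b a c hab

theorem Super.avg (hm : MemLp (fun u : ℝ => u) 2 m) (h : Nice s L F) (hS : Super F) (k : ℤ) :
    Super (avg m k F) := fun i j hij ξ u u' v v' c d => by
  unfold K6329.avg
  rw [← integral_sub (h.lineI hm _ _) (h.lineI hm _ _),
    ← integral_sub (h.lineI hm _ _) (h.lineI hm _ _)]
  refine integral_mono ((h.lineI hm _ _).sub (h.lineI hm _ _))
    ((h.lineI hm _ _).sub (h.lineI hm _ _)) fun w => ?_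
  by_cases a : j = k
  · subst a; simp
  by_cases b : i = k
  · subst b; simp [update_comm a]
  simp only [update_comm a, update_comm b]
  exact hS i j hij _ u u' v v' c d

theorem cond1_avg (hm : MemLp (fun u : ℝ => u) 2 m) (h : Nice s L F) {j k : ℤ} (c : j ≠ k) :
    cond1 m (avg m k F) j = cond1 m F j := funext fun u => by
  have := (int_avg (cond1_int hm h j u) k).2
  unfold cond1
  rw [← this]
  simp only [avg, update_comm c]

theorem diff_le (hm : MemLp (fun u : ℝ => u) 2 m) (hF : Nice s L F) (hG : Nice s L' G)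
    (sF : Super F) (sG : Super G) (k : ℤ) (u u' : ℝ) :
    (cond1 m F k u - cond1 m F k u') * (cond1 m G k u - cond1 m G k u') ≤
      ∫ ξ, (F (update ξ k u) - F (update ξ k u')) * (G (update ξ k u) - G (update ξ k u'))
        ∂piR m := by
  wlog c : u' ≤ u generalizing u u'
  · have := this u' u (le_of_not_ge c)
    refine le_trans (le_of_eq (by ring)) (this.trans (le_of_eq ?_))
    exact integral_congr_ae (Eventually.of_forall fun ξ => by ring)
  have h1 := harris hm (hF.diff k u u') (hG.diff k u u') fun j =>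
    Or.inl ⟨sF.diff k c j, sG.diff k c j⟩
  rw [covariance_eq_sub ((hF.diff k u u').memLp hm) ((hG.diff k u u').memLp hm),
    integral_sub (cond1_int hm hF k u) (cond1_int hm hF k u'),
    integral_sub (cond1_int hm hG k u) (cond1_int hm hG k u')] at h1
  exact sub_nonneg.1 h1

theorem cond1_le (hm : MemLp (fun u : ℝ => u) 2 m) (hF : Nice s L F) (hG : Nice s L' G)
    (sF : Super F) (sG : Super G) (k : ℤ) :
    cov[cond1 m F k, cond1 m G k; m] ≤
      ∫ ξ, cov[fun u => F (update ξ k u), fun u => G (update ξ k u); m] ∂piR m := by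
  have m1 : ∀ {F : Row → ℝ}, Measurable F → Measurable fun q : Row × (ℝ × ℝ) =>
      F (update q.1 k q.2.1) - F (update q.1 k q.2.2) := fun h =>
    (h.comp (measurable_update'.comp (measurable_fst.prodMk measurable_snd.fst))).sub
      (h.comp (measurable_update'.comp (measurable_fst.prodMk measurable_snd.snd)))
  have i0 := ((cov_one hm hm).1.const_mul (L * L')).comp_snd (piR m)
  have i1 : Integrable (fun q : Row × (ℝ × ℝ) =>
      (F (update q.1 k q.2.1) - F (update q.1 k q.2.2)) *
        (G (update q.1 k q.2.1) - G (update q.1 k q.2.2))) ((piR m).prod (m.prod m)) := by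
    refine i0.mono' ((m1 hF.meas).mul (m1 hG.meas)).aestronglyMeasurable
      (Eventually.of_forall fun q => ?_)
    rw [Real.norm_eq_abs, abs_mul]
    refine (mul_le_mul (hF.lip k _ _ _) (hG.lip k _ _ _) (abs_nonneg _)
      (mul_nonneg hF.nonneg (abs_nonneg _))).trans (le_of_eq ?_)
    rw [← abs_mul_abs_self (q.2.1 - q.2.2)]; ring
  obtain ⟨c1, c2⟩ := cov_one (cond1_memLp hm hF k) (cond1_memLp hm hG k)
  simp only [fun ξ => (cov_one (hF.line hm k ξ) (hG.line hm k ξ)).2]
  rw [c2, integral_div]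
  refine div_le_div_of_nonneg_right ?_ two_pos.le
  rw [integral_integral_swap i1]
  exact integral_mono c1 i1.integral_prod_right fun p => diff_le hm hF hG sF sG k p.1 p.2

theorem hoeffding (hm : MemLp (fun u : ℝ => u) 2 m) (hF : Nice s L F) (hG : Nice s L' G)
    (sF : Super F) (sG : Super G) :
    ∑ k ∈ s, cov[cond1 m F k, cond1 m G k; m] ≤ cov[F, G; piR m] := by
  induction s using Finset.induction_on generalizing F G with
  | empty => rw [hF.const, covariance_const_left, Finset.sum_empty]
  | insert k s hk ih =>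
    have f1 := hF.avg hm k
    have g1 := hG.avg hm k
    rw [Finset.erase_insert hk] at f1 g1
    rw [decomp hm hF hG k, Finset.sum_insert hk]
    refine add_le_add (cond1_le hm hF hG sF sG k)
      (le_trans (le_of_eq ?_) (ih f1 g1 (sF.avg hm hF k) (sG.avg hm hG k)))
    refine Finset.sum_congr rfl fun j hj => ?_
    have c : j ≠ k := fun e => hk (e ▸ hj)
    rw [cond1_avg hm hF c, cond1_avg hm hG c]

end Pool.Agent.K6329
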