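import Pool.Agent.Lib.MP_632999_pr.K.Lift
import Pool.Agent.Lib.MP_632999_pr.K.Pz

/-! Discrete isometry and the Duhamel formula. `ito`: for `p.1 < p'.1` the factor
`Y p * h (G p) * Y p'` is integrable and known at time `p'.1 / M^2`; for `p.1 = p'.1` the factor
`Y p * Y p'` is independent of the pair of cells (`indep_past`, `GW_indep`). `duhamel`: induction on `n`,
`zd (n+1) k = zb n k * (1 + eta (c n k))`, `pz_succ`. -/

namespace Pool.Agent.K6329

open MeasureTheory ProbabilityTheory Filter Topology Set Function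
open scoped NNReal ENNReal

variable {Ω : Type} [MeasurableSpace Ω] {P : Measure Ω} {B : ℝ → Ω → ℝ} {W : Test → Ω → ℝ}
  {Z : ℝ → ℝ → Ω → ℝ} {Tx Tc : ℕ → ℝ → ℝ}

omit [MeasurableSpace Ω] in
theorem meas_GW_past (M : ℕ) {m n : ℕ} (hmn : m < n) (k : ℤ) :
    Measurable[past B W ((n : ℝ) / (M : ℝ) ^ 2)] (GW W M m k) :=
  (measurable_id.div_const (√(2 / (M : ℝ) ^ 3))).comp (meas_W_past (cell_before M hmn k))

theorem indep_cells (hN : IsNoise P B W) (M m : ℕ) (k k' : ℤ) {X : Ω → ℝ}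
    (hX : Measurable[past B W ((m : ℝ) / (M : ℝ) ^ 2)] X) {f : ℝ × ℝ → ℝ} (hf : Measurable f) :
    IndepFun X (fun ω => f (GW W M m k ω, GW W M m k' ω)) P := by
  have h1 := hN.indep_past (ι := Bool) (R := fun b => cell M m (if b then k else k'))
    (fun b => cell_after M m _) hX
  have h2 : Measurable fun w : Bool → ℝ =>
      f (w true / √(2 / (M : ℝ) ^ 3), w false / √(2 / (M : ℝ) ^ 3)) :=
    hf.comp (((measurable_pi_apply true).div_const _).prodMk
      ((measurable_pi_apply false).div_const _))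
  exact h1.comp measurable_id h2

theorem int_GW (hN : IsNoise P B W) {M : ℕ} (hM : 1 ≤ M) (m : ℕ) (k : ℤ) {h : ℝ → ℝ}
    (hm : Measurable h) : ∫ ω, h (GW W M m k ω) ∂P = ∫ g, h g ∂N01 :=
  (GW_law hN hM m k).integral_comp hm.aestronglyMeasurable

theorem ito_one (hN : IsNoise P B W) {M : ℕ} (hM : 1 ≤ M) {h : ℝ → ℝ} (hm : Measurable h)
    (h2 : MemLp h 2 N01) {Y : Ω → ℝ} (m : ℕ) (k : ℤ)
    (hY : Measurable[past B W ((m : ℝ) / (M : ℝ) ^ 2)] Y) (hY2 : MemLp Y 2 P) :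
    MemLp (fun ω => Y ω * h (GW W M m k ω)) 2 P ∧
      ∫ ω, (Y ω * h (GW W M m k ω)) * (Y ω * h (GW W M m k ω)) ∂P =
        (∫ g, h g ^ 2 ∂N01) * ∫ ω, Y ω ^ 2 ∂P := by
  have hYm : Measurable Y := hY.mono (hN.past_le _) le_rfl
  have hG := measurable_GW hN M m k
  have hi : IndepFun (fun ω => Y ω ^ 2) (fun ω => h (GW W M m k ω) ^ 2) P :=
    indep_cells hN M m k k (hY.pow_const 2) (f := fun q => h q.1 ^ 2)
      ((hm.comp measurable_fst).pow_const 2)
  have hG2 : MemLp (fun ω => h (GW W M m k ω)) 2 P :=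
    h2.comp_measurePreserving ((GW_law hN hM m k).measurePreserving hG)
  constructor
  · refine (memLp_two_iff_integrable_sq (hYm.mul (hm.comp hG)).aestronglyMeasurable).2 ?_
    refine (hi.integrable_mul hY2.integrable_sq hG2.integrable_sq).congr
      (Eventually.of_forall fun ω => ?_)
    simp only [Pi.mul_apply, Function.comp_apply, mul_pow]
  · have h3 := hi.integral_fun_mul_eq_mul_integral (hYm.pow_const 2).aestronglyMeasurable
      ((hm.comp hG).pow_const 2).aestronglyMeasurable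
    have h4 : ∫ ω, h (GW W M m k ω) ^ 2 ∂P = ∫ g, h g ^ 2 ∂N01 :=
      int_GW hN hM m k (h := fun g => h g ^ 2) (hm.pow_const 2)
    rw [← h4, mul_comm, ← h3]
    exact integral_congr_ae (Eventually.of_forall fun ω => by ring)

theorem ito_two (hN : IsNoise P B W) {M : ℕ} (hM : 1 ≤ M) {h : ℝ → ℝ} (hm : Measurable h)
    (h0 : ∫ g, h g ∂N01 = 0) {Y Y' : Ω → ℝ} {p p' : ℕ × ℤ} (hne : p ≠ p') (hle : p.1 ≤ p'.1)
    (hY : Measurable[past B W ((p.1 : ℝ) / (M : ℝ) ^ 2)] Y)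
    (hY' : Measurable[past B W ((p'.1 : ℝ) / (M : ℝ) ^ 2)] Y') :
    ∫ ω, (Y ω * h (GW W M p.1 p.2 ω)) * (Y' ω * h (GW W M p'.1 p'.2 ω)) ∂P = 0 := by
  have hG := measurable_GW hN M p.1 p.2
  have hG' := measurable_GW hN M p'.1 p'.2
  have hz : ∫ ω, h (GW W M p'.1 p'.2 ω) ∂P = 0 := (int_GW hN hM _ _ hm).trans h0
  have hYp : Measurable[past B W ((p'.1 : ℝ) / (M : ℝ) ^ 2)] Y :=
    hY.mono (past_mono (by gcongr)) le_rfl
  rcases hle.lt_or_eq with hlt | heq
  · have hU : Measurable[past B W ((p'.1 : ℝ) / (M : ℝ) ^ 2)]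
        fun ω => Y ω * h (GW W M p.1 p.2 ω) * Y' ω :=
      (hYp.mul (hm.comp (meas_GW_past M hlt p.2))).mul hY'
    have hi : IndepFun (fun ω => Y ω * h (GW W M p.1 p.2 ω) * Y' ω)
        (fun ω => h (GW W M p'.1 p'.2 ω)) P :=
      indep_cells hN M p'.1 p'.2 p'.2 hU (f := fun q => h q.1) (hm.comp measurable_fst)
    have h3 := hi.integral_fun_mul_eq_mul_integral
      (hU.mono (hN.past_le _) le_rfl).aestronglyMeasurable (hm.comp hG').aestronglyMeasurable
    rw [hz, mul_zero] at h3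
    rw [← h3]
    exact integral_congr_ae (Eventually.of_forall fun ω => by ring)
  · have hU : Measurable[past B W ((p'.1 : ℝ) / (M : ℝ) ^ 2)] fun ω => Y ω * Y' ω := hYp.mul hY'
    have hi : IndepFun (fun ω => Y ω * Y' ω)
        (fun ω => h (GW W M p.1 p.2 ω) * h (GW W M p'.1 p'.2 ω)) P := by
      rw [heq]
      exact indep_cells hN M p'.1 p.2 p'.2 hU (f := fun q => h q.1 * h q.2)
        ((hm.comp measurable_fst).mul (hm.comp measurable_snd))
    have h3 := hi.integral_fun_mul_eq_mul_integral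
      (hU.mono (hN.past_le _) le_rfl).aestronglyMeasurable
      ((hm.comp hG).mul (hm.comp hG')).aestronglyMeasurable
    have hj : IndepFun (fun ω => h (GW W M p.1 p.2 ω)) (fun ω => h (GW W M p'.1 p'.2 ω)) P :=
      (GW_indep hN hM hne).comp hm hm
    have h4 := hj.integral_fun_mul_eq_mul_integral (hm.comp hG).aestronglyMeasurable
      (hm.comp hG').aestronglyMeasurable
    rw [hz, mul_zero] at h4
    rw [h4, mul_zero] at h3
    rw [← h3]
    exact integral_congr_ae (Eventually.of_forall fun ω => by ring)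

theorem ito (hN : IsNoise P B W) {M : ℕ} (hM : 1 ≤ M) {h : ℝ → ℝ} (hm : Measurable h)
    (h2 : MemLp h 2 N01) (h0 : ∫ g, h g ∂N01 = 0) {Y : ℕ × ℤ → Ω → ℝ} (S : Finset (ℕ × ℤ))
    (hY : ∀ p ∈ S, Measurable[past B W ((p.1 : ℝ) / (M : ℝ) ^ 2)] (Y p))
    (hY2 : ∀ p ∈ S, MemLp (Y p) 2 P) :
    MemLp (fun ω => ∑ p ∈ S, Y p ω * h (GW W M p.1 p.2 ω)) 2 P ∧
      ∫ ω, (∑ p ∈ S, Y p ω * h (GW W M p.1 p.2 ω)) ^ 2 ∂P =
        (∫ g, h g ^ 2 ∂N01) * ∑ p ∈ S, ∫ ω, Y p ω ^ 2 ∂P := by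
  have h1 := fun p (hp : p ∈ S) => ito_one hN hM hm h2 p.1 p.2 (hY p hp) (hY2 p hp)
  refine ⟨memLp_finsetSum S fun p hp => (h1 p hp).1, ?_⟩
  have hint : ∀ p ∈ S, ∀ p' ∈ S, Integrable (fun ω =>
      (Y p ω * h (GW W M p.1 p.2 ω)) * (Y p' ω * h (GW W M p'.1 p'.2 ω))) P :=
    fun p hp p' hp' => (h1 p hp).1.integrable_mul (h1 p' hp').1
  have hexp : ∀ ω, (∑ p ∈ S, Y p ω * h (GW W M p.1 p.2 ω)) ^ 2 = ∑ p ∈ S, ∑ p' ∈ S,
      (Y p ω * h (GW W M p.1 p.2 ω)) * (Y p' ω * h (GW W M p'.1 p'.2 ω)) := fun ω => by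
    rw [sq, Finset.sum_mul_sum]
  simp only [hexp]
  rw [integral_finsetSum S fun p hp => integrable_finsetSum S fun p' hp' => hint p hp p' hp',
    Finset.mul_sum]
  refine Finset.sum_congr rfl fun p hp => ?_
  rw [integral_finsetSum S fun p' hp' => hint p hp p' hp', Finset.sum_eq_single p]
  · exact (h1 p hp).2
  · intro p' hp' hne
    rcases le_total p.1 p'.1 with hle | hle
    · exact ito_two hN hM hm h0 hne.symm hle (hY p hp) (hY p' hp')
    · rw [← ito_two hN hM hm h0 hne hle (hY p' hp') (hY p hp)]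
      exact integral_congr_ae (Eventually.of_forall fun ω => mul_comm _ _)
  · exact fun h => absurd hp h

theorem zd_succ (M n : ℕ) (k : ℤ) (ω : Row × Rows) :
    zd M (n + 1) k ω = zb M n k ω * (1 + eta M (ω.2 n k)) := by
  have hp : (0 : ℝ) < (2 * (M : ℝ) + 1) / 2 := by positivity
  have h1 : Hd (n + 1) k ω = lse (Hd n k ω) (Hd n (k + 1) ω) - ω.2 n k := rfl
  have h2 : Real.exp (lse (Hd n k ω) (Hd n (k + 1) ω)) =
      Real.exp (Hd n k ω) + Real.exp (Hd n (k + 1) ω) := Real.exp_log (by positivity)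
  simp only [zb, zd, eta]
  rw [h1, Nat.cast_succ, add_mul, one_mul, sub_eq_add_neg, Real.exp_add, Real.exp_add,
    Real.exp_add, Real.exp_add, Real.exp_add, h2, Real.exp_log hp]
  ring

theorem pz_step {m N : ℕ} (h : m ≤ N) (k : ℤ) (f : ℤ → ℝ) :
    ∑ j ∈ Finset.Icc k (k + ((N + 1 : ℕ) : ℤ)), pz (m + 1) (j - k) * f j =
      (∑ j ∈ Finset.Icc k (k + N), pz m (j - k) * f j +
        ∑ j ∈ Finset.Icc (k + 1) (k + 1 + N), pz m (j - (k + 1)) * f j) / 2 := by
  have h1 : ∑ j ∈ Finset.Icc k (k + N), pz m (j - k) * f j =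
      ∑ j ∈ Finset.Icc k (k + ((N + 1 : ℕ) : ℤ)), pz m (j - k) * f j := by
    refine Finset.sum_subset (fun j hj => ?_) fun j hj hj' => ?_
    · rw [Finset.mem_Icc] at hj ⊢; omega
    · rw [Finset.mem_Icc] at hj hj'
      rw [pz_eq_zero (Or.inr (by omega)), zero_mul]
  have h2 : ∑ j ∈ Finset.Icc (k + 1) (k + 1 + N), pz m (j - (k + 1)) * f j =
      ∑ j ∈ Finset.Icc k (k + ((N + 1 : ℕ) : ℤ)), pz m (j - (k + 1)) * f j := by
    refine Finset.sum_subset (fun j hj => ?_) fun j hj hj' => ?_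
    · rw [Finset.mem_Icc] at hj ⊢; omega
    · rw [Finset.mem_Icc] at hj hj'
      rw [pz_eq_zero (Or.inl (by omega)), zero_mul]
  rw [h1, h2, ← Finset.sum_add_distrib, Finset.sum_div]
  refine Finset.sum_congr rfl fun j _ => ?_
  rw [pz_succ, show j - k - 1 = j - (k + 1) by ring]
  ring

theorem sum_pz_zero (N : ℕ) (k : ℤ) (f : ℤ → ℝ) :
    ∑ j ∈ Finset.Icc k (k + N), pz 0 (j - k) * f j = f k := by
  rw [Finset.sum_eq_single k]
  · rw [pz_zero, if_pos (sub_self k), one_mul]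
  · intro j _ hj
    rw [pz_zero, if_neg (sub_ne_zero.2 hj), zero_mul]
  · intro h
    exact absurd (Finset.mem_Icc.2 ⟨le_rfl, by omega⟩) h

theorem cone_step (n : ℕ) (k : ℤ) (g : ℕ → ℤ → ℝ) :
    ∑ p ∈ cone (n + 1) k, pz (n + 1 - 1 - p.1) (p.2 - k) * g p.1 p.2 =
      (∑ p ∈ cone n k, pz (n - 1 - p.1) (p.2 - k) * g p.1 p.2 +
        ∑ p ∈ cone n (k + 1), pz (n - 1 - p.1) (p.2 - (k + 1)) * g p.1 p.2) / 2 + g n k := by
  simp only [cone, Finset.sum_product]
  rw [Finset.sum_range_succ, ← Finset.sum_add_distrib, Finset.sum_div]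
  congr 1
  · refine Finset.sum_congr rfl fun i hi => ?_
    rw [Finset.mem_range] at hi
    rw [show n + 1 - 1 - i = (n - 1 - i) + 1 by omega]
    exact pz_step (by omega) k (g i)
  · rw [show n + 1 - 1 - n = 0 by omega]
    exact sum_pz_zero (n + 1) k (g n)

theorem duhamel (M n : ℕ) (k : ℤ) (ω : Row × Rows) :
    zd M n k ω = lind M n k ω +
      ∑ p ∈ cone n k, pz (n - 1 - p.1) (p.2 - k) * zb M p.1 p.2 ω * eta M (ω.2 p.1 p.2) := by
  simp only [mul_assoc]
  induction n generalizing k with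
  | zero =>
    have := sum_pz_zero 0 k fun j => zd M 0 j ω
    simp only [cone, Finset.range_zero, Finset.empty_product, Finset.sum_empty, add_zero, lind]
    exact this.symm
  | succ n ih =>
    have h1 := cone_step n k fun i j => zb M i j ω * eta M (ω.2 i j)
    have h2 : lind M (n + 1) k ω = (lind M n k ω + lind M n (k + 1) ω) / 2 :=
      pz_step le_rfl k fun j => zd M 0 j ω
    have h3 : zb M n k ω = (zd M n k ω + zd M n (k + 1) ω) / 2 := rfl
    have h4 := ih k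
    have h5 := ih (k + 1)
    rw [zd_succ, h1, h2]
    linarith

end Pool.Agent.K6329
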