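import Pool.Agent.Lib.MP_632999_pr.K.Lclt
import Pool.Agent.Lib.MP_632999_pr.K.Cell

/-! A common Gaussian majorant for the squared kernels and its integrals. -/

namespace Pool.Agent.K6329

open MeasureTheory ProbabilityTheory Filter Topology Set Function
open scoped NNReal ENNReal

noncomputable section

/-- the common majorant of the squared kernels, without the weight -/
def maj0 (x τ u : ℝ) : ℝ := τ⁻¹ * Real.exp (-(u - x) ^ 2 / (4 * τ))

/-- the integral in space of the weighted majorant is at most this -/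
def majI (a x τ : ℝ) : ℝ := 6 * Real.exp (2 * a ^ 2 * τ) * Real.cosh (a * x) / √τ

theorem cosh_add_le (α β : ℝ) : Real.cosh (α + β) ≤ Real.cosh α * Real.exp |β| := by
  rw [Real.cosh_eq, Real.cosh_eq, neg_add, Real.exp_add, Real.exp_add]
  have h1 : Real.exp β ≤ Real.exp |β| := Real.exp_le_exp.2 (le_abs_self β)
  have h2 : Real.exp (-β) ≤ Real.exp |β| := Real.exp_le_exp.2 (neg_le_abs β)
  have h3 := Real.exp_pos α
  have h4 := Real.exp_pos (-α)
  nlinarith [mul_le_mul_of_nonneg_left h1 h3.le, mul_le_mul_of_nonneg_left h2 h4.le]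

theorem maj0_nonneg (x : ℝ) {τ : ℝ} (hτ : 0 < τ) (u : ℝ) : 0 ≤ maj0 x τ u := by
  unfold maj0; positivity

theorem maj_inner (a x : ℝ) {τ : ℝ} (hτ : 0 < τ) :
    ∫⁻ u, ENNReal.ofReal (maj0 x τ u * Real.cosh (a * u)) ≤ ENNReal.ofReal (majI a x τ) := by
  set K : ℝ := τ⁻¹ * Real.cosh (a * x) * Real.exp (2 * a ^ 2 * τ) with hK
  have hK0 : 0 ≤ K := by have := Real.cosh_pos (a * x); positivity
  have hb : 0 < (8 * τ)⁻¹ := by positivity
  have h1 : ∀ u, maj0 x τ u * Real.cosh (a * u) ≤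
      K * Real.exp (-(8 * τ)⁻¹ * (u - x) ^ 2) := by
    intro u
    have h2 : Real.cosh (a * u) ≤ Real.cosh (a * x) * Real.exp |a * (u - x)| := by
      have := cosh_add_le (a * x) (a * (u - x))
      rwa [show a * x + a * (u - x) = a * u by ring] at this
    have h3 : -(u - x) ^ 2 / (4 * τ) + |a * (u - x)| ≤
        2 * a ^ 2 * τ + -(8 * τ)⁻¹ * (u - x) ^ 2 := by
      have h4 : |a * (u - x)| ≤ 2 * a ^ 2 * τ + (8 * τ)⁻¹ * (u - x) ^ 2 := by
        have e : 2 * a ^ 2 * τ + (8 * τ)⁻¹ * (u - x) ^ 2 =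
            (16 * a ^ 2 * τ ^ 2 + (u - x) ^ 2) / (8 * τ) := by field_simp; ring
        rw [e, le_div_iff₀ (by positivity)]
        rcases abs_cases (a * (u - x)) with h | h <;> rw [h.1]
        · nlinarith [sq_nonneg (4 * a * τ - (u - x))]
        · nlinarith [sq_nonneg (4 * a * τ + (u - x))]
      have e2 : -(u - x) ^ 2 / (4 * τ) = -(2 * ((8 * τ)⁻¹ * (u - x) ^ 2)) := by
        field_simp; ring
      rw [e2]; linarith
    have h5 := Real.exp_le_exp.2 h3
    rw [Real.exp_add, Real.exp_add] at h5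
    have h6 := Real.cosh_pos (a * x)
    calc maj0 x τ u * Real.cosh (a * u)
        ≤ maj0 x τ u * (Real.cosh (a * x) * Real.exp |a * (u - x)|) :=
          mul_le_mul_of_nonneg_left h2 (maj0_nonneg x hτ u)
      _ = τ⁻¹ * Real.cosh (a * x) *
          (Real.exp (-(u - x) ^ 2 / (4 * τ)) * Real.exp |a * (u - x)|) := by unfold maj0; ring
      _ ≤ τ⁻¹ * Real.cosh (a * x) *
          (Real.exp (2 * a ^ 2 * τ) * Real.exp (-(8 * τ)⁻¹ * (u - x) ^ 2)) :=
          mul_le_mul_of_nonneg_left h5 (by positivity)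
      _ = _ := by rw [hK]; ring
  have hint : Integrable fun u : ℝ => K * Real.exp (-(8 * τ)⁻¹ * u ^ 2) :=
    (integrable_exp_neg_mul_sq hb).const_mul K
  calc ∫⁻ u, ENNReal.ofReal (maj0 x τ u * Real.cosh (a * u))
      ≤ ∫⁻ u, ENNReal.ofReal (K * Real.exp (-(8 * τ)⁻¹ * (u - x) ^ 2)) :=
        lintegral_mono fun u => ENNReal.ofReal_le_ofReal (h1 u)
    _ = ∫⁻ u, ENNReal.ofReal (K * Real.exp (-(8 * τ)⁻¹ * u ^ 2)) :=
        lintegral_sub_right_eq_self
          (fun u : ℝ => ENNReal.ofReal (K * Real.exp (-(8 * τ)⁻¹ * u ^ 2))) x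
    _ = ENNReal.ofReal (∫ u : ℝ, K * Real.exp (-(8 * τ)⁻¹ * u ^ 2)) :=
        (ofReal_integral_eq_lintegral_ofReal hint
          (Eventually.of_forall fun u => by positivity)).symm
    _ ≤ _ := by
        apply ENNReal.ofReal_le_ofReal
        rw [integral_const_mul, integral_gaussian]
        have hs : 0 < √τ := Real.sqrt_pos.2 hτ
        have hs2 : √τ * √τ = τ := Real.mul_self_sqrt hτ.le
        have h7 : √(Real.pi / (8 * τ)⁻¹) ≤ 6 * √τ := by
          apply Real.sqrt_le_iff.2 ⟨by positivity, ?_⟩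
          have : Real.pi / (8 * τ)⁻¹ = Real.pi * (8 * τ) := by field_simp
          rw [this]
          nlinarith [Real.pi_le_four]
        have h6 := Real.cosh_pos (a * x)
        calc K * √(Real.pi / (8 * τ)⁻¹) ≤ K * (6 * √τ) := mul_le_mul_of_nonneg_left h7 hK0
          _ = majI a x τ := by
            unfold majI
            rw [hK, eq_div_iff hs.ne']
            have : τ⁻¹ * (√τ * √τ) = 1 := by rw [hs2]; field_simp
            linear_combination (6 * Real.cosh (a * x) * Real.exp (2 * a ^ 2 * τ)) * this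

/-- Tonelli against the majorant. -/
theorem strip_le (a x : ℝ) {S : Set ℝ} (hS : MeasurableSet S) {τ w : ℝ → ℝ}
    (mτ : Measurable τ) (mw : Measurable w) (hτ : ∀ r ∈ S, 0 < τ r) (hw : ∀ r, 0 ≤ w r)
    {F : ℝ × ℝ → ℝ}
    (h1 : ∀ q : ℝ × ℝ, q.1 ∈ S → F q ≤ w q.1 * (maj0 x (τ q.1) q.2 * Real.cosh (a * q.2)))
    (h2 : ∀ q : ℝ × ℝ, q.1 ∉ S → F q ≤ 0) :
    ∫⁻ q, ENNReal.ofReal (F q) ≤ ∫⁻ r in S, ENNReal.ofReal (w r * majI a x (τ r)) := by
  set G : ℝ × ℝ → ℝ≥0∞ := fun q =>
    ENNReal.ofReal (w q.1) * ENNReal.ofReal (maj0 x (τ q.1) q.2 * Real.cosh (a * q.2)) with hG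
  have mG : Measurable G := by
    have := Real.continuous_cosh.measurable
    unfold maj0 at hG
    rw [hG]
    fun_prop
  have hset : MeasurableSet (Prod.fst ⁻¹' S : Set (ℝ × ℝ)) := measurable_fst hS
  calc ∫⁻ q, ENNReal.ofReal (F q) ≤ ∫⁻ q, (Prod.fst ⁻¹' S).indicator G q := by
        refine lintegral_mono fun q => ?_
        by_cases hq : q.1 ∈ S
        · rw [indicator_of_mem (show q ∈ Prod.fst ⁻¹' S from hq), hG]
          simp only
          rw [← ENNReal.ofReal_mul (hw _)]
          exact ENNReal.ofReal_le_ofReal (h1 q hq)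
        · rw [ENNReal.ofReal_of_nonpos (h2 q hq)]
          exact zero_le
    _ = ∫⁻ r, ∫⁻ u, (Prod.fst ⁻¹' S).indicator G (r, u) := by
        rw [Measure.volume_eq_prod]
        exact lintegral_prod _ (mG.indicator hset).aemeasurable
    _ ≤ ∫⁻ r, S.indicator (fun r => ENNReal.ofReal (w r * majI a x (τ r))) r := by
        refine lintegral_mono fun r => ?_
        by_cases hr : r ∈ S
        · rw [indicator_of_mem hr]
          have e : ∀ u, (Prod.fst ⁻¹' S).indicator G (r, u) = ENNReal.ofReal (w r) *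
              ENNReal.ofReal (maj0 x (τ r) u * Real.cosh (a * u)) := fun u => by
            rw [indicator_of_mem (show (r, u) ∈ Prod.fst ⁻¹' S from hr)]
          simp only [e]
          rw [lintegral_const_mul' _ _ ENNReal.ofReal_ne_top, ENNReal.ofReal_mul (hw r)]
          exact mul_le_mul_right (maj_inner a x (hτ r hr)) _
        · have e : ∀ u, (Prod.fst ⁻¹' S).indicator G (r, u) = 0 := fun u =>
            indicator_of_notMem (show (r, u) ∉ Prod.fst ⁻¹' S from hr) _
          simp only [e, lintegral_zero]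
          exact zero_le
    _ = _ := lintegral_indicator hS _

theorem outer_le {lam : ℝ} (hl : 0 < lam) (hi : ℝ) :
    ∫⁻ r in Iio hi, ENNReal.ofReal (Real.exp (-(lam * (hi - r))) / √(hi - r)) ≤
      ENNReal.ofReal (2 / √lam) := by
  set f : ℝ → ℝ≥0∞ := fun s => ENNReal.ofReal (Real.exp (-(lam * s)) / √s) with hf
  have e1 : ∫⁻ r in Iio hi, f (hi - r) = ∫⁻ s in Ioi 0, f s := by
    rw [← lintegral_indicator measurableSet_Iio, ← lintegral_indicator measurableSet_Ioi,
      ← lintegral_sub_left_eq_self ((Ioi 0).indicator f) hi]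
    refine lintegral_congr fun r => ?_
    by_cases hr : r < hi
    · rw [indicator_of_mem (show r ∈ Iio hi from hr),
        indicator_of_mem (show hi - r ∈ Ioi 0 from sub_pos.2 hr)]
    · rw [indicator_of_notMem (show r ∉ Iio hi from hr),
        indicator_of_notMem (show hi - r ∉ Ioi 0 from fun h => hr (sub_pos.1 h))]
  have e2 : ∀ s ∈ Ioi (0 : ℝ), Real.exp (-(lam * s)) / √s =
      s ^ ((1 / 2 : ℝ) - 1) * Real.exp (-(lam * s)) := by
    intro s hs
    have hs' : (0 : ℝ) < s := hs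
    rw [show (1 / 2 : ℝ) - 1 = -(1 / 2) by norm_num, Real.rpow_neg hs'.le, ← Real.sqrt_eq_rpow]
    ring
  have hint : IntegrableOn (fun s : ℝ => s ^ ((1 / 2 : ℝ) - 1) * Real.exp (-(lam * s))) (Ioi 0) := by
    have := integrableOn_rpow_mul_exp_neg_mul_rpow (p := 1) (s := (1 / 2 : ℝ) - 1) (b := lam)
      (by norm_num) one_pos hl
    simpa only [Real.rpow_one, neg_mul] using this
  calc ∫⁻ r in Iio hi, f (hi - r) = ∫⁻ s in Ioi 0, f s := e1
    _ = ∫⁻ s in Ioi 0, ENNReal.ofReal (s ^ ((1 / 2 : ℝ) - 1) * Real.exp (-(lam * s))) :=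
        setLIntegral_congr_fun measurableSet_Ioi fun s hs => by simp only [hf, e2 s hs]
    _ = ENNReal.ofReal (∫ s in Ioi 0, s ^ ((1 / 2 : ℝ) - 1) * Real.exp (-(lam * s))) := by
        refine (ofReal_integral_eq_lintegral_ofReal hint ?_).symm
        filter_upwards [ae_restrict_mem measurableSet_Ioi] with s hs
        have hs' : (0 : ℝ) < s := hs
        positivity
    _ ≤ _ := by
        apply ENNReal.ofReal_le_ofReal
        rw [Real.integral_rpow_mul_exp_neg_mul_Ioi (by norm_num) hl, Real.Gamma_one_half_eq,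
          ← Real.sqrt_eq_rpow, one_div, Real.sqrt_inv]
        have h2 : √Real.pi ≤ 2 := Real.sqrt_le_iff.2 ⟨by norm_num, by linarith [Real.pi_le_four]⟩
        have h3 : 0 < √lam := Real.sqrt_pos.2 hl
        rw [div_eq_inv_mul]
        exact mul_le_mul_of_nonneg_left h2 (by positivity)

/-- A strip of width `δ` costs `sqrt δ`. -/
theorem strip_cost (a x : ℝ) {S : Set ℝ} (hS : MeasurableSet S) {τ : ℝ → ℝ} {hi δ T W : ℝ}
    (hδ : 0 < δ) (hW : 0 ≤ W)
    (h : ∀ r ∈ S, r < hi ∧ hi - r ≤ δ ∧ hi - r ≤ 2 * τ r ∧ τ r ≤ T) :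
    ∫⁻ r in S, ENNReal.ofReal (W * majI a x (τ r)) ≤
      ENNReal.ofReal (72 * W * Real.exp (2 * a ^ 2 * T) * Real.cosh (a * x) * √δ) := by
  set K : ℝ := 36 * W * Real.exp (2 * a ^ 2 * T) * Real.cosh (a * x) with hK
  have hc := Real.cosh_pos (a * x)
  have hK0 : 0 ≤ K := by positivity
  have hl : 0 < δ⁻¹ := by positivity
  calc ∫⁻ r in S, ENNReal.ofReal (W * majI a x (τ r))
      ≤ ∫⁻ r in S, ENNReal.ofReal K *
          ENNReal.ofReal (Real.exp (-(δ⁻¹ * (hi - r))) / √(hi - r)) := by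
        refine setLIntegral_mono' hS fun r hr => ?_
        obtain ⟨h1, h2, h3, h4⟩ := h r hr
        rw [← ENNReal.ofReal_mul hK0]
        apply ENNReal.ofReal_le_ofReal
        have hs : 0 < hi - r := sub_pos.2 h1
        have hτ : 0 < τ r := by linarith
        have s1 : 0 < √(hi - r) := Real.sqrt_pos.2 hs
        have s2 : 0 < √(τ r) := Real.sqrt_pos.2 hτ
        have s3 : √(hi - r) ≤ 2 * √(τ r) := by
          apply Real.sqrt_le_iff.2 ⟨by positivity, ?_⟩
          nlinarith [Real.mul_self_sqrt hτ.le]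
        have e1 : 1 ≤ 3 * Real.exp (-(δ⁻¹ * (hi - r))) := by
          have e2 : δ⁻¹ * (hi - r) ≤ 1 := by
            rw [inv_mul_le_iff₀ hδ]; linarith
          have e3 : Real.exp (-1) ≤ Real.exp (-(δ⁻¹ * (hi - r))) :=
            Real.exp_le_exp.2 (by linarith)
          have e4 : Real.exp 1 * Real.exp (-1) = 1 := by rw [← Real.exp_add]; simp
          have e5 := Real.exp_one_lt_three
          nlinarith [Real.exp_pos (-1)]
        have e6 : Real.exp (2 * a ^ 2 * τ r) ≤ Real.exp (2 * a ^ 2 * T) :=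
          Real.exp_le_exp.2 (mul_le_mul_of_nonneg_left h4 (by positivity))
        have e7 : 1 / √(τ r) ≤ 6 * (Real.exp (-(δ⁻¹ * (hi - r))) / √(hi - r)) := by
          rw [← mul_div_assoc, div_le_div_iff₀ s2 s1]
          nlinarith
        calc W * majI a x (τ r)
            = 6 * W * Real.exp (2 * a ^ 2 * τ r) * Real.cosh (a * x) * (1 / √(τ r)) := by
              unfold majI; ring
          _ ≤ 6 * W * Real.exp (2 * a ^ 2 * T) * Real.cosh (a * x) *
              (6 * (Real.exp (-(δ⁻¹ * (hi - r))) / √(hi - r))) := by gcongr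
          _ = _ := by rw [hK]; ring
    _ ≤ ∫⁻ r in Iio hi, ENNReal.ofReal K *
          ENNReal.ofReal (Real.exp (-(δ⁻¹ * (hi - r))) / √(hi - r)) :=
        lintegral_mono_set fun r hr => (h r hr).1
    _ ≤ ENNReal.ofReal K * ENNReal.ofReal (2 / √(δ⁻¹)) := by
        rw [lintegral_const_mul' _ _ ENNReal.ofReal_ne_top]
        exact mul_le_mul_right (outer_le hl hi) _
    _ = _ := by
        rw [← ENNReal.ofReal_mul hK0, Real.sqrt_inv, hK]
        congr 1
        rw [div_inv_eq_mul]; ring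

theorem heat_sq_le {τ : ℝ} (hτ : 0 < τ) (x u : ℝ) : heat τ (x - u) ^ 2 ≤ maj0 x τ u := by
  unfold heat maj0
  have hp : 0 < 2 * Real.pi * τ := by positivity
  rw [mul_pow, inv_pow, Real.sq_sqrt hp.le, ← Real.exp_nat_mul]
  have h1 : (2 * Real.pi * τ)⁻¹ ≤ τ⁻¹ := by
    apply inv_anti₀ hτ
    nlinarith [Real.pi_gt_three]
  have h2 : ((2 : ℕ) : ℝ) * (-(x - u) ^ 2 / (2 * τ)) ≤ -(u - x) ^ 2 / (4 * τ) := by
    have e1 : ((2 : ℕ) : ℝ) * (-(x - u) ^ 2 / (2 * τ)) = -(4 * ((u - x) ^ 2 / (4 * τ))) := by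
      push_cast; field_simp; ring
    have e2 : 0 ≤ (u - x) ^ 2 / (4 * τ) := by positivity
    rw [e1, neg_div]; linarith
  exact mul_le_mul h1 (Real.exp_le_exp.2 h2) (Real.exp_pos _).le (by positivity)

theorem hk_contr' (a T : ℝ) : ∃ lam : ℝ, 0 ≤ lam ∧ ∀ t, 0 < t → t ≤ T → ∀ x,
    ∫⁻ q : ℝ × ℝ, ENNReal.ofReal (hk t x q ^ 2 * (Real.exp (lam * q.1) * Real.cosh (a * q.2))) ≤
      ENNReal.ofReal (Real.exp (lam * t) * Real.cosh (a * x) / 4) := by
  set E : ℝ := Real.exp (2 * a ^ 2 * T) with hE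
  have hE0 : 0 < E := Real.exp_pos _
  refine ⟨(48 * E) ^ 2, by positivity, fun t _ htT x => ?_⟩
  set lam : ℝ := (48 * E) ^ 2 with hlam
  have hl : 0 < lam := by positivity
  have hc := Real.cosh_pos (a * x)
  set K : ℝ := 6 * E * Real.exp (lam * t) * Real.cosh (a * x) with hK
  have hK0 : 0 ≤ K := by positivity
  calc _ ≤ ∫⁻ r in Ioo 0 t, ENNReal.ofReal (Real.exp (lam * r) * majI a x (t - r)) := by
        refine strip_le a x measurableSet_Ioo (τ := fun r => t - r)
          (w := fun r => Real.exp (lam * r)) (by fun_prop) (by fun_prop)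
          (fun r hr => sub_pos.2 hr.2) (fun r => (Real.exp_pos _).le) (fun q hq => ?_)
          (fun q hq => ?_)
        · have h1 : hk t x q = heat (t - q.1) (x - q.2) := if_pos hq
          have h2 := heat_sq_le (sub_pos.2 hq.2) x q.2
          have h3 := Real.cosh_pos (a * q.2)
          rw [h1]
          calc _ ≤ maj0 x (t - q.1) q.2 * (Real.exp (lam * q.1) * Real.cosh (a * q.2)) := by
                gcongr
            _ = _ := by ring
        · have h1 : hk t x q = 0 := if_neg hq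
          rw [h1]; simp
    _ ≤ ∫⁻ r in Ioo 0 t, ENNReal.ofReal K *
          ENNReal.ofReal (Real.exp (-(lam * (t - r))) / √(t - r)) := by
        refine setLIntegral_mono' measurableSet_Ioo fun r hr => ?_
        rw [← ENNReal.ofReal_mul hK0]
        apply ENNReal.ofReal_le_ofReal
        have e6 : Real.exp (2 * a ^ 2 * (t - r)) ≤ E :=
          Real.exp_le_exp.2 (mul_le_mul_of_nonneg_left (by linarith [hr.1]) (by positivity))
        have e7 : Real.exp (lam * r) = Real.exp (lam * t) * Real.exp (-(lam * (t - r))) := by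
          rw [← Real.exp_add]; congr 1; ring
        calc Real.exp (lam * r) * majI a x (t - r)
            = 6 * Real.exp (2 * a ^ 2 * (t - r)) * Real.exp (lam * t) * Real.cosh (a * x) *
              (Real.exp (-(lam * (t - r))) / √(t - r)) := by
              unfold majI; rw [e7]; ring
          _ ≤ 6 * E * Real.exp (lam * t) * Real.cosh (a * x) *
              (Real.exp (-(lam * (t - r))) / √(t - r)) := by gcongr
    _ ≤ ∫⁻ r in Iio t, ENNReal.ofReal K *
          ENNReal.ofReal (Real.exp (-(lam * (t - r))) / √(t - r)) :=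
        lintegral_mono_set fun r hr => hr.2
    _ ≤ ENNReal.ofReal K * ENNReal.ofReal (2 / √lam) := by
        rw [lintegral_const_mul' _ _ ENNReal.ofReal_ne_top]
        exact mul_le_mul_right (outer_le hl t) _
    _ = _ := by
        have hs : √lam = 48 * E := Real.sqrt_sq (by positivity)
        rw [← ENNReal.ofReal_mul hK0, hs, hK]
        congr 1
        field_simp
        ring

end

end Pool.Agent.K6329
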