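import Pool.Agent.Lib.MP_632999_pr.K.Pz

/-! Local limit theorem for the simple random walk. Centre term from Stirling or Wallis
(`Stirling.tendsto_stirlingSeq_sqrt_pi`); the ratio to the centre is a product of
`(m - d)/(m + d + 2)`, with `-(2d+2)/(m-d) <= log <= -(2d+2)/(m+d+2)`; symmetry `i -> m - i`. -/

namespace Pool.Agent.K6329

open MeasureTheory ProbabilityTheory Filter Topology Set Function
open scoped NNReal ENNReal

theorem lclt_phi {x : ℝ} (hx : |x| ≤ 1 / 2) :
    |(1 + x) * Real.log (1 + x) + (1 - x) * Real.log (1 - x) - x ^ 2| ≤ 4 * |x| ^ 3 := by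
  have k : ∀ z : ℝ, |z| ≤ 1 / 2 → |z + z ^ 2 / 2 + Real.log (1 - z)| ≤ 2 * |z| ^ 3 := by
    intro z hz
    have h := Real.abs_log_sub_add_sum_range_le (x := z) (by linarith) 2
    simp only [Finset.sum_range_succ, Finset.sum_range_zero] at h
    norm_num at h
    refine h.trans ?_
    rw [div_le_iff₀ (by linarith)]
    have : 0 ≤ |z| ^ 3 := by positivity
    nlinarith
  have h1 := k x hx
  have h2 := k (-x) (by rwa [abs_neg])
  rw [abs_neg, sub_neg_eq_add] at h2
  obtain ⟨l1, l2⟩ := abs_le.1 hx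
  have e : (1 + x) * Real.log (1 + x) + (1 - x) * Real.log (1 - x) - x ^ 2 =
      (1 + x) * (-x + (-x) ^ 2 / 2 + Real.log (1 + x)) +
        (1 - x) * (x + x ^ 2 / 2 + Real.log (1 - x)) := by ring
  rw [e]
  refine (abs_add_le _ _).trans ?_
  rw [abs_mul, abs_mul, abs_of_nonneg (by linarith : 0 ≤ 1 + x),
    abs_of_nonneg (by linarith : 0 ≤ 1 - x)]
  have := mul_le_mul_of_nonneg_left h1 (by linarith : 0 ≤ 1 - x)
  have := mul_le_mul_of_nonneg_left h2 (by linarith : 0 ≤ 1 + x)
  linarith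

theorem lclt_choose {a b : ℕ} (ha : a ≠ 0) (hb : b ≠ 0) :
    ((a + b).choose a : ℝ) / 2 ^ (a + b) =
      Stirling.stirlingSeq (a + b) / (Stirling.stirlingSeq a * Stirling.stirlingSeq b) *
        (√(2 * ((a + b : ℕ) : ℝ)) / (√(2 * (a : ℝ)) * √(2 * (b : ℝ)))) *
        Real.exp (-(a * Real.log (2 * a / (a + b)) + b * Real.log (2 * b / (a + b)))) := by
  have ha' : (0 : ℝ) < a := by positivity
  have hb' : (0 : ℝ) < b := by positivity
  rw [Real.exp_neg, Real.exp_add, ← Real.log_pow, ← Real.log_pow,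
    Real.exp_log (by positivity), Real.exp_log (by positivity), Nat.cast_add_choose]
  unfold Stirling.stirlingSeq
  have h1 : (0 : ℝ) < √(2 * ((a + b : ℕ) : ℝ)) := by positivity
  have h2 : (0 : ℝ) < √(2 * (a : ℝ)) := by positivity
  have h3 : (0 : ℝ) < √(2 * (b : ℝ)) := by positivity
  generalize √(2 * ((a + b : ℕ) : ℝ)) = s at h1
  generalize √(2 * (a : ℝ)) = t at h2
  generalize √(2 * (b : ℝ)) = u at h3
  simp only [div_pow, mul_pow, pow_add, Nat.cast_add]
  field_simp

theorem lclt {τ y : ℝ} (hτ : 0 < τ) {m : ℕ → ℕ} {i : ℕ → ℤ}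
    (hm : Tendsto (fun M : ℕ => (m M : ℝ) / (M : ℝ) ^ 2) atTop (𝓝 τ))
    (hi : Tendsto (fun M : ℕ => (2 * (i M : ℝ) - m M) / M) atTop (𝓝 y)) :
    Tendsto (fun M : ℕ => pz (m M) (i M) * ((M : ℝ) / 2)) atTop (𝓝 (heat τ y)) := by
  have hM : Tendsto (fun M : ℕ => ((M : ℝ))⁻¹) atTop (𝓝 0) :=
    tendsto_inv_atTop_zero.comp tendsto_natCast_atTop_atTop
  have hM2 : Tendsto (fun M : ℕ => (M : ℝ) ^ 2) atTop atTop :=
    (tendsto_pow_atTop two_ne_zero).comp tendsto_natCast_atTop_atTop
  have big : ∀ {f : ℕ → ℝ} {c : ℝ}, 0 < c → Tendsto (fun M : ℕ => f M / (M : ℝ) ^ 2) atTop (𝓝 c) →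
      Tendsto f atTop atTop := by
    intro f c hc h
    refine (h.pos_mul_atTop hc hM2).congr' ?_
    filter_upwards [eventually_gt_atTop 0] with M h0
    have : (0 : ℝ) < M := by exact_mod_cast h0
    field_simp
  have hA : Tendsto (fun M : ℕ => (i M : ℝ) / (M : ℝ) ^ 2) atTop (𝓝 (τ / 2)) := by
    have h := (hm.add (hi.mul hM)).div_const 2
    rw [mul_zero, add_zero] at h
    refine h.congr' ?_
    filter_upwards [eventually_gt_atTop 0] with M h0
    have : (0 : ℝ) < M := by exact_mod_cast h0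
    field_simp
    ring
  have hB : Tendsto (fun M : ℕ => ((m M : ℝ) - i M) / (M : ℝ) ^ 2) atTop (𝓝 (τ / 2)) := by
    have h := hm.sub hA
    rw [show τ - τ / 2 = τ / 2 by ring] at h
    exact h.congr fun M => by ring
  have tA := big (half_pos hτ) hA
  have tB := big (half_pos hτ) hB
  have tm := big hτ hm
  set a : ℕ → ℕ := fun M => (i M).toNat with ha
  set b : ℕ → ℕ := fun M => m M - a M with hb
  have ev : ∀ᶠ M : ℕ in atTop, 0 < i M ∧ a M ≠ 0 ∧ b M ≠ 0 ∧ m M = a M + b M ∧
      (a M : ℝ) = i M ∧ (b M : ℝ) = m M - i M := by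
    filter_upwards [tA.eventually_gt_atTop 0, tB.eventually_gt_atTop 0] with M h1 h2
    have h1' : 0 < i M := by exact_mod_cast h1
    have h2' : i M < m M := by exact_mod_cast sub_pos.1 h2
    have e1 : (a M : ℤ) = i M := by simp only [ha]; omega
    have e2 : (b M : ℤ) = m M - i M := by simp only [ha, hb]; omega
    exact ⟨h1', by omega, by omega, by omega, by exact_mod_cast e1, by exact_mod_cast e2⟩
  have st : ∀ {f : ℕ → ℕ} {g : ℕ → ℝ}, Tendsto g atTop atTop →
      (∀ᶠ M in atTop, (f M : ℝ) = g M) →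
      Tendsto (fun M => Stirling.stirlingSeq (f M)) atTop (𝓝 √Real.pi) := fun hg e =>
    Stirling.tendsto_stirlingSeq_sqrt_pi.comp (tendsto_natCast_atTop_iff.1
      (hg.congr' (e.mono fun _ h => h.symm)))
  have hpi : 0 < √Real.pi := Real.sqrt_pos.2 Real.pi_pos
  have hτ' : 0 < √τ := Real.sqrt_pos.2 hτ
  have t1 := (st tm (Eventually.of_forall fun _ => rfl)).div
    ((st tA (ev.mono fun _ h => h.2.2.2.2.1)).mul (st tB (ev.mono fun _ h => h.2.2.2.2.2)))
    (by positivity)
  have t2 := (((hm.const_mul 2).sqrt).div ((hA.const_mul 2).sqrt.mul (hB.const_mul 2).sqrt)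
    (by positivity)).div_const 2
  have hx : Tendsto (fun M : ℕ => (2 * (i M : ℝ) - m M) / m M) atTop (𝓝 0) := by
    have h := (hi.mul hM).div hm hτ.ne'
    rw [mul_zero, zero_div] at h
    refine h.congr' ?_
    filter_upwards [eventually_gt_atTop 0] with M h0
    have : (0 : ℝ) < M := by exact_mod_cast h0
    simp only [Pi.div_apply]
    field_simp
  have hq : Tendsto (fun M : ℕ => (m M : ℝ) / 2 * ((2 * (i M : ℝ) - m M) / m M) ^ 2) atTop
      (𝓝 (y ^ 2 / (2 * τ))) := by
    refine ((hi.pow 2).div (hm.const_mul 2) (by positivity)).congr' ?_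
    filter_upwards [eventually_gt_atTop 0, tm.eventually_gt_atTop 0] with M h0 h1
    have : (0 : ℝ) < M := by exact_mod_cast h0
    simp only [Pi.div_apply]
    field_simp
  have t3 : Tendsto (fun M : ℕ => (a M : ℝ) * Real.log (2 * a M / (a M + b M)) +
      b M * Real.log (2 * b M / (a M + b M))) atTop (𝓝 (y ^ 2 / (2 * τ))) := by
    have h0 := (hq.mul hx.abs).const_mul 4
    rw [abs_zero, mul_zero, mul_zero] at h0
    refine hq.congr_dist (squeeze_zero' (Eventually.of_forall fun _ => dist_nonneg) ?_ h0)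
    filter_upwards [ev, tm.eventually_gt_atTop 0,
      hx.abs.eventually_le_const (show |(0 : ℝ)| < 1 / 2 by norm_num)] with M h h1 h2
    obtain ⟨-, -, -, -, e1, e2⟩ := h
    have h3 := lclt_phi h2
    rw [e1, e2, Real.dist_eq, abs_sub_comm]
    generalize (m M : ℝ) = n at *
    generalize (i M : ℝ) = j at *
    have f1 : 2 * j / (j + (n - j)) = 1 + (2 * j - n) / n := by
      rw [add_sub_cancel]; field_simp; ring
    have f2 : 2 * (n - j) / (j + (n - j)) = 1 - (2 * j - n) / n := by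
      rw [add_sub_cancel]; field_simp; ring
    have f3 : j = n / 2 * (1 + (2 * j - n) / n) := by field_simp; ring
    have f4 : n - j = n / 2 * (1 - (2 * j - n) / n) := by field_simp; ring
    rw [f1, f2]
    generalize (2 * j - n) / n = x at *
    have f5 : j * Real.log (1 + x) + (n - j) * Real.log (1 - x) - n / 2 * x ^ 2 =
        n / 2 * ((1 + x) * Real.log (1 + x) + (1 - x) * Real.log (1 - x) - x ^ 2) := by
      linear_combination Real.log (1 + x) * f3 + Real.log (1 - x) * f4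
    rw [f5, abs_mul, abs_of_pos (half_pos h1)]
    refine (mul_le_mul_of_nonneg_left h3 (half_pos h1).le).trans (le_of_eq ?_)
    rw [← sq_abs x]
    ring
  have t := (t1.mul t2).mul (Real.continuous_exp.continuousAt.tendsto.comp t3.neg)
  have e : √Real.pi / (√Real.pi * √Real.pi) *
      (√(2 * τ) / (√(2 * (τ / 2)) * √(2 * (τ / 2))) / 2) * Real.exp (-(y ^ 2 / (2 * τ))) =
      heat τ y := by
    have h2 : (0 : ℝ) < √2 := by positivity
    have h3 : √2 * √2 = (2 : ℝ) := Real.mul_self_sqrt (by norm_num)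
    rw [heat, show 2 * (τ / 2) = τ by ring, neg_div, Real.sqrt_mul (by positivity),
      Real.sqrt_mul (by positivity), Real.sqrt_mul (by positivity)]
    congr 1
    field_simp
    linear_combination h3
  rw [← e]
  refine t.congr' ?_
  filter_upwards [ev, eventually_gt_atTop 0] with M h h0
  obtain ⟨h1, h2, h3, h4, e1, e2⟩ := h
  have hM0 : (0 : ℝ) < M := by exact_mod_cast h0
  have sq : ∀ z : ℝ, √(2 * (z / (M : ℝ) ^ 2)) = √(2 * z) / M := fun z => by
    rw [← mul_div_assoc, Real.sqrt_div' _ (by positivity), Real.sqrt_sq hM0.le]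
  simp only [Pi.div_apply, Function.comp, sq, pz, if_pos h1.le]
  rw [← e2, ← e1]
  change _ = ((m M).choose (a M) : ℝ) / 2 ^ m M * _
  rw [h4, lclt_choose h2 h3]
  field_simp

end Pool.Agent.K6329
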