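import Pool.Agent.Lib.MP_632999_pr.K.Gauss
import Pool.Agent.Lib.MP_632999_pr.K.Cell
import Pool.Agent.Lib.MP_632999_pr.K.Prod
import Pool.Agent.Lib.MP_632999_pr.K.Step

/-! The coupling has the law of the discrete model: the normalised increments and cells form one
Gaussian family with zero covariances. -/

namespace Pool.Agent.K6329

open MeasureTheory ProbabilityTheory Filter Topology Set Function
open scoped NNReal ENNReal

variable {Ω : Type} [MeasurableSpace Ω] {P : Measure Ω} {B : ℝ → Ω → ℝ} {W : Test → Ω → ℝ}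
  {Z : ℝ → ℝ → Ω → ℝ} {Tx Tc : ℕ → ℝ → ℝ}

theorem iIndep_of_cov {T : Type} {X : T → Ω → ℝ} (hX : IsGaussianProcess X P)
    (h : ∀ s t, s ≠ t → cov[X s, X t; P] = 0) : iIndepFun X P := by
  have h1 : IsGaussianProcess (fun (p : (_ : T) × Unit) ω => X p.1 ω) P :=
    hX.comp_right (fun p : (_ : T) × Unit => p.1)
  have h2 := IsGaussianProcess.iIndepFun_of_covariance_eq_zero (S := fun _ : T => Unit)
    (X := fun t _ => X t) h1 (fun t _ => hX.aemeasurable t) (fun s t hst _ _ => h s t hst)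
  exact h2.comp (fun _ (f : Unit → ℝ) => f ()) (fun _ => measurable_pi_apply _)

theorem measurable_GB (hN : IsNoise P B W) (M : ℕ) (k : ℤ) : Measurable (GB B M k) :=
  ((hN.measB' _).sub (hN.measB' _)).div_const _

theorem measurable_GW (hN : IsNoise P B W) (M m : ℕ) (k : ℤ) : Measurable (GW W M m k) :=
  (hN.measW _).div_const _

theorem gauss_GB (hN : IsNoise P B W) (M : ℕ) : IsGaussianProcess (GB B M) P := by
  classical
  refine hN.gaussB.of_isGaussianProcess fun k =>
    ⟨{(2 * (k : ℝ) + 2) / M, 2 * (k : ℝ) / M},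
      { toFun x := (x ⟨(2 * (k : ℝ) + 2) / M, by simp⟩ - x ⟨2 * (k : ℝ) / M, by simp⟩) /
          √(2 / (M : ℝ))
        map_add' x y := by simp only [Pi.add_apply]; ring
        map_smul' c x := by simp only [Pi.smul_apply, smul_eq_mul, RingHom.id_apply]; ring },
      fun ω => rfl⟩

theorem gauss_GW (hN : IsNoise P B W) (M : ℕ) :
    IsGaussianProcess (fun p : ℕ × ℤ => GW W M p.1 p.2) P := by
  classical
  refine hN.gaussW.of_isGaussianProcess fun p =>
    ⟨{cell M p.1 p.2},
      { toFun x := x ⟨cell M p.1 p.2, by simp⟩ / √(2 / (M : ℝ) ^ 3)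
        map_add' x y := by simp only [Pi.add_apply]; ring
        map_smul' c x := by simp only [Pi.smul_apply, smul_eq_mul, RingHom.id_apply]; ring },
      fun ω => rfl⟩

theorem law_div {X : Ω → ℝ} {v : ℝ≥0} {c : ℝ} (hc : 0 < c) (hv : (v : ℝ) = c)
    (h : HasLaw X (gaussianReal 0 v) P) : HasLaw (fun ω => X ω / √c) N01 P := by
  have h1 := gaussianReal_div_const h (√c)
  have h2 : v / NNReal.mk (√c ^ 2) (sq_nonneg _) = 1 := by
    apply NNReal.eq
    rw [NNReal.coe_div, hv]
    show c / √c ^ 2 = 1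
    rw [Real.sq_sqrt hc.le, div_self hc.ne']
  rw [zero_div, h2] at h1
  exact h1

theorem cov_GB (hN : IsNoise P B W) {M : ℕ} (hM : 1 ≤ M) {k l : ℤ} (h : k ≠ l) :
    cov[GB B M k, GB B M l; P] = 0 := by
  have := hN.prob
  have hm : ∀ x, MemLp (B x) 2 P := fun x => (hN.gaussB.hasGaussianLaw_eval x).memLp_two
  have hM' : (0 : ℝ) < M := by exact_mod_cast hM
  have key : ∀ a b c d : ℝ, cov[fun ω => B a ω - B b ω, fun ω => B c ω - B d ω; P] =
      (|a - d| + |b - c| - |a - c| - |b - d|) / 2 := by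
    intro a b c d
    rw [covariance_fun_sub_fun_sub (hm a) (hm b) (hm c) (hm d)]
    simp only [hN.covB]
    ring
  unfold GB
  rw [covariance_fun_div_left, covariance_fun_div_right, key]
  have e : ∀ u v : ℝ, |u / M - v / M| = |u - v| / M := by
    intro u v; rw [← sub_div, abs_div, abs_of_pos hM']
  simp only [e]
  have z : |2 * (k : ℝ) + 2 - 2 * l| + |2 * (k : ℝ) - (2 * l + 2)| -
      |2 * (k : ℝ) + 2 - (2 * l + 2)| - |2 * (k : ℝ) - 2 * l| = 0 := by
    rcases lt_or_gt_of_ne h with h1 | h1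
    · have h2 : (k : ℝ) + 1 ≤ l := by exact_mod_cast h1
      rw [abs_of_nonpos (by linarith), abs_of_nonpos (by linarith), abs_of_nonpos (by linarith),
        abs_of_nonpos (by linarith)]
      ring
    · have h2 : (l : ℝ) + 1 ≤ k := by exact_mod_cast h1
      rw [abs_of_nonneg (by linarith), abs_of_nonneg (by linarith), abs_of_nonneg (by linarith),
        abs_of_nonneg (by linarith)]
      ring
  rw [← add_div, ← sub_div, ← sub_div, z]
  simp

theorem cov_GW (hN : IsNoise P B W) {M : ℕ} (hM : 1 ≤ M) {p p' : ℕ × ℤ} (h : p ≠ p') :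
    cov[GW W M p.1 p.2, GW W M p'.1 p'.2; P] = 0 := by
  unfold GW
  rw [covariance_fun_div_left, covariance_fun_div_right, hN.covW]
  have : (cell M p.1 p.2).1 ∩ (cell M p'.1 p'.2).1 = ∅ := (cell_disjoint hM h).inter_eq
  rw [this]
  simp

theorem iIndep_GB (hN : IsNoise P B W) {M : ℕ} (hM : 1 ≤ M) : iIndepFun (GB B M) P :=
  iIndep_of_cov (gauss_GB hN M) fun _ _ h => cov_GB hN hM h

theorem iIndep_GW (hN : IsNoise P B W) {M : ℕ} (hM : 1 ≤ M) :
    iIndepFun (fun p : ℕ × ℤ => GW W M p.1 p.2) P :=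
  iIndep_of_cov (gauss_GW hN M) fun _ _ h => cov_GW hN hM h

theorem GB_law (hN : IsNoise P B W) {M : ℕ} (hM : 1 ≤ M) (k : ℤ) : HasLaw (GB B M k) N01 P := by
  have hM' : (0 : ℝ) < M := by exact_mod_cast hM
  refine law_div (by positivity) ?_ (hN.lawB_sub _ _)
  rw [Real.coe_toNNReal _ (abs_nonneg _), ← sub_div, add_sub_cancel_left,
    abs_of_pos (by positivity)]

theorem GW_law (hN : IsNoise P B W) {M : ℕ} (hM : 1 ≤ M) (m : ℕ) (k : ℤ) :
    HasLaw (GW W M m k) N01 P := by
  have hM' : (0 : ℝ) < M := by exact_mod_cast hM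
  refine law_div (by positivity) ?_ (hN.lawW _)
  have : volume (cell M m k).1 = ENNReal.ofReal (2 / (M : ℝ) ^ 3) := cell_vol hM m k
  rw [this]
  exact ENNReal.toReal_ofReal (by positivity)

theorem GW_indep (hN : IsNoise P B W) {M : ℕ} (hM : 1 ≤ M) {p p' : ℕ × ℤ} (h : p ≠ p') :
    IndepFun (GW W M p.1 p.2) (GW W M p'.1 p'.2) P := by
  exact (iIndep_GW hN hM).indepFun h

theorem mp_GB (hN : IsNoise P B W) {M : ℕ} (hM : 1 ≤ M) :
    MeasurePreserving (fun ω (k : ℤ) => GB B M k ω) P (piR N01) := by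
  have hm : Measurable fun ω (k : ℤ) => GB B M k ω :=
    measurable_pi_lambda _ fun k => measurable_GB hN M k
  exact ⟨hm, ((iIndep_GB hN hM).hasLaw_infinitePi (fun k => GB_law hN hM k) hm.aemeasurable).map_eq⟩

theorem mp_curry {X : ℕ × ℤ → Ω → ℝ} (hm : ∀ p, Measurable (X p)) (hi : iIndepFun X P)
    (hl : ∀ p, HasLaw (X p) N01 P) :
    MeasurePreserving (fun ω => ((fun m k => X (m, k) ω) : Rows)) P (piRR N01) := by
  have hm' : Measurable fun ω (p : ℕ × ℤ) => X p ω := measurable_pi_lambda _ hm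
  have h1 : MeasurePreserving (fun ω (p : ℕ × ℤ) => X p ω) P
      (Measure.infinitePi fun _ : ℕ × ℤ => N01) :=
    ⟨hm', (hi.hasLaw_infinitePi hl hm'.aemeasurable).map_eq⟩
  have h2 : MeasurePreserving (MeasurableEquiv.curry ℕ ℤ ℝ)
      (Measure.infinitePi fun _ : ℕ × ℤ => N01) (piRR N01) :=
    ⟨(MeasurableEquiv.curry ℕ ℤ ℝ).measurable,
      Measure.infinitePi_map_curry (fun (_ : ℕ) (_ : ℤ) => N01)⟩
  exact h2.comp h1

theorem mp_GW (hN : IsNoise P B W) {M : ℕ} (hM : 1 ≤ M) :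
    MeasurePreserving (fun ω => ((fun m k => GW W M m k ω) : Rows)) P (piRR N01) :=
  mp_curry (X := fun p : ℕ × ℤ => GW W M p.1 p.2) (fun p => measurable_GW hN M p.1 p.2)
    (iIndep_GW hN hM) (fun p => GW_law hN hM p.1 p.2)

theorem mp_G (hN : IsNoise P B W) {M : ℕ} (hM : 1 ≤ M) :
    MeasurePreserving (fun ω => ((fun k => GB B M k ω, fun m k => GW W M m k ω) : Row × Rows)) P
      ((piR N01).prod (piRR N01)) := by
  have := hN.prob
  have h1 := mp_GB hN hM
  have h2 := mp_GW hN hM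
  have hi : IndepFun (fun ω (k : ℤ) => GB B M k ω) (fun ω => ((fun m k => GW W M m k ω) : Rows)) P :=
    hN.indep.comp
      (φ := fun (b : ℝ → ℝ) (k : ℤ) =>
        (b ((2 * (k : ℝ) + 2) / M) - b (2 * (k : ℝ) / M)) / √(2 / (M : ℝ)))
      (ψ := fun (w : Test → ℝ) (m : ℕ) (k : ℤ) => w (cell M m k) / √(2 / (M : ℝ) ^ 3))
      (by fun_prop) (by fun_prop)
  refine ⟨h1.measurable.prodMk h2.measurable, ?_⟩
  rw [(indepFun_iff_map_prod_eq_prod_map_map h1.measurable.aemeasurable
    h2.measurable.aemeasurable).1 hi, h1.map_eq, h2.map_eq]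

theorem mp_lift (hN : IsNoise P B W) (hQ : Quant Tx Tc) {M : ℕ} (hM : 1 ≤ M) :
    MeasurePreserving (lift Tx Tc B W M) P (Pd M) := by
  have hx : MeasurePreserving (Tx M) N01 (mu M) := ⟨hQ.mx M, hQ.lx M⟩
  have hc : MeasurePreserving (Tc M) N01 (gC M) := ⟨hQ.mc M, hQ.lc M⟩
  exact ((mp_map hx).prod (mp_mapRR (mp_map hc))).comp (mp_G hN hM)

theorem measurable_lift (hN : IsNoise P B W) (hQ : Quant Tx Tc) (M : ℕ) :
    Measurable (lift Tx Tc B W M) := by
  refine Measurable.prodMk (measurable_pi_lambda _ fun k => ?_)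
    (measurable_pi_lambda _ fun m => measurable_pi_lambda _ fun k => ?_)
  · exact (hQ.mx M).comp (measurable_GB hN M k)
  · exact (hQ.mc M).comp (measurable_GW hN M m k)

omit [MeasurableSpace Ω] in
theorem Hd_adapted (hQ : Quant Tx Tc) (M N : ℕ) (n : ℕ) (hn : n ≤ N) (k : ℤ) :
    Measurable[past B W ((N : ℝ) / (M : ℝ) ^ 2)] fun ω => Hd n k (lift Tx Tc B W M ω) := by
  let _ : MeasurableSpace Ω := past B W ((N : ℝ) / (M : ℝ) ^ 2)
  induction n generalizing k with
  | zero =>
    have h1 : Measurable fun ω (j : ℤ) => Tx M (GB B M j ω) :=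
      measurable_pi_lambda _ fun j =>
        (hQ.mx M).comp (((meas_B_past _ _).sub (meas_B_past _ _)).div_const _)
    exact (measurable_prof k).comp h1
  | succ n ih =>
    have h1 := ih (Nat.le_of_succ_le hn) k
    have h2 := ih (Nat.le_of_succ_le hn) (k + 1)
    have h3 : Measurable fun ω => Tc M (GW W M n k ω) :=
      (hQ.mc M).comp ((meas_W_past (cell_before M hn k)).div_const _)
    exact ((h1.exp.add h2.exp).log).sub h3

omit [MeasurableSpace Ω] in
/-- `zd M n` reads `B` and the rows below `n` (induction on `n`) -/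
theorem zd_adapted (hQ : Quant Tx Tc) (M n : ℕ) (k : ℤ) :
    Measurable[past B W ((n : ℝ) / (M : ℝ) ^ 2)] fun ω => zd M n k (lift Tx Tc B W M ω) := by
  exact ((Hd_adapted hQ M n n le_rfl k).add_const _).exp

omit [MeasurableSpace Ω] in
theorem zb_adapted (hQ : Quant Tx Tc) (M n : ℕ) (k : ℤ) :
    Measurable[past B W ((n : ℝ) / (M : ℝ) ^ 2)] fun ω => zb M n k (lift Tx Tc B W M ω) := by
  exact ((zd_adapted hQ M n k).add (zd_adapted hQ M n (k + 1))).div_const _

theorem measurable_zbt (hN : IsNoise P B W) (hQ : Quant Tx Tc) (M : ℕ) :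
    Measurable fun p : (ℝ × ℝ) × Ω => zbt M p.1 (lift Tx Tc B W M p.2) := by
  have h0 : ∀ (n : ℕ) (k : ℤ), Measurable (zb M n k) := fun n k =>
    ((measurable_zd M n k).add (measurable_zd M n (k + 1))).div_const _
  have h1 : Measurable fun p : (Row × Rows) × (ℕ × ℤ) => zb M p.2.1 p.2.2 p.1 :=
    measurable_from_prod_countable_left fun q => h0 q.1 q.2
  have h2 : Measurable fun p : ℝ × ℕ => ji M p.2 p.1 :=
    measurable_from_prod_countable_left fun m => measurable_ji M m
  have h3 : Measurable fun q : ℝ × ℝ => mi M q.1 := (measurable_mi M).comp measurable_fst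
  have h4 : Measurable fun q : ℝ × ℝ => ji M (mi M q.1) q.2 :=
    h2.comp (f := fun q : ℝ × ℝ => (q.2, mi M q.1)) (measurable_snd.prodMk h3)
  have h5 : Measurable fun p : (ℝ × ℝ) × (Row × Rows) => zbt M p.1 p.2 :=
    h1.comp (f := fun p : (ℝ × ℝ) × (Row × Rows) =>
      (p.2, (mi M p.1.1, ji M (mi M p.1.1) p.1.2)))
      (measurable_snd.prodMk ((h3.prodMk h4).comp measurable_fst))
  exact h5.comp (f := fun p : (ℝ × ℝ) × Ω => (p.1, lift Tx Tc B W M p.2))
    (measurable_fst.prodMk ((measurable_lift hN hQ M).comp measurable_snd))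

theorem measurable_lin (hN : IsNoise P B W) (t x : ℝ) : Measurable (lin B t x) := by
  have h1 : Measurable fun p : Ω × ℝ => heat t (x - p.2) * Real.exp (B p.2 p.1) :=
    (measurable_heat.comp (measurable_const.prodMk (measurable_const.sub measurable_snd))).mul
      (hN.measB.comp measurable_swap).exp
  exact (h1.stronglyMeasurable.integral_prod_right' (ν := volume)).measurable

end Pool.Agent.K6329
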