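import Pool.Agent.Lib.MP_632999_pr.K.Defs

/-! Logarithms. `P(Z <= eta) <= C (2 eta)^(1/4)` for `eta <= 1/2`. With
`ln eta a = max (log (eta / a)) 0`: `|log a - log b| <= |a - b| / eta + ln eta a + ln eta b` for
`a, b > 0`, and `(ln eta a)^2 <= sum_i (2 i + 1) 1{a <= eta exp (-i)}`, so
`E (ln eta a)^2 <= C' eta^(1/4)`. -/

namespace Pool.Agent.K6329

open MeasureTheory ProbabilityTheory Filter Topology Set Function
open scoped NNReal ENNReal

/-- the part of `log` below the level `η` -/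
noncomputable def lnPart (η a : ℝ) : ℝ := max (Real.log (η / a)) 0

theorem lnPart_nonneg (η a : ℝ) : 0 ≤ lnPart η a := le_max_right _ _

theorem measurable_lnPart {Ω : Type} [MeasurableSpace Ω] {X : Ω → ℝ} (hX : Measurable X) (η : ℝ) :
    Measurable fun ω => lnPart η (X ω) := by
  unfold lnPart
  exact (Real.measurable_log.comp (measurable_const.div hX)).max measurable_const

theorem log_eq_lnPart {η a : ℝ} (hη : 0 < η) (ha : 0 < a) :
    Real.log a = Real.log (max a η) - lnPart η a := by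
  unfold lnPart
  rw [Real.log_div hη.ne' ha.ne']
  rcases le_total a η with h | h
  · have := Real.log_le_log ha h
    rw [max_eq_right h, max_eq_left (by linarith)]; ring
  · have := Real.log_le_log hη h
    rw [max_eq_left h, max_eq_right (by linarith)]; ring

theorem log_sub_le_div {η x y : ℝ} (hη : 0 < η) (hx : η ≤ x) (hy : η ≤ y) :
    Real.log x - Real.log y ≤ |x - y| / η := by
  have hx0 : 0 < x := hη.trans_le hx
  have hy0 : 0 < y := hη.trans_le hy
  have h1 := Real.log_le_sub_one_of_pos (div_pos hx0 hy0)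
  rw [Real.log_div hx0.ne' hy0.ne'] at h1
  have h2 : x / y - 1 = (x - y) / y := by field_simp
  have h3 : (x - y) / y ≤ |x - y| / y := div_le_div_of_nonneg_right (le_abs_self _) hy0.le
  have h4 : |x - y| / y ≤ |x - y| / η := div_le_div_of_nonneg_left (abs_nonneg _) hη hy
  linarith

theorem abs_log_sub_le {η a b : ℝ} (hη : 0 < η) (ha : 0 < a) (hb : 0 < b) :
    |Real.log a - Real.log b| ≤ |a - b| / η + lnPart η a + lnPart η b := by
  have h1 := log_sub_le_div hη (le_max_right a η) (le_max_right b η)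
  have h2 := log_sub_le_div hη (le_max_right b η) (le_max_right a η)
  have h3 : |max a η - max b η| ≤ |a - b| := abs_max_sub_max_le_abs a b η
  have h4 : |max a η - max b η| / η ≤ |a - b| / η := div_le_div_of_nonneg_right h3 hη.le
  rw [abs_sub_comm (max b η)] at h2
  have h5 := lnPart_nonneg η a
  have h6 := lnPart_nonneg η b
  rw [log_eq_lnPart hη ha, log_eq_lnPart hη hb, abs_le]
  constructor <;> linarith

theorem sum_odd (n : ℕ) : ∑ i ∈ Finset.range n, (2 * (i : ℝ) + 1) = (n : ℝ) ^ 2 := by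
  induction n with
  | zero => simp
  | succ n ih => rw [Finset.sum_range_succ, ih]; push_cast; ring

theorem lnPart_sq_le {η a : ℝ} (hη : 0 < η) (ha : 0 < a) :
    ENNReal.ofReal (lnPart η a ^ 2) ≤
      ∑' i : ℕ, ENNReal.ofReal (2 * (i : ℝ) + 1) *
        (Iic (η * Real.exp (-(i : ℝ)))).indicator (fun _ => (1 : ℝ≥0∞)) a := by
  set L := lnPart η a with hL
  have hL0 : 0 ≤ L := lnPart_nonneg η a
  have h1 : L ^ 2 ≤ ((⌈L⌉₊ : ℕ) : ℝ) ^ 2 := pow_le_pow_left₀ hL0 (Nat.le_ceil L) 2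
  refine (ENNReal.ofReal_le_ofReal h1).trans ?_
  rw [← sum_odd, ENNReal.ofReal_sum_of_nonneg (fun i _ => by positivity)]
  refine le_trans ?_ (ENNReal.sum_le_tsum (Finset.range ⌈L⌉₊))
  refine Finset.sum_le_sum fun i hi => ?_
  have h2 : (i : ℝ) < L := Nat.lt_ceil.1 (Finset.mem_range.1 hi)
  have h3 : (i : ℝ) < Real.log (η / a) := by
    rcases lt_max_iff.1 h2 with h | h
    · exact h
    · exact absurd h (not_lt.2 (Nat.cast_nonneg i))
  have h4 : Real.exp i < η / a := (Real.lt_log_iff_exp_lt (div_pos hη ha)).1 h3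
  have h5 : a ∈ Iic (η * Real.exp (-(i : ℝ))) := by
    rw [lt_div_iff₀ ha] at h4
    rw [mem_Iic, Real.exp_neg, ← div_eq_mul_inv, le_div_iff₀ (Real.exp_pos _)]
    linarith
  rw [indicator_of_mem h5, mul_one]

/-- the constant of the layer sum -/
noncomputable def lnS : ℝ := ∑' i : ℕ, (2 * (i : ℝ) + 1) * Real.exp (-(1 / 4)) ^ i

theorem summable_lnS : Summable fun i : ℕ => (2 * (i : ℝ) + 1) * Real.exp (-(1 / 4)) ^ i := by
  have h0 : ‖Real.exp (-(1 / 4))‖ < 1 := by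
    rw [Real.norm_eq_abs, abs_of_pos (Real.exp_pos _), Real.exp_lt_one_iff]
    norm_num
  have h1 := (summable_pow_mul_geometric_of_norm_lt_one 1 h0).mul_left 2
  have h2 := summable_pow_mul_geometric_of_norm_lt_one 0 h0
  refine (h1.add h2).congr fun i => ?_
  ring

theorem lintegral_lnPart {Ω : Type} [MeasurableSpace Ω] {P : Measure Ω} [IsProbabilityMeasure P]
    {X : Ω → ℝ} (hX : Measurable X) (hpos : ∀ᵐ ω ∂P, 0 < X ω) {D : ℝ} (hD : 0 ≤ D)
    (ht : ∀ η : ℝ, 0 < η → η ≤ 1 / 2 → P.real {ω | X ω ≤ η} ≤ D * η ^ (1 / 4 : ℝ))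
    {η : ℝ} (hη : 0 < η) (hη1 : η ≤ 1 / 2) :
    ∫⁻ ω, ENNReal.ofReal (lnPart η (X ω) ^ 2) ∂P ≤ ENNReal.ofReal (D * η ^ (1 / 4 : ℝ) * lnS) := by
  have hm : ∀ i : ℕ, Measurable fun ω => ENNReal.ofReal (2 * (i : ℝ) + 1) *
      (Iic (η * Real.exp (-(i : ℝ)))).indicator (fun _ => (1 : ℝ≥0∞)) (X ω) := fun i =>
    measurable_const.mul ((measurable_const.indicator measurableSet_Iic).comp hX)
  refine (lintegral_mono_ae (hpos.mono fun ω h => lnPart_sq_le hη h)).trans ?_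
  rw [lintegral_tsum fun i => (hm i).aemeasurable, lnS, ← tsum_mul_left,
    ENNReal.ofReal_tsum_of_nonneg (fun i => by positivity) (summable_lnS.mul_left _)]
  refine ENNReal.tsum_le_tsum fun i => ?_
  have hs : MeasurableSet {ω | X ω ≤ η * Real.exp (-(i : ℝ))} := measurableSet_le hX measurable_const
  have e1 : (fun ω => (Iic (η * Real.exp (-(i : ℝ)))).indicator (fun _ => (1 : ℝ≥0∞)) (X ω)) =
      {ω | X ω ≤ η * Real.exp (-(i : ℝ))}.indicator fun _ => (1 : ℝ≥0∞) := by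
    funext ω
    by_cases h : X ω ≤ η * Real.exp (-(i : ℝ))
    · rw [indicator_of_mem (mem_Iic.2 h), indicator_of_mem (show ω ∈ {ω | X ω ≤ _} from h)]
    · rw [indicator_of_notMem (fun h' => h (mem_Iic.1 h')),
        indicator_of_notMem (show ω ∉ {ω | X ω ≤ _} from h)]
  rw [lintegral_const_mul' _ _ ENNReal.ofReal_ne_top, e1, lintegral_indicator_const hs, one_mul]
  have he : Real.exp (-(i : ℝ)) ≤ 1 := Real.exp_le_one_iff.2 (by simp)
  have h1 := ht (η * Real.exp (-(i : ℝ))) (by positivity)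
    ((mul_le_of_le_one_right hη.le he).trans hη1)
  have h2 : (η * Real.exp (-(i : ℝ))) ^ (1 / 4 : ℝ) =
      η ^ (1 / 4 : ℝ) * Real.exp (-(1 / 4)) ^ i := by
    rw [Real.mul_rpow hη.le (Real.exp_pos _).le, ← Real.exp_mul, ← Real.exp_nat_mul]
    congr 2; ring
  rw [← ofReal_measureReal (measure_ne_top _ _), ← ENNReal.ofReal_mul (by positivity)]
  refine ENNReal.ofReal_le_ofReal ?_
  rw [h2] at h1
  have h3 := mul_le_mul_of_nonneg_left h1 (show 0 ≤ 2 * (i : ℝ) + 1 by positivity)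
  linarith

theorem eLpNorm_lnPart {Ω : Type} [MeasurableSpace Ω] {P : Measure Ω} [IsProbabilityMeasure P]
    {X : Ω → ℝ} (hX : Measurable X) (hpos : ∀ᵐ ω ∂P, 0 < X ω) {D : ℝ} (hD : 0 ≤ D)
    (ht : ∀ η : ℝ, 0 < η → η ≤ 1 / 2 → P.real {ω | X ω ≤ η} ≤ D * η ^ (1 / 4 : ℝ))
    {η : ℝ} (hη : 0 < η) (hη1 : η ≤ 1 / 2) :
    eLpNorm (fun ω => lnPart η (X ω)) 2 P ≤
      ENNReal.ofReal (D * η ^ (1 / 4 : ℝ) * lnS) ^ (1 / 2 : ℝ) := by
  rw [eLpNorm_eq_lintegral_rpow_enorm_toReal two_ne_zero ENNReal.ofNat_ne_top]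
  simp only [ENNReal.toReal_ofNat]
  refine ENNReal.rpow_le_rpow ?_ (by norm_num)
  refine le_trans (le_of_eq (lintegral_congr fun ω => ?_)) (lintegral_lnPart hX hpos hD ht hη hη1)
  rw [← ofReal_norm, Real.norm_of_nonneg (lnPart_nonneg _ _),
    ENNReal.ofReal_rpow_of_nonneg (lnPart_nonneg _ _) (by norm_num), Real.rpow_two]

theorem tendsto_quarter (D : ℝ) :
    Tendsto (fun η : ℝ => D * η ^ (1 / 4 : ℝ)) (𝓝[>] 0) (𝓝 0) := by
  have h1 : Tendsto (fun η : ℝ => η ^ (1 / 4 : ℝ)) (𝓝 0) (𝓝 ((0 : ℝ) ^ (1 / 4 : ℝ))) :=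
    (Real.continuousAt_rpow_const 0 (1 / 4) (Or.inr (by norm_num))).tendsto
  rw [Real.zero_rpow (by norm_num)] at h1
  have h2 := (h1.mono_left (nhdsWithin_le_nhds (s := Ioi 0))).const_mul D
  rwa [mul_zero] at h2

theorem small_pos : ∀ᶠ η : ℝ in 𝓝[>] 0, 0 < η ∧ η ≤ 1 / 2 := by
  filter_upwards [Ioc_mem_nhdsGT (show (0 : ℝ) < 1 / 2 by norm_num)] with η h using h

theorem log_conv {Ω : Type} [MeasurableSpace Ω] {P : Measure Ω} [IsProbabilityMeasure P]
    {a : ℕ → Ω → ℝ} {Y : Ω → ℝ} (ha : ∀ M, Measurable (a M)) (hpos : ∀ M ω, 0 < a M ω)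
    (hY : Measurable Y) (hY2 : MemLp Y 2 P)
    (hc : Tendsto (fun M => eLpNorm (fun ω => a M ω - Y ω) 2 P) atTop (𝓝 0)) {C : ℝ}
    (ht : ∀ᶠ M in atTop, ∀ η : ℝ, 0 < η → η ≤ 1 → P.real {ω | a M ω ≤ η} ≤ C * η ^ (1 / 4 : ℝ)) :
    (∀ᵐ ω ∂P, 0 < Y ω) ∧ MemLp (fun ω => Real.log (Y ω)) 2 P ∧
      Tendsto (fun M => eLpNorm (fun ω => Real.log (a M ω) - Real.log (Y ω)) 2 P) atTop (𝓝 0) := by
  have hq : ∀ η : ℝ, 0 < η → C * (2 * η) ^ (1 / 4 : ℝ) ≤ 2 * |C| * η ^ (1 / 4 : ℝ) := by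
    intro η hη
    have h1 : (2 : ℝ) ^ (1 / 4 : ℝ) ≤ 2 := by
      have := Real.rpow_le_rpow_of_exponent_le (x := 2) (y := 1 / 4) (z := 1) (by norm_num)
        (by norm_num)
      rwa [Real.rpow_one] at this
    have h2 : 0 ≤ η ^ (1 / 4 : ℝ) := Real.rpow_nonneg hη.le _
    have h3 : 0 ≤ (2 : ℝ) ^ (1 / 4 : ℝ) := Real.rpow_nonneg (by norm_num) _
    rw [Real.mul_rpow (by norm_num) hη.le]
    have h4 := mul_le_mul_of_nonneg_right (le_abs_self C) (mul_nonneg h3 h2)
    have h5 := mul_le_mul_of_nonneg_left (mul_le_mul_of_nonneg_right h1 h2) (abs_nonneg C)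
    linarith
  have hD : 0 ≤ 2 * |C| := by positivity
  have hta : ∀ᶠ M in atTop, ∀ η : ℝ, 0 < η → η ≤ 1 / 2 →
      P.real {ω | a M ω ≤ η} ≤ 2 * |C| * η ^ (1 / 4 : ℝ) := by
    filter_upwards [ht] with M hM η hη hη1
    refine le_trans (measureReal_mono fun ω (h : a M ω ≤ η) => ?_)
      ((hM (2 * η) (by linarith) (by linarith)).trans (hq η hη))
    show a M ω ≤ 2 * η
    linarith
  have him : TendstoInMeasure P a atTop Y :=
    tendstoInMeasure_of_tendsto_eLpNorm (p := 2) two_ne_zero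
      (fun M => (ha M).aestronglyMeasurable) hY.aestronglyMeasurable hc
  have htY : ∀ η : ℝ, 0 < η → η ≤ 1 / 2 →
      P.real {ω | Y ω ≤ η} ≤ 2 * |C| * η ^ (1 / 4 : ℝ) := by
    intro η hη hη1
    have h1 := (tendstoInMeasure_iff_measureReal_norm.1 him η hη).const_add
      (2 * |C| * η ^ (1 / 4 : ℝ))
    rw [add_zero] at h1
    refine ge_of_tendsto h1 ?_
    filter_upwards [ht] with M hM
    have h2 : {ω | Y ω ≤ η} ⊆ {ω | a M ω ≤ 2 * η} ∪ {ω | η ≤ ‖a M ω - Y ω‖} := by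
      intro ω (h : Y ω ≤ η)
      by_cases h' : a M ω ≤ 2 * η
      · exact Or.inl h'
      · refine Or.inr ?_
        show η ≤ ‖a M ω - Y ω‖
        have := le_abs_self (a M ω - Y ω)
        rw [Real.norm_eq_abs]
        linarith [not_le.1 h']
    have h3 := (measureReal_mono h2).trans (measureReal_union_le (μ := P) _ _)
    have h4 := (hM (2 * η) (by linarith) (by linarith)).trans (hq η hη)
    linarith
  have hYpos : ∀ᵐ ω ∂P, 0 < Y ω := by
    have h1 : P.real {ω | Y ω ≤ 0} ≤ 0 := by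
      refine ge_of_tendsto (tendsto_quarter (2 * |C|)) ?_
      filter_upwards [small_pos] with η h
      refine le_trans (measureReal_mono fun ω (h' : Y ω ≤ 0) => ?_) (htY η h.1 h.2)
      show Y ω ≤ η
      linarith [h.1]
    have h2 : P {ω | Y ω ≤ 0} = 0 :=
      (measureReal_eq_zero_iff (measure_ne_top _ _)).1 (le_antisymm h1 measureReal_nonneg)
    rw [ae_iff]
    simpa only [not_lt] using h2
  refine ⟨hYpos, ?_, ?_⟩
  · have hη : (0 : ℝ) < 1 / 2 := by norm_num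
    have h1 : MemLp (fun ω => lnPart (1 / 2) (Y ω)) 2 P :=
      ⟨(measurable_lnPart hY _).aestronglyMeasurable,
        (eLpNorm_lnPart hY hYpos hD htY hη le_rfl).trans_lt
          (ENNReal.rpow_lt_top_of_nonneg (by norm_num) ENNReal.ofReal_ne_top)⟩
    have h2 : MemLp (fun ω => |Y ω - 1| * 2) 2 P :=
      (hY2.sub (memLp_const 1)).abs.mul_const 2
    have h3 := (h2.add h1).add (memLp_const (lnPart (1 / 2) 1))
    refine h3.mono' (Real.measurable_log.comp hY).aestronglyMeasurable ?_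
    filter_upwards [hYpos] with ω h
    have h4 := abs_log_sub_le hη h one_pos
    rw [Real.log_one, sub_zero] at h4
    simp only [Pi.add_apply, Real.norm_eq_abs]
    linarith
  · rw [ENNReal.tendsto_nhds_zero]
    intro ε hε
    have hε3 : 0 < ε / 3 := ENNReal.div_pos hε.ne' ENNReal.ofNat_ne_top
    have h1 : Tendsto (fun η : ℝ => ENNReal.ofReal (2 * |C| * η ^ (1 / 4 : ℝ) * lnS) ^ (1 / 2 : ℝ))
        (𝓝[>] 0) (𝓝 0) := by
      have h2 := ENNReal.tendsto_ofReal ((tendsto_quarter (2 * |C|)).mul_const lnS)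
      rw [zero_mul, ENNReal.ofReal_zero] at h2
      have h3 := (ENNReal.continuous_rpow_const (y := 1 / 2)).continuousAt.tendsto.comp h2
      rwa [ENNReal.zero_rpow_of_pos (by norm_num)] at h3
    obtain ⟨η, hη, hε1⟩ := (small_pos.and (ENNReal.tendsto_nhds_zero.1 h1 _ hε3)).exists
    have h4 : Tendsto (fun M => ‖η⁻¹‖ₑ * eLpNorm (fun ω => a M ω - Y ω) 2 P) atTop (𝓝 0) := by
      have := ENNReal.Tendsto.const_mul (a := ‖η⁻¹‖ₑ) hc (Or.inr enorm_ne_top)
      rwa [mul_zero] at this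
    filter_upwards [hta, ENNReal.tendsto_nhds_zero.1 h4 _ hε3] with M hM hM'
    have m1 : Measurable fun ω => |a M ω - Y ω| / η :=
      (((ha M).sub hY).abs).div_const η
    have m2 := measurable_lnPart (ha M) η
    have m3 := measurable_lnPart hY η
    have b1 : eLpNorm (fun ω => |a M ω - Y ω| / η) 2 P ≤ ε / 3 := by
      refine le_trans ?_ hM'
      rw [← eLpNorm_const_smul]
      refine eLpNorm_mono fun ω => le_of_eq ?_
      simp only [Pi.smul_apply, smul_eq_mul, Real.norm_eq_abs, abs_div, abs_abs, abs_mul, abs_inv]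
      rw [div_eq_inv_mul]
    have b2 := (eLpNorm_lnPart (ha M) (Eventually.of_forall (hpos M)) hD hM hη.1 hη.2).trans hε1
    have b3 := (eLpNorm_lnPart hY hYpos hD htY hη.1 hη.2).trans hε1
    have b4 : eLpNorm (fun ω => Real.log (a M ω) - Real.log (Y ω)) 2 P ≤
        eLpNorm ((fun ω => |a M ω - Y ω| / η) + (fun ω => lnPart η (a M ω)) +
          fun ω => lnPart η (Y ω)) 2 P := by
      refine eLpNorm_mono_ae_real ?_
      filter_upwards [hYpos] with ω h
      exact abs_log_sub_le hη.1 (hpos M ω) h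
    refine b4.trans ((eLpNorm_add_le (m1.add m2).aestronglyMeasurable m3.aestronglyMeasurable
      one_le_two).trans ?_)
    refine le_trans (add_le_add ((eLpNorm_add_le m1.aestronglyMeasurable m2.aestronglyMeasurable
      one_le_two).trans (add_le_add b1 b2)) b3) (le_of_eq (ENNReal.add_thirds ε))

end Pool.Agent.K6329
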