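import Pool.Agent.Lib.MP_632999_pr.K.Quant1
import Pool.Agent.Lib.MP_632999_pr.K.Cdf
import Pool.Agent.Lib.MP_632999_pr.K.MomMu

/-! `Tx M = quant (mu M)`, `Tc M g = quant (gC M) (-g)`. With `s = sqrt (1/(2M))` and
`Y = (Tc M g - log (2(M+1)))/s -> -g`: `eta/s = ((2M+1)/(2M+2) exp (-s Y) - 1)/s -> g`. -/

namespace Pool.Agent.K6329

open MeasureTheory ProbabilityTheory Filter Topology Set Function
open scoped NNReal ENNReal

theorem q2_scale {T : ℕ → ℝ → ℝ} {v : ℕ → ℝ} {C : ℝ}
    (hv : ∀ᶠ M : ℕ in atTop, 0 < v M ∧ M * v M = C) (hT : ∀ᶠ M in atTop, MemLp (T M) 2 N01)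
    (h1 : ∀ᶠ M in atTop, ∫ g, T M g ^ 2 ∂N01 ≤ v M)
    (h : ∀ g, Tendsto (fun M => T M g / √(v M)) atTop (𝓝 g)) :
    Tendsto (fun M : ℕ => (M : ℝ) * ∫ g, (T M g - √(v M) * g) ^ 2 ∂N01) atTop (𝓝 0) := by
  have t := (l2_of_pointwise (X := fun M g => T M g / √(v M))
    (hT.mono fun M hM => by simpa only [div_eq_inv_mul] using hM.const_mul (√(v M))⁻¹) ?_ h).const_mul C
  · rw [mul_zero] at t
    refine t.congr' (hv.mono fun M hM => ?_)
    have s0 := (Real.sqrt_pos.2 hM.1).ne'
    simp only
    rw [← hM.2, mul_assoc, ← integral_const_mul]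
    congr 2
    funext g
    nth_rw 1 [← Real.sq_sqrt hM.1.le]
    field_simp
  · filter_upwards [hv, h1] with M a1 a2
    simp only [div_pow, Real.sq_sqrt a1.1.le]
    rwa [integral_div, div_le_one a1.1]

theorem q2_eta {y : ℕ → ℝ} {g : ℝ}
    (h : Tendsto (fun M : ℕ => (y M - Real.log (2 * ((M : ℝ) + 1))) / √(1 / (2 * (M : ℝ))))
      atTop (𝓝 (-g))) : Tendsto (fun M : ℕ => eta M (y M) / √(1 / (2 * (M : ℝ)))) atTop (𝓝 g) := by
  set s : ℕ → ℝ := fun M => √(1 / (2 * (M : ℝ))) with hs
  set Y : ℕ → ℝ := fun M => (y M - Real.log (2 * ((M : ℝ) + 1))) / s M with hY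
  have s0 : Tendsto s atTop (𝓝 0) := by
    have := (tendsto_const_nhds (x := (1 : ℝ))).div_atTop
      (tendsto_natCast_atTop_atTop.const_mul_atTop (two_pos : (0 : ℝ) < 2))
    simpa only [Real.sqrt_zero] using this.sqrt
  have t1 : Tendsto (fun M => -(s M * Y M)) atTop (𝓝 0) := by simpa using (s0.mul h).neg
  have t2 : Tendsto (fun M => s M * Y M ^ 2 + Real.exp (-(s M * Y M)) * s M) atTop (𝓝 0) := by
    simpa using (s0.mul (h.pow 2)).add (((Real.continuous_exp.tendsto 0).comp t1).mul s0)
  have t3 : Tendsto (fun M => eta M (y M) / s M + Y M) atTop (𝓝 0) := by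
    refine squeeze_zero_norm' ?_ t2
    filter_upwards [eventually_ge_atTop 1, t1.abs.eventually_le_const (by simp : |(0 : ℝ)| < 1)]
      with M M1 a1
    have M0 : (0 : ℝ) < M := by exact_mod_cast M1
    have sp : 0 < s M := Real.sqrt_pos.2 (by positivity)
    have s2 : s M ^ 2 = 1 / (2 * (M : ℝ)) := Real.sq_sqrt (by positivity)
    have a2 := Real.abs_exp_sub_one_sub_id_le a1
    set E := Real.exp (-(s M * Y M))
    have E0 : 0 < E := Real.exp_pos _
    have a3 : Real.exp (-y M) = E / (2 * (M + 1)) := by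
      rw [eq_div_iff (by positivity), ← Real.exp_log (by positivity : (0 : ℝ) < 2 * (M + 1)),
        ← Real.exp_add]
      congr 1
      simp only [hY]
      field_simp
      ring
    have a4 : eta M (y M) / s M + Y M =
        (E - 1 - -(s M * Y M)) / s M - E / (2 * (M + 1)) / s M := by
      rw [eta, a3]
      field_simp
      ring
    rw [a4, Real.norm_eq_abs]
    refine (abs_sub _ _).trans (add_le_add ?_ ?_)
    · rw [abs_div, abs_of_pos sp, div_le_iff₀ sp]
      exact a2.trans (le_of_eq (by ring))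
    · rw [abs_of_pos (by positivity), div_le_iff₀ sp, mul_assoc, ← sq, s2, mul_one_div]
      gcongr
      linarith
  simpa only [add_sub_cancel_right, zero_sub, neg_neg] using t3.sub h

theorem exists_quant : ∃ Tx Tc, Quant Tx Tc := by
  have px : ∀ M, MeasurePreserving (quant (mu M)) N01 (mu M) :=
    fun M => ⟨measurable_quant _, map_quant _⟩
  have pc : ∀ M, MeasurePreserving (fun g => quant (gC M) (-g)) N01 (gC M) := fun M =>
    MeasurePreserving.comp (g := quant (gC M)) ⟨measurable_quant _, map_quant _⟩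
      ⟨measurable_neg, by simpa using gaussianReal_map_neg (μ := 0) (v := 1)⟩
  have M0 : ∀ᶠ M : ℕ in atTop, (0 : ℝ) < M :=
    (eventually_gt_atTop 0).mono fun M h => by exact_mod_cast h
  refine ⟨fun M => quant (mu M), fun M g => quant (gC M) (-g), fun M => (px M).measurable,
    fun M => (pc M).measurable, fun M => (px M).map_eq, fun M => (pc M).map_eq, ?_, ?_⟩
  · refine q2_scale (v := fun M => 2 / (M : ℝ)) (C := 2)
      (M0.mono fun M h => ⟨by positivity, by field_simp⟩)
      (Eventually.of_forall fun M => (mu_memLp M).comp_measurePreserving (px M)) ?_ fun g => ?_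
    · filter_upwards [eventually_ge_atTop 1] with M h
      refine le_trans (le_of_eq ?_) (mu_sq_le h)
      rw [← (px M).map_eq, integral_map (px M).measurable.aemeasurable (by fun_prop), (px M).map_eq]
    · simpa using quant_tendsto mu (M0.mono fun M h => Real.sqrt_pos.2 (by positivity)) cdf_mu g
  · refine q2_scale (T := fun M g => eta M (quant (gC M) (-g))) (v := fun M => 1 / (2 * (M : ℝ)))
      (C := 1 / 2) (M0.mono fun M h => ⟨by positivity, by field_simp⟩) ?_ ?_ fun g => ?_
    · filter_upwards [eventually_ge_atTop 1] with M h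
      exact (eta_memLp h).comp_measurePreserving (pc M)
    · filter_upwards [eventually_ge_atTop 1] with M h
      refine le_of_eq (Eq.trans ?_ (eta_sq h))
      have := integral_map (μ := N01) (pc M).measurable.aemeasurable
        (f := fun c => eta M c ^ 2) (by unfold eta; fun_prop)
      rw [(pc M).map_eq] at this
      exact this.symm
    · exact q2_eta (quant_tendsto gC (M0.mono fun M h => Real.sqrt_pos.2 (by positivity))
        cdf_gC (-g))

end Pool.Agent.K6329
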