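import Pool.Agent.Lib.MP_632999_pr.K.Disc
import Pool.Agent.Lib.MP_632999_pr.K.Tail
import Pool.Agent.Lib.MP_632999_pr.K.Quant2
import Pool.Agent.Lib.MP_632999_pr.K.Contr
import Pool.Agent.Lib.MP_632999_pr.K.Log

/-! The theorem from the parts (owner 20). -/

namespace Pool.Agent.K6329

open MeasureTheory ProbabilityTheory Filter Topology Set Function
open scoped NNReal ENNReal

variable {Ω : Type} [MeasurableSpace Ω] {P : Measure Ω} {B : ℝ → Ω → ℝ} {W : Test → Ω → ℝ}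
  {Z : ℝ → ℝ → Ω → ℝ} {Tx Tc : ℕ → ℝ → ℝ}

theorem IsMild.measZ (hZ : IsMild P B W Z) (t x : ℝ) : Measurable (Z t x) :=
  hZ.meas.comp (f := fun ω : Ω => (((t, x), ω) : (ℝ × ℝ) × Ω)) (by fun_prop)

theorem log_point (hN : IsNoise P B W) (hZ : IsMild P B W Z) (hQ : Quant Tx Tc) {t x : ℝ}
    (ht : 0 < t) {n : ℕ → ℕ} {k : ℕ → ℤ} (h : Lat t x n k) :
    (∀ᵐ ω ∂P, 0 < Z t x ω) ∧ MemLp (coleHopf Z t x) 2 P ∧
      Tendsto (fun M => eLpNorm (fun ω =>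
        Real.log (zd M (n M) (k M) (lift Tx Tc B W M ω)) - coleHopf Z t x ω) 2 P) atTop (𝓝 0) := by
  have := hN.prob
  obtain ⟨C, M₀, hC⟩ := tail (t + 1) (|x| + 1)
  refine log_conv (a := fun M ω => zd M (n M) (k M) (lift Tx Tc B W M ω)) (C := C)
    (fun M => (measurable_zd _ _ _).comp (measurable_lift hN hQ M)) (fun M ω => Real.exp_pos _)
    (hZ.measZ t x) (hZ.sq t ht x) (conv_L2 hN hZ hQ ht h) ?_
  filter_upwards [h.bounds ht, eventually_ge_atTop M₀, eventually_ge_atTop 1] with M hb h0 h1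
    η hη hη1
  have hs : MeasurableSet {ω | zd M (n M) (k M) ω ≤ η} :=
    measurableSet_le (measurable_zd _ _ _) measurable_const
  have e := (mp_lift hN hQ h1).measure_preimage hs.nullMeasurableSet
  have := hC M h0 (n M) (k M) hb.1 hb.2.1 hb.2.2.1 hb.2.2.2 η hη hη1
  rw [Measure.real, ← e] at this
  exact this

theorem log_zd (M n : ℕ) (k : ℤ) (ω : Row × Rows) :
    Real.log (zd M n k ω) = Hd n k ω + n * Real.log ((2 * (M : ℝ) + 1) / 2) := Real.log_exp _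

theorem log_memLp (hN : IsNoise P B W) (hQ : Quant Tx Tc) {M : ℕ} (hM : 1 ≤ M) (n : ℕ) (k : ℤ) :
    MemLp (fun ω => Real.log (zd M n k (lift Tx Tc B W M ω))) 2 P := by
  have := hN.prob
  simp only [log_zd]
  exact ((Hd_memLp M n k).comp_measurePreserving (mp_lift hN hQ hM)).add (memLp_const _)

theorem cov_log (hN : IsNoise P B W) (hQ : Quant Tx Tc) {M : ℕ} (hM : 1 ≤ M) (n n' : ℕ)
    (k k' : ℤ) :
    cov[fun ω => Real.log (zd M n k (lift Tx Tc B W M ω)),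
      fun ω => Real.log (zd M n' k' (lift Tx Tc B W M ω)); P] = cov[Hd n k, Hd n' k'; Pd M] := by
  have := hN.prob
  simp only [log_zd]
  have i1 := ((Hd_memLp M n k).comp_measurePreserving (mp_lift hN hQ hM)).integrable one_le_two
  have i2 := ((Hd_memLp M n' k').comp_measurePreserving (mp_lift hN hQ hM)).integrable one_le_two
  have e1 := covariance_add_const_left i1 (Y := fun ω => Hd n' k' (lift Tx Tc B W M ω) +
    n' * Real.log ((2 * (M : ℝ) + 1) / 2)) (n * Real.log ((2 * (M : ℝ) + 1) / 2))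
  have e2 := covariance_add_const_right (X := Hd n k ∘ lift Tx Tc B W M) i2
    (n' * Real.log ((2 * (M : ℝ) + 1) / 2))
  refine e1.trans (e2.trans ?_)
  exact cov_mp (mp_lift hN hQ hM) (measurable_Hd _ _).aemeasurable (measurable_Hd _ _).aemeasurable

theorem main (hN : IsNoise P B W) (hZ : IsMild P B W Z) :
    (∀ t, 0 < t → ∀ x, (∀ᵐ ω ∂P, 0 < Z t x ω) ∧ MemLp (coleHopf Z t x) 2 P) ∧
    ∀ t₁ t₂ x₁ x₂ : ℝ, 0 < t₁ → t₁ ≤ t₂ →
      (Var[coleHopf Z t₁ x₁; P] - |x₁|) / 2 ≤ cov[coleHopf Z t₁ x₁, coleHopf Z t₂ x₂; P] ∧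
      cov[coleHopf Z t₁ x₁, coleHopf Z t₂ x₂; P] ≤ Var[coleHopf Z t₁ x₁; P] := by
  have := hN.prob
  obtain ⟨Tx, Tc, hQ⟩ := exists_quant
  refine ⟨fun t ht x => ?_, fun t₁ t₂ x₁ x₂ h₁ h₁₂ => ?_⟩
  · obtain ⟨n, _, k, _, h, _⟩ := exists_lat ht le_rfl x x
    exact ⟨(log_point hN hZ hQ ht h).1, (log_point hN hZ hQ ht h).2.1⟩
  obtain ⟨n, m, k₁, k₂, l₁, l₂⟩ := exists_lat h₁ h₁₂ x₁ x₂
  obtain ⟨-, m₁, c₁⟩ := log_point hN hZ hQ h₁ l₁
  obtain ⟨-, m₂, c₂⟩ := log_point hN hZ hQ (h₁.trans_le h₁₂) l₂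
  have e₁ : ∀ᶠ M in atTop,
      MemLp (fun ω => Real.log (zd M (n M) (k₁ M) (lift Tx Tc B W M ω))) 2 P :=
    (eventually_ge_atTop 1).mono fun M hM => log_memLp hN hQ hM _ _
  have e₂ : ∀ᶠ M in atTop,
      MemLp (fun ω => Real.log (zd M (n M + m M) (k₂ M) (lift Tx Tc B W M ω))) 2 P :=
    (eventually_ge_atTop 1).mono fun M hM => log_memLp hN hQ hM _ _
  have tC : Tendsto (fun M => cov[Hd (n M) (k₁ M), Hd (n M + m M) (k₂ M); Pd M]) atTop
      (𝓝 cov[coleHopf Z t₁ x₁, coleHopf Z t₂ x₂; P]) :=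
    (cov_conv e₁ e₂ m₁ m₂ c₁ c₂).congr'
      ((eventually_ge_atTop 1).mono fun M hM => cov_log hN hQ hM _ _ _ _)
  have tV : Tendsto (fun M => Var[Hd (n M) (k₁ M); Pd M]) atTop
      (𝓝 Var[coleHopf Z t₁ x₁; P]) := by
    rw [← covariance_self m₁.aemeasurable]
    refine (cov_conv e₁ e₁ m₁ m₁ c₁ c₁).congr'
      ((eventually_ge_atTop 1).mono fun M hM => ?_)
    simp only
    rw [cov_log hN hQ hM, covariance_self (measurable_Hd _ _).aemeasurable]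
  refine ⟨?_, le_of_tendsto_of_tendsto' tC tV fun M => disc_upper M _ _ _ _⟩
  have tx : Tendsto (fun M : ℕ => |2 * (k₁ M : ℝ) + n M| / M) atTop (𝓝 |x₁|) := by
    refine l₁.2.abs.congr fun M => ?_
    rw [abs_div, Nat.abs_cast]
  have tL := tV.sub ((rho_tendsto.mul (tV.add tx)).div_const 2)
  rw [show Var[coleHopf Z t₁ x₁; P] - 1 * (Var[coleHopf Z t₁ x₁; P] + |x₁|) / 2 =
    (Var[coleHopf Z t₁ x₁; P] - |x₁|) / 2 by ring] at tL
  refine le_of_tendsto_of_tendsto tL tC ?_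
  filter_upwards [l₁.bounds h₁, rhoM_pos, eventually_ge_atTop 4] with M hb hρ h4
  exact disc_lower h4 hρ _ _ _ hb.2.2.1 hb.2.2.2

end Pool.Agent.K6329
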