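import Pool.Agent.Lib.MP_632999_pr.K.Defs

/-! Moments of the log-Gamma laws. Hint: `integral_tilted`, change of variables `x = exp a`
as in `int_gam` (`integral_image_eq_integral_abs_deriv_smul`), `Real.Gamma_eq_integral`,
`Real.Gamma_add_one`. -/

namespace Pool.Agent.K6329

open MeasureTheory ProbabilityTheory Filter Topology Set Function
open scoped NNReal ENNReal

theorem gam_norm {θ : ℝ} (h : 0 < θ) :
    ∫ a, Real.exp (θ * a - Real.exp a) = Real.Gamma θ := by
  have h2 := integral_image_eq_integral_abs_deriv_smul (s := (univ : Set ℝ))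
    MeasurableSet.univ (f := Real.exp) (f' := Real.exp)
    (fun x _ => (Real.hasDerivAt_exp x).hasDerivWithinAt) Real.exp_injective.injOn
    (fun x => Real.exp (-x) * x ^ (θ - 1))
  rw [image_univ, Real.range_exp, setIntegral_univ] at h2
  rw [Real.Gamma_eq_integral h, h2]
  refine integral_congr_ae (Eventually.of_forall fun a => ?_)
  simp only [smul_eq_mul, abs_of_pos (Real.exp_pos a)]
  rw [← Real.exp_mul, ← Real.exp_add, ← Real.exp_add]
  congr 1; ring

theorem gam_int {θ s : ℝ} (hθ : 0 < θ) (h : 0 < θ + s) :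
    Integrable (fun a => Real.exp (s * a)) (gam θ) := by
  unfold gam
  rw [integrable_tilted_iff (int_gam hθ)]
  refine (int_gam h).congr (Eventually.of_forall fun a => ?_)
  simp only [smul_eq_mul]
  rw [← Real.exp_add]
  congr 1; ring

theorem gam_mom {θ s : ℝ} (hθ : 0 < θ) (h : 0 < θ + s) :
    ∫ a, Real.exp (s * a) ∂gam θ = Real.Gamma (θ + s) / Real.Gamma θ := by
  unfold gam
  rw [integral_tilted, gam_norm hθ, ← gam_norm h, ← integral_div]
  refine integral_congr_ae (Eventually.of_forall fun a => ?_)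
  simp only [smul_eq_mul]
  rw [div_mul_eq_mul_div, ← Real.exp_add]
  congr 2; ring

theorem gam_memLp {θ : ℝ} (hθ : 0 < θ) : MemLp (fun a : ℝ => a) 2 (gam θ) := by
  rw [memLp_two_iff_integrable_sq measurable_id'.aestronglyMeasurable]
  have h1 := gam_int (s := θ / 2) hθ (by linarith)
  have h2 := gam_int (s := -(θ / 2)) hθ (by linarith)
  refine ((h1.add h2).const_mul (8 / θ ^ 2)).mono'
    (Measurable.aestronglyMeasurable (by fun_prop)) (Eventually.of_forall fun a => ?_)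
  rw [Real.norm_eq_abs, abs_of_nonneg (sq_nonneg a), Pi.add_apply, div_mul_eq_mul_div,
    le_div_iff₀ (by positivity)]
  have e1 := Real.exp_pos (θ / 2 * a)
  have e2 := Real.exp_pos (-(θ / 2) * a)
  rcases le_total 0 a with ha | ha
  · have h0 : 0 ≤ θ / 2 * a := by positivity
    have := Real.quadratic_le_exp_of_nonneg h0
    nlinarith
  · have h0 : 0 ≤ -(θ / 2) * a := by nlinarith
    have := Real.quadratic_le_exp_of_nonneg h0
    nlinarith

theorem gA_exp (M : ℕ) : Integrable Real.exp (gA M) ∧ ∫ b, Real.exp b ∂gA M = (M : ℝ) + 1 := by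
  have hθ : (0 : ℝ) < (M : ℝ) + 1 := by positivity
  have h1 := gam_int (s := 1) hθ (by linarith)
  have h2 := gam_mom (s := 1) hθ (by linarith)
  simp only [one_mul] at h1 h2
  refine ⟨h1, ?_⟩
  unfold gA
  rw [h2, Real.Gamma_add_one hθ.ne', mul_div_assoc, div_self (Real.Gamma_pos_of_pos hθ).ne',
    mul_one]

theorem gC_exp_neg (M : ℕ) : Integrable (fun c => Real.exp (-c)) (gC M) ∧
    ∫ c, Real.exp (-c) ∂gC M = 1 / (2 * (M : ℝ) + 1) := by
  have hθ : (0 : ℝ) < 2 * ((M : ℝ) + 1) := by positivity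
  have hp : (0 : ℝ) < 2 * (M : ℝ) + 1 := by positivity
  have h1 := gam_int (s := -1) hθ (by linarith)
  have h2 := gam_mom (s := -1) hθ (by linarith)
  simp only [neg_one_mul] at h1 h2
  refine ⟨h1, ?_⟩
  unfold gC
  have e1 : 2 * ((M : ℝ) + 1) + -1 = 2 * (M : ℝ) + 1 := by ring
  have e2 : 2 * ((M : ℝ) + 1) = (2 * (M : ℝ) + 1) + 1 := by ring
  have g := Real.Gamma_pos_of_pos hp
  rw [h2, e1, e2, Real.Gamma_add_one hp.ne']
  field_simp

theorem gC_exp_two {M : ℕ} (hM : 1 ≤ M) : Integrable (fun c => Real.exp (-c) ^ 2) (gC M) ∧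
    ∫ c, Real.exp (-c) ^ 2 ∂gC M = 1 / ((2 * (M : ℝ) + 1) * (2 * M)) := by
  have hM' : (1 : ℝ) ≤ M := by exact_mod_cast hM
  have hθ : (0 : ℝ) < 2 * ((M : ℝ) + 1) := by positivity
  have hp : (0 : ℝ) < 2 * (M : ℝ) + 1 := by positivity
  have hq : (0 : ℝ) < 2 * (M : ℝ) := by linarith
  have h1 := gam_int (s := -2) hθ (by linarith)
  have h2 := gam_mom (s := -2) hθ (by linarith)
  have e0 : (fun c : ℝ => Real.exp (-c) ^ 2) = fun c => Real.exp (-2 * c) := by
    funext c; rw [sq, ← Real.exp_add]; congr 1; ring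
  rw [e0]
  refine ⟨h1, ?_⟩
  unfold gC
  have e1 : 2 * ((M : ℝ) + 1) + -2 = 2 * (M : ℝ) := by ring
  have e2 : 2 * ((M : ℝ) + 1) = (2 * (M : ℝ) + 1) + 1 := by ring
  have g := Real.Gamma_pos_of_pos hq
  rw [h2, e1, e2, Real.Gamma_add_one hp.ne', Real.Gamma_add_one hq.ne']
  field_simp

theorem eta_memLp {M : ℕ} (hM : 1 ≤ M) : MemLp (eta M) 2 (gC M) := by
  have h1 : MemLp (fun c : ℝ => Real.exp (-c)) 2 (gC M) := by
    rw [memLp_two_iff_integrable_sq (Measurable.aestronglyMeasurable (by fun_prop))]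
    exact (gC_exp_two hM).1
  exact (h1.const_mul (2 * (M : ℝ) + 1)).sub (memLp_const 1)

theorem eta_mean (M : ℕ) : ∫ c, eta M c ∂gC M = 0 := by
  have hp : (0 : ℝ) < 2 * (M : ℝ) + 1 := by positivity
  obtain ⟨h1, h2⟩ := gC_exp_neg M
  unfold eta
  rw [integral_sub (h1.const_mul _) (integrable_const 1), integral_const_mul, h2]
  simp only [integral_const, probReal_univ, smul_eq_mul, mul_one]
  field_simp
  ring

theorem eta_sq {M : ℕ} (hM : 1 ≤ M) : ∫ c, eta M c ^ 2 ∂gC M = 1 / (2 * (M : ℝ)) := by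
  have hM' : (1 : ℝ) ≤ M := by exact_mod_cast hM
  have hp : (0 : ℝ) < 2 * (M : ℝ) + 1 := by positivity
  have hq : (0 : ℝ) < (M : ℝ) := by linarith
  obtain ⟨h1, h2⟩ := gC_exp_neg M
  obtain ⟨h3, h4⟩ := gC_exp_two hM
  have e0 : (fun c : ℝ => eta M c ^ 2) = fun c =>
      ((2 * (M : ℝ) + 1) ^ 2 * Real.exp (-c) ^ 2 - 2 * (2 * (M : ℝ) + 1) * Real.exp (-c)) + 1 := by
    funext c; unfold eta; ring
  have h5 : Integrable (fun c : ℝ =>
      (2 * (M : ℝ) + 1) ^ 2 * Real.exp (-c) ^ 2 - 2 * (2 * (M : ℝ) + 1) * Real.exp (-c)) (gC M) :=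
    (h3.const_mul _).sub (h1.const_mul _)
  rw [e0, integral_add h5 (integrable_const 1), integral_sub (h3.const_mul _) (h1.const_mul _),
    integral_const_mul, integral_const_mul, h2, h4]
  simp only [integral_const, probReal_univ, smul_eq_mul, mul_one]
  field_simp
  ring

end Pool.Agent.K6329
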