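import Pool.Agent.Lib.MP_632999_pr.K.Ito
import Pool.Agent.Lib.MP_632999_pr.K.MomMu

/-! Second moments. Strong induction on `n` for
`E zd n k ^2 <= K exp (lam n / M^2) cosh (4 (2k+n)/M)`: `duhamel`, `ito` with `h = eta M o Tc M`
(variance `1/(2M)`), `pz^2 <= 2 (m+1)^(-1/2) pz` (`pz_le`), `pz_cosh`, `cosh s <= exp (s^2/2)`,
`sum_small`. -/

namespace Pool.Agent.K6329

open MeasureTheory ProbabilityTheory Filter Topology Set Function
open scoped NNReal ENNReal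

variable {Ω : Type} [MeasurableSpace Ω] {P : Measure Ω} {B : ℝ → Ω → ℝ} {W : Test → Ω → ℝ}
  {Z : ℝ → ℝ → Ω → ℝ} {Tx Tc : ℕ → ℝ → ℝ}

theorem m2_sum (m : Measure ℝ) [IsProbabilityMeasure m] (S : Finset ℤ) {s : ℝ}
    (h : Integrable (fun u => Real.exp (s * u)) m) :
    Integrable (fun ξ : Row => Real.exp (s * ∑ k ∈ S, ξ k)) (piR m) ∧
      ∫ ξ : Row, Real.exp (s * ∑ k ∈ S, ξ k) ∂piR m = (∫ u, Real.exp (s * u) ∂m) ^ S.card := by
  have hi : iIndepFun (fun (k : ℤ) (ξ : Row) => ξ k) (piR m) :=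
    iIndepFun_infinitePi (P := fun _ : ℤ => m) (X := fun _ u => u) fun _ => measurable_id
  have hm : ∀ k : ℤ, Measurable fun ξ : Row => ξ k := fun k => measurable_pi_apply k
  have hp : ∀ k : ℤ, MeasurePreserving (fun ξ : Row => ξ k) (piR m) m := fun k =>
    ⟨hm k, Measure.infinitePi_map_eval (fun _ : ℤ => m) k⟩
  constructor
  · have := hi.integrable_exp_mul_sum (t := s) hm (s := S)
      fun k _ => (hp k).integrable_comp_of_integrable h
    simpa only [Finset.sum_apply] using this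
  · have := hi.mgf_sum (t := s) hm S
    have h2 : ∀ k : ℤ, mgf (fun ξ : Row => ξ k) (piR m) s = ∫ u, Real.exp (s * u) ∂m := by
      intro k
      have := integral_map (μ := piR m) (φ := fun ξ : Row => ξ k) (hm k).aemeasurable
        (f := fun u => Real.exp (s * u)) (Measurable.aestronglyMeasurable (by fun_prop))
      rw [(hp k).map_eq] at this
      exact this.symm
    simp only [h2, Finset.prod_const] at this
    rw [← this]
    simp only [mgf, Finset.sum_apply]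

theorem m2_prof {M : ℕ} {s c : ℝ} (hs : |s| < (M : ℝ) + 1)
    (hc : ∫ u, Real.exp (s * u) ∂mu M ≤ Real.exp c) (j : ℤ) :
    Integrable (fun ξ : Row => Real.exp (s * prof ξ j)) (piR (mu M)) ∧
      ∫ ξ : Row, Real.exp (s * prof ξ j) ∂piR (mu M) ≤ Real.exp (c * |(j : ℝ)|) := by
  have h0 : 0 ≤ ∫ u, Real.exp (s * u) ∂mu M := integral_nonneg fun u => (Real.exp_pos _).le
  have hpow : ∀ n : ℕ, (n : ℝ) = |(j : ℝ)| →
      (∫ u, Real.exp (s * u) ∂mu M) ^ n ≤ Real.exp (c * |(j : ℝ)|) := by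
    intro n hn
    rw [← hn, mul_comm c, Real.exp_nat_mul]
    exact pow_le_pow_left₀ h0 hc n
  rcases le_total 0 j with hj | hj
  · have e : ∀ ξ : Row, prof ξ j = ∑ k ∈ Finset.Ico 0 j, ξ k := fun ξ => by
      rw [prof, Finset.Ico_eq_empty (a := j) (not_lt.2 hj)]; simp
    simp only [e]
    obtain ⟨h1, h2⟩ := m2_sum (mu M) (Finset.Ico 0 j) (mu_int hs)
    refine ⟨h1, h2.le.trans (hpow _ ?_)⟩
    rw [Int.card_Ico, sub_zero, abs_of_nonneg (by exact_mod_cast hj)]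
    exact_mod_cast congrArg (fun z : ℤ => (z : ℝ)) (Int.toNat_of_nonneg hj)
  · have e : ∀ ξ : Row, s * prof ξ j = -s * ∑ k ∈ Finset.Ico j 0, ξ k := fun ξ => by
      rw [prof, Finset.Ico_eq_empty (a := 0) (not_lt.2 hj)]; simp
    simp only [e]
    obtain ⟨h1, h2⟩ := m2_sum (mu M) (Finset.Ico j 0) (s := -s) (mu_int (by rwa [abs_neg]))
    have h3 : ∫ u, Real.exp (-s * u) ∂mu M = ∫ u, Real.exp (s * u) ∂mu M := by
      have := integral_map (μ := mu M) (φ := fun u : ℝ => -u) (mu_neg M).measurable.aemeasurable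
        (f := fun u => Real.exp (s * u)) (Measurable.aestronglyMeasurable (by fun_prop))
      rw [(mu_neg M).map_eq] at this
      rw [this]; simp only [mul_neg, neg_mul]
    rw [h3] at h2
    refine ⟨h1, h2.le.trans (hpow _ ?_)⟩
    rw [Int.card_Ico, zero_sub, abs_of_nonpos (by exact_mod_cast hj)]
    exact_mod_cast congrArg (fun z : ℤ => (z : ℝ)) (Int.toNat_of_nonneg (neg_nonneg.2 hj))

theorem m2_pow (M p : ℕ) (j : ℤ) (ω : Row × Rows) :
    zd M 0 j ω ^ p = Real.exp (p * prof ω.1 j) := by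
  simp [zd, Hd, evol, Real.exp_nat_mul]

theorem m2_fst {M : ℕ} {s c : ℝ} (hs : |s| < (M : ℝ) + 1)
    (hc : ∫ u, Real.exp (s * u) ∂mu M ≤ Real.exp c) (j : ℤ) :
    Integrable (fun ω : Row × Rows => Real.exp (s * prof ω.1 j)) (Pd M) ∧
      ∫ ω : Row × Rows, Real.exp (s * prof ω.1 j) ∂Pd M ≤ Real.exp (c * |(j : ℝ)|) := by
  obtain ⟨h1, h2⟩ := m2_prof hs hc j
  have hp : MeasurePreserving (Prod.fst : Row × Rows → Row) (Pd M) (piR (mu M)) :=
    measurePreserving_fst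
  refine ⟨hp.integrable_comp_of_integrable h1, le_trans (le_of_eq ?_) h2⟩
  have := integral_map (μ := Pd M) (φ := (Prod.fst : Row × Rows → Row)) hp.measurable.aemeasurable
    (f := fun ξ => Real.exp (s * prof ξ j)) (by rw [hp.map_eq]; exact h1.aestronglyMeasurable)
  rw [hp.map_eq] at this
  exact this.symm

theorem z0_mom {M : ℕ} (hM : 6 ≤ M) (j : ℤ) :
    Integrable (fun ω => zd M 0 j ω ^ 4) (Pd M) ∧
      ∫ ω, zd M 0 j ω ^ 4 ∂Pd M ≤ Real.exp (32 * |(j : ℝ)| / M) ∧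
      MemLp (zd M 0 j) 2 (Pd M) ∧ ∫ ω, zd M 0 j ω ^ 2 ∂Pd M ≤ Real.exp (8 * |(j : ℝ)| / M) := by
  have hM' : (6 : ℝ) ≤ M := by exact_mod_cast hM
  have h4 := m2_fst (M := M) (s := 4) (by rw [abs_of_pos (by norm_num)]; linarith) (mu_exp4 hM) j
  have e2 : ∫ u, Real.exp (2 * u) ∂mu M ≤ Real.exp (8 / (M : ℝ)) := by
    rw [mu_exp2 (by omega)]
    refine le_trans ?_ (Real.add_one_le_exp _)
    rw [div_add_one (by positivity), div_le_div_iff₀ (by nlinarith) (by positivity)]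
    nlinarith [mul_pos (show (0 : ℝ) < M by linarith) (show (0 : ℝ) < M - 3 by linarith)]
  have h2 := m2_fst (M := M) (s := 2) (by rw [abs_of_pos (by norm_num)]; linarith) e2 j
  have h1 := m2_fst (M := M) (s := 1) (c := Real.log (((M : ℝ) + 1) / M))
    (by rw [abs_of_pos (by norm_num)]; linarith)
    (by simp only [one_mul]; rw [mu_exp1 (by omega), Real.exp_log (by positivity)]) j
  have hz : AEStronglyMeasurable (zd M 0 j) (Pd M) := by
    have : zd M 0 j = fun ω : Row × Rows => Real.exp (1 * prof ω.1 j) := by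
      funext ω; have := m2_pow M 1 j ω; simpa using this
    rw [this]; exact h1.1.aestronglyMeasurable
  refine ⟨?_, ?_, ?_, ?_⟩
  · simp only [m2_pow]; exact_mod_cast h4.1
  · simp only [m2_pow]
    refine le_trans (by exact_mod_cast h4.2) (le_of_eq ?_)
    congr 1; push_cast; ring
  · rw [memLp_two_iff_integrable_sq hz]
    simp only [m2_pow]; exact_mod_cast h2.1
  · simp only [m2_pow]
    refine le_trans (by exact_mod_cast h2.2) (le_of_eq ?_)
    congr 1; push_cast; ring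

theorem m2_eta (hQ : Quant Tx Tc) {M : ℕ} (hM : 1 ≤ M) :
    Measurable (fun g => eta M (Tc M g)) ∧ MemLp (fun g => eta M (Tc M g)) 2 N01 ∧
      ∫ g, eta M (Tc M g) ∂N01 = 0 ∧ ∫ g, eta M (Tc M g) ^ 2 ∂N01 = 1 / (2 * (M : ℝ)) := by
  have hp : MeasurePreserving (Tc M) N01 (gC M) := ⟨hQ.mc M, hQ.lc M⟩
  have he : Measurable (eta M) := by unfold eta; fun_prop
  refine ⟨he.comp (hQ.mc M), (eta_memLp hM).comp_measurePreserving hp, ?_, ?_⟩
  · rw [← eta_mean M, ← hQ.lc M, integral_map (hQ.mc M).aemeasurable he.aestronglyMeasurable]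
  · rw [← eta_sq hM, ← hQ.lc M,
      integral_map (hQ.mc M).aemeasurable (he.pow_const 2).aestronglyMeasurable]

theorem m2_zb {M n : ℕ} {k : ℤ} {f : Ω → Row × Rows}
    (h1 : MemLp (fun ω => zd M n k (f ω)) 2 P) (h2 : MemLp (fun ω => zd M n (k + 1) (f ω)) 2 P) :
    MemLp (fun ω => zb M n k (f ω)) 2 P := by
  have := (h1.add h2).const_mul (1 / 2 : ℝ)
  refine this.ae_eq (Eventually.of_forall fun ω => ?_)
  simp only [zb, Pi.add_apply]; ring

theorem zd_memLp (hN : IsNoise P B W) (hQ : Quant Tx Tc) {M : ℕ} (hM : 6 ≤ M) (n : ℕ) (k : ℤ) :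
    MemLp (fun ω => zd M n k (lift Tx Tc B W M ω)) 2 P := by
  have hM1 : 1 ≤ M := by omega
  induction n generalizing k with
  | zero => exact (z0_mom hM k).2.2.1.comp_measurePreserving (mp_lift hN hQ hM1)
  | succ n ih =>
    have hb := m2_zb (ih k) (ih (k + 1))
    obtain ⟨e1, e2, e3, -⟩ := m2_eta hQ hM1
    have := (ito hN hM1 e1 e2 e3 (Y := fun p ω => zb M p.1 p.2 (lift Tx Tc B W M ω)) {(n, k)}
      (fun p _ => zb_adapted hQ M p.1 p.2)
      (fun p hp => by rw [Finset.mem_singleton.1 hp]; exact hb)).1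
    refine (hb.add this).ae_eq (Eventually.of_forall fun ω => ?_)
    simp only [Pi.add_apply, Finset.sum_singleton, zd_succ, lift]; ring

theorem zb_memLp (hN : IsNoise P B W) (hQ : Quant Tx Tc) {M : ℕ} (hM : 6 ≤ M) (n : ℕ) (k : ℤ) :
    MemLp (fun ω => zb M n k (lift Tx Tc B W M ω)) 2 P := by
  exact m2_zb (zd_memLp hN hQ hM n k) (zd_memLp hN hQ hM n (k + 1))

theorem m2_cosh_pow {M : ℕ} (hM : 6 ≤ M) (l : ℕ) :
    Real.cosh (4 / (M : ℝ)) ^ l ≤ Real.exp (8 * l / (M : ℝ) ^ 2) := by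
  have hM' : (6 : ℝ) ≤ M := by exact_mod_cast hM
  refine (pow_le_pow_left₀ (Real.cosh_pos _).le (Real.cosh_le_exp_half_sq _) l).trans (le_of_eq ?_)
  rw [← Real.exp_nat_mul]; congr 1; field_simp; ring

theorem m2_cosh_two {M : ℕ} (hM : 6 ≤ M) : Real.cosh (4 / (M : ℝ)) ≤ 2 := by
  have hM' : (6 : ℝ) ≤ M := by exact_mod_cast hM
  have h1 := m2_cosh_pow hM 1
  rw [pow_one] at h1
  refine h1.trans ?_
  have h2 : (8 * (1 : ℕ) / (M : ℝ) ^ 2 : ℝ) ≤ Real.log 2 := by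
    have := Real.log_two_gt_d9
    rw [div_le_iff₀ (by positivity)]; push_cast; nlinarith
  calc _ ≤ Real.exp (Real.log 2) := Real.exp_le_exp.2 h2
    _ = 2 := Real.exp_log (by norm_num)

/-- from the two parents to their mean -/
theorem m2_mean {M n : ℕ} (hM : 6 ≤ M) {k : ℤ} {f : Ω → Row × Rows} {C : ℝ} (hC : 0 ≤ C)
    (h1 : MemLp (fun ω => zd M n k (f ω)) 2 P) (h2 : MemLp (fun ω => zd M n (k + 1) (f ω)) 2 P)
    (b1 : ∫ ω, zd M n k (f ω) ^ 2 ∂P ≤ C * Real.cosh (4 * ((2 * (k : ℝ) + n) / M)))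
    (b2 : ∫ ω, zd M n (k + 1) (f ω) ^ 2 ∂P ≤
      C * Real.cosh (4 * ((2 * ((k + 1 : ℤ) : ℝ) + n) / M))) :
    ∫ ω, zb M n k (f ω) ^ 2 ∂P ≤ 2 * C * Real.cosh (4 * ((2 * (k : ℝ) + n + 1) / M)) := by
  have i1 := h1.integrable_sq
  have i2 := h2.integrable_sq
  have h3 : ∫ ω, zb M n k (f ω) ^ 2 ∂P ≤
      ∫ ω, (zd M n k (f ω) ^ 2 + zd M n (k + 1) (f ω) ^ 2) / 2 ∂P := by
    refine integral_mono (m2_zb h1 h2).integrable_sq ((i1.add i2).div_const 2) fun ω => ?_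
    simp only [zb]
    nlinarith [sq_nonneg (zd M n k (f ω) - zd M n (k + 1) (f ω))]
  rw [integral_div, integral_add i1 i2] at h3
  set y := 4 * ((2 * (k : ℝ) + n + 1) / M) with hy
  have e1 : 4 * ((2 * (k : ℝ) + n) / M) = y - 4 / M := by rw [hy]; ring
  have e2 : 4 * ((2 * ((k + 1 : ℤ) : ℝ) + n) / M) = y + 4 / M := by rw [hy]; push_cast; ring
  rw [e1, Real.cosh_sub] at b1
  rw [e2, Real.cosh_add] at b2
  have h4 := mul_le_mul_of_nonneg_left (m2_cosh_two hM) (mul_nonneg hC (Real.cosh_pos y).le)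
  nlinarith

theorem m2_lind (hN : IsNoise P B W) (hQ : Quant Tx Tc) {M : ℕ} (hM : 6 ≤ M) (n : ℕ) (k : ℤ) :
    MemLp (fun ω => lind M n k (lift Tx Tc B W M ω)) 2 P ∧
      ∫ ω, lind M n k (lift Tx Tc B W M ω) ^ 2 ∂P ≤
        2 * Real.exp (8 * n / (M : ℝ) ^ 2) * Real.cosh (4 * ((2 * (k : ℝ) + n) / M)) := by
  have hM1 : 1 ≤ M := by omega
  have hz := fun j => zd_memLp hN hQ hM 0 j
  have hL : MemLp (fun ω => lind M n k (lift Tx Tc B W M ω)) 2 P := by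
    unfold lind
    exact memLp_finsetSum _ fun j _ => (hz j).const_mul _
  refine ⟨hL, ?_⟩
  have hI : ∀ j ∈ Finset.Icc k (k + n),
      Integrable (fun ω => pz n (j - k) * zd M 0 j (lift Tx Tc B W M ω) ^ 2) P :=
    fun j _ => (hz j).integrable_sq.const_mul _
  have h1 : ∫ ω, lind M n k (lift Tx Tc B W M ω) ^ 2 ∂P ≤
      ∫ ω, ∑ j ∈ Finset.Icc k (k + n), pz n (j - k) * zd M 0 j (lift Tx Tc B W M ω) ^ 2 ∂P := by
    refine integral_mono hL.integrable_sq (integrable_finsetSum _ hI) fun ω => ?_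
    exact Real.pow_arith_mean_le_arith_mean_pow_of_even _ _ _ (fun j _ => pz_nonneg _ _)
      (pz_sum n k le_rfl) (by norm_num : Even 2)
  rw [integral_finsetSum _ hI] at h1
  refine h1.trans ?_
  have h2 : ∀ j ∈ Finset.Icc k (k + n),
      ∫ ω, pz n (j - k) * zd M 0 j (lift Tx Tc B W M ω) ^ 2 ∂P ≤ 2 * (pz n (j - k) *
        Real.cosh (4 * ((2 * (k : ℝ) + n) / M) + 4 / M * (2 * ((j : ℝ) - k) - n))) := by
    intro j _
    rw [integral_const_mul]
    have hp := mp_lift hN hQ hM1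
    have e := integral_map (μ := P) (φ := lift Tx Tc B W M) hp.measurable.aemeasurable
      (f := fun ω => zd M 0 j ω ^ 2)
      (by rw [hp.map_eq]; exact (z0_mom hM j).2.2.1.integrable_sq.aestronglyMeasurable)
    rw [hp.map_eq] at e
    rw [← e]
    have e2 : 4 * ((2 * (k : ℝ) + n) / M) + 4 / M * (2 * ((j : ℝ) - k) - n) = 8 * (j : ℝ) / M := by
      ring
    have e3 : Real.exp (8 * |(j : ℝ)| / M) ≤ 2 * Real.cosh (8 * (j : ℝ) / M) := by
      have : 8 * |(j : ℝ)| / M = |8 * (j : ℝ) / M| := by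
        rw [abs_div, abs_mul, Nat.abs_cast, abs_of_pos (by norm_num : (0 : ℝ) < 8)]
      rw [this, ← Real.cosh_abs, Real.cosh_eq]
      have := Real.exp_pos (-|8 * (j : ℝ) / M|)
      linarith
    rw [e2]
    have := mul_le_mul_of_nonneg_left ((z0_mom hM j).2.2.2.trans e3) (pz_nonneg n (j - k))
    linarith
  refine (Finset.sum_le_sum h2).trans ?_
  rw [← Finset.mul_sum, pz_cosh n k le_rfl, mul_assoc]
  exact mul_le_mul_of_nonneg_left
    (mul_le_mul_of_nonneg_right (m2_cosh_pow hM n) (Real.cosh_pos _).le) (by norm_num)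

/-- one row of the stochastic sum -/
theorem m2_row {M n m : ℕ} (hM : 6 ≤ M) (hm : m < n) (k : ℤ) {A : ℤ → ℝ} {D : ℝ} (hD : 0 ≤ D)
    (hA : ∀ j, A j ≤ D * Real.cosh (4 * ((2 * (j : ℝ) + m + 1) / M))) :
    ∑ j ∈ Finset.Icc k (k + n), pz (n - 1 - m) (j - k) ^ 2 * A j ≤
      2 / √(((n - 1 - m : ℕ) : ℝ) + 1) * D * Real.exp (8 * ((n - 1 - m : ℕ) : ℝ) / (M : ℝ) ^ 2) *
        Real.cosh (4 * ((2 * (k : ℝ) + n) / M)) := by
  set l := n - 1 - m with hl
  have hln : (n : ℝ) = l + m + 1 := by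
    have : n = l + m + 1 := by omega
    exact_mod_cast this
  have hs : 0 ≤ 2 / √((l : ℝ) + 1) := by positivity
  have h1 : ∀ j ∈ Finset.Icc k (k + n), pz l (j - k) ^ 2 * A j ≤ 2 / √((l : ℝ) + 1) * D *
      (pz l (j - k) * Real.cosh (4 * ((2 * (k : ℝ) + n) / M) + 4 / M * (2 * ((j : ℝ) - k) - l))) := by
    intro j _
    have e : 4 * ((2 * (k : ℝ) + n) / M) + 4 / M * (2 * ((j : ℝ) - k) - l) =
        4 * ((2 * (j : ℝ) + m + 1) / M) := by rw [hln]; ring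
    rw [e]
    have p0 := pz_nonneg l (j - k)
    have p1 : pz l (j - k) ≤ 2 / √((l : ℝ) + 1) := by
      refine (pz_le l (j - k)).trans (mul_le_of_le_one_right hs (Real.exp_le_one_iff.2 ?_))
      exact div_nonpos_of_nonpos_of_nonneg (neg_nonpos.2 (sq_nonneg _)) (by positivity)
    have c0 := mul_nonneg hD (Real.cosh_pos (4 * ((2 * (j : ℝ) + m + 1) / M))).le
    calc pz l (j - k) ^ 2 * A j ≤ pz l (j - k) ^ 2 * (D * Real.cosh (4 * ((2 * (j : ℝ) + m + 1) / M))) :=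
          mul_le_mul_of_nonneg_left (hA j) (sq_nonneg _)
      _ = pz l (j - k) * (pz l (j - k) * (D * Real.cosh (4 * ((2 * (j : ℝ) + m + 1) / M)))) := by ring
      _ ≤ 2 / √((l : ℝ) + 1) * (pz l (j - k) * (D * Real.cosh (4 * ((2 * (j : ℝ) + m + 1) / M)))) :=
          mul_le_mul_of_nonneg_right p1 (mul_nonneg p0 c0)
      _ = _ := by ring
  refine (Finset.sum_le_sum h1).trans ?_
  rw [← Finset.mul_sum, pz_cosh l k (by omega), mul_assoc (2 / √((l : ℝ) + 1) * D)]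
  exact mul_le_mul_of_nonneg_left
    (mul_le_mul_of_nonneg_right (m2_cosh_pow hM l) (Real.cosh_pos _).le) (mul_nonneg hs hD)

theorem m2_main (hN : IsNoise P B W) (hQ : Quant Tx Tc) : ∃ b : ℝ, 0 ≤ b ∧
    ∀ M : ℕ, 6 ≤ M → ∀ n : ℕ, ∀ k : ℤ, ∫ ω, zd M n k (lift Tx Tc B W M ω) ^ 2 ∂P ≤
      8 * Real.exp (b * n / (M : ℝ) ^ 2) * Real.cosh (4 * ((2 * (k : ℝ) + n) / M)) := by
  obtain ⟨b, hb, hs⟩ := sum_small (β := 1 / 8) (by norm_num)
  refine ⟨b + 8, by linarith, fun M hM n => ?_⟩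
  have hM1 : 1 ≤ M := by omega
  have hM' : (6 : ℝ) ≤ M := by exact_mod_cast hM
  induction n using Nat.strong_induction_on with
  | _ n ih =>
  intro k
  obtain ⟨e1, e2, e3, e4⟩ := m2_eta hQ hM1
  obtain ⟨s1, s2⟩ := ito hN hM1 e1 e2 e3
    (Y := fun p ω => pz (n - 1 - p.1) (p.2 - k) * zb M p.1 p.2 (lift Tx Tc B W M ω)) (cone n k)
    (fun p _ => (zb_adapted hQ M p.1 p.2).const_mul _)
    (fun p _ => (zb_memLp hN hQ hM p.1 p.2).const_mul _)
  obtain ⟨l1, l2⟩ := m2_lind hN hQ hM n k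
  set y := Real.cosh (4 * ((2 * (k : ℝ) + n) / M)) with hy
  have y0 : 0 ≤ y := (Real.cosh_pos _).le
  set E := Real.exp ((b + 8) * n / (M : ℝ) ^ 2) with hE
  have E0 : 0 ≤ E := (Real.exp_pos _).le
  have h1 : ∫ ω, zd M n k (lift Tx Tc B W M ω) ^ 2 ∂P ≤
      ∫ ω, (2 * lind M n k (lift Tx Tc B W M ω) ^ 2 + 2 * (∑ p ∈ cone n k,
        pz (n - 1 - p.1) (p.2 - k) * zb M p.1 p.2 (lift Tx Tc B W M ω) *
          eta M (Tc M (GW W M p.1 p.2 ω))) ^ 2) ∂P := by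
    refine integral_mono (zd_memLp hN hQ hM n k).integrable_sq
      ((l1.integrable_sq.const_mul 2).add (s1.integrable_sq.const_mul 2)) fun ω => ?_
    have hd := duhamel M n k (lift Tx Tc B W M ω)
    have hc : ∀ m j, (lift Tx Tc B W M ω).2 m j = Tc M (GW W M m j ω) := fun _ _ => rfl
    simp only [hc] at hd
    simp only [hd]
    nlinarith [sq_nonneg (lind M n k (lift Tx Tc B W M ω) - ∑ p ∈ cone n k,
        pz (n - 1 - p.1) (p.2 - k) * zb M p.1 p.2 (lift Tx Tc B W M ω) *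
          eta M (Tc M (GW W M p.1 p.2 ω)))]
  rw [integral_add (l1.integrable_sq.const_mul 2) (s1.integrable_sq.const_mul 2),
    integral_const_mul, integral_const_mul, s2, e4] at h1
  have h2 : ∑ p ∈ cone n k, ∫ ω, (pz (n - 1 - p.1) (p.2 - k) *
      zb M p.1 p.2 (lift Tx Tc B W M ω)) ^ 2 ∂P ≤ 32 * E * y * (1 / 8 * M) := by
    simp only [mul_pow, integral_const_mul]
    rw [cone, Finset.sum_product]
    have h3 : ∀ m ∈ Finset.range n, ∑ j ∈ Finset.Icc k (k + n), pz (n - 1 - m) (j - k) ^ 2 *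
        ∫ ω, zb M m j (lift Tx Tc B W M ω) ^ 2 ∂P ≤ 32 * E * y *
          (1 / √(((n - 1 - m : ℕ) : ℝ) + 1) *
            Real.exp (-b * (((n - 1 - m : ℕ) : ℝ) + 1) / (M : ℝ) ^ 2)) := by
      intro m hm
      have hm' := Finset.mem_range.1 hm
      refine (m2_row hM hm' k (D := 2 * (8 * Real.exp ((b + 8) * m / (M : ℝ) ^ 2))) (by positivity)
        fun j => m2_mean hM (by positivity) (zd_memLp hN hQ hM m j) (zd_memLp hN hQ hM m (j + 1))
          (ih m hm' j) (ih m hm' (j + 1))).trans ?_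
      set l := n - 1 - m with hl
      have hln : (n : ℝ) = l + m + 1 := by
        have : n = l + m + 1 := by omega
        exact_mod_cast this
      have h4 : Real.exp ((b + 8) * m / (M : ℝ) ^ 2) * Real.exp (8 * (l : ℝ) / (M : ℝ) ^ 2) ≤
          E * Real.exp (-b * ((l : ℝ) + 1) / (M : ℝ) ^ 2) := by
        rw [hE, ← Real.exp_add, ← Real.exp_add, Real.exp_le_exp, ← add_div, ← add_div, hln]
        exact div_le_div_of_nonneg_right (by nlinarith) (by positivity)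
      have h5 := mul_le_mul_of_nonneg_left h4 (show 0 ≤ 32 * y * (1 / √((l : ℝ) + 1)) by positivity)
      calc _ = 32 * y * (1 / √((l : ℝ) + 1)) * (Real.exp ((b + 8) * m / (M : ℝ) ^ 2) *
            Real.exp (8 * (l : ℝ) / (M : ℝ) ^ 2)) := by rw [hy]; ring
        _ ≤ _ := h5
        _ = _ := by ring
    refine (Finset.sum_le_sum h3).trans ?_
    rw [← Finset.mul_sum, Finset.sum_range_reflect
      (fun l : ℕ => 1 / √((l : ℝ) + 1) * Real.exp (-b * ((l : ℝ) + 1) / (M : ℝ) ^ 2)) n]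
    exact mul_le_mul_of_nonneg_left (hs M hM1 n) (by positivity)
  have h6 : Real.exp (8 * n / (M : ℝ) ^ 2) ≤ E := by
    rw [hE, Real.exp_le_exp]
    exact div_le_div_of_nonneg_right (by nlinarith [Nat.cast_nonneg (α := ℝ) n]) (by positivity)
  have h7 := mul_le_mul_of_nonneg_left h2 (show 0 ≤ 1 / (2 * (M : ℝ)) by positivity)
  have h8 : 1 / (2 * (M : ℝ)) * (32 * E * y * (1 / 8 * M)) = 2 * E * y := by field_simp; ring
  have h9 := mul_le_mul_of_nonneg_right h6 y0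
  rw [h8] at h7
  nlinarith

theorem zd_sq (hN : IsNoise P B W) (hQ : Quant Tx Tc) (T : ℝ) : ∃ C : ℝ, 0 ≤ C ∧
    ∀ M : ℕ, 6 ≤ M → ∀ n : ℕ, (n : ℝ) ≤ T * (M : ℝ) ^ 2 → ∀ k : ℤ,
      ∫ ω, zd M n k (lift Tx Tc B W M ω) ^ 2 ∂P ≤ C * Real.cosh (4 * ((2 * (k : ℝ) + n) / M)) := by
  obtain ⟨b, hb, h⟩ := m2_main hN hQ
  refine ⟨8 * Real.exp (b * T), by positivity, fun M hM n hn k => (h M hM n k).trans ?_⟩
  have hM' : (6 : ℝ) ≤ M := by exact_mod_cast hM
  refine mul_le_mul_of_nonneg_right (mul_le_mul_of_nonneg_left (Real.exp_le_exp.2 ?_) (by norm_num))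
    (Real.cosh_pos _).le
  rw [div_le_iff₀ (by positivity), mul_assoc]
  exact mul_le_mul_of_nonneg_left hn hb

theorem zb_sq (hN : IsNoise P B W) (hQ : Quant Tx Tc) (T : ℝ) : ∃ C : ℝ, 0 ≤ C ∧
    ∀ M : ℕ, 6 ≤ M → ∀ n : ℕ, (n : ℝ) ≤ T * (M : ℝ) ^ 2 → ∀ k : ℤ,
      ∫ ω, zb M n k (lift Tx Tc B W M ω) ^ 2 ∂P ≤
        C * Real.cosh (4 * ((2 * (k : ℝ) + n + 1) / M)) := by
  obtain ⟨C, hC, h⟩ := zd_sq hN hQ T
  exact ⟨2 * C, by positivity, fun M hM n hn k => m2_mean hM hC (zd_memLp hN hQ hM n k)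
    (zd_memLp hN hQ hM n (k + 1)) (h M hM n hn k) (h M hM n hn (k + 1))⟩

theorem m2_cosh_add (a d : ℝ) : Real.cosh (a + d) ≤ 2 * Real.cosh d * Real.cosh a := by
  have h1 := Real.cosh_add a d
  have h2 := Real.cosh_sub a d
  have h3 := Real.cosh_pos (a - d)
  linarith

theorem zbt_sq (hN : IsNoise P B W) (hQ : Quant Tx Tc) (T : ℝ) : ∃ C : ℝ, 0 ≤ C ∧
    ∀ M : ℕ, 6 ≤ M → ∀ q : ℝ × ℝ, 0 < q.1 → q.1 ≤ T →
      ∫ ω, zbt M q (lift Tx Tc B W M ω) ^ 2 ∂P ≤ C * Real.cosh (4 * q.2) := by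
  obtain ⟨C, hC, h⟩ := zb_sq hN hQ T
  refine ⟨4 * C, by positivity, fun M hM q h0 hT => ?_⟩
  have hM1 : 1 ≤ M := by omega
  have hM' : (6 : ℝ) ≤ M := by exact_mod_cast hM
  have hn : (mi M q.1 : ℝ) ≤ T * (M : ℝ) ^ 2 := by
    have := (mi_bounds hM1 h0).1
    rw [div_lt_iff₀ (by positivity)] at this
    nlinarith [sq_nonneg (M : ℝ)]
  refine (h M hM _ hn (ji M (mi M q.1) q.2)).trans ?_
  obtain ⟨j1, j2⟩ := ji_bounds hM1 (mi M q.1) q.2
  set x := (2 * (ji M (mi M q.1) q.2 : ℝ) + mi M q.1 + 1) / M with hx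
  have a1 : (2 * (ji M (mi M q.1) q.2 : ℝ) + mi M q.1) / M = x - 1 / M := by rw [hx]; ring
  have a2 : (2 * (ji M (mi M q.1) q.2 : ℝ) + mi M q.1 + 2) / M = x + 1 / M := by rw [hx]; ring
  rw [a1] at j1
  rw [a2] at j2
  have a3 : Real.cosh (4 * x - 4 * q.2) ≤ 2 := by
    refine le_trans (Real.cosh_le_cosh.2 ?_) (m2_cosh_two hM)
    have : (4 : ℝ) / M = 4 * (1 / M) := by ring
    rw [abs_of_pos (show (0 : ℝ) < 4 / M by positivity), abs_le, this]
    constructor <;> linarith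
  have a4 := m2_cosh_add (4 * q.2) (4 * x - 4 * q.2)
  rw [add_sub_cancel] at a4
  have a5 := mul_le_mul_of_nonneg_right a3 (Real.cosh_pos (4 * q.2)).le
  have a6 : Real.cosh (4 * x) ≤ 4 * Real.cosh (4 * q.2) := by linarith
  have := mul_le_mul_of_nonneg_left a6 hC
  linarith

end Pool.Agent.K6329
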