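import Pool.Agent.Lib.MP_632999_pr.K.Defs

/-! Quantile maps. `0 < cdf N01 g < 1`, `cdf N01` is continuous and strictly increasing;
`quant nu g <= x iff cdf N01 g <= cdf nu x` (right continuity); `Measure.ext_of_Iic`.
`l2_of_pointwise`: Fatou for `(X + g)^2 = 2 X^2 + 2 g^2 - (X - g)^2`. -/

namespace Pool.Agent.K6329

open MeasureTheory ProbabilityTheory Filter Topology Set Function
open scoped NNReal ENNReal

theorem q1_strict : StrictMono (cdf N01) := fun x y hxy => by
  by_contra h
  have h1 : N01 (Ioc x y) = 0 := by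
    rw [← measure_cdf N01, StieltjesFunction.measure_Ioc, ENNReal.ofReal_eq_zero]
    linarith [not_lt.1 h]
  have h2 := gaussianReal_absolutelyContinuous' 0 one_ne_zero h1
  rw [Real.volume_Ioc, ENNReal.ofReal_eq_zero] at h2
  linarith

theorem q1_pos (g : ℝ) : 0 < cdf N01 g :=
  (cdf_nonneg N01 (g - 1)).trans_lt (q1_strict (by linarith))

theorem q1_lt_one (g : ℝ) : cdf N01 g < 1 :=
  (q1_strict (by linarith : g < g + 1)).trans_le (cdf_le_one N01 _)

theorem q1_cont : Continuous (cdf N01) := continuous_iff_continuousAt.2 fun x => by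
  have := nullSingletonClass_gaussianReal (μ := 0) (v := 1) one_ne_zero
  have h1 : N01 {x} = 0 := measure_singleton x
  rw [← measure_cdf N01, StieltjesFunction.measure_singleton, ENNReal.ofReal_eq_zero] at h1
  rw [(monotone_cdf N01).continuousAt_iff_leftLim_eq_rightLim, StieltjesFunction.rightLim_eq]
  exact le_antisymm ((monotone_cdf N01).leftLim_le le_rfl) (by linarith)

theorem q1_unif {p : ℝ} (p0 : 0 ≤ p) (p1 : p ≤ 1) :
    N01 {g | cdf N01 g ≤ p} = ENNReal.ofReal p := by
  rcases p0.eq_or_lt with rfl | p0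
  · have : {g | cdf N01 g ≤ 0} = ∅ := eq_empty_of_forall_notMem fun g h => (q1_pos g).not_ge h
    simp [this]
  rcases p1.eq_or_lt with rfl | p1
  · have : {g | cdf N01 g ≤ 1} = univ := eq_univ_of_forall fun g => (q1_lt_one g).le
    simp [this]
  obtain ⟨y, rfl⟩ := mem_range_of_exists_le_of_exists_ge q1_cont
    ((tendsto_cdf_atBot N01).eventually_le_const p0).exists
    ((tendsto_cdf_atTop N01).eventually_const_le p1).exists
  rw [ofReal_cdf]
  congr 1
  ext g
  exact q1_strict.le_iff_le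

theorem q1_sq : ∫ g, g ^ 2 ∂N01 = 1 := by
  have h := variance_eq_integral (μ := N01) (X := id) aemeasurable_id
  rw [variance_id_gaussianReal] at h
  simpa using h.symm

theorem quant_le_iff (ν : Measure ℝ) [IsProbabilityMeasure ν] (g x : ℝ) :
    quant ν g ≤ x ↔ cdf N01 g ≤ cdf ν x := by
  constructor
  · intro h
    rw [← (cdf ν).iInf_Ioi_eq x]
    refine le_ciInf fun r => ?_
    obtain ⟨s, hs, hr⟩ := exists_lt_of_csInf_lt
      ((tendsto_cdf_atTop ν).eventually_const_le (q1_lt_one g)).exists (h.trans_lt r.2)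
    exact le_trans hs (monotone_cdf ν hr.le)
  · intro h
    obtain ⟨b, hb⟩ := ((tendsto_cdf_atBot ν).eventually_lt_const (q1_pos g)).exists
    refine csInf_le ⟨b, fun y hy => ?_⟩ h
    by_contra h2
    exact (hb.trans_le hy).not_ge (monotone_cdf ν (not_le.1 h2).le)

theorem measurable_quant (ν : Measure ℝ) [IsProbabilityMeasure ν] : Measurable (quant ν) := by
  refine Monotone.measurable fun g g' h => (quant_le_iff ν g _).2 ?_
  exact (monotone_cdf N01 h).trans ((quant_le_iff ν g' _).1 le_rfl)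

theorem map_quant (ν : Measure ℝ) [IsProbabilityMeasure ν] : N01.map (quant ν) = ν := by
  refine Measure.ext_of_Iic _ _ fun x => ?_
  rw [Measure.map_apply (measurable_quant ν) measurableSet_Iic, ← ofReal_cdf ν,
    ← q1_unif (cdf_nonneg ν x) (cdf_le_one ν x)]
  congr 1
  ext g
  exact quant_le_iff ν g x

theorem quant_tendsto (ν : ℕ → Measure ℝ) [∀ M, IsProbabilityMeasure (ν M)] {c σ : ℕ → ℝ}
    (hσ : ∀ᶠ M in atTop, 0 < σ M)
    (h : ∀ x, Tendsto (fun M => cdf (ν M) (c M + σ M * x)) atTop (𝓝 (cdf N01 x))) (g : ℝ) :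
    Tendsto (fun M => (quant (ν M) g - c M) / σ M) atTop (𝓝 g) := by
  refine tendsto_order.2 ⟨fun a ha => ?_, fun a ha => ?_⟩
  · filter_upwards [hσ, (h a).eventually_lt_const (q1_strict ha)] with M h1 h2
    have h3 := mt (quant_le_iff (ν M) g _).1 h2.not_ge
    rw [lt_div_iff₀ h1]
    linarith [not_le.1 h3]
  · obtain ⟨b, hb, hb'⟩ := exists_between ha
    filter_upwards [hσ, (h b).eventually_const_le (q1_strict hb)] with M h1 h2
    have h3 := (quant_le_iff (ν M) g _).2 h2
    rw [div_lt_iff₀ h1]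
    nlinarith

theorem l2_of_pointwise {X : ℕ → ℝ → ℝ} (hX : ∀ᶠ M in atTop, MemLp (X M) 2 N01)
    (h1 : ∀ᶠ M in atTop, ∫ g, X M g ^ 2 ∂N01 ≤ 1)
    (h : ∀ g, Tendsto (fun M => X M g) atTop (𝓝 g)) :
    Tendsto (fun M => ∫ g, (X M g - g) ^ 2 ∂N01) atTop (𝓝 0) := by
  have m1 : MemLp (fun g : ℝ => g) 2 N01 := memLp_id_gaussianReal 2
  have i4 : Integrable (fun g : ℝ => 4 * g ^ 2) N01 := m1.integrable_sq.const_mul 4
  have e4 : ∫ g, 4 * g ^ 2 ∂N01 = 4 := by rw [integral_const_mul, q1_sq, mul_one]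
  have ms : ∀ᶠ M in atTop, AEStronglyMeasurable (fun g => min ((X M g + g) ^ 2) (4 * g ^ 2)) N01 :=
    hX.mono fun M hM => (((hM.add m1).integrable_sq.aemeasurable).min
      i4.aemeasurable).aestronglyMeasurable
  have bd : ∀ M g, ‖min ((X M g + g) ^ 2) (4 * g ^ 2)‖ ≤ 4 * g ^ 2 := fun M g => by
    rw [Real.norm_of_nonneg (le_min (sq_nonneg _) (by positivity))]
    exact min_le_right _ _
  have t1 := tendsto_integral_filter_of_dominated_convergence (μ := N01) (l := atTop)
    (F := fun M g => min ((X M g + g) ^ 2) (4 * g ^ 2)) (f := fun g => 4 * g ^ 2) _ ms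
    (Eventually.of_forall fun M => ae_of_all _ (bd M)) i4 (ae_of_all _ fun g => by
      have := (((h g).add_const g).pow 2).min (tendsto_const_nhds (x := 4 * g ^ 2))
      rwa [show (g + g) ^ 2 = 4 * g ^ 2 by ring, min_self] at this)
  have t2 := t1.const_sub 4
  rw [e4, sub_self] at t2
  refine squeeze_zero' (Eventually.of_forall fun M => integral_nonneg fun g => sq_nonneg _) ?_ t2
  filter_upwards [hX, h1, ms] with M a1 a2 a3
  have i1 : Integrable (fun g => min ((X M g + g) ^ 2) (4 * g ^ 2)) N01 :=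
    i4.mono' a3 (ae_of_all _ (bd M))
  have i2 : Integrable (fun g => 2 * X M g ^ 2) N01 := a1.integrable_sq.const_mul 2
  have i3 : Integrable (fun g : ℝ => 2 * g ^ 2) N01 := m1.integrable_sq.const_mul 2
  have a4 : ∫ g, (X M g - g) ^ 2 ∂N01 ≤
      ∫ g, (2 * X M g ^ 2 + 2 * g ^ 2 - min ((X M g + g) ^ 2) (4 * g ^ 2)) ∂N01 :=
    integral_mono (a1.sub m1).integrable_sq ((i2.add i3).sub i1) fun g => by
      have := min_le_left ((X M g + g) ^ 2) (4 * g ^ 2)
      simp only
      nlinarith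
  rw [integral_sub (f := fun g => 2 * X M g ^ 2 + 2 * g ^ 2) (i2.add i3) i1, integral_add i2 i3, integral_const_mul, integral_const_mul,
    q1_sq] at a4
  linarith

end Pool.Agent.K6329
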