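import Pool.Agent.Lib.MP_632999_pr.K.Step

/-! Time reversal. One step: `(p, xi, c) -> (cons x (shift p), th0 (xi, c))`, `x = xOf a b`,
`(shift p) i k = p i (k+1)`. After `n` steps the stack holds `p i k = x_{n-1-i} (k + i)` and
`evol (-h_n) p i k = -h_{n-i} (k + i)` for `i <= n`. Then shift all three components by `k1`. -/

namespace Pool.Agent.K6329

open MeasureTheory ProbabilityTheory Filter Topology Set Function
open scoped NNReal ENNReal

/-- one step of the dynamics, the dual row pushed on the stack -/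
noncomputable def revStep (ω : Rows × (Row × Rows)) : Rows × (Row × Rows) :=
  (fun i => Nat.casesOn i (xOf (aOf ω.2.1 (ω.2.2 0)) (bOf ω.2.1 (ω.2.2 0)))
    fun i k => ω.1 i (k + 1), th0 ω.2)

theorem mp_revStep (M : ℕ) : MeasurePreserving revStep (Pt M) (Pt M) := by
  have h1 := (mp_mapRR (mp_shift (gC M) 1)).prod (mp_abc M)
  have h2 := (MeasurePreserving.id (piRR (gC M))).prod
    ((mp_xx M).prod (MeasurePreserving.id (piRR (gC M))))
  have h3 := (MeasurePreserving.id (piRR (gC M))).prod
    ((Measure.measurePreserving_swap (μ := piR (mu M)) (ν := piR (gC M))).prod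
      (MeasurePreserving.id (piRR (gC M))))
  have h4 := (MeasurePreserving.id (piRR (gC M))).prod
    (measurePreserving_prodAssoc (piR (gC M)) (piR (mu M)) (piRR (gC M)))
  have h5 := (measurePreserving_prodAssoc (piRR (gC M)) (piR (gC M))
    ((piR (mu M)).prod (piRR (gC M)))).symm _
  have h6 := (Measure.measurePreserving_swap (μ := piRR (gC M)) (ν := piR (gC M))).prod
    (MeasurePreserving.id ((piR (mu M)).prod (piRR (gC M))))
  have h7 := (mp_cons (gC M)).prod (MeasurePreserving.id ((piR (mu M)).prod (piRR (gC M))))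
  exact h7.comp (h6.comp (h5.comp (h4.comp (h3.comp (h2.comp h1)))))

theorem revStep_iterate (ω : Rows × (Row × Rows)) (h : ℕ → Row)
    (hh : h = evol (prof ω.2.1) ω.2.2) (n : ℕ) :
    (∀ j, (revStep^[n] ω).2.1 j = h n (j + 1) - h n j) ∧
      ((revStep^[n] ω).2.2 = fun i => ω.2.2 (n + i)) ∧
      ∀ k, evol (fun j => -h n j) (revStep^[n] ω).1 n k = -h 0 (k + n) := by
  induction n with
  | zero =>
    refine ⟨fun j => ?_, ?_, fun k => ?_⟩
    · simp only [hh, evol, prof_succ, iterate_zero, id]; ring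
    · simp only [iterate_zero, id, zero_add]
    · simp only [evol, Nat.cast_zero, add_zero]
  | succ n ih =>
    obtain ⟨i1, i2, i3⟩ := ih
    rw [iterate_succ_apply']
    generalize revStep^[n] ω = s at i1 i2 i3
    have hs : ∀ k, h (n + 1) k = h n k + sp (h n (k + 1) - h n k) - ω.2.2 n k := fun k => by
      simp only [hh, evol, lse_eq]
    have ha : ∀ k, aOf s.2.1 (s.2.2 0) k = h n k - h (n + 1) k := fun k => by
      simp only [aOf, i1, i2, hs, add_zero]; ring
    have hb : ∀ k, bOf s.2.1 (s.2.2 0) k = h n (k + 1) - h (n + 1) k := fun k => by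
      simp only [bOf, i1, i2, hs, add_zero]; ring
    refine ⟨fun j => ?_, ?_, fun k => ?_⟩
    · simp only [revStep, th0, xiOf, ha, hb]; ring
    · funext i
      simp only [revStep, th0, i2, add_assoc, add_comm 1 i]
    · have e1 : evol (fun j => -h (n + 1) j) (revStep s).1 1 = fun j => -h n (j + 1) := by
        funext j
        show lse (-h (n + 1) j) (-h (n + 1) (j + 1)) -
          lse (bOf s.2.1 (s.2.2 0) j) (aOf s.2.1 (s.2.2 0) (j + 1)) = _
        rw [ha, hb, lse_eq, lse_eq, show h n (j + 1) - h (n + 1) (j + 1) -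
          (h n (j + 1) - h (n + 1) j) = -h (n + 1) (j + 1) - -h (n + 1) j by ring]
        ring
      have e2 : (fun i => (revStep s).1 (1 + i)) = fun i j => s.1 i (j + 1) := by
        funext i; rw [add_comm]; rfl
      have e3 := evol_add (fun j => -h (n + 1) j) (revStep s).1 1 n
      rw [add_comm 1 n] at e3
      rw [e3, e1, e2, evol_shift (fun j => -h n j), i3]
      congr 2; push_cast; ring

theorem reversal (M n m : ℕ) (k₁ k₂ : ℤ) :
    ∃ Λ : Rows × (Row × Rows) → Rows × (Row × Rows), MeasurePreserving Λ (Pt M) (Pt M) ∧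
      ∀ ω, Hd n k₁ ω.2 = Hd n (-(n : ℤ) - k₁) (-(Λ ω).2.1, (Λ ω).1) ∧
        Hd (n + m) k₂ ω.2 - Hd n k₁ ω.2 = Hd m (k₂ - k₁) (Λ ω).2 := by
  have hT : MeasurePreserving (fun s : Rows × (Row × Rows) =>
      ((fun i k => s.1 i (k + k₁), fun k => s.2.1 (k + k₁), fun i k => s.2.2 i (k + k₁)) :
        Rows × (Row × Rows))) (Pt M) (Pt M) :=
    (mp_mapRR (mp_shift (gC M) k₁)).prod
      ((mp_shift (mu M) k₁).prod (mp_mapRR (mp_shift (gC M) k₁)))
  refine ⟨_, hT.comp ((mp_revStep M).iterate n), fun ω => ?_⟩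
  obtain ⟨i1, i2, i3⟩ := revStep_iterate ω _ rfl n
  simp only [comp, Hd]
  generalize revStep^[n] ω = s at i1 i2 i3
  have hp : ∀ j, prof (fun k => s.2.1 (k + k₁)) j =
      evol (prof ω.2.1) ω.2.2 n (j + k₁) + -evol (prof ω.2.1) ω.2.2 n k₁ := fun j => by
    rw [prof_eq (h := fun j => evol (prof ω.2.1) ω.2.2 n (j + k₁)) fun j => by
      rw [i1, add_right_comm], zero_add]
    ring
  constructor
  · have e : prof (-fun k => s.2.1 (k + k₁)) = fun j =>
        -evol (prof ω.2.1) ω.2.2 n (j + k₁) + evol (prof ω.2.1) ω.2.2 n k₁ := by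
      funext j; rw [prof_neg, hp]; ring
    rw [e, evol_add_const, evol_shift (fun j => -evol (prof ω.2.1) ω.2.2 n j), i3,
      show -(n : ℤ) - k₁ + k₁ + n = 0 by ring]
    simp only [evol, prof_zero, neg_zero, zero_add]
  · rw [funext hp, evol_add_const, evol_shift, evol_add, i2, sub_add_cancel]
    ring

end Pool.Agent.K6329
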