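import Pool.Agent.Lib.MP_632999_pr.K.Gauss

/-! The isometry. For two elementary processes with `a1 <= a2` cut `R1` at time `a2`
(`addW`): `X1 W(R1-)` is in `L^2` and known at time `a2`, `W(R2)` is independent with mean 0; `X1 X2` is
independent of `W(R1+) W(R2)`. So `E[X1 W(R1) X2 W(R2)] = E[X1 X2] |R1 inter R2|`. -/

namespace Pool.Agent.K6329

open MeasureTheory ProbabilityTheory Filter Topology Set Function
open scoped NNReal ENNReal

variable {Ω : Type} [MeasurableSpace Ω] {P : Measure Ω} {B : ℝ → Ω → ℝ} {W : Test → Ω → ℝ}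
  {Z : ℝ → ℝ → Ω → ℝ} {Tx Tc : ℕ → ℝ → ℝ}

theorem wl_indep1 (hN : IsNoise P B W) {a : ℝ} {R : Test} (hR : R.1 ⊆ Ioi a ×ˢ univ) {X : Ω → ℝ}
    (hX : Measurable[past B W a] X) : IndepFun X (W R) P :=
  (hN.indep_past (ι := Unit) (R := fun _ => R) (fun _ => hR) hX).comp measurable_id
    (measurable_pi_apply ())

theorem wl_indep2 (hN : IsNoise P B W) {a : ℝ} {R R' : Test} (hR : R.1 ⊆ Ioi a ×ˢ univ)
    (hR' : R'.1 ⊆ Ioi a ×ˢ univ) {X : Ω → ℝ} (hX : Measurable[past B W a] X) :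
    IndepFun X (fun ω => W R ω * W R' ω) P := by
  have h := hN.indep_past (ι := Bool) (R := fun b => cond b R R')
    (fun b => by cases b; exacts [hR', hR]) hX
  exact h.comp measurable_id (ψ := fun v : Bool → ℝ => v true * v false) (by fun_prop)

theorem wl_memLp (hN : IsNoise P B W) {a : ℝ} {R : Test} (hR : R.1 ⊆ Ioi a ×ˢ univ) {X : Ω → ℝ}
    (hX : Measurable[past B W a] X) (h2 : MemLp X 2 P) : MemLp (fun ω => X ω * W R ω) 2 P := by
  have hm : AEStronglyMeasurable (fun ω => X ω * W R ω) P :=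
    h2.1.mul (hN.memLpW R).1
  rw [memLp_two_iff_integrable_sq hm]
  have hi : IndepFun (fun ω => X ω ^ 2) (fun ω => W R ω ^ 2) P :=
    (wl_indep1 hN hR hX).comp (φ := fun x : ℝ => x ^ 2) (ψ := fun x : ℝ => x ^ 2)
      (by fun_prop) (by fun_prop)
  have := hi.integrable_mul h2.integrable_sq (hN.memLpW R).integrable_sq
  refine this.congr (Eventually.of_forall fun ω => ?_)
  simp only [Pi.mul_apply]; ring

theorem elem_memLp (hN : IsNoise P B W) (e : Elem P B W) :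
    MemLp (fun ω => e.X ω * W e.R ω) 2 P :=
  wl_memLp hN e.after e.meas e.sq

/-- the part of a test set inside a measurable set -/
def wlCut (R : Test) (S : Set (ℝ × ℝ)) (hS : MeasurableSet S) : Test :=
  ⟨R.1 ∩ S, R.2.1.inter hS, ne_top_of_le_ne_top R.2.2.1 (measure_mono inter_subset_left),
    inter_subset_left.trans R.2.2.2⟩

theorem wl_pair (hN : IsNoise P B W) (e e' : Elem P B W) (h : e.a ≤ e'.a) :
    ∫ ω, (e.X ω * W e.R ω) * (e'.X ω * W e'.R ω) ∂P =
      (∫ ω, e.X ω * e'.X ω ∂P) * (volume (e.R.1 ∩ e'.R.1)).toReal := by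
  have := hN.prob
  let R₁ := wlCut e.R (Iic e'.a ×ˢ univ) (measurableSet_Iic.prod MeasurableSet.univ)
  let R₂ := wlCut e.R (Ioi e'.a ×ˢ univ) (measurableSet_Ioi.prod MeasurableSet.univ)
  have hu : e.R.1 = R₁.1 ∪ R₂.1 := by
    show e.R.1 = e.R.1 ∩ (Iic e'.a ×ˢ univ) ∪ e.R.1 ∩ (Ioi e'.a ×ˢ univ)
    rw [← inter_union_distrib_left, ← union_prod, Iic_union_Ioi, univ_prod_univ, inter_univ]
  have hd : Disjoint R₁.1 R₂.1 := by
    rw [Set.disjoint_left]
    rintro q ⟨_, h1, _⟩ ⟨_, h2, _⟩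
    exact absurd (mem_Iic.1 h1) (not_le.2 (mem_Ioi.1 h2))
  have hadd := hN.addW hu hd
  have hX : Measurable[past B W e'.a] e.X := e.meas.mono (past_mono h) le_rfl
  have hW1 : Measurable[past B W e'.a] (W R₁) := meas_W_past inter_subset_right
  have hY : Measurable[past B W e'.a] fun ω => e.X ω * W R₁ ω * e'.X ω :=
    (hX.mul hW1).mul e'.meas
  have hXX : Measurable[past B W e'.a] fun ω => e.X ω * e'.X ω := hX.mul e'.meas
  have m1 : MemLp (fun ω => e.X ω * W R₁ ω) 2 P :=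
    wl_memLp hN (inter_subset_left.trans e.after) e.meas e.sq
  have iY : Integrable (fun ω => e.X ω * W R₁ ω * e'.X ω) P := m1.integrable_mul e'.sq
  have iXX : Integrable (fun ω => e.X ω * e'.X ω) P := e.sq.integrable_mul e'.sq
  have iW : Integrable (W e'.R) P := (hN.memLpW _).integrable one_le_two
  have iWW : Integrable (fun ω => W R₂ ω * W e'.R ω) P :=
    (hN.memLpW _).integrable_mul (hN.memLpW _)
  have d1 := wl_indep1 hN e'.after hY
  have d2 := wl_indep2 hN (R := R₂) inter_subset_right e'.after hXX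
  have e1 : ∫ ω, (e.X ω * W e.R ω) * (e'.X ω * W e'.R ω) ∂P =
      ∫ ω, ((e.X ω * W R₁ ω * e'.X ω) * W e'.R ω +
        (e.X ω * e'.X ω) * (W R₂ ω * W e'.R ω)) ∂P := by
    refine integral_congr_ae (hadd.mono fun ω hω => ?_)
    simp only [hω]; ring
  have hs : R₂.1 ∩ e'.R.1 = e.R.1 ∩ e'.R.1 := by
    show e.R.1 ∩ (Ioi e'.a ×ˢ univ) ∩ e'.R.1 = _
    rw [inter_assoc, inter_eq_right.2 e'.after]
  have j1 : Integrable (fun ω => (e.X ω * W R₁ ω * e'.X ω) * W e'.R ω) P :=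
    d1.integrable_mul iY iW
  have j2 : Integrable (fun ω => (e.X ω * e'.X ω) * (W R₂ ω * W e'.R ω)) P :=
    d2.integrable_mul iXX iWW
  rw [e1, integral_add j1 j2,
    d1.integral_fun_mul_eq_mul_integral iY.1 iW.1,
    d2.integral_fun_mul_eq_mul_integral iXX.1 iWW.1, hN.meanW, hN.intWW, hs, mul_zero, zero_add]

theorem elem_pair (hN : IsNoise P B W) (e e' : Elem P B W) :
    ∫ ω, (e.X ω * W e.R ω) * (e'.X ω * W e'.R ω) ∂P =
      (∫ ω, e.X ω * e'.X ω ∂P) * (volume (e.R.1 ∩ e'.R.1)).toReal := by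
  rcases le_total e.a e'.a with h | h
  · exact wl_pair hN e e' h
  · have h1 := wl_pair hN e' e h
    rw [inter_comm] at h1
    have h2 : ∫ ω, e.X ω * e'.X ω ∂P = ∫ ω, e'.X ω * e.X ω ∂P :=
      integral_congr_ae (Eventually.of_forall fun ω => mul_comm _ _)
    rw [h2, ← h1]
    exact integral_congr_ae (Eventually.of_forall fun ω => mul_comm _ _)

theorem wl_sq_sum {α ι : Type*} [MeasurableSpace α] {μ : Measure α} (s : Finset ι) (f : ι → α → ℝ)
    (hf : ∀ i, MemLp (f i) 2 μ) (c : ι → ℝ) :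
    eLpNorm (fun x => ∑ i ∈ s, c i * f i x) 2 μ =
      ENNReal.ofReal ((∑ i ∈ s, ∑ j ∈ s, c i * c j * ∫ x, f i x * f j x ∂μ) ^ (2 : ℝ)⁻¹) := by
  have hm : MemLp (fun x => ∑ i ∈ s, c i * f i x) 2 μ :=
    memLp_finsetSum s fun i _ => (hf i).const_mul (c i)
  rw [hm.eLpNorm_eq_integral_rpow_norm two_ne_zero ENNReal.ofNat_ne_top]
  simp only [ENNReal.toReal_ofNat]
  congr 2
  have hi : ∀ i j, Integrable (fun x => c i * c j * (f i x * f j x)) μ := fun i j =>
    ((hf i).integrable_mul (hf j)).const_mul _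
  calc ∫ x, ‖∑ i ∈ s, c i * f i x‖ ^ (2 : ℝ) ∂μ
      = ∫ x, ∑ i ∈ s, ∑ j ∈ s, c i * c j * (f i x * f j x) ∂μ := by
        refine integral_congr_ae (Eventually.of_forall fun x => ?_)
        simp only [Real.rpow_two, Real.norm_eq_abs, sq_abs]
        rw [sq, Finset.sum_mul_sum]
        exact Finset.sum_congr rfl fun i _ => Finset.sum_congr rfl fun j _ => by ring
    _ = _ := by
        rw [integral_finsetSum _ fun i _ => integrable_finsetSum _ fun j _ => hi i j]
        refine Finset.sum_congr rfl fun i _ => ?_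
        rw [integral_finsetSum _ fun j _ => hi i j]
        exact Finset.sum_congr rfl fun j _ => integral_const_mul _ _

theorem wl_ind_int (R : Test) : Integrable (R.1.indicator fun _ => (1 : ℝ)) :=
  (integrable_indicator_iff R.2.1).2 (integrableOn_const R.2.2.1)

theorem wl_proc_memLp (hN : IsNoise P B W) (e : Elem P B W) :
    MemLp (fun p : (ℝ × ℝ) × Ω => e.X p.2 * e.R.1.indicator (fun _ => (1 : ℝ)) p.1) 2
      (volume.prod P) := by
  have := hN.prob
  have hX : Measurable e.X := e.meas.mono (hN.past_le _) le_rfl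
  have hI : Measurable (e.R.1.indicator fun _ => (1 : ℝ)) := measurable_const.indicator e.R.2.1
  have hm : Measurable
      fun p : (ℝ × ℝ) × Ω => e.X p.2 * e.R.1.indicator (fun _ => (1 : ℝ)) p.1 :=
    (hX.comp measurable_snd).mul (hI.comp measurable_fst)
  rw [memLp_two_iff_integrable_sq hm.aestronglyMeasurable]
  refine ((wl_ind_int e.R).mul_prod e.sq.integrable_sq).congr (Eventually.of_forall fun p => ?_)
  by_cases hp : p.1 ∈ e.R.1 <;> simp [hp]

theorem wl_proc_pair (hN : IsNoise P B W) (e e' : Elem P B W) :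
    ∫ p : (ℝ × ℝ) × Ω, (e.X p.2 * e.R.1.indicator (fun _ => (1 : ℝ)) p.1) *
        (e'.X p.2 * e'.R.1.indicator (fun _ => (1 : ℝ)) p.1) ∂(volume.prod P) =
      (∫ ω, e.X ω * e'.X ω ∂P) * (volume (e.R.1 ∩ e'.R.1)).toReal := by
  have := hN.prob
  have h := integral_prod_mul (μ := (volume : Measure (ℝ × ℝ))) (ν := P)
    ((e.R.1 ∩ e'.R.1).indicator fun _ => (1 : ℝ)) (fun ω => e.X ω * e'.X ω)
  rw [integral_indicator_const _ (e.R.2.1.inter e'.R.2.1), smul_eq_mul, mul_one, Measure.real,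
    mul_comm] at h
  rw [← h]
  refine integral_congr_ae (Eventually.of_forall fun p => ?_)
  by_cases hp : p.1 ∈ e.R.1 <;> by_cases hp' : p.1 ∈ e'.R.1 <;> simp [hp, hp']

theorem simple_iso (hN : IsNoise P B W) {ι : Type} (s : Finset ι) (e : ι → Elem P B W) (c : ι → ℝ) :
    eLpNorm (fun ω => ∑ i ∈ s, c i * ((e i).X ω * W (e i).R ω)) 2 P =
      eLpNorm (fun p : (ℝ × ℝ) × Ω =>
        ∑ i ∈ s, c i * ((e i).X p.2 * (e i).R.1.indicator (fun _ => (1 : ℝ)) p.1)) 2
        (volume.prod P) := by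
  rw [wl_sq_sum s (fun i ω => (e i).X ω * W (e i).R ω) (fun i => elem_memLp hN (e i)) c,
    wl_sq_sum s (fun i (p : (ℝ × ℝ) × Ω) =>
      (e i).X p.2 * (e i).R.1.indicator (fun _ => (1 : ℝ)) p.1)
      (fun i => wl_proc_memLp hN (e i)) c]
  simp only [elem_pair hN, wl_proc_pair hN]

theorem wl_diff (hN : IsNoise P B W) {ι : Type} (s : Finset ι) (e : ι → Elem P B W)
    (φ : Simple P B W) :
    eLpNorm (fun ω => ∑ i ∈ s, (e i).X ω * W (e i).R ω - φ.int ω) 2 P =
      eLpNorm (fun p : (ℝ × ℝ) × Ω =>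
        ∑ i ∈ s, (e i).X p.2 * (e i).R.1.indicator (fun _ => (1 : ℝ)) p.1 - φ.proc p.1 p.2) 2
        (volume.prod P) := by
  have h := simple_iso hN (s.disjSum (Finset.univ : Finset (Fin φ.n))) (Sum.elim e φ.e)
    (Sum.elim (fun _ => 1) fun _ => -1)
  simp only [Finset.sum_disjSum, Sum.elim_inl, Sum.elim_inr, one_mul, neg_mul,
    Finset.sum_neg_distrib, ← sub_eq_add_neg] at h
  exact h

theorem walsh_le (hN : IsNoise P B W) {Φ : ℝ × ℝ → Ω → ℝ} {I : Ω → ℝ}
    (hΦ : Measurable fun p : (ℝ × ℝ) × Ω => Φ p.1 p.2) (hI : Measurable I)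
    (h : IsWalsh P B W Φ I) {ι : Type} (s : Finset ι) (e : ι → Elem P B W) :
    eLpNorm (fun ω => ∑ i ∈ s, (e i).X ω * W (e i).R ω - I ω) 2 P ≤
      eLpNorm (fun p : (ℝ × ℝ) × Ω =>
        ∑ i ∈ s, (e i).X p.2 * (e i).R.1.indicator (fun _ => (1 : ℝ)) p.1 - Φ p.1 p.2) 2
        (volume.prod P) := by
  obtain ⟨φ, h1, h2⟩ := h
  set L := eLpNorm (fun p : (ℝ × ℝ) × Ω =>
        ∑ i ∈ s, (e i).X p.2 * (e i).R.1.indicator (fun _ => (1 : ℝ)) p.1 - Φ p.1 p.2) 2
        (volume.prod P) with hL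
  have ht := ((tendsto_const_nhds (x := L)).add h1).add h2
  rw [add_zero, add_zero] at ht
  refine ge_of_tendsto' ht fun n => ?_
  have mS : AEStronglyMeasurable (fun ω => ∑ i ∈ s, (e i).X ω * W (e i).R ω) P :=
    (memLp_finsetSum s fun i _ => elem_memLp hN (e i)).1
  have mφ : AEStronglyMeasurable (φ n).int P :=
    (memLp_finsetSum Finset.univ fun i _ => elem_memLp hN ((φ n).e i)).1
  have pS : AEStronglyMeasurable (fun p : (ℝ × ℝ) × Ω =>
      ∑ i ∈ s, (e i).X p.2 * (e i).R.1.indicator (fun _ => (1 : ℝ)) p.1) (volume.prod P) :=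
    (memLp_finsetSum s fun i _ => wl_proc_memLp hN (e i)).1
  have pφ : AEStronglyMeasurable (fun p : (ℝ × ℝ) × Ω => (φ n).proc p.1 p.2) (volume.prod P) :=
    (memLp_finsetSum Finset.univ fun i _ => wl_proc_memLp hN ((φ n).e i)).1
  have t1 := eLpNorm_add_le (p := 2) (mS.sub mφ) (mφ.sub hI.aestronglyMeasurable) one_le_two
  have t2 := eLpNorm_sub_le (p := 2) (pS.sub hΦ.aestronglyMeasurable)
    (pφ.sub hΦ.aestronglyMeasurable) one_le_two
  rw [sub_add_sub_cancel] at t1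
  rw [sub_sub_sub_cancel_right] at t2
  refine le_trans t1 (add_le_add ?_ le_rfl)
  exact (wl_diff hN s e (φ n)).le.trans t2

end Pool.Agent.K6329
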