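import Pool.Agent.Lib.MP_632999_pr.K.Mom2
import Pool.Agent.Lib.MP_632999_pr.K.Walsh

/-! The four error terms. `duhamel`; the elementary processes are
`X p = pz (n-1-p.1) (p.2-k) * (M/2) * zb`, `R = cell M p.1 p.2`, `a = p.1 / M^2`, for `p` in `cone n k`;
`(M/2) W(cell) = sqrt (1/(2M)) GW`; their sum at `q` is `Kn q * zbt q` (`mem_cell`, `pz_eq_zero`);
`walsh_le`; `Kn zbt - hk Z = (Kn - hk) zbt + hk (zbt - Z)`. -/

namespace Pool.Agent.K6329

open MeasureTheory ProbabilityTheory Filter Topology Set Function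
open scoped NNReal ENNReal

variable {Ω : Type} [MeasurableSpace Ω] {P : Measure Ω} {B : ℝ → Ω → ℝ} {W : Test → Ω → ℝ}
  {Z : ℝ → ℝ → Ω → ℝ} {Tx Tc : ℕ → ℝ → ℝ}

theorem sqrt_cell {M : ℕ} (hM : 1 ≤ M) (w : ℝ) :
    √(1 / (2 * (M : ℝ))) * (w / √(2 / (M : ℝ) ^ 3)) = (M : ℝ) / 2 * w := by
  have h0 : (0 : ℝ) < M := by exact_mod_cast hM
  have h1 : √(1 / (2 * (M : ℝ))) = (M : ℝ) / 2 * √(2 / (M : ℝ) ^ 3) := by
    rw [← Real.sqrt_sq (by positivity : 0 ≤ (M : ℝ) / 2), ← Real.sqrt_mul (by positivity)]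
    congr 1
    field_simp
  have h2 : √(2 / (M : ℝ) ^ 3) ≠ 0 := by positivity
  rw [h1]
  field_simp

theorem sum_cell {M : ℕ} (hM : 1 ≤ M) (n : ℕ) (k : ℤ) (q : ℝ × ℝ) (ω : Row × Rows) :
    ∑ p ∈ cone n k, pz (n - 1 - p.1) (p.2 - k) * ((M : ℝ) / 2) * zb M p.1 p.2 ω *
      (cellSet M p.1 p.2).indicator (fun _ => (1 : ℝ)) q = Kn M n k q * zbt M q ω := by
  have h1 : ∀ p : ℕ × ℤ, (cellSet M p.1 p.2).indicator (fun _ => (1 : ℝ)) q =
      if 0 < q.1 ∧ p = (mi M q.1, ji M (mi M q.1) q.2) then 1 else 0 := fun p => by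
    split_ifs with h
    · exact indicator_of_mem ((mem_cell hM _ _ q).2 ⟨h.1, by rw [h.2], by rw [h.2]⟩) _
    · refine indicator_of_notMem (fun h2 => h ?_) _
      obtain ⟨h0, h3, h4⟩ := (mem_cell hM _ _ q).1 h2
      exact ⟨h0, Prod.ext h3.symm (by rw [h3]; exact h4.symm)⟩
  by_cases h0 : 0 < q.1
  · simp only [h1, h0, true_and, mul_ite, mul_one, mul_zero, Finset.sum_ite_eq', Kn, zbt, cone,
      Finset.mem_product, Finset.mem_range, Finset.mem_Icc]
    by_cases h2 : mi M q.1 < n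
    · rw [if_pos h2]
      split_ifs with h3
      · rfl
      · rw [pz_eq_zero (by omega), zero_mul, zero_mul]
    · rw [if_neg h2, if_neg fun h => h2 h.1, zero_mul]
  · simp only [h1, h0, false_and, if_false, mul_zero, Finset.sum_const_zero, Kn, zero_mul]

theorem split4 (hN : IsNoise P B W) (hZ : IsMild P B W Z) (hQ : Quant Tx Tc) {M : ℕ} (hM : 6 ≤ M)
    (n : ℕ) (k : ℤ) {t : ℝ} (ht : 0 < t) (x : ℝ) :
    eLpNorm (fun ω => zd M n k (lift Tx Tc B W M ω) - Z t x ω) 2 P ≤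
      eLpNorm (fun ω => lind M n k (lift Tx Tc B W M ω) - lin B t x ω) 2 P +
      eLpNorm (err2 Tx Tc B W M n k) 2 P +
      eLpNorm (fun p : (ℝ × ℝ) × Ω =>
        (Kn M n k p.1 - hk t x p.1) * zbt M p.1 (lift Tx Tc B W M p.2)) 2 (volume.prod P) +
      eLpNorm (fun p : (ℝ × ℝ) × Ω =>
        hk t x p.1 * (zbt M p.1 (lift Tx Tc B W M p.2) - Z p.1.1 p.1.2 p.2)) 2 (volume.prod P) := by
  have hM1 : 1 ≤ M := by omega
  have := hN.prob
  have hL := measurable_lift hN hQ M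
  have hzb : ∀ m j, Measurable fun ω => zb M m j (lift Tx Tc B W M ω) := fun m j =>
    (zb_adapted hQ M m j).mono (hN.past_le _) le_rfl
  have hGW : ∀ m j, Measurable (GW W M m j) := fun m j => (hN.measW _).div_const _
  have hZm : Measurable (Z t x) :=
    hZ.meas.comp (g := fun p : (ℝ × ℝ) × Ω => Z p.1.1 p.1.2 p.2) (f := fun ω => ((t, x), ω))
      measurable_prodMk_left
  have hlin := measurable_lin hN t x
  have heta : Measurable (eta M) := by unfold eta; fun_prop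
  have hhk : Measurable fun p : (ℝ × ℝ) × Ω => hk t x p.1 := (measurable_hk t x).comp measurable_fst
  have hKn : Measurable fun p : (ℝ × ℝ) × Ω => Kn M n k p.1 :=
    (measurable_Kn M n k).comp measurable_fst
  have hzt := measurable_zbt hN hQ M
  let e : ℕ × ℤ → Elem P B W := fun p =>
    ⟨(p.1 : ℝ) / (M : ℝ) ^ 2, cell M p.1 p.2, fun ω =>
      pz (n - 1 - p.1) (p.2 - k) * ((M : ℝ) / 2) * zb M p.1 p.2 (lift Tx Tc B W M ω),
      cell_after M p.1 p.2, (zb_adapted hQ M p.1 p.2).const_mul _,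
      (zb_memLp hN hQ hM p.1 p.2).const_mul _⟩
  have hΦ : (fun p : (ℝ × ℝ) × Ω => if 0 < p.1.1 ∧ p.1.1 < t then
      heat (t - p.1.1) (x - p.1.2) * Z p.1.1 p.1.2 p.2 else 0) =
      fun p => hk t x p.1 * Z p.1.1 p.1.2 p.2 := funext fun p => by
    rw [hk, ite_mul, zero_mul]
  have hW := walsh_le hN (I := fun ω => Z t x ω - lin B t x ω)
    (by rw [hΦ]; exact hhk.mul hZ.meas) (hZm.sub hlin) (hZ.eqn t ht x) (cone n k) e
  have e1 : (fun ω => zd M n k (lift Tx Tc B W M ω) - Z t x ω) =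
      (fun ω => lind M n k (lift Tx Tc B W M ω) - lin B t x ω) + err2 Tx Tc B W M n k +
        fun ω => ∑ p ∈ cone n k, (e p).X ω * W (e p).R ω - (Z t x ω - lin B t x ω) := by
    funext ω
    have h1 : ∑ p ∈ cone n k, pz (n - 1 - p.1) (p.2 - k) * zb M p.1 p.2 (lift Tx Tc B W M ω) *
        eta M ((lift Tx Tc B W M ω).2 p.1 p.2) =
        err2 Tx Tc B W M n k ω + ∑ p ∈ cone n k, (e p).X ω * W (e p).R ω := by
      rw [err2, ← Finset.sum_add_distrib]
      refine Finset.sum_congr rfl fun p _ => ?_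
      have h2 : √(1 / (2 * (M : ℝ))) * GW W M p.1 p.2 ω = (M : ℝ) / 2 * W (cell M p.1 p.2) ω :=
        sqrt_cell hM1 _
      rw [h2]
      simp only [e, lift]
      ring
    rw [duhamel, h1]
    simp only [Pi.add_apply]
    ring
  have e2 : (fun p : (ℝ × ℝ) × Ω => ∑ i ∈ cone n k,
      (e i).X p.2 * (e i).R.1.indicator (fun _ => (1 : ℝ)) p.1 -
        if 0 < p.1.1 ∧ p.1.1 < t then heat (t - p.1.1) (x - p.1.2) * Z p.1.1 p.1.2 p.2 else 0) =
      (fun p => (Kn M n k p.1 - hk t x p.1) * zbt M p.1 (lift Tx Tc B W M p.2)) +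
        fun p => hk t x p.1 * (zbt M p.1 (lift Tx Tc B W M p.2) - Z p.1.1 p.1.2 p.2) := by
    funext p
    have h1 : ∑ i ∈ cone n k, (e i).X p.2 * (e i).R.1.indicator (fun _ => (1 : ℝ)) p.1 = _ :=
      sum_cell hM1 n k p.1 (lift Tx Tc B W M p.2)
    rw [h1, congrFun hΦ p, Pi.add_apply]
    ring
  rw [e2] at hW
  have m1 : Measurable fun ω => lind M n k (lift Tx Tc B W M ω) - lin B t x ω :=
    (Finset.measurable_fun_sum _ fun j _ => ((measurable_zd M 0 j).comp hL).const_mul _).sub hlin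
  have m2 : Measurable (err2 Tx Tc B W M n k) :=
    Finset.measurable_fun_sum _ fun p _ => ((hzb _ _).const_mul _).mul
      ((heta.comp ((hQ.mc M).comp (hGW _ _))).sub ((hGW _ _).const_mul _))
  have m3 : Measurable fun ω =>
      ∑ p ∈ cone n k, (e p).X ω * W (e p).R ω - (Z t x ω - lin B t x ω) :=
    (Finset.measurable_fun_sum _ fun p _ => ((hzb _ _).const_mul _).mul (hN.measW _)).sub
      (hZm.sub hlin)
  rw [e1, add_assoc (_ + _)]
  refine (eLpNorm_add_le (m1.add m2).aestronglyMeasurable m3.aestronglyMeasurable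
    one_le_two).trans (add_le_add (eLpNorm_add_le m1.aestronglyMeasurable
      m2.aestronglyMeasurable one_le_two) (hW.trans (eLpNorm_add_le ?_ ?_ one_le_two)))
  · exact ((hKn.sub hhk).mul hzt).aestronglyMeasurable
  · exact (hhk.mul (hzt.sub hZ.meas)).aestronglyMeasurable

end Pool.Agent.K6329
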