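import Mathlib

/-! Stationary KPZ equation: the objects of the statement. -/

namespace Pool.Agent.K6329

open MeasureTheory ProbabilityTheory Filter Topology Set
open scoped NNReal ENNReal

noncomputable section

/-- The heat kernel `g_r(u) = (2 pi r)^(-1/2) exp (-u^2 / (2 r))`. -/
def heat (r u : ℝ) : ℝ := (Real.sqrt (2 * Real.pi * r))⁻¹ * Real.exp (-u ^ 2 / (2 * r))

/-- Test sets of the noise: Borel subsets of `[0, oo) x R` (time, space) of finite Lebesgue measure. -/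
def Test : Type := {A : Set (ℝ × ℝ) // MeasurableSet A ∧ volume A ≠ ⊤ ∧ A ⊆ Ici 0 ×ˢ univ}

variable {Ω : Type} [MeasurableSpace Ω]

/-- `B` is a (jointly measurable) two-sided Brownian motion and `W` an independent space-time white
noise: a centred Gaussian family with covariance `|A inter A'|`. -/
structure IsNoise (P : Measure Ω) (B : ℝ → Ω → ℝ) (W : Test → Ω → ℝ) : Prop where
  measB : Measurable fun p : ℝ × Ω => B p.1 p.2
  right : IsBrownianReal (fun t : ℝ≥0 => B t) P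
  left : IsBrownianReal (fun t : ℝ≥0 => B (-t)) P
  indepB : IndepFun (fun ω (t : ℝ≥0) => B t ω) (fun ω (t : ℝ≥0) => B (-t) ω) P
  measW : ∀ A, Measurable (W A)
  gaussW : IsGaussianProcess W P
  meanW : ∀ A, ∫ ω, W A ω ∂P = 0
  covW : ∀ A A', cov[W A, W A'; P] = (volume (A.1 ∩ A'.1)).toReal
  indep : IndepFun (fun ω x => B x ω) (fun ω A => W A ω) P

/-- The data known at time `t`: all of `B`, and the noise on test sets before time `t`. -/
def pastMap (B : ℝ → Ω → ℝ) (W : Test → Ω → ℝ) (t : ℝ) (ω : Ω) :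
    (ℝ → ℝ) × ({A : Test // A.1 ⊆ Iic t ×ˢ univ} → ℝ) :=
  (fun x => B x ω, fun A => W A.1 ω)

/-- The sigma-algebra `F_t` generated by `B` and the noise up to time `t`. -/
def past (B : ℝ → Ω → ℝ) (W : Test → Ω → ℝ) (t : ℝ) : MeasurableSpace Ω :=
  MeasurableSpace.comap (pastMap B W t) inferInstance

/-- An elementary process `X 1_R`: `R` a test set after time `a`, `X` square integrable and
`F_a`-measurable. -/
structure Elem (P : Measure Ω) (B : ℝ → Ω → ℝ) (W : Test → Ω → ℝ) where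
  a : ℝ
  R : Test
  X : Ω → ℝ
  after : R.1 ⊆ Ioi a ×ˢ univ
  meas : Measurable[past B W a] X
  sq : MemLp X 2 P

/-- A simple process: a finite sum of elementary processes. -/
structure Simple (P : Measure Ω) (B : ℝ → Ω → ℝ) (W : Test → Ω → ℝ) where
  n : ℕ
  e : Fin n → Elem P B W

/-- The simple process as a function of `(time, space)` and `ω`. -/
def Simple.proc {P : Measure Ω} {B : ℝ → Ω → ℝ} {W : Test → Ω → ℝ} (φ : Simple P B W)
    (q : ℝ × ℝ) (ω : Ω) : ℝ :=
  ∑ i, (φ.e i).X ω * (φ.e i).R.1.indicator (fun _ => (1 : ℝ)) q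

/-- The stochastic integral of a simple process: the sum of the `X W(R)`. -/
def Simple.int {P : Measure Ω} {B : ℝ → Ω → ℝ} {W : Test → Ω → ℝ} (φ : Simple P B W)
    (ω : Ω) : ℝ :=
  ∑ i, (φ.e i).X ω * W (φ.e i).R ω

/-- `I` is the Walsh integral of `Φ` against `W`: some simple processes tend to `Φ` in
`L^2(dr du dP)` and their integrals tend to `I` in `L^2(P)`. -/
def IsWalsh (P : Measure Ω) (B : ℝ → Ω → ℝ) (W : Test → Ω → ℝ) (Φ : ℝ × ℝ → Ω → ℝ)
    (I : Ω → ℝ) : Prop :=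
  ∃ φ : ℕ → Simple P B W,
    Tendsto (fun n => eLpNorm (fun p : (ℝ × ℝ) × Ω => (φ n).proc p.1 p.2 - Φ p.1 p.2) 2
      (volume.prod P)) atTop (𝓝 0) ∧
    Tendsto (fun n => eLpNorm (fun ω => (φ n).int ω - I ω) 2 P) atTop (𝓝 0)

/-- `Z` is a mild solution of the stochastic heat equation started from `exp B`: jointly measurable,
`E Z(t,x)^2 <= C exp (a |x|)` on bounded time intervals, and the mild equation holds with the Walsh
integral. -/
structure IsMild (P : Measure Ω) (B : ℝ → Ω → ℝ) (W : Test → Ω → ℝ) (Z : ℝ → ℝ → Ω → ℝ) :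
    Prop where
  meas : Measurable fun p : (ℝ × ℝ) × Ω => Z p.1.1 p.1.2 p.2
  sq : ∀ t, 0 < t → ∀ x, MemLp (Z t x) 2 P
  bound : ∀ T : ℝ, ∃ C a : ℝ, ∀ t, 0 < t → t ≤ T → ∀ x,
    ∫ ω, Z t x ω ^ 2 ∂P ≤ C * Real.exp (a * |x|)
  eqn : ∀ t, 0 < t → ∀ x, IsWalsh P B W
    (fun q ω => if 0 < q.1 ∧ q.1 < t then heat (t - q.1) (x - q.2) * Z q.1 q.2 ω else 0)
    (fun ω => Z t x ω - ∫ u, heat t (x - u) * Real.exp (B u ω))

/-- The Cole-Hopf solution `H = log Z`. -/
def coleHopf (Z : ℝ → ℝ → Ω → ℝ) (t x : ℝ) (ω : Ω) : ℝ := Real.log (Z t x ω)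

end

end Pool.Agent.K6329
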